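import Mathlib
import Pool.Agent.Lib.MP_22c8c7_co.Defs

/-!
# MP_22c8c7_co: `R(C_n; 3) ≤ 4 n - 3` for all odd `n ≥ 10^46`

Complete paper proof: note 2564 (helper40). Everything is inside a fixed vertex type `V : Type`;
`r` is a symmetric irreflexive relation (one colour), `dg`, `ds` (degree sum = twice the number of
edges), `PathIn`, `CycIn`, `Cyc`, `wt` as in `Pool.Agent.Lib.MP_22c8c7_co.Defs`.

Every task proves ONE statement `XStmt` (hypotheses: the statements named in the task). The proofs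
are in the docstrings.
-/

set_option autoImplicit false

namespace Pool.Agent.Lib.MP_22c8c7_co.Odd

open Finset
open scoped Classical

/-! ## Definitions -/

/-- The number of ordered adjacent pairs `(a, b)`, `a ∈ X`, `b ∈ Z`. -/
noncomputable def ee {V : Type} (r : V → V → Prop) (X Z : Finset V) : ℕ := ∑ v ∈ X, dg r Z v

/-- `P` is `D`-expanding. -/
def Exp {V : Type} (r : V → V → Prop) (P : Finset V) (D : ℕ) : Prop :=
  ∀ X ⊆ P, 2 * X.card ≤ P.card → D * X.card ≤ ee r X (P \ X)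

/-- The graph on `P` is bipartite. -/
def Bip {V : Type} (r : V → V → Prop) (P : Finset V) : Prop :=
  ∃ g : V → Bool, ∀ a ∈ P, ∀ b ∈ P, r a b → g a ≠ g b

/-- `w 0, ..., w k` is a walk in `P` with `k` steps. -/
def WalkIn {V : Type} (r : V → V → Prop) (P : Finset V) (w : ℕ → V) (k : ℕ) : Prop :=
  (∀ i, i ≤ k → w i ∈ P) ∧ (∀ i, i < k → r (w i) (w (i + 1)))

/-- (L) of the note: the light pieces. -/
def Piece {V : Type} (r : V → V → Prop) (n : ℕ) (P : Finset V) (E : ℝ) : Prop :=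
  ∃ C ⊆ P, C.card ≤ n ∧ ∀ S ⊆ P, (ds r S : ℝ) ≤
    ds r (S ∩ C) + ((S \ C).card : ℝ) * min (2 * ((S ∩ C).card : ℝ)) n + E

/-- The small constant. -/
noncomputable def eta : ℝ := 1 / 10 ^ 6

/-- The class of `t` for the partition `π`. -/
noncomputable def cl {V : Type} (S0 : Finset V) (π : V → ℕ) (t : ℕ) : Finset V :=
  S0.filter (fun v => π v = t)

/-- The number of ordered adjacent pairs of `S0` in different classes. -/
noncomputable def crossN {V : Type} (r : V → V → Prop) (S0 : Finset V) (π : V → ℕ) : ℕ :=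
  ∑ a ∈ S0, (S0.filter (fun b => π b ≠ π a ∧ r a b)).card

/-- A partition into bipartite classes and light pieces. -/
structure Part {V : Type} (n : ℕ) (r : V → V → Prop) (S0 : Finset V) (π : V → ℕ) (E : ℕ → ℝ) :
    Prop where
  cross : (crossN r S0 π : ℝ) ≤ eta ^ 2 / 10 * (n : ℝ) ^ 2
  cls : ∀ t, Bip r (cl S0 π t) ∨ Piece r n (cl S0 π t) (E t)
  pos : ∀ t, 0 ≤ E t
  tot : ∑ t ∈ S0.image π, E t ≤ (eta - eta ^ 2 / 10) * (n : ℝ) ^ 2

/-- Two statuses (`0`, `1` = the two sides, `2` = light) that separated vertices have. -/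
def Sep (s t : Fin 3) : Prop := (s = 0 ∧ t = 1) ∨ (s = 1 ∧ t = 0)

/-- Two statuses between which the colour is allowed. -/
def Ok (s t : Fin 3) : Prop := Sep s t ∨ (s = 2 ∧ t = 2)

/-- The status function of one colour. -/
structure Col {V : Type} (n : ℕ) (r : V → V → Prop) (S0 : Finset V) (f : V → Fin 3) : Prop where
  bad : ((∑ a ∈ S0, (S0.filter (fun b => r a b ∧ ¬ Ok (f a) (f b))).card : ℕ) : ℝ) ≤
    eta ^ 2 / 10 * (n : ℝ) ^ 2
  light : ∀ S ⊆ S0, (∀ v ∈ S, f v = 2) → (ds r S : ℝ) ≤ n * S.card + eta * (n : ℝ) ^ 2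
  stab : ∀ S ⊆ S0, (∀ v ∈ S, f v = 2) → n ≤ S.card →
    (n : ℝ) * S.card ≤ ds r S + 2000 * eta * (n : ℝ) ^ 2 →
    ∃ Q ⊆ S, (1 - 20000 * eta) * n ≤ Q.card ∧ Q.card ≤ n ∧
      (Q.card : ℝ) ^ 2 ≤ ds r Q + 2001 * eta * (n : ℝ) ^ 2

/-- The graph of the colour `i`. -/
def rel {V : Type} (c : V → V → Fin 3) (i : Fin 3) (a b : V) : Prop := a ≠ b ∧ c a b = i

/-- The situation after the status functions have been found. -/
structure Ctx {V : Type} (n : ℕ) (S0 : Finset V) (c : V → V → Fin 3) (f : Fin 3 → V → Fin 3) :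
    Prop where
  symm : ∀ a b, c a b = c b a
  odd : n % 2 = 1
  big : 10 ^ 8 ≤ n
  card : S0.card + 3 = 4 * n
  col : ∀ i, Col n (rel c i) S0 (f i)

/-- The number of ordered pairs of `S` separated by no colour. -/
noncomputable def nsep {V : Type} (f : Fin 3 → V → Fin 3) (S : Finset V) : ℕ :=
  ((S ×ˢ S).filter (fun p => ∀ i, ¬ Sep (f i p.1) (f i p.2))).card

/-- The vertices of `S` with status `s` in colour `i`. -/
noncomputable def st {V : Type} (f : Fin 3 → V → Fin 3) (S : Finset V) (i s : Fin 3) : Finset V :=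
  S.filter (fun v => f i v = s)

/-- Every two vertices (also equal ones) of `S` are compatible. -/
def Compat {V : Type} (f : Fin 3 → V → Fin 3) (S : Finset V) : Prop :=
  ∀ u ∈ S, ∀ v ∈ S, ∃ i, Ok (f i u) (f i v)

/-- The hypotheses of part (C): `S` is the set `V'` of the note. -/
structure Big {V : Type} (n : ℕ) (S0 : Finset V) (c : V → V → Fin 3) (f : Fin 3 → V → Fin 3)
    (S : Finset V) : Prop where
  ctx : Ctx n S0 c f
  sub : S ⊆ S0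
  card : (4 - 28 * eta) * n ≤ S.card
  compat : Compat f S

/-- `(U, W)` is nearly complete bipartite. -/
def NCP {V : Type} (r : V → V → Prop) (n : ℕ) (U W : Finset V) : Prop :=
  (∀ u ∈ U, 10 * (W.filter (fun w => ¬ r u w)).card ≤ n) ∧
    (∀ w ∈ W, 10 * (U.filter (fun u => ¬ r w u)).card ≤ n)

/-- `Q` is a near-clique. -/
def NCl {V : Type} (r : V → V → Prop) (n : ℕ) (Q : Finset V) : Prop :=
  ∀ v ∈ Q, 10 * (Q.filter (fun u => ¬ r v u)).card ≤ n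

/-- Four large pairwise disjoint sets; `Q a b`: side `a`, index `b`. -/
structure Four {V : Type} (n : ℕ) (S0 : Finset V) (Q : Fin 2 → Fin 2 → Finset V) : Prop where
  sub : ∀ a b, Q a b ⊆ S0
  disj : ∀ a b a' b', (a, b) ≠ (a', b') → Disjoint (Q a b) (Q a' b')
  big : ∀ a b, 9 * n ≤ 10 * (Q a b).card

/-- Structure EX1: all four cliques have the same colour `i`. -/
structure EX1 {V : Type} (n : ℕ) (S0 : Finset V) (c : V → V → Fin 3) (i j k : Fin 3)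
    (Q : Fin 2 → Fin 2 → Finset V) : Prop where
  four : Four n S0 Q
  clique : ∀ a b, NCl (rel c i) n (Q a b)
  hj : ∀ a, NCP (rel c j) n (Q a 0) (Q a 1)
  hk : ∀ b, NCP (rel c k) n (Q 0 b) (Q 1 b)
  diag : ∀ b, ∃ z ∈ Q 0 b, ∃ z' ∈ Q 1 (1 - b), c z z' ≠ i

/-- Structure EX3: the cliques of side `0` have colour `i`, those of side `1` colour `j`. -/
structure EX3 {V : Type} (n : ℕ) (S0 : Finset V) (c : V → V → Fin 3) (i j k : Fin 3)
    (Q : Fin 2 → Fin 2 → Finset V) : Prop where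
  four : Four n S0 Q
  clique0 : ∀ b, NCl (rel c i) n (Q 0 b)
  clique1 : ∀ b, NCl (rel c j) n (Q 1 b)
  cross0 : NCP (rel c j) n (Q 0 0) (Q 0 1)
  cross1 : NCP (rel c i) n (Q 1 0) (Q 1 1)
  hk : ∀ b b', NCP (rel c k) n (Q 0 b) (Q 1 b')

/-! ## Part (A), (B): one colour -/

/-- CUT-DENSE PARTITION.

PROOF. Strong induction on `S` (generalise `γ` fixed). If for every `X ⊆ S` we have
`γ |X| |S \ X| ≤ ee r X (S \ X)`, take `π = 0`: crossing is 0, the class of `0` is `S`, the other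
classes are empty (both sides are 0). Otherwise some `X ⊆ S` has
`ee r X (S \ X) < γ |X| |S \ X|`, so `X` and `S \ X` are nonempty (otherwise the right side is 0),
hence both are proper subsets; take `π₁`, `π₂` for them and `π v = 2 π₁ v` for `v ∈ X`,
`π v = 2 π₂ v + 1` for `v ∉ X`. The classes of `S` for `π` are the classes of `X` for `π₁` (even
`t`) and of `S \ X` for `π₂` (odd `t`), and
`crossN S = crossN X + crossN (S \ X) + 2 ee r X (S \ X)` (`r` symmetric, double counting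
`count_double` in `Lib/MP_22c8c7_co/Count`), at most
`γ (|X|² + |S \ X|² + 2 |X| |S \ X|) = γ |S|²`. -/
def CutStmt : Prop := ∀ (V : Type) (r : V → V → Prop), (∀ a b, r a b → r b a) →
  ∀ (γ : ℝ), 0 ≤ γ → ∀ S : Finset V, ∃ π : V → ℕ,
    (crossN r S π : ℝ) ≤ γ * (S.card : ℝ) ^ 2 ∧
    ∀ t : ℕ, ∀ X ⊆ cl S π t,
      γ * (X.card : ℝ) * (((cl S π t) \ X).card : ℝ) ≤ (ee r X ((cl S π t) \ X) : ℝ)

/-- EXPANSION of neighbourhoods.

PROOF. Let `N` be the set on the right. `D |B| ≤ ee r B (P \ B) = ∑_{v ∈ B} dg r (P \ B) v` and the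
neighbours of `v ∈ B` in `P \ B` lie in `N`, so this is `≤ |B| |N|`; divide by `|B| > 0`. Second
part: `X = {v}`, `D ≤ dg r (P \ {v}) v ≤ dg r P v`. -/
def NbrStmt : Prop := ∀ (V : Type) (r : V → V → Prop) (P : Finset V) (D : ℕ), Exp r P D →
  (∀ B ⊆ P, B.Nonempty → 2 * B.card ≤ P.card →
    D ≤ ((P \ B).filter (fun u => ∃ v ∈ B, r v u)).card) ∧
  (2 ≤ P.card → ∀ v ∈ P, D ≤ dg r P v)

/-- A walk contains a path.

PROOF. Take a walk in `P` from `w 0` to `w k` with the minimal number `k' ≤ k` of steps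
(`Nat.find`), `k' ≥ 1` since the ends are different. If `w' i = w' j`, `i < j ≤ k'`, then
`t ↦ if t ≤ i then w' t else w' (t + (j - i))` is a walk with `k' - (j - i)` steps and the same
ends. So the minimal walk is injective on `{0, ..., k'}`: a path with `k' + 1` vertices. -/
def WalkPathStmt : Prop := ∀ (V : Type) (r : V → V → Prop) (P : Finset V) (w : ℕ → V) (k : ℕ),
  WalkIn r P w k → w 0 ≠ w k →
  ∃ z k', PathIn r P z k' ∧ z 0 = w 0 ∧ z (k' - 1) = w k ∧ 2 ≤ k' ∧ k' ≤ k + 1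

/-- An odd closed walk contains an odd cycle.

PROOF. Take the minimal odd `k' ≤ k` such that a closed walk with `k'` steps exists in `P`.
`k' ≠ 1` (`r` is irreflexive), so `3 ≤ k'`. If `w' i = w' j` with `i < j < k'`: the closed walks
`w' i, ..., w' j` (`j - i` steps) and `w' 0, ..., w' i, w' (j+1), ..., w' k'` (`k' - (j - i)` steps)
are both shorter than `k'` and one of them has an odd number of steps, contradiction. So
`w' 0, ..., w' (k' - 1)` are distinct. -/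
def OddClosedStmt : Prop := ∀ (V : Type) (r : V → V → Prop), (∀ a, ¬ r a a) →
  ∀ (P : Finset V) (w : ℕ → V) (k : ℕ), WalkIn r P w k → w k = w 0 → k % 2 = 1 →
  ∃ c k', CycIn r P c k' ∧ k' % 2 = 1 ∧ 3 ≤ k' ∧ k' ≤ k

/-- SHORT PATHS avoiding a small set.

PROOF (uses `NbrStmt`, `WalkPathStmt`). For `a ∈ P \ F` let `B_j(a)` be the set of the vertices of
`P \ F` that are ends of walks in `P \ F` from `a` with at most `j` steps; `a ∈ B_j(a)`,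
`B_j(a) ⊆ B_(j+1)(a)`. If `2 |B_j(a)| ≤ |P|` then `P \ B_j(a)` contains at least `2 h` vertices with
a neighbour in `B_j(a)`, at least `h` of them are not in `F` and belong to `B_(j+1)(a)`; so
`|B_(j+1)(a)| ≥ |B_j(a)| + h`. Hence by induction `2 |B_j(a)| > |P|` or `|B_j(a)| ≥ 1 + j h`. Let
`J = |P| / (2 h) + 1` (natural division): `2 (1 + J h) > |P|`, so `2 |B_J(a)| > |P|` in both cases,
the same for `b`. So `B_J(a)` and `B_J(b)` have a common vertex, and (`r` symmetric) there is a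
walk in `P \ F` from `a` to `b` with at most `2 J` steps; `WalkPathStmt` gives a path with
`k ≤ 2 J + 1` vertices, `k h ≤ (|P| / (2 h)) * 2 h + 3 h ≤ |P| + 3 h`. -/
def BallStmt : Prop := ∀ (V : Type) (r : V → V → Prop), (∀ a b, r a b → r b a) →
  ∀ (P : Finset V) (h : ℕ), 1 ≤ h → Exp r P (2 * h) → ∀ F ⊆ P, F.card ≤ h →
  ∀ a ∈ P \ F, ∀ b ∈ P \ F, a ≠ b →
  ∃ z k, PathIn r (P \ F) z k ∧ z 0 = a ∧ z (k - 1) = b ∧ 2 ≤ k ∧ k * h ≤ P.card + 3 * h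

/-- A SHORT ODD CYCLE.

PROOF (uses `BallStmt`, `OddClosedStmt`). `P` is not bipartite, so it has a vertex `a`. For every
`v ∈ P` there is a walk in `P` from `a` to `v` with `k` steps, `k h ≤ |P| + 2 h` (`BallStmt` with
`F = ∅`, a path with `k + 1` vertices; `k = 0` for `v = a`). Let `d v` be the minimal number of
steps of such a walk, `g v = decide (d v % 2 = 0)`. Since `P` is not bipartite there are adjacent
`u, v ∈ P` with `d u ≡ d v (mod 2)`. The closed walk `a → u → v → a` has `d u + 1 + d v` steps, an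
odd number (`r` symmetric), and `(d u + 1 + d v) h ≤ 2 |P| + 5 h`. `OddClosedStmt`. -/
def ShortOddStmt : Prop := ∀ (V : Type) (r : V → V → Prop), (∀ a b, r a b → r b a) →
  (∀ a, ¬ r a a) → ∀ (P : Finset V) (h : ℕ), 1 ≤ h → Exp r P (2 * h) → ¬ Bip r P →
  ∃ c k, CycIn r P c k ∧ k % 2 = 1 ∧ 3 ≤ k ∧ k * h ≤ 2 * P.card + 5 * h

/-- A greedy path avoiding `F`.

PROOF. Induction on `K`: the last vertex has at least `|F| + K` neighbours in `P`, at most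
`|F| + (K - 1)` of them are in `F` or already used. -/
def GreedyStmt : Prop := ∀ (V : Type) (r : V → V → Prop) (P F : Finset V) (K : ℕ), 1 ≤ K →
  (∀ v ∈ P, F.card + K ≤ dg r P v) → ∀ x ∈ P,
  ∃ z, PathIn r P z K ∧ z 0 = x ∧ ∀ i, 1 ≤ i → i < K → z i ∉ F

/-- A LONG ODD CYCLE, of moderate length.

PROOF (uses `ShortOddStmt`, `BallStmt`, `GreedyStmt`, `NbrStmt`). `ShortOddStmt`: an odd cycle
`c 0, ..., c (k0 - 1)`, `k0 h ≤ 2 |P| + 5 h ≤ 2 ℓ h` so `k0 ≤ 2 ℓ`. `x = c 0`, `y = c 1`,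
`C0 = {c 0, ..., c (k0-1)}`. `|P| ≥ k0 ≥ 3`, so all degrees in `P` are `≥ 2 h ≥ k0 + K` (`NbrStmt`).
`GreedyStmt` with `F = C0` gives a path `p 0 = x, p 1, ..., p (K-1)` with `p i ∉ C0` for `i ≥ 1`.
`BallStmt` with `F = (C0 ∪ {p 0, ..., p (K-1)}) \ {p (K-1), y}` (at most `k0 + K ≤ h` elements),
from `p (K-1)` to `y` (different since `p (K-1) ∉ C0`, `K ≥ 2`): a path with `k2` vertices,
`2 ≤ k2 ≤ ℓ`. Together: a path `q` from `x` to `y` with `q' = K + k2 - 1` vertices, meeting `C0`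
only in `x` and `y` (the inner vertices of the second path are not in `F ∪ {p (K-1), y}`). If `q'`
is odd the path `q` together with the edge `y x` is an odd cycle with `q'` vertices. Otherwise add
the other arc `c 2, ..., c (k0-1)` from `y = c 1` to `x = c 0`: a cycle with `q' + (k0 - 2)`
vertices, an odd number. In both cases the number of vertices is between `K + 1` and
`K + ℓ - 1 + 2 ℓ`. -/
def LongOddStmt : Prop := ∀ (V : Type) (r : V → V → Prop), (∀ a b, r a b → r b a) →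
  (∀ a, ¬ r a a) → ∀ (P : Finset V) (h : ℕ), 1 ≤ h → Exp r P (2 * h) → ¬ Bip r P →
  ∀ ℓ K : ℕ, P.card + 3 * h ≤ ℓ * h → 2 ≤ K → K + 2 * ℓ + 2 ≤ h →
  ∃ c k, CycIn r P c k ∧ k % 2 = 1 ∧ K + 1 ≤ k ∧ k ≤ K + 3 * ℓ

/-- The longest odd cycle of length at most `n - 2` (copy `max_cyc` in `Lib/MP_22c8c7_co/MaxCyc`,
`Nat.findGreatest`). -/
def MaxOddStmt : Prop := ∀ (V : Type) (r : V → V → Prop) (S : Finset V) (n k : ℕ),
  n % 2 = 1 → k % 2 = 1 → k + 2 ≤ n → (∃ c, CycIn r S c k) → (∀ c, ¬ CycIn r S c n) →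
  ∃ m, m % 2 = 1 ∧ k ≤ m ∧ m + 2 ≤ n ∧ (∃ c, CycIn r S c m) ∧ ∀ c, ¬ CycIn r S c (m + 2)

/-- WEIGHTED ERDOS-GALLAI for odd `m`.

PROOF. `heavy_sum` of `Lib/MP_22c8c7_co/Heavy` is the same statement for even `m`; the only place
where the parity is used is `ftilde_path` (`FTilde`). For odd `m`: let `z 0, ..., z (k-1)` be a path
of the relation `FR r m x` (edges with an end of weight `≥ 2`) in `Y = S \ univ.image x`. If
`k ≤ m` use `path_weight` (`PathW`; `k ≤ m + 1`). If `k ≥ m + 1`: the first `m + 1` vertices form a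
path of weight at most `m` (`path_weight` with `k = m + 1`), but they contain the `(m + 1) / 2`
disjoint pairs `z (2 i), z (2 i + 1)` of weight at least 2 each, total `≥ m + 1`, contradiction.
Then `weg` as in `heavy_sum`. -/
def HeavyOddStmt : Prop := ∀ (V : Type) (r : V → V → Prop), (∀ a b, r a b → r b a) →
  (∀ a, ¬ r a a) → ∀ (S : Finset V) (m : ℕ) [NeZero m], 3 ≤ m → m % 2 = 1 →
  ∀ x : ZMod m → V, Cyc r S m x → (∀ c, ¬ CycIn r S c (m + 2)) →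
  ∑ y ∈ (S \ univ.image x).filter (fun y => 2 ≤ wt r m x y),
    wt r m x y * (dg r (S \ univ.image x) y + 1) ≤ m * (S \ univ.image x).card

/-- FEW VERTICES OF LARGE OUTER DEGREE. `Y = P \ C`, `C = univ.image x`.

PROOF (uses `HeavyOddStmt`, `NbrStmt`). `R = {y ∈ Y : h ≤ dg r Y y}`, `I = {y ∈ Y : dg r Y y < h}`.
`H := ∑_{y ∈ Y, wt y ≥ 2} wt y (dg r Y y + 1) ≤ m |Y| ≤ 4 n²`. For `y ∈ I`:
`wt y = dg r P y - dg r Y y` (`dg_exact` in `Split2`) `≥ 2 h - (h - 1) ≥ h` and `≥ 2`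
(`2 h - (h-1) = h + 1 ≥ 2`), so `h ∑_{y ∈ I} dg r Y y ≤ H ≤ 4 n²`: the second claim. For `y ∈ R`:
`h wt y ≤ wt y (dg r Y y + 1)` if `wt y ≥ 2` and `h wt y ≤ h` otherwise, so
`h ∑_{y ∈ R} wt y ≤ 4 n² + h |Y| ≤ 4 n² + 4 n h`. Now
`ee r R (P \ R) = ∑_{y ∈ R} wt y + ∑_{y ∈ R} dg r I y` and
`∑_{y ∈ R} dg r I y = ∑_{y ∈ I} dg r R y ≤ ∑_{y ∈ I} dg r Y y` (`count_double`), so
`h * ee r R (P \ R) ≤ 8 n² + 4 n h`. If `2 |R| ≤ |P|` then `Exp` for `X = R`: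
`2 h |R| ≤ ee r R (P \ R)`, `2 h² |R| ≤ 8 n² + 4 n h < 2 h² K`, `|R| < K`. Otherwise `Exp` for
`X = P \ R` (`P \ X = R`, `ee` is symmetric by `count_double`): `2 h² |P \ R| < 2 h² K`, but
`P \ R ⊇ C` has at least `m ≥ K + 1` elements, contradiction. -/
def SmallRStmt : Prop := ∀ (V : Type) (r : V → V → Prop), (∀ a b, r a b → r b a) →
  (∀ a, ¬ r a a) → ∀ (P : Finset V) (n h K m : ℕ) [NeZero m], 1 ≤ h → Exp r P (2 * h) →
  P.card ≤ 4 * n → 3 ≤ m → m % 2 = 1 → K + 1 ≤ m → m ≤ n →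
  8 * n ^ 2 + 4 * n * h < 2 * h ^ 2 * K →
  ∀ x : ZMod m → V, Cyc r P m x → (∀ c, ¬ CycIn r P c (m + 2)) →
  ((P \ univ.image x).filter (fun y => h ≤ dg r (P \ univ.image x) y)).card < K ∧
  h * ∑ y ∈ (P \ univ.image x).filter (fun y => dg r (P \ univ.image x) y < h),
    dg r (P \ univ.image x) y ≤ 4 * n ^ 2

/-- EDGES TO THE CYCLE.

PROOF. The theorem `Pool.Agent.Lib.MP_22c8c7_co.crossing` of `Lib/MP_22c8c7_co/Cross`: two different vertices of `P \ C` have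
`wt y + wt y' ≤ m + 1`. For every `y`: `dg r T y ≤ |T|` and (as `T ⊆ C`)
`dg r T y ≤ dg r C y = wt y` (`dg_image` in `Split2`). So `2 dg r T y ≤ min (2 |T|) (m + 1)` unless
`2 wt y > m + 1`, which is possible for at most one `y ∈ Z`, and for this one
`2 dg r T y ≤ 2 wt y ≤ 2 m`. -/
def CapStmt : Prop := ∀ (V : Type) (r : V → V → Prop), (∀ a b, r a b → r b a) →
  (∀ a, ¬ r a a) → ∀ (P : Finset V) (m : ℕ) [NeZero m], 3 ≤ m →
  ∀ x : ZMod m → V, Cyc r P m x → (∀ c, ¬ CycIn r P c (m + 2)) →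
  ∀ T ⊆ univ.image x, ∀ Z ⊆ P \ univ.image x,
  2 * ∑ y ∈ Z, dg r T y ≤ Z.card * min (2 * T.card) (m + 1) + 2 * m

/-- COUNTING.

PROOF. `S` is the disjoint union of `S ∩ C`, `I = (S \ C) \ R` and `S' = (S \ C) ∩ R`. `ds r S` is
the sum of `dg r S v = dg r (S ∩ C) v + dg r I v + dg r S' v`. `v ∈ S ∩ C`: total
`ds r (S ∩ C) + ee (S ∩ C) I + ee (S ∩ C) S'`; `v ∈ I`: `ee I (S ∩ C) + ∑_{I} dg r (S \ C)`;
`v ∈ S'`: at most `|R| |S|`. `ee (S ∩ C) I = ee I (S ∩ C)` and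
`ee (S ∩ C) S' = ee S' (S ∩ C) ≤ |R| |S|` (`count_double`). -/
def SplitStmt : Prop := ∀ (V : Type) (r : V → V → Prop), (∀ a b, r a b → r b a) →
  ∀ S C R : Finset V,
  ds r S ≤ ds r (S ∩ C) + 2 * ∑ y ∈ (S \ C) \ R, dg r (S ∩ C) y +
    ∑ y ∈ (S \ C) \ R, dg r (S \ C) y + 2 * (R.card * S.card)

/-- NON-BIPARTITE CLASSES ARE LIGHT.

PROOF (uses `LongOddStmt`, `MaxOddStmt`, `SmallRStmt`, `CapStmt`, `SplitStmt`). `LongOddStmt` gives
an odd cycle with `k0` vertices, `K + 1 ≤ k0 ≤ K + 3 ℓ ≤ n - 2`; `MaxOddStmt` gives `m` odd,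
`K + 1 ≤ m ≤ n - 2`, with a cycle `x : ZMod m → V` (`cyc_of_cycIn`) and no `C_(m+2)`.
`C = univ.image x` (`|C| = m ≤ n`), `Y = P \ C`, `R = {y ∈ Y : h ≤ dg r Y y}`, `|R| < K`. For
`S ⊆ P` apply `SplitStmt`: `(S \ C) \ R ⊆ {y ∈ Y : dg r Y y < h}`, and `dg r (S \ C) y ≤ dg r Y y`,
so the third term is at most `4 n² / h`; the fourth is at most `2 K 4 n`; `CapStmt` with
`T = S ∩ C`, `Z = (S \ C) \ R` bounds the second term by
`|S \ C| min (2 |S ∩ C|) (m + 1) + 2 m`, `m + 1 ≤ n`. -/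
def PieceStmt : Prop := ∀ (V : Type) (r : V → V → Prop), (∀ a b, r a b → r b a) →
  (∀ a, ¬ r a a) → ∀ (P : Finset V) (n h K ℓ : ℕ), n % 2 = 1 → 1 ≤ h → Exp r P (2 * h) →
  P.card ≤ 4 * n → ¬ Bip r P → (∀ c, ¬ CycIn r P c n) →
  P.card + 3 * h ≤ ℓ * h → 2 ≤ K → K + 2 * ℓ + 2 ≤ h → K + 3 * ℓ + 2 ≤ n →
  8 * n ^ 2 + 4 * n * h < 2 * h ^ 2 * K →
  Piece r n P (2 * (n : ℝ) + 4 * (n : ℝ) ^ 2 / h + 8 * (n : ℝ) * K)

/-- THE PARAMETERS.

PROOF. `g = eta² / 160 = 1 / (1.6 10^14)`. `h = ⌊g n / 4⌋₊`, so `g n / 5 ≤ h` (as `g n / 20 ≥ 1`).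
`ℓ = ⌈4 n / h⌉₊ + 3 ≤ 20 / g + 4`. `K = ⌊100 / g² + 10 / g⌋₊ + 2 ≤ 101 / g²`; `K > 4 n² / h² + 2 n / h`
because `n / h ≤ 5 / g`. `K + 2 ℓ + 2 ≤ 101 / g² + 40 / g + 10 ≤ 102 / g² ≤ g n / 5` because
`n ≥ 10^46 ≥ 510 / g³ = 2.09 10^45`. `K + 3 ℓ + 2 ≤ 103 / g² ≤ n`. Last:
`4 (2 n + 4 n² / h + 8 n K) ≤ 4 n (2 + 20 / g + 808 / g²) ≤ 3300 n / g² ≤ (eta / 2) n²` since
`n ≥ 6600 / (g² eta) = 1.7 10^38`. -/
def NumStmt : Prop := ∀ n : ℕ, 10 ^ 46 ≤ n → ∃ h ℓ K : ℕ, 1 ≤ h ∧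
  (2 * h : ℝ) ≤ eta ^ 2 / 160 * n / 2 ∧ 4 * n + 3 * h ≤ ℓ * h ∧ 2 ≤ K ∧ K + 2 * ℓ + 2 ≤ h ∧
  K + 3 * ℓ + 2 ≤ n ∧ 8 * n ^ 2 + 4 * n * h < 2 * h ^ 2 * K ∧
  4 * (2 * (n : ℝ) + 4 * (n : ℝ) ^ 2 / h + 8 * (n : ℝ) * K) ≤ (eta - eta ^ 2 / 10) * (n : ℝ) ^ 2

/-- THE PARTITION OF ONE COLOUR.

PROOF (uses `CutStmt`, `PieceStmt`, `NumStmt`). `CutStmt` with `γ = eta² / 160`: crossing is at most
`γ |S0|² ≤ 16 γ n² = eta² / 10 n²`. Let `E t = E0 = 2 n + 4 n² / h + 8 n K` if `|cl t| ≥ n`, `0`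
otherwise. There are at most 4 classes with at least `n` elements (`|S0| ≤ 4 n`, the classes are
disjoint, `n > 0`), so `tot` follows from `NumStmt`. Let `P = cl t`, not bipartite. If `|P| < n`:
`Piece` with `C = P`, `E = 0`: `S ∩ C = S`. If `|P| ≥ n`: `Exp r P (2 h)`, because for `2 |X| ≤ |P|`
we have `|P \ X| ≥ |P| / 2 ≥ n / 2`, `ee r X (P \ X) ≥ γ |X| n / 2 ≥ 2 h |X|`. `PieceStmt`. -/
def PartStmt : Prop := ∀ (V : Type) (r : V → V → Prop), (∀ a b, r a b → r b a) →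
  (∀ a, ¬ r a a) → ∀ (S0 : Finset V) (n : ℕ), n % 2 = 1 → 10 ^ 46 ≤ n → S0.card ≤ 4 * n →
  (∀ c, ¬ CycIn r S0 c n) → ∃ π E, Part n r S0 π E

/-- SUM OVER THE CLASSES.

PROOF. `dg r S a = #{b ∈ S : π b ≠ π a, r a b} + dg r (cl S π (π a)) a`; sum over `a ∈ S` and group
the second sum by the classes. -/
def SumClStmt : Prop := ∀ (V : Type) (r : V → V → Prop) (S0 S : Finset V) (π : V → ℕ), S ⊆ S0 →
  ds r S ≤ crossN r S0 π + ∑ t ∈ S0.image π, ds r (cl S π t)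

/-- NUMERICAL PART OF THE STABILITY.

PROOF. All terms of the two sums in `h3` are `≥ 0` (`n c - d ≥ c (n - c) ≥ 0` as `d ≤ c²`). Suppose
that no `t` has `c t ≥ (1 - 20000 eta) n = 0.98 n`. Then `n c t - d t ≥ c t (n - c t) ≥ 0.02 n c t`,
so `∑ c t ≤ 2001 eta n² / (0.02 n) = 0.10005 n`; in particular `c t ≤ 0.101 n`,
`n - min (2 c t) n ≥ 0.79 n`, `∑ b t ≤ 2001 eta n / 0.79 ≤ 0.003 n`. So `∑ (c t + b t) < n`,
contradiction. For the `t` found: `n c t - d t ≤ 2001 eta n²` and `c t² ≤ n c t`. -/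
def StabNumStmt : Prop := ∀ (T : Finset ℕ) (c b d : ℕ → ℝ) (n : ℝ), 0 < n →
  (∀ t ∈ T, 0 ≤ c t ∧ c t ≤ n ∧ 0 ≤ b t ∧ d t ≤ c t ^ 2) →
  n ≤ ∑ t ∈ T, (c t + b t) →
  ∑ t ∈ T, (n * c t - d t) + ∑ t ∈ T, b t * (n - min (2 * c t) n) ≤ 2001 * eta * n ^ 2 →
  ∃ t ∈ T, (1 - 20000 * eta) * n ≤ c t ∧ c t ^ 2 ≤ d t + 2001 * eta * n ^ 2

/-- THE STATUS FUNCTION.

PROOF (uses `SumClStmt`, `StabNumStmt`). For every `t` with `Bip r (cl t)` let `g t` be a proper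
2-colouring. `f v = 2` if `¬ Bip r (cl (π v))`, otherwise `f v = 0` or `1` according to
`g (π v) v`. `bad`: for `a, b ∈ S0` adjacent in the same class: both `f = 2`, or `f a ≠ f b` in
`{0, 1}`; so `Ok`. Hence the bad pairs are crossing pairs. Let `S ⊆ S0`, `f = 2` on `S`,
`S_t = cl S π t`, nonempty only if `cl S0 π t` is not bipartite, then `Piece` with `C_t`;
`c_t = |S_t ∩ C_t| ≤ n`, `b_t = |S_t \ C_t|`, `d_t = ds r (S_t ∩ C_t) ≤ c_t²` (for the other `t` all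
are 0, `C_t = ∅`). `SumClStmt`: `ds r S ≤ eta²/10 n² + ∑ (d_t + b_t min (2 c_t) n + E t)`, and
`∑ E t ≤ (eta - eta²/10) n²`. `light`: `d_t ≤ n c_t`, `min ≤ n`, `∑ (c_t + b_t) = |S|`. `stab`:
`n |S| - ds r S ≤ 2000 eta n²` gives the hypothesis of `StabNumStmt`; `Q = S_t ∩ C_t`. -/
def ColStmt : Prop := ∀ (V : Type) (r : V → V → Prop) (S0 : Finset V) (n : ℕ) (π : V → ℕ)
  (E : ℕ → ℝ), (∀ a, ¬ r a a) → 1 ≤ n → Part n r S0 π E → ∃ f, Col n r S0 f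

/-! ## Part (C): one colour is almost bipartite -/

/-- DELETING THE SMALL CELLS.

PROOF. The cell of `v ∈ S0` is `{u ∈ S0 : ∀ i, f i u = f i v}`; `S` = the vertices whose cell has
more than `eta n` elements. The other vertices lie in at most 27 cells with at most `eta n` elements
each: `|S| ≥ 4 n - 3 - 27 eta n ≥ (4 - 28 eta) n` (`eta n ≥ 100`). Suppose `u, v ∈ S` are not
compatible. For all `u'` in the cell `X` of `u`, `v'` in the cell `X'` of `v`, `u' ≠ v'`, the pair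
is bad for the colour `i = c u' v'`. If the cells are different they are disjoint and this gives
`|X| |X'| > eta² n²` ordered bad pairs; if they are equal `|X|² - |X| ≥ |X|² / 2 > eta² n² / 2`.
But the three colours have together at most `3 eta² / 10 n²` bad pairs. -/
def CompatStmt : Prop := ∀ (V : Type) (n : ℕ) (S0 : Finset V) (c : V → V → Fin 3)
  (f : Fin 3 → V → Fin 3), Ctx n S0 c f → ∃ S, Big n S0 c f S

/-- THE COUNT (*).

PROOF. Split the pairs `(a, b) ∈ S × S` counted by `nsep`: `a = b`: `|S| ≤ 4 n`. `a ≠ b`, colour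
`i = c a b`: either `¬ Ok (f i a) (f i b)` (at most `eta² / 10 n²` for every `i`) or `Ok` and not
`Sep`, that is `f i a = f i b = 2`, the pair is counted by `ds (rel c i) (st f S i 2)`, which is at
most `n |st f S i 2| + eta n²` (`light`). Total error
`4 n + 3 eta² / 10 n² + 3 eta n² ≤ 4 eta n²` (`n ≥ 10^8`). -/
def CountStmt : Prop := ∀ (V : Type) (n : ℕ) (S0 : Finset V) (c : V → V → Fin 3)
  (f : Fin 3 → V → Fin 3), Ctx n S0 c f → ∀ S ⊆ S0,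
  (nsep f S : ℝ) ≤ n * ((st f S 0 2).card + (st f S 1 2).card + (st f S 2 2).card) +
    4 * eta * (n : ℝ) ^ 2

/-- THE UNION BOUND.

PROOF. The pairs separated by colour `i` are `(A_i × B_i) ∪ (B_i × A_i)`. -/
def UnionStmt : Prop := ∀ (V : Type) (f : Fin 3 → V → Fin 3) (S : Finset V),
  S.card ^ 2 ≤ nsep f S + 2 * ((st f S 0 0).card * (st f S 0 1).card +
    (st f S 1 0).card * (st f S 1 1).card + (st f S 2 0).card * (st f S 2 1).card)

/-- THE UNION BOUND WITH THE OVERLAP, if only the colours `i ≠ j` separate.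

PROOF. The pairs separated by both are those with statuses `(p, q)` and `(1 - p, 1 - q)` in
`(i, j)`: `2 (τ00 τ11 + τ01 τ10)` ordered pairs. Inclusion-exclusion for the two sets of pairs
separated by `i`, by `j` (the third colour separates nothing). -/
def OverlapStmt : Prop := ∀ (V : Type) (f : Fin 3 → V → Fin 3) (S : Finset V) (i j k : Fin 3),
  i ≠ j → i ≠ k → j ≠ k → (∀ v ∈ S, f k v = 2) →
  S.card ^ 2 + 2 * ((st f (st f S i 0) j 0).card * (st f (st f S i 1) j 1).card +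
      (st f (st f S i 0) j 1).card * (st f (st f S i 1) j 0).card) ≤
    nsep f S + 2 * ((st f S i 0).card * (st f S i 1).card + (st f S j 0).card * (st f S j 1).card)

/-- CASE 0: every vertex has at most one status different from 2.

PROOF (uses `CountStmt`, `UnionStmt`). Divide everything by `n`: `s = |S| / n`,
`a_i, b_i = |st f S i 0| / n, |st f S i 1| / n`, `y_i = a_i + b_i`, `|st f S i 2| / n = s - y_i`.
`s² - 2 ∑ a_i b_i ≤ 3 s - ∑ y_i + 4 eta`. `4 - 28 eta ≤ s ≤ 4`, so `s² - 3 s ≥ 4 - 140 eta` and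
`∑ (y_i² / 2 - y_i) ≥ 4 - 144 eta` (`4 a b ≤ (a + b)²`). `∑ y_i ≤ s ≤ 4` (every vertex is counted at
most once). `M = max y_i`: `∑ y_i² ≤ M ∑ y_i`, so `(M / 2 - 1) ∑ y_i ≥ 4 - 144 eta`, so `M > 2` and
`4 (M / 2 - 1) ≥ 4 - 144 eta`, `M ≥ 4 - 72 eta`. -/
def Case0Stmt : Prop := ∀ (V : Type) (n : ℕ) (S0 : Finset V) (c : V → V → Fin 3)
  (f : Fin 3 → V → Fin 3) (S : Finset V), Big n S0 c f S →
  (∀ v ∈ S, ∀ i j : Fin 3, i ≠ j → f i v = 2 ∨ f j v = 2) →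
  ∃ k, (4 - 200 * eta) * n ≤ (((S.filter (fun v => f k v ≠ 2)).card : ℕ) : ℝ)

/-- CASE 2: there are vertices with light set `{i}` and `{j}`, none with `{k}`.

PROOF (uses `CountStmt`, `UnionStmt`). `T_i` = vertices of `S` with `f i = 2`, `f j ≠ 2`, `f k ≠ 2`,
`T_j` the same for `j`. COMPATIBILITY of `u ∈ T_i`, `v ∈ T_j`: colour `i`: `f i u = 2`, `f i v ≠ 2`:
not allowed, the same for `j`; so `Sep (f k u) (f k v)`. Hence `f k` is constant on `T_i` and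
constant on `T_j`. A vertex `w` with `f i w = f k w = 2`, `f j w ≠ 2` is incompatible with
`v ∈ T_j` (colour `i`: `2`, not `2`; `j`: not 2, `2`; `k`: `2`, not 2); the same for
`f j w = f k w = 2`, `f i w ≠ 2` and `u ∈ T_i`. Every vertex is compatible with itself: one of its
statuses is 2. So the vertices of `S` are of the types `T_i`, `T_j`, `{f i = f j = 2, f k ≠ 2}`,
all 2. So `{f i ≠ 2} = T_j`, `{f j ≠ 2} = T_i`. Notation as in CASE 0. `CountStmt` and `UnionStmt`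
for `T_i` (`f i = 2`; `f k` constant `≠ 2`, so no pair is separated by `k`; `y` = the normalised size
of `T_i`): `y² - 2 a b ≤ y + 4 eta`, where `a + b = y` are the two parts for colour `j`; so
`y² / 2 - y ≤ 4 eta`; the same for `T_j`. With `∑ (y_i² / 2 - y_i) ≥ 4 - 144 eta` for `S` we get
`y_k² / 2 - y_k ≥ 4 - 152 eta`, `(y_k - 4) (y_k + 2) ≥ - 304 eta`, `y_k ≥ 4 - 60 eta`. -/
def Case2Stmt : Prop := ∀ (V : Type) (n : ℕ) (S0 : Finset V) (c : V → V → Fin 3)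
  (f : Fin 3 → V → Fin 3) (S : Finset V), Big n S0 c f S → ∀ i j k : Fin 3,
  i ≠ j → i ≠ k → j ≠ k → (∃ u ∈ S, f i u = 2 ∧ f j u ≠ 2 ∧ f k u ≠ 2) →
  (∃ u ∈ S, f j u = 2 ∧ f i u ≠ 2 ∧ f k u ≠ 2) →
  (∀ u ∈ S, f k u = 2 → f i u = 2 ∨ f j u = 2) →
  (4 - 200 * eta) * n ≤ (((S.filter (fun v => f k v ≠ 2)).card : ℕ) : ℝ)

/-- CASE 3: there are vertices with light sets `{0}`, `{1}`, `{2}`: impossible.

PROOF (uses `CountStmt`, `UnionStmt`). As in CASE 2: no vertex has a light set with two elements, so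
`S = T_0 ∪ T_1 ∪ T_2 ∪ {all 2}`, and for `{i, j, k} = {0, 1, 2}` the set `{f i ≠ 2} = T_j ∪ T_k` and
`f i` is constant on `T_j`, constant on `T_k`, with opposite values: `a_i b_i = t_j t_k`
(normalised sizes). `s² - 3 s - 4 eta ≤ 2 ∑ a_i b_i - ∑ y_i`: with `T = t_0 + t_1 + t_2 ≤ s ≤ 4`:
`4 - 144 eta ≤ 2 (t_0 t_1 + t_0 t_2 + t_1 t_2) - 2 T ≤ 2 T² / 3 - 2 T = 2 T (T - 3) / 3 ≤ 8 / 3`,
contradiction. -/
def Case3Stmt : Prop := ∀ (V : Type) (n : ℕ) (S0 : Finset V) (c : V → V → Fin 3)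
  (f : Fin 3 → V → Fin 3) (S : Finset V), Big n S0 c f S →
  (∃ u ∈ S, f 0 u = 2 ∧ f 1 u ≠ 2 ∧ f 2 u ≠ 2) → (∃ u ∈ S, f 1 u = 2 ∧ f 0 u ≠ 2 ∧ f 2 u ≠ 2) →
  ¬ (∃ u ∈ S, f 2 u = 2 ∧ f 0 u ≠ 2 ∧ f 1 u ≠ 2)

/-- NUMERICAL PART OF CASE 1.

PROOF. Let `φ y = y² / 2 - y`. `2 a b ≤ (a + b)² / 2`. `P = τ00 τ11 + τ01 τ10` and
`(1 + 4 eta - τ) (1 + 4 eta - τ') ≥ 0` gives `τ τ' ≥ (1 + 4 eta) (τ + τ') - (1 + 4 eta)²`, so
`P ≥ T - 2 - 20 eta`, `T` = the sum of the four `τ`'s `≥ y1 + y2 - s`. From `h` (`s² - 3 s ≥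
4 - 140 eta` because `4 - 28 eta ≤ s ≤ 4`): `φ y1 + φ y2 - 2 P ≥ 4 - 144 eta`.
(a) `φ y1 + φ y2 ≥ 4 - 144 eta` (`P ≥ 0`). (b) with `ψ y = y² / 2 - 3 y`:
`ψ y1 + ψ y2 ≥ - 2 s - 184 eta ≥ - 8 - 184 eta`, that is
`(y1 - 2) (4 - y1) + (y2 - 2) (4 - y2) ≤ 368 eta`. If `y1 < 2` then `φ y1 ≤ 0`,
`(y2 - 4) (y2 + 2) ≥ - 288 eta`, `y2 ≥ 4 - 200 eta`; the same for `y2 < 2`. If both are `≥ 2` (and
`≤ s ≤ 4`) then both terms of (b) are `≥ 0`; if both `y`'s were `< 4 - 200 eta` then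
`y - 2 ≤ 368 eta / (4 - y)`: either `y ≤ 2 + 200 eta` or `(y - 2) (4 - y) > 368 eta`; so both are
`≤ 2 + 200 eta`, contradicting (a). -/
def Num1Stmt : Prop := ∀ s a1 b1 a2 b2 t00 t01 t10 t11 : ℝ, 4 - 28 * eta ≤ s → s ≤ 4 →
  0 ≤ a1 → 0 ≤ b1 → 0 ≤ a2 → 0 ≤ b2 → 0 ≤ t00 → 0 ≤ t01 → 0 ≤ t10 → 0 ≤ t11 →
  a1 + b1 ≤ s → a2 + b2 ≤ s → a1 + b1 + (a2 + b2) ≤ s + (t00 + t01 + t10 + t11) →
  t00 ≤ 1 + 4 * eta → t01 ≤ 1 + 4 * eta → t10 ≤ 1 + 4 * eta → t11 ≤ 1 + 4 * eta →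
  s ^ 2 + 2 * (t00 * t11 + t01 * t10) ≤
    s + (s - (a1 + b1)) + (s - (a2 + b2)) + 4 * eta + 2 * (a1 * b1 + a2 * b2) →
  4 - 200 * eta ≤ a1 + b1 ∨ 4 - 200 * eta ≤ a2 + b2

/-- CASE 1: there is a vertex with light set `{k}`, none with `{i}` or `{j}`.

PROOF (uses `CountStmt`, `OverlapStmt`, `Num1Stmt`). A vertex `w` with `f i w = f j w = 2`,
`f k w ≠ 2` is incompatible with the vertex `u` with light set `{k}` (`i`: `2`, not 2; `j` the same;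
`k`: not 2, `2`). Every vertex has a status 2 (compatible with itself). So `f k = 2` on `S`. For the
cells `τ_pq = {f i = p, f j = q} ⊆ S`, `p, q ∈ {0, 1}`: `nsep = |τ|²` (nothing separates), and
`CountStmt` gives `τ² ≤ τ + 4 eta` (normalised), so `τ ≤ 1 + 4 eta`. `OverlapStmt` and `CountStmt`
for `S` give the last hypothesis of `Num1Stmt` with `s = |S| / n`, `a1 = |st f S i 0| / n`, ...;
`y1 + y2 ≤ s + T` because `T` counts the vertices with both statuses `≠ 2`. -/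
def Case1Stmt : Prop := ∀ (V : Type) (n : ℕ) (S0 : Finset V) (c : V → V → Fin 3)
  (f : Fin 3 → V → Fin 3) (S : Finset V), Big n S0 c f S → ∀ i j k : Fin 3,
  i ≠ j → i ≠ k → j ≠ k → (∃ u ∈ S, f k u = 2 ∧ f i u ≠ 2 ∧ f j u ≠ 2) →
  (∀ u ∈ S, f i u = 2 → f j u = 2 ∨ f k u = 2) → (∀ u ∈ S, f j u = 2 → f i u = 2 ∨ f k u = 2) →
  (4 - 200 * eta) * n ≤ (((S.filter (fun v => f i v ≠ 2)).card : ℕ) : ℝ) ∨
  (4 - 200 * eta) * n ≤ (((S.filter (fun v => f j v ≠ 2)).card : ℕ) : ℝ)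

/-- ONE COLOUR IS ALMOST BIPARTITE.

PROOF (uses `Case0Stmt`, `Case1Stmt`, `Case2Stmt`, `Case3Stmt`). Every vertex of `S` has a status 2.
Which light sets `{0}`, `{1}`, `{2}` occur? none: `Case0Stmt` (every vertex has at least two statuses
2); one: `Case1Stmt`; two: `Case2Stmt`; three: `Case3Stmt`. -/
def OneStmt : Prop := ∀ (V : Type) (n : ℕ) (S0 : Finset V) (c : V → V → Fin 3)
  (f : Fin 3 → V → Fin 3) (S : Finset V), Big n S0 c f S →
  ∃ k, (4 - 200 * eta) * n ≤ (((S.filter (fun v => f k v ≠ 2)).card : ℕ) : ℝ)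

/-! ## Part (D): each side -/

/-- THE LIGHT COLOUR OF A SIDE.

PROOF. Let `i, j` be the two colours different from `k`. Every `v` in the side `{f k = a}` is
compatible with itself; colour `k` is not allowed (`a ≠ 2`), so `f i v = 2` or `f j v = 2`. If some
`u` of the side has `f i u ≠ 2` (so `f j u = 2`) and some `v` has `f j v ≠ 2` (so `f i v = 2`) then
`u`, `v` are not compatible (`i`: not 2, `2`; `j`: `2`, not 2; `k`: `a`, `a`). -/
def SideStmt : Prop := ∀ (V : Type) (f : Fin 3 → V → Fin 3) (S : Finset V), Compat f S →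
  ∀ k a : Fin 3, a ≠ 2 → ∃ i, i ≠ k ∧ ∀ v ∈ S, f k v = a → f i v = 2

/-- NUMERICAL PART OF THE SIDES.

PROOF. `r = p + q`, `α = x - r`. `2 p q ≤ r² / 2`, so `x² - r² / 2 ≤ 2 x - r + 4 eta`, that is
`x (x - 2) - r (r - 2) / 2 ≤ 4 eta`. (1) If `x ≥ 2` then `r (r - 2) ≤ x (x - 2)` (`0 ≤ r ≤ x`), so
`x (x - 2) ≤ 8 eta`, `x - 2 ≤ 4 eta`. (2) If `x ≥ 2 - 204 eta` then
`x (x - 2) ≥ - 204 eta (2 + 4 eta)`, so `r (2 - r) ≤ 8 eta + 816 eta + 1632 eta² ≤ 828 eta`; if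
`420 eta < r < 2 - 420 eta` then `r (2 - r) > 420 eta (2 - 420 eta) > 828 eta`. -/
def Num2Stmt : Prop := ∀ x p q : ℝ, 0 ≤ p → 0 ≤ q → p + q ≤ x →
  x ^ 2 - 2 * (p * q) ≤ x + (x - (p + q)) + 4 * eta →
  x ≤ 2 + 4 * eta ∧ (2 - 204 * eta ≤ x → p + q ≤ 420 * eta ∨ 2 - 420 * eta ≤ p + q)

/-- THE SIDES.

PROOF (uses `CountStmt`, `UnionStmt`, `Num2Stmt`). Let `X_a = st f S k a`, `a = 0, 1`,
`|X_0| + |X_1| ≥ (4 - 200 eta) n`. For the side `a` with the light colour `i` and the other colour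
`j`: `CountStmt` and `UnionStmt` for `X_a` (colour `i` separates nothing, `k` separates nothing, the
status in colour `k` is never 2): the hypothesis of `Num2Stmt` with `x = |X_a| / n`,
`p, q = |{f j = 0}| / n, |{f j = 1}| / n`. So `x ≤ 2 + 4 eta` for both sides (`i`, `j` exist by
`hi0`, `hi1`), hence `x ≥ 2 - 204 eta` for both, hence the alternative. If
`p + q ≥ 2 - 420 eta`: the cell `{f j = b} ⊆ X_a` has `nsep = |cell|²`, so `p² ≤ p + 4 eta`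
(`CountStmt`), `p ≤ 1 + 4 eta`, and the same for `q`; so `p, q ≥ 1 - 424 eta`. -/
def SidesStmt : Prop := ∀ (V : Type) (n : ℕ) (S0 : Finset V) (c : V → V → Fin 3)
  (f : Fin 3 → V → Fin 3) (S : Finset V), Big n S0 c f S → ∀ k : Fin 3,
  (4 - 200 * eta) * n ≤ (((S.filter (fun v => f k v ≠ 2)).card : ℕ) : ℝ) →
  ∀ i : Fin 3 → Fin 3, (∀ a, a ≠ 2 → i a ≠ k ∧ ∀ v ∈ S, f k v = a → f (i a) v = 2) →
  ∀ a j : Fin 3, a ≠ 2 → j ≠ k → j ≠ i a →
  ((st f S k a).card : ℝ) ≤ (2 + 4 * eta) * n ∧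
  ((2 - 624 * eta) * n ≤ (st f (st f S k a) j 2).card ∨
    ∀ b : Fin 3, b ≠ 2 → (1 - 424 * eta) * n ≤ (st f (st f S k a) j b).card)

/-- TWO LIGHT COLOURS ON A SIDE GIVE NEAR-CLIQUES OF BOTH COLOURS.

PROOF. Let `X` be the set, `x = |X| / n`. The pairs of `X` of colour `k` are bad for `k`
(`f k = a` on both, `a ≠ 2`): at most `eta² / 10 n²`. So
`ds (rel c i) X + ds (rel c j) X ≥ |X|² - |X| - eta² / 10 n²`. With `light` for `j`:
`ds (rel c i) X ≥ |X|² - |X| - n |X| - 1.1 eta n²`, so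
`n |X| - ds (rel c i) X ≤ |X| (2 n - |X|) + |X| + 1.1 eta n² ≤ 2000 eta n²`
(`2 n - |X| ≤ 624 eta n`, `|X| ≤ (2 + 4 eta) n`). `stab` for colour `i`. By symmetry for `j`. -/
def TwoLightStmt : Prop := ∀ (V : Type) (n : ℕ) (S0 : Finset V) (c : V → V → Fin 3)
  (f : Fin 3 → V → Fin 3), Ctx n S0 c f → ∀ i j k a : Fin 3, i ≠ j → i ≠ k → j ≠ k → a ≠ 2 →
  ∀ X ⊆ S0, (∀ v ∈ X, f i v = 2 ∧ f j v = 2 ∧ f k v = a) → (X.card : ℝ) ≤ (2 + 4 * eta) * n →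
  (2 - 624 * eta) * n ≤ X.card →
  ∃ Q ⊆ X, (1 - 20000 * eta) * n ≤ Q.card ∧ Q.card ≤ n ∧
    (Q.card : ℝ) ^ 2 ≤ ds (rel c i) Q + 2001 * eta * (n : ℝ) ^ 2

/-- TWO LARGE NEAR-CLIQUES OF DIFFERENT COLOURS IN ONE SIDE: IMPOSSIBLE.

PROOF (uses `NCStmt`). `η = 10^-6`. `|Q|, |Q'| ≥ 0.98 n`. In `Q` at most `2001 η n² = 0.002001 n²`
ordered pairs (diagonal included) are not of colour `i`, in `Q'` at most as many are not of colour
`j`; every pair of `Q ∩ Q'` is counted at least once: `|Q ∩ Q'|² ≤ 0.004002 n²`,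
`|Q ∩ Q'| ≤ 0.064 n`. Let `A = Q \ Q'`, `B = Q' \ Q`: `|A|, |B| ≥ 0.916 n`, at least `0.839 n²` pairs
in `A × B`, at most `0.001 n²` of them of colour `k`, so at least `0.4 n²` of the colour `i` or of
the colour `j`. WLOG `i` (the other case: exchange the roles, `c` symmetric). Let
`Q1 = {q ∈ Q : 10 #{u ∈ Q : ¬ rel c i q u} ≤ n}`: `|Q \ Q1| n / 10 ≤ 0.002001 n²`, so
`|Q1| ≥ (0.98 - 0.0201) n ≥ 0.95 n`, and `NCl (rel c i) n Q1`. The number of pairs of colour `i` in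
`(A ∩ Q1) × B` is at least `0.4 n² - 0.0201 n² ≥ 0.375 n²`. Let `U` = the vertices of `B` with at
least `n / 4` neighbours of colour `i` in `Q1`: `0.375 n² ≤ |U| n + (n / 4) n` (`|Q'| ≤ n`), so
`|U| ≥ 0.12 n`. `|Q1| + |U| ≥ n`; `NCStmt`. -/
def ClashStmt : Prop := ∀ (V : Type) (n : ℕ) (S0 : Finset V) (c : V → V → Fin 3),
  (∀ a b, c a b = c b a) → 10 ^ 8 ≤ n → ∀ i j k : Fin 3, i ≠ j → i ≠ k → j ≠ k →
  ∀ Q Q' : Finset V, Q ⊆ S0 → Q' ⊆ S0 →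
  (1 - 20000 * eta) * n ≤ Q.card → Q.card ≤ n → (1 - 20000 * eta) * n ≤ Q'.card → Q'.card ≤ n →
  (Q.card : ℝ) ^ 2 ≤ ds (rel c i) Q + 2001 * eta * (n : ℝ) ^ 2 →
  (Q'.card : ℝ) ^ 2 ≤ ds (rel c j) Q' + 2001 * eta * (n : ℝ) ^ 2 →
  (ee (rel c k) Q Q' : ℝ) ≤ (n : ℝ) ^ 2 / 1000 →
  ∃ l z, CycIn (rel c l) S0 z n

/-- FEW LIGHT EDGES BETWEEN THE CELLS.

PROOF. `X` is the union; `ds (rel c i) X ≤ n |X| + eta n²` (`light`). For every cell `Q` the ordered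
pairs of different elements not of colour `i` are bad (see `hcell`), at most `3 eta² / 10 n²`, so
`ds (rel c i) Q ≥ |Q|² - |Q| - eta² n²`. `ds X ≥ ds Q + ds Q' + ds (rest) + 2 ee Q Q'`, where the rest
is a union of cells; in total
`2 ee (rel c i) Q Q' ≤ n |X| + eta n² - ∑_{cells} (|Q|² - |Q| - eta² n²)
= ∑ |Q| (n - |Q|) + |X| + eta n² + 4 eta² n² ≤ 4 * 424 eta * 1.01 n² + 2 eta n² ≤ 2000 eta n²`
(`|Q| ≥ (1 - 424 eta) n`, `|Q| ≤ (1 + 4 eta) n` because `|Q|² - |Q| - eta² n² ≤ ds Q ≤ n |Q| + eta n²`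
implies `|Q| ≤ 1.01 n`). Here the cells are `T m`, `m < M`, `M ≤ 4`. -/
def CrossStmt : Prop := ∀ (V : Type) (n : ℕ) (S0 : Finset V) (c : V → V → Fin 3)
  (f : Fin 3 → V → Fin 3), Ctx n S0 c f → ∀ (i : Fin 3) (M : ℕ) (T : ℕ → Finset V), M ≤ 4 →
  (∀ m, m < M → T m ⊆ S0 ∧ (1 - 424 * eta) * n ≤ (T m).card ∧ (∀ v ∈ T m, f i v = 2) ∧
    ∀ u ∈ T m, ∀ v ∈ T m, ∀ l, l ≠ i → ¬ Ok (f l u) (f l v)) →
  (∀ m m', m < M → m' < M → m ≠ m' → Disjoint (T m) (T m')) →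
  ∀ m m', m < M → m' < M → m ≠ m' →
  (ee (rel c i) (T m) (T m') : ℝ) ≤ 1000 * eta * (n : ℝ) ^ 2

/-- THE CORES.

PROOF. `Q' t` = the `u ∈ Q t` with `10 #{v ∈ Q t' : B t t' u v} ≤ n` for all four `t'`. For every
`t'` the number of `u` violating this is at most `(n² / 500) / (n / 10) = n / 50`. So
`|Q' t| ≥ 0.99 n - 0.08 n ≥ 0.9 n`. (If `n = 0` everything is trivial.) -/
def CoreStmt : Prop := ∀ (V : Type) (n : ℕ) (Q : Fin 2 → Fin 2 → Finset V)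
  (B : Fin 2 → Fin 2 → Fin 2 → Fin 2 → V → V → Prop),
  (∀ a b, 99 * n ≤ 100 * (Q a b).card) →
  (∀ a b a' b', 500 * ((Q a b ×ˢ Q a' b').filter (fun p => B a b a' b' p.1 p.2)).card ≤ n ^ 2) →
  ∃ Q' : Fin 2 → Fin 2 → Finset V, (∀ a b, Q' a b ⊆ Q a b) ∧ (∀ a b, 9 * n ≤ 10 * (Q' a b).card) ∧
    ∀ a b a' b', ∀ u ∈ Q' a b, 10 * ((Q' a' b').filter (fun v => B a b a' b' u v)).card ≤ n

/-- BUILDING EX1 (both sides have the light colour `i`).

PROOF (uses `CrossStmt`, `CoreStmt`). `Q a b = {v ∈ S : f k v = a, f j v = b}` (`f i = 2` there),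
`a, b ∈ {0, 1}`; `|Q a b| ≥ (1 - 424 eta) n ≥ 0.99 n`, pairwise disjoint. Wrong pairs
(`B a b a' b' u v`): same cell: `¬ rel c i u v`; `a' = a, b' ≠ b`: `¬ rel c j u v`;
`a' ≠ a, b' = b`: `¬ rel c k u v`; `a' ≠ a, b' ≠ b`: `rel c i u v`. Count: same cell: `u = v`
(`|Q| ≤ 4 n`) or the colour `c u v ≠ i` is not allowed (`f j`, `f k` equal and `≠ 2`): bad, at most
`3 eta² / 10 n²`. `b' ≠ b` only: colour `i` (`CrossStmt` with the four cells: at most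
`1000 eta n²`) or colour `k` (`f k` equal, bad). `a' ≠ a` only: the same with `j`. Both different:
`CrossStmt`. All are `≤ n² / 500 = 2000 eta n²`. `CoreStmt`. `diag`: at most `n² / 500` pairs of
`Q' 0 b × Q' 1 (1 - b)` have colour `i`, and there are at least `0.81 n²` pairs. `NCP`, `NCl` from
the last claim of `CoreStmt` (`c` symmetric, so `rel` is symmetric). -/
def MkEX1Stmt : Prop := ∀ (V : Type) (n : ℕ) (S0 : Finset V) (c : V → V → Fin 3)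
  (f : Fin 3 → V → Fin 3) (S : Finset V), Big n S0 c f S → ∀ i j k : Fin 3,
  i ≠ j → i ≠ k → j ≠ k → (∀ v ∈ S, f k v ≠ 2 → f i v = 2) →
  (∀ a b : Fin 3, a ≠ 2 → b ≠ 2 → (1 - 424 * eta) * n ≤ (st f (st f S k a) j b).card) →
  ∃ Q, EX1 n S0 c i j k Q

/-- BUILDING EX3 (side 0 has the light colour `i`, side 1 the light colour `j`).

PROOF (uses `CrossStmt`, `CoreStmt`). `Q 0 b = {v ∈ S : f k v = 0, f j v = b}` (`f i = 2` there),
`Q 1 b = {v ∈ S : f k v = 1, f i v = b}` (`f j = 2` there). Wrong pairs: same cell on side 0: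
`¬ rel c i`, on side 1: `¬ rel c j`; same side, different `b`: `¬ rel c j` on side 0, `¬ rel c i` on
side 1; different sides: `¬ rel c k`. Count as in `MkEX1Stmt`: same cell: diagonal or bad; same side
0, `b' ≠ b`: colour `i` (`CrossStmt` for the two cells of side 0) or `k` (bad, `f k = 0` on both);
side 1: the same with `i`, `j` exchanged; different sides: colour `i`: `f i u = 2`, `f i v ≠ 2`: bad;
colour `j`: bad. `CoreStmt`. -/
def MkEX3Stmt : Prop := ∀ (V : Type) (n : ℕ) (S0 : Finset V) (c : V → V → Fin 3)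
  (f : Fin 3 → V → Fin 3) (S : Finset V), Big n S0 c f S → ∀ i j k : Fin 3,
  i ≠ j → i ≠ k → j ≠ k → (∀ v ∈ S, f k v = 0 → f i v = 2) → (∀ v ∈ S, f k v = 1 → f j v = 2) →
  (∀ b : Fin 3, b ≠ 2 → (1 - 424 * eta) * n ≤ (st f (st f S k 0) j b).card) →
  (∀ b : Fin 3, b ≠ 2 → (1 - 424 * eta) * n ≤ (st f (st f S k 1) i b).card) →
  ∃ Q, EX3 n S0 c i j k Q

/-! ## Part (E): the exact ending -/

/-- ALTERNATING PATH, ends on the same side.

PROOF. Choose `u_0 = u, u_1, ..., u_ℓ = u'` distinct in `U` (`|U| ≥ 0.8 n ≥ ℓ + 1`). Choose greedily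
distinct `w_1, ..., w_ℓ ∈ W`, `w_t` adjacent to `u_(t-1)` and to `u_t`: at least
`0.8 n - 2 n / 10 - (ℓ - 1) ≥ 0.1 n > 0` choices (`2 ℓ ≤ n`). `z (2 t) = u_t`,
`z (2 t - 1) = w_t`. -/
def AltSameStmt : Prop := ∀ (V : Type) (r : V → V → Prop), (∀ a b, r a b → r b a) →
  ∀ (n : ℕ) (U W : Finset V), 100 ≤ n → NCP r n U W → Disjoint U W → 8 * n ≤ 10 * U.card →
  8 * n ≤ 10 * W.card → ∀ u ∈ U, ∀ u' ∈ U, u ≠ u' → ∀ ℓ, 1 ≤ ℓ → 2 * ℓ ≤ n →
  ∃ z, PathIn r (U ∪ W) z (2 * ℓ + 1) ∧ z 0 = u ∧ z (2 * ℓ) = u'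

/-- ALTERNATING PATH of any length and the right parity.

PROOF (uses `AltSameStmt`). `p, q` on the same side (`k` odd, `k = 2 ℓ + 1`, `ℓ ≥ 2`):
`AltSameStmt` (or with `U`, `W` exchanged). `p ∈ U`, `q ∈ W` (`k` even, `k = 2 ℓ + 2`, `ℓ ≥ 1`):
choose `u' ∈ U`, `u' ≠ p`, adjacent to `q` (`NCP`); `AltSameStmt` for `U` and `W \ {q}`
(`|W| - 1 ≥ 0.8 n`) gives a path from `p` to `u'` with `2 ℓ + 1` vertices; append `q`. `p ∈ W`,
`q ∈ U`: exchange. -/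
def AltStmt : Prop := ∀ (V : Type) (r : V → V → Prop), (∀ a b, r a b → r b a) →
  ∀ (n : ℕ) (U W : Finset V), 100 ≤ n → NCP r n U W → Disjoint U W → 9 * n ≤ 10 * U.card →
  9 * n ≤ 10 * W.card → ∀ p ∈ U ∪ W, ∀ q ∈ U ∪ W, p ≠ q → ∀ k, 4 ≤ k → k ≤ n →
  ((p ∈ U ↔ q ∈ U) ↔ k % 2 = 1) →
  ∃ z, PathIn r (U ∪ W) z k ∧ z 0 = p ∧ z (k - 1) = q

/-- (OC0).

PROOF (uses `AltStmt`). A path from `s` to `t` with `n - 1` vertices (`n - 1` even) in `U ∪ W`, closed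
by `v` (`z (n - 1) = v`). -/
def OC0Stmt : Prop := ∀ (V : Type) (r : V → V → Prop), (∀ a b, r a b → r b a) →
  ∀ (n : ℕ) (U W : Finset V), 100 ≤ n → n % 2 = 1 → NCP r n U W → Disjoint U W →
  9 * n ≤ 10 * U.card → 9 * n ≤ 10 * W.card → ∀ v, v ∉ U ∪ W → ∀ s ∈ U, ∀ t ∈ W,
  r v s → r v t → ∃ z, CycIn r (insert v (U ∪ W)) z n

/-- (OC1): an odd cycle through `v` and a crossing edge `z z'` between two nearly complete pairs;
`s, z ∈ U0 ∪ W0`, `t, z' ∈ U1 ∪ W1`; `s, t` are on different sides of the bipartition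
`(U0 ∪ U1, W0 ∪ W1)` and so are `z, z'`.

PROOF (uses `AltStmt`). `(s ∈ U0 ↔ z ∈ U0) ↔ (z' ∈ U1 ↔ t ∈ U1)`. Choose `k1 + k2 = n - 1`,
`k1, k2 ≥ 4`, both odd if `s`, `z` are on the same side, both even otherwise (`n - 1` is even,
`n ≥ 100`). Path from `s` to `z` with `k1` vertices in `U0 ∪ W0`, then the edge `z z'`, a path from
`z'` to `t` with `k2` vertices in `U1 ∪ W1`, then `v`. -/
def OC1Stmt : Prop := ∀ (V : Type) (r : V → V → Prop), (∀ a b, r a b → r b a) →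
  ∀ (n : ℕ) (U0 W0 U1 W1 : Finset V), 100 ≤ n → n % 2 = 1 → NCP r n U0 W0 → NCP r n U1 W1 →
  Disjoint U0 W0 → Disjoint U1 W1 → Disjoint (U0 ∪ W0) (U1 ∪ W1) →
  9 * n ≤ 10 * U0.card → 9 * n ≤ 10 * W0.card → 9 * n ≤ 10 * U1.card → 9 * n ≤ 10 * W1.card →
  ∀ v, v ∉ U0 ∪ W0 → v ∉ U1 ∪ W1 → ∀ s ∈ U0 ∪ W0, ∀ z ∈ U0 ∪ W0, ∀ t ∈ U1 ∪ W1,
  ∀ z' ∈ U1 ∪ W1, s ≠ z → t ≠ z' → r v s → r v t → r z z' →
  (s ∈ U0 ↔ t ∉ U1) → (z ∈ U0 ↔ z' ∉ U1) →
  ∃ w, CycIn r (insert v ((U0 ∪ W0) ∪ (U1 ∪ W1))) w n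

/-- BONDY-CHVATAL CLOSURE.

PROOF. Among the symmetric irreflexive relations `r' ⊇ r` on `S` (restrict to `S`: finitely many)
without a Hamilton cycle of `S` choose one with the largest `ds r' S`. Let `u ≠ v ∈ S` be
non-adjacent. Adding the edge `u v` creates a Hamilton cycle, which uses `u v`: a path
`z 0 = u, ..., z (n-1) = v` of `r'` through all of `S`. If `dg r' S u + dg r' S v ≥ n` then there is
`s`, `s + 1 < n`, with `r' (z 0) (z (s+1))` and `r' (z (n-1)) (z s)` (the sets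
`{s < n - 1 : r' (z 0) (z (s+1))}`, `{s < n - 1 : r' (z (n-1)) (z s)}` have together at least `n`
elements of `n - 1`), and `closing` (`Lib/MP_22c8c7_co/GapPath`) gives a Hamilton cycle of `r'`,
contradiction. -/
def BCStmt : Prop := ∀ (V : Type) (r : V → V → Prop), (∀ a b, r a b → r b a) → (∀ a, ¬ r a a) →
  ∀ (S : Finset V) (n : ℕ), S.card = n → 3 ≤ n → (∀ z, ¬ CycIn r S z n) →
  ∃ r' : V → V → Prop, (∀ a b, r' a b → r' b a) ∧ (∀ a, ¬ r' a a) ∧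
    (∀ a ∈ S, ∀ b ∈ S, r a b → r' a b) ∧ (∀ z, ¬ CycIn r' S z n) ∧
    ∀ u ∈ S, ∀ v ∈ S, u ≠ v → ¬ r' u v → dg r' S u + dg r' S v < n

/-- (NC).

PROOF (uses `BCStmt`). If `|Q| ≥ n` choose `Q' ⊆ Q` with `n` elements, `U' = ∅`; otherwise `Q' = Q`,
`U' ⊆ U` with `n - |Q| ≤ n / 10` elements. `S = Q' ∪ U'`, `|S| = n`. Suppose that `r` has no Hamilton
cycle in `S`; `BCStmt` gives `r'`. `q ≠ q' ∈ Q'`: `dg r' S q ≥ |Q'| - n / 10 ≥ 0.8 n`, so they are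
adjacent. Hence `dg r' S q ≥ |Q'| - 1 ≥ 0.9 n - 1` for `q ∈ Q'`. `u ∈ U'` (`Q' = Q`), `q ∈ Q'`:
`dg r' S u ≥ n / 4`, sum `≥ n`: adjacent. `u ≠ u' ∈ U'`: both degrees are `≥ |Q'| ≥ 0.9 n`: adjacent.
So `r'` is complete on `S` and any enumeration of `S` is a Hamilton cycle, contradiction. -/
def NCStmt : Prop := ∀ (V : Type) (r : V → V → Prop), (∀ a b, r a b → r b a) → (∀ a, ¬ r a a) →
  ∀ (n : ℕ) (Q U : Finset V), 100 ≤ n → NCl r n Q → 9 * n ≤ 10 * Q.card → Disjoint Q U →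
  (∀ u ∈ U, n ≤ 4 * dg r Q u) → n ≤ Q.card + U.card → ∃ z, CycIn r (Q ∪ U) z n

/-- THE PIGEONHOLE.

PROOF (uses `NCStmt`). For every `(a, b)` let `U a b` be a set of vertices of `S0 \ ⋃ Q` with
`n ≤ 4 dg (rel c (κ a)) (Q a b) v`, the `U a b` disjoint with union `S0 \ ⋃ Q` (every such vertex
chooses one `(a, b)`). `∑ (|Q a b| + |U a b|) = |S0| ≥ 4 n - 3`, so one of the four is `≥ n`:
`NCStmt`. -/
def AssignStmt : Prop := ∀ (V : Type) (n : ℕ) (S0 : Finset V) (c : V → V → Fin 3),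
  (∀ a b, c a b = c b a) → 100 ≤ n → 4 * n ≤ S0.card + 3 →
  ∀ (Q : Fin 2 → Fin 2 → Finset V) (κ : Fin 2 → Fin 3), Four n S0 Q →
  (∀ a b, NCl (rel c (κ a)) n (Q a b)) →
  (∀ v ∈ S0, (∀ a b, v ∉ Q a b) → ∃ a b, n ≤ 4 * dg (rel c (κ a)) (Q a b) v) →
  ∃ l z, CycIn (rel c l) S0 z n

/-- THE ENDING FOR EX3.

PROOF (uses `AssignStmt`, `OC0Stmt`). `κ 0 = i`, `κ 1 = j`. Suppose there is no monochromatic `C_n`
in `S0`. Let `v ∈ S0` be outside all `Q a b` with `4 dg (rel c (κ a)) (Q a b) v < n` for all `a, b`.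
For every `(a, b)` the other vertices of `Q a b` (more than `0.9 n - n / 4`) are joined to `v` by the
two other colours. Side 0, cores `Q 0 0`, `Q 0 1`: if `v` has `j`-neighbours in both, `OC0Stmt` for
`rel c j` (`cross0`) gives `C_n`. So for some `b` it has a `k`-neighbour in `Q 0 b`. Side 1: if `v`
has `i`-neighbours in both `Q 1 0`, `Q 1 1`: `OC0Stmt` for `rel c i`. So for some `b'` it has a
`k`-neighbour in `Q 1 b'`. `OC0Stmt` for `rel c k` (`hk b b'`). -/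
def EX3Stmt : Prop := ∀ (V : Type) (n : ℕ) (S0 : Finset V) (c : V → V → Fin 3),
  (∀ a b, c a b = c b a) → 100 ≤ n → n % 2 = 1 → 4 * n ≤ S0.card + 3 → ∀ i j k : Fin 3,
  i ≠ j → i ≠ k → j ≠ k → ∀ Q, EX3 n S0 c i j k Q → ∃ l z, CycIn (rel c l) S0 z n

/-- THE ENDING FOR EX1.

PROOF (uses `AssignStmt`, `OC0Stmt`, `OC1Stmt`). `κ = i`. Suppose there is no monochromatic `C_n` in
`S0`, and `v ∈ S0` is outside all `Q a b` with `4 dg (rel c i) (Q a b) v < n` for all `a, b`; so for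
every `(a, b)` it has at least 2 `j`-neighbours or at least 2 `k`-neighbours in `Q a b`
(`0.9 n - n / 4 ≥ 4`). `J(a, b)`: at least 2 `j`-neighbours; `K(a, b)`: at least 2 `k`-neighbours.
`OC0Stmt` for `j` (`hj a`): not both `J(a, 0)`, `J(a, 1)`. `OC0Stmt` for `k` (`hk b`): not both
`K(0, b)`, `K(1, b)`. Since `J` or `K` holds everywhere: there is `b` with `J(0, b)`, `J(1, 1 - b)`,
`K(0, 1 - b)`, `K(1, b)` (if `J(0, b)` fails for both `b` then `K(0, 0)`, `K(0, 1)`, so neither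
`K(1, 0)` nor `K(1, 1)`, so `J(1, 0)` and `J(1, 1)`, impossible; so `J(0, b)` for some `b`; then not
`J(0, 1 - b)`, so `K(0, 1 - b)`, not `K(1, 1 - b)`, `J(1, 1 - b)`, not `J(1, b)`, `K(1, b)`). Take
`z ∈ Q 0 b`, `z' ∈ Q 1 (1 - b)` with `c z z' ≠ i` (`diag b`).
`c z z' = j`: `OC1Stmt` for `rel c j`, `U0 = Q 0 b`, `W0 = Q 0 (1 - b)`, `U1 = Q 1 b`,
`W1 = Q 1 (1 - b)`, `s ∈ Q 0 b`, `t ∈ Q 1 (1 - b)` `j`-neighbours of `v` with `s ≠ z`, `t ≠ z'`.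
`c z z' = k`: `OC1Stmt` for `rel c k` and the pairs `U0 = Q 0 b`, `W0 = Q 1 b` and
`U1 = Q 0 (1 - b)`, `W1 = Q 1 (1 - b)`: `s ∈ Q 1 b`, `t ∈ Q 0 (1 - b)` `k`-neighbours of `v`
(`s ∉ U0`, `t ∈ U1`), `z ∈ U0`, `z' ∉ U1` (`s ≠ z`, `t ≠ z'` by disjointness). -/
def EX1Stmt : Prop := ∀ (V : Type) (n : ℕ) (S0 : Finset V) (c : V → V → Fin 3),
  (∀ a b, c a b = c b a) → 100 ≤ n → n % 2 = 1 → 4 * n ≤ S0.card + 3 → ∀ i j k : Fin 3,
  i ≠ j → i ≠ k → j ≠ k → ∀ Q, EX1 n S0 c i j k Q → ∃ l z, CycIn (rel c l) S0 z n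

/-! ## Assembly -/

/-- THE STRUCTURE GIVES A CYCLE.

PROOF (uses `CompatStmt`, `OneStmt`, `SideStmt`, `SidesStmt`, `TwoLightStmt`, `ClashStmt`,
`MkEX1Stmt`, `MkEX3Stmt`, `EX1Stmt`, `EX3Stmt`). `CompatStmt`: `S`; `OneStmt`: `k`; `SideStmt` for
`a = 0, 1`: `i 0`, `i 1 ≠ k` (`i 2` arbitrary). `SidesStmt` for `a ∈ {0, 1}` and the third colour
`j a`. First alternative for some `a`: `X = st f (st f S k a) (j a) 2`; `TwoLightStmt` for
`(i a, j a, k)` and for `(j a, i a, k)` gives `Q`, `Q'`; `ClashStmt` (the pairs of colour `k` in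
`X × X` are bad: at most `eta² / 10 n²`). Second alternative for both `a`: if `i 0 = i 1`:
`MkEX1Stmt`, `EX1Stmt`; otherwise `j 0 = i 1`, `j 1 = i 0`: `MkEX3Stmt`, `EX3Stmt` with `i = i 0`,
`j = i 1`. -/
def FinStmt : Prop := ∀ (V : Type) (n : ℕ) (S0 : Finset V) (c : V → V → Fin 3)
  (f : Fin 3 → V → Fin 3), Ctx n S0 c f → ∃ l z, CycIn (rel c l) S0 z n

/-- THE THEOREM.

PROOF (uses `PartStmt`, `ColStmt`, `FinStmt`). Suppose there is no monochromatic `C_n`. `S0` = a set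
of `4 n - 3` vertices of `Fin N`. For every colour `i`: `PartStmt` for `r = rel c i`, `ColStmt`
gives `f i`. `Ctx`; `FinStmt` gives a closed path with `n` vertices; `fin_of_cycIn`
(`Lib/MP_22c8c7_co/Fin`) turns it into the function. -/
def MainStmt : Prop := ∀ n : ℕ, n % 2 = 1 → 10 ^ 46 ≤ n → ∀ N : ℕ, 4 * n ≤ N + 3 →
  ∀ c : Fin N → Fin N → Fin 3, (∀ a b : Fin N, c a b = c b a) →
  ∃ k : Fin 3, ∃ f : Fin n → Fin N, Function.Injective f ∧
    ∀ i j : Fin n, j.val = (i.val + 1) % n → c (f i) (f j) = k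

end Pool.Agent.Lib.MP_22c8c7_co.Odd
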