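import Mathlib
import Pool.Agent.Lib.MP_22c8c7_co.Odd.Spec
import Pool.Agent.Lib.MP_22c8c7_co.Count

/-! Toolkit for the modules of `Odd/`: simple facts about `eta`, `ee`, `ds`, `st`, `rel`, bad pairs. -/

set_option autoImplicit false

namespace Pool.Agent.Lib.MP_22c8c7_co.Odd

open Finset
open scoped Classical

theorem eta_pos : 0 < eta := by unfold eta; norm_num

theorem eta_eq : eta = 1 / 1000000 := by unfold eta; norm_num

theorem rel_symm {V : Type} {c : V → V → Fin 3} (hc : ∀ a b, c a b = c b a) (i : Fin 3) :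
    ∀ a b, rel c i a b → rel c i b a := fun a b h => ⟨h.1.symm, by rw [hc]; exact h.2⟩

theorem rel_irrefl {V : Type} (c : V → V → Fin 3) (i : Fin 3) : ∀ a, ¬ rel c i a a :=
  fun _ h => h.1 rfl

theorem Sep.symm {s t : Fin 3} (h : Sep s t) : Sep t s := by
  rcases h with ⟨h1, h2⟩ | ⟨h1, h2⟩
  · exact Or.inr ⟨h2, h1⟩
  · exact Or.inl ⟨h2, h1⟩

theorem Ok.symm {s t : Fin 3} (h : Ok s t) : Ok t s := by
  rcases h with h | ⟨h1, h2⟩
  · exact Or.inl h.symm
  · exact Or.inr ⟨h2, h1⟩

theorem not_sep_self (s : Fin 3) : ¬ Sep s s := by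
  unfold Sep
  revert s
  decide

/-- `Ok s s` means `s = 2`. -/
theorem ok_self_iff {s : Fin 3} : Ok s s ↔ s = 2 := by
  unfold Ok Sep
  revert s
  decide

/-- `Ok` with a light status means both light. -/
theorem ok_two_left {t : Fin 3} : Ok 2 t ↔ t = 2 := by
  unfold Ok Sep
  revert t
  decide

theorem ok_two_right {t : Fin 3} : Ok t 2 ↔ t = 2 := by
  unfold Ok Sep
  revert t
  decide

/-- Not light: `Ok` is `Sep`. -/
theorem ok_iff_sep {s t : Fin 3} (h : s ≠ 2) : Ok s t ↔ Sep s t := by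
  revert h
  unfold Ok Sep
  revert s t
  decide

theorem mem_st {V : Type} {f : Fin 3 → V → Fin 3} {S : Finset V} {i s : Fin 3} {v : V} :
    v ∈ st f S i s ↔ v ∈ S ∧ f i v = s := by
  unfold st
  rw [Finset.mem_filter]

theorem st_sub {V : Type} (f : Fin 3 → V → Fin 3) (S : Finset V) (i s : Fin 3) : st f S i s ⊆ S :=
  Finset.filter_subset _ _

/-- Every vertex has one of the three statuses. -/
theorem st_card {V : Type} (f : Fin 3 → V → Fin 3) (S : Finset V) (i : Fin 3) :
    (st f S i 0).card + (st f S i 1).card + (st f S i 2).card = S.card := by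
  have h := Finset.card_eq_sum_card_fiberwise (f := f i) (s := S) (t := univ)
    (fun v _ => Finset.mem_coe.2 (Finset.mem_univ _))
  rw [Fin.sum_univ_three] at h
  unfold st
  exact h.symm

/-- The vertices that are not light. -/
theorem not_two_card {V : Type} (f : Fin 3 → V → Fin 3) (S : Finset V) (i : Fin 3) :
    (S.filter (fun v => f i v ≠ 2)).card = (st f S i 0).card + (st f S i 1).card := by
  have h1 := st_card f S i
  have h2 := Finset.card_filter_add_card_filter_not (s := S) (fun v => f i v = 2)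
  unfold st at *
  have h3 : S.filter (fun v => f i v ≠ 2) = S.filter (fun v => ¬ f i v = 2) := rfl
  rw [h3]
  omega

/-- Double counting. -/
theorem ee_comm {V : Type} {r : V → V → Prop} (hs : ∀ a b, r a b → r b a) (X Z : Finset V) :
    ee r X Z = ee r Z X := by
  unfold ee
  exact count_double r hs X Z

theorem ee_self {V : Type} (r : V → V → Prop) (X : Finset V) : ee r X X = ds r X := rfl

/-- `ee` is the number of adjacent pairs of `X × Z`. -/
theorem ee_eq_card {V : Type} (r : V → V → Prop) (X Z : Finset V) :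
    ee r X Z = ((X ×ˢ Z).filter (fun p => r p.1 p.2)).card := by
  unfold ee dg
  rw [Finset.card_filter, Finset.sum_product]
  refine Finset.sum_congr rfl fun v _ => ?_
  rw [Finset.card_filter]

theorem dg_union {V : Type} (r : V → V → Prop) {A B : Finset V} (h : Disjoint A B) (v : V) :
    dg r (A ∪ B) v = dg r A v + dg r B v := by
  unfold dg
  rw [Finset.filter_union, Finset.card_union_of_disjoint (Finset.disjoint_filter_filter h)]

theorem dg_le_card {V : Type} (r : V → V → Prop) (S : Finset V) (v : V) : dg r S v ≤ S.card :=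
  Finset.card_filter_le _ _

theorem ds_le_sq {V : Type} (r : V → V → Prop) (S : Finset V) : ds r S ≤ S.card ^ 2 := by
  unfold ds
  calc ∑ v ∈ S, dg r S v ≤ ∑ _v ∈ S, S.card := Finset.sum_le_sum fun v _ => dg_le_card r S v
    _ = S.card ^ 2 := by rw [Finset.sum_const, smul_eq_mul, sq]

theorem ee_union_right {V : Type} (r : V → V → Prop) (X : Finset V) {A B : Finset V}
    (h : Disjoint A B) : ee r X (A ∪ B) = ee r X A + ee r X B := by
  unfold ee
  rw [← Finset.sum_add_distrib]
  exact Finset.sum_congr rfl fun v _ => dg_union r h v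

theorem ee_union_left {V : Type} (r : V → V → Prop) (Z : Finset V) {A B : Finset V}
    (h : Disjoint A B) : ee r (A ∪ B) Z = ee r A Z + ee r B Z := by
  unfold ee
  rw [Finset.sum_union h]

theorem ee_mono {V : Type} (r : V → V → Prop) {A B A' B' : Finset V} (hA : A ⊆ A') (hB : B ⊆ B') :
    ee r A B ≤ ee r A' B' := by
  unfold ee
  calc ∑ v ∈ A, dg r B v ≤ ∑ v ∈ A, dg r B' v := Finset.sum_le_sum fun v _ => count_dg_mono r hB v
    _ ≤ ∑ v ∈ A', dg r B' v := Finset.sum_le_sum_of_subset hA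

/-- The edges of a disjoint union. -/
theorem ds_union {V : Type} {r : V → V → Prop} (hs : ∀ a b, r a b → r b a) {A B : Finset V}
    (h : Disjoint A B) : ds r (A ∪ B) = ds r A + ds r B + 2 * ee r A B := by
  rw [← ee_self, ee_union_left r _ h, ee_union_right r _ h, ee_union_right r _ h, ee_comm hs B A,
    ee_self, ee_self]
  ring

/-- Every ordered pair of different elements has exactly one colour. -/
theorem ds_total {V : Type} (c : V → V → Fin 3) (S : Finset V) :
    ds (rel c 0) S + ds (rel c 1) S + ds (rel c 2) S + S.card = S.card ^ 2 := by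
  have h : ∀ v ∈ S, dg (rel c 0) S v + dg (rel c 1) S v + dg (rel c 2) S v + 1 = S.card := by
    intro v hv
    have h1 : S.card = (S.erase v).card + 1 := by
      rw [Finset.card_erase_of_mem hv]
      have := Finset.card_pos.2 ⟨v, hv⟩
      omega
    have h2 := Finset.card_eq_sum_card_fiberwise (f := fun u => c v u) (s := S.erase v)
      (t := (univ : Finset (Fin 3))) (fun v _ => Finset.mem_coe.2 (Finset.mem_univ _))
    rw [Fin.sum_univ_three] at h2
    have h3 : ∀ i : Fin 3, dg (rel c i) S v = ((S.erase v).filter (fun u => c v u = i)).card := by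
      intro i
      unfold dg rel
      congr 1
      ext u
      simp only [Finset.mem_filter, Finset.mem_erase]
      tauto
    rw [h3, h3, h3, h1, h2]
  have h4 : ∑ v ∈ S, (dg (rel c 0) S v + dg (rel c 1) S v + dg (rel c 2) S v + 1) =
      S.card ^ 2 := by
    rw [Finset.sum_congr rfl h, Finset.sum_const, smul_eq_mul, sq]
  rw [← h4]
  unfold ds
  rw [Finset.sum_add_distrib, Finset.sum_add_distrib, Finset.sum_add_distrib, Finset.sum_const,
    smul_eq_mul, mul_one]

/-- Bad pairs of one colour. -/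
theorem bad_one {V : Type} {n : ℕ} {S0 : Finset V} {c : V → V → Fin 3} {f : Fin 3 → V → Fin 3}
    (h : Ctx n S0 c f) (i : Fin 3) (B : Finset (V × V)) (hB : B ⊆ S0 ×ˢ S0)
    (hbad : ∀ p ∈ B, rel c i p.1 p.2 ∧ ¬ Ok (f i p.1) (f i p.2)) :
    (B.card : ℝ) ≤ eta ^ 2 / 10 * (n : ℝ) ^ 2 := by
  refine le_trans ?_ (h.col i).bad
  have h1 : B ⊆ (S0 ×ˢ S0).filter (fun p => rel c i p.1 p.2 ∧ ¬ Ok (f i p.1) (f i p.2)) := by
    intro p hp
    rw [Finset.mem_filter]
    exact ⟨hB hp, hbad p hp⟩
  have h2 := Finset.card_le_card h1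
  have h3 : ((S0 ×ˢ S0).filter (fun p => rel c i p.1 p.2 ∧ ¬ Ok (f i p.1) (f i p.2))).card =
      ∑ a ∈ S0, (S0.filter (fun b => rel c i a b ∧ ¬ Ok (f i a) (f i b))).card := by
    rw [Finset.card_filter, Finset.sum_product]
    refine Finset.sum_congr rfl fun v _ => ?_
    rw [Finset.card_filter]
  rw [← h3]
  exact_mod_cast h2

/-- Pairs that are bad for their own colour. -/
theorem bad_all {V : Type} {n : ℕ} {S0 : Finset V} {c : V → V → Fin 3} {f : Fin 3 → V → Fin 3}
    (h : Ctx n S0 c f) (B : Finset (V × V)) (hB : B ⊆ S0 ×ˢ S0)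
    (hbad : ∀ p ∈ B, p.1 ≠ p.2 ∧ ¬ Ok (f (c p.1 p.2) p.1) (f (c p.1 p.2) p.2)) :
    (B.card : ℝ) ≤ 3 * (eta ^ 2 / 10 * (n : ℝ) ^ 2) := by
  have h1 := Finset.card_eq_sum_card_fiberwise (f := fun p : V × V => c p.1 p.2) (s := B)
    (t := (univ : Finset (Fin 3))) (fun v _ => Finset.mem_coe.2 (Finset.mem_univ _))
  rw [Fin.sum_univ_three] at h1
  have h2 : ∀ i : Fin 3, ((B.filter (fun p => c p.1 p.2 = i)).card : ℝ) ≤
      eta ^ 2 / 10 * (n : ℝ) ^ 2 := by
    intro i
    refine bad_one h i _ ((Finset.filter_subset _ _).trans hB) ?_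
    intro p hp
    rw [Finset.mem_filter] at hp
    obtain ⟨hp1, hp2⟩ := hp
    have h3 := hbad p hp1
    rw [hp2] at h3
    exact ⟨⟨h3.1, hp2⟩, h3.2⟩
  have h3 := h2 0
  have h4 := h2 1
  have h5 := h2 2
  rw [h1]
  push_cast
  linarith

/-- The size of `S0` and the size of `n`. -/
theorem Ctx.card_real {V : Type} {n : ℕ} {S0 : Finset V} {c : V → V → Fin 3}
    {f : Fin 3 → V → Fin 3} (h : Ctx n S0 c f) : (S0.card : ℝ) = 4 * n - 3 := by
  have := h.card
  have h1 : (S0.card : ℝ) + 3 = 4 * n := by exact_mod_cast this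
  linarith

theorem Ctx.big_real {V : Type} {n : ℕ} {S0 : Finset V} {c : V → V → Fin 3}
    {f : Fin 3 → V → Fin 3} (h : Ctx n S0 c f) : (10 : ℝ) ^ 8 ≤ n := by
  exact_mod_cast h.big

end Pool.Agent.Lib.MP_22c8c7_co.Odd
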