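import Mathlib
import Pool.Agent.Lib.MP_22c8c7_co.Odd.Basic

/-! Alternating paths of any length (docstring of `AltStmt` in `Odd/Spec.lean`). -/

set_option autoImplicit false

namespace Pool.Agent.Lib.MP_22c8c7_co.Odd

open Finset
open scoped Classical

/-- The path starts in `U`. -/
private theorem altM_left (h1 : AltSameStmt) {V : Type} (r : V → V → Prop)
    (hs : ∀ a b, r a b → r b a) (n : ℕ) (U W : Finset V) (hn : 100 ≤ n) (hN : NCP r n U W)
    (hd : Disjoint U W) (hU : 9 * n ≤ 10 * U.card) (hW : 9 * n ≤ 10 * W.card) (p : V)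
    (hp : p ∈ U) (q : V) (hq : q ∈ U ∪ W) (hpq : p ≠ q) (k : ℕ) (hk : 4 ≤ k) (hkn : k ≤ n)
    (hpar : q ∈ U ↔ k % 2 = 1) :
    ∃ z, PathIn r (U ∪ W) z k ∧ z 0 = p ∧ z (k - 1) = q := by
  by_cases hqU : q ∈ U
  · have hodd := hpar.1 hqU
    obtain ⟨z, hz, hz0, hz1⟩ := h1 V r hs n U W hn hN hd (by omega) (by omega) p hp q hqU hpq
      ((k - 1) / 2) (by omega) (by omega)
    have e1 : 2 * ((k - 1) / 2) = k - 1 := by omega
    have e2 : k - 1 + 1 = k := by omega
    rw [e1, e2] at hz
    rw [e1] at hz1
    exact ⟨z, hz, hz0, hz1⟩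
  · have hqW : q ∈ W := (Finset.mem_union.1 hq).resolve_left hqU
    have heven : k % 2 = 0 := by
      have : ¬ k % 2 = 1 := fun h => hqU (hpar.2 h)
      omega
    -- a neighbour of `q`
    have hex : ∃ u' ∈ U, u' ≠ p ∧ r q u' := by
      by_contra hcon
      push Not at hcon
      have h2 : U.erase p ⊆ U.filter (fun u => ¬ r q u) := by
        intro x hx
        rw [Finset.mem_erase] at hx
        rw [Finset.mem_filter]
        exact ⟨hx.2, hcon x hx.2 hx.1⟩
      have h3 := Finset.card_le_card h2
      rw [Finset.card_erase_of_mem hp] at h3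
      have h4 := hN.2 q hqW
      omega
    obtain ⟨u', hu', hup, hru⟩ := hex
    have hN' : NCP r n U (W.erase q) := by
      refine ⟨fun u hu => ?_, fun w hw => ?_⟩
      · refine le_trans ?_ (hN.1 u hu)
        exact Nat.mul_le_mul_left _ (Finset.card_le_card
          (Finset.filter_subset_filter _ (Finset.erase_subset _ _)))
      · exact hN.2 w (Finset.mem_of_mem_erase hw)
    obtain ⟨z, hz, hz0, hz1⟩ := h1 V r hs n U (W.erase q) hn hN'
      (hd.mono_right (Finset.erase_subset _ _)) (by omega)
      (by rw [Finset.card_erase_of_mem hqW]; omega) p hp u' hu' (Ne.symm hup)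
      ((k - 2) / 2) (by omega) (by omega)
    have e1 : 2 * ((k - 2) / 2) = k - 2 := by omega
    have e2 : k - 2 + 1 = k - 1 := by omega
    rw [e1, e2] at hz
    rw [e1] at hz1
    have hq' : q ∉ U ∪ W.erase q := by
      rw [Finset.mem_union, Finset.mem_erase]
      rintro (h | h)
      · exact hqU h
      · exact h.1 rfl
    let w : ℕ → V := fun i => if i < k - 1 then z i else q
    have wz : ∀ i, i < k - 1 → w i = z i := fun i hi => if_pos hi
    have wq : w (k - 1) = q := if_neg (lt_irrefl _)
    have hsub : U ∪ W.erase q ⊆ U ∪ W := Finset.union_subset_union_right (Finset.erase_subset _ _)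
    refine ⟨w, ⟨?_, ?_, ?_⟩, ?_, wq⟩
    · intro i hi
      rcases Nat.lt_or_ge i (k - 1) with h | h
      · rw [wz i h]
        exact hsub (hz.1 i h)
      · have e : i = k - 1 := by omega
        rw [e, wq]
        exact hq
    · have key : ∀ i j, i < j → j < k → w i ≠ w j := by
        intro i j hij hj heq
        rcases Nat.lt_or_ge j (k - 1) with h | h
        · rw [wz i (by omega), wz j h] at heq
          have := hz.2.1 i (by omega) j h heq
          omega
        · have e : j = k - 1 := by omega
          rw [e, wq, wz i (by omega)] at heq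
          exact hq' (heq ▸ hz.1 i (by omega))
      intro i hi j hj heq
      rcases Nat.lt_trichotomy i j with h | h | h
      · exact absurd heq (key i j h hj)
      · exact h
      · exact absurd heq.symm (key j i h hi)
    · intro i hi
      rcases Nat.lt_or_ge (i + 1) (k - 1) with h | h
      · rw [wz i (by omega), wz (i + 1) h]
        exact hz.2.2 i h
      · have e : i + 1 = k - 1 := by omega
        rw [e, wq, wz i (by omega)]
        have e2 : i = k - 2 := by omega
        rw [e2, hz1]
        exact hs _ _ hru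
    · rw [wz 0 (by omega)]
      exact hz0

theorem altM (h1 : AltSameStmt) : AltStmt := by
  intro V r hs n U W hn hN hd hU hW p hp q hq hpq k hk hkn hpar
  by_cases hpU : p ∈ U
  · refine altM_left h1 r hs n U W hn hN hd hU hW p hpU q hq hpq k hk hkn ?_
    rw [← hpar]
    exact ⟨fun h => ⟨fun _ => h, fun _ => hpU⟩, fun h => h.1 hpU⟩
  · have hpW : p ∈ W := (Finset.mem_union.1 hp).resolve_left hpU
    obtain ⟨z, hz, hz0, hz1⟩ := altM_left h1 r hs n W U hn ⟨hN.2, hN.1⟩ hd.symm hW hU p hpW q
      (by rw [Finset.union_comm]; exact hq) hpq k hk hkn (by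
        rw [← hpar]
        constructor
        · intro h
          have hqU : q ∉ U := fun h' => Finset.disjoint_left.1 hd h' h
          exact ⟨fun h' => absurd h' hpU, fun h' => absurd h' hqU⟩
        · intro h
          have hqU : q ∉ U := fun h' => hpU (h.2 h')
          exact (Finset.mem_union.1 hq).resolve_left hqU)
    rw [Finset.union_comm] at hz
    exact ⟨z, hz, hz0, hz1⟩

end Pool.Agent.Lib.MP_22c8c7_co.Odd
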