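import Mathlib
import Pool.Agent.Lib.MP_22c8c7_co.Odd.Basic

/-! The pigeonhole (docstring of `AssignStmt` in `Odd/Spec.lean`). -/

set_option autoImplicit false

namespace Pool.Agent.Lib.MP_22c8c7_co.Odd

open Finset
open scoped Classical

theorem assign (h1 : NCStmt) : AssignStmt := by
  intro V n S0 c hc hn hS Q κ hQ hcl hatt
  -- every vertex chooses a pair
  have hex : ∀ v, ∃ p : Fin 2 × Fin 2, v ∈ S0 →
      v ∈ Q p.1 p.2 ∨ ((∀ a b, v ∉ Q a b) ∧ n ≤ 4 * dg (rel c (κ p.1)) (Q p.1 p.2) v) := by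
    intro v
    by_cases hv : v ∈ S0
    · by_cases h : ∀ a b, v ∉ Q a b
      · obtain ⟨a, b, hab⟩ := hatt v hv h
        exact ⟨(a, b), fun _ => Or.inr ⟨h, hab⟩⟩
      · push Not at h
        obtain ⟨a, b, hab⟩ := h
        exact ⟨(a, b), fun _ => Or.inl hab⟩
    · exact ⟨(0, 0), fun h => absurd h hv⟩
  choose g hg using hex
  obtain ⟨p, _, hp⟩ := Finset.exists_lt_card_fiber_of_mul_lt_card_of_maps_to
    (s := S0) (t := (univ : Finset (Fin 2 × Fin 2))) (f := g) (n := n - 1)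
    (fun v _ => Finset.mem_univ _) (by
      rw [Finset.card_univ, Fintype.card_prod, Fintype.card_fin]
      omega)
  obtain ⟨a, b⟩ := p
  -- the attached vertices
  let U : Finset V := S0.filter (fun v => (∀ a' b', v ∉ Q a' b') ∧
    n ≤ 4 * dg (rel c (κ a)) (Q a b) v)
  have hsub : S0.filter (fun v => g v = (a, b)) ⊆ Q a b ∪ U := by
    intro v hv
    rw [Finset.mem_filter] at hv
    have h2 := hg v hv.1
    rw [hv.2] at h2
    rw [Finset.mem_union]
    rcases h2 with h2 | h2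
    · exact Or.inl h2
    · exact Or.inr (Finset.mem_filter.2 ⟨hv.1, h2⟩)
  have hcard := (Finset.card_le_card hsub).trans (Finset.card_union_le _ _)
  have hd : Disjoint (Q a b) U := by
    rw [Finset.disjoint_left]
    intro v hv hv'
    exact (Finset.mem_filter.1 hv').2.1 a b hv
  obtain ⟨z, hz⟩ := h1 V (rel c (κ a)) (rel_symm hc (κ a)) (rel_irrefl c (κ a)) n (Q a b) U hn
    (hcl a b) (hQ.big a b) hd (fun u hu => (Finset.mem_filter.1 hu).2.2) (by omega)
  have hT : Q a b ∪ U ⊆ S0 := Finset.union_subset (hQ.sub a b) (Finset.filter_subset _ _)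
  exact ⟨κ a, z, ⟨fun i hi => hT (hz.1.1 i hi), hz.1.2.1, hz.1.2.2⟩, hz.2⟩

end Pool.Agent.Lib.MP_22c8c7_co.Odd
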