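import Mathlib
import Pool.Agent.Lib.MP_22c8c7_co.Odd.Basic
import Pool.Agent.Lib.MP_22c8c7_co.GapPath
import Pool.Agent.Lib.MP_22c8c7_co.MaxCyc

/-! The Bondy-Chvatal closure (see the docstring of `BCStmt` in `Odd/Spec.lean`). -/

set_option autoImplicit false

namespace Pool.Agent.Lib.MP_22c8c7_co.Odd

open Finset
open scoped Classical

/-- A path through all of `S` with `dg (z 0) + dg (z (n-1)) ≥ n` can be closed. -/
private theorem bc_close {V : Type} (r : V → V → Prop) (hs : ∀ a b, r a b → r b a)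
    (hi : ∀ a, ¬ r a a) (S : Finset V) (n : ℕ) (hS : S.card = n) (hn : 3 ≤ n) (z : ℕ → V)
    (hz : PathIn r S z n) (hd : n ≤ dg r S (z 0) + dg r S (z (n - 1))) :
    ∃ c, CycIn r S c n := by
  have himg : (range n).image z = S := by
    apply Finset.eq_of_subset_of_card_le
    · intro x hx
      obtain ⟨i, hi, rfl⟩ := Finset.mem_image.1 hx
      exact hz.1 i (Finset.mem_range.1 hi)
    · rw [Finset.card_image_of_injOn, Finset.card_range, hS]
      intro a ha b hb hab
      exact hz.2.1 a (Finset.mem_range.1 (Finset.mem_coe.1 ha)) b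
        (Finset.mem_range.1 (Finset.mem_coe.1 hb)) hab
  have hA : dg r S (z 0) ≤ ((range (n - 1)).filter (fun s => r (z 0) (z (s + 1)))).card := by
    unfold dg
    refine Finset.card_le_card_of_surjOn (fun s => z (s + 1)) ?_
    intro x hx
    obtain ⟨hx1, hx2⟩ := Finset.mem_filter.1 (Finset.mem_coe.1 hx)
    rw [← himg] at hx1
    obtain ⟨j, hj, rfl⟩ := Finset.mem_image.1 hx1
    have hj' := Finset.mem_range.1 hj
    have hj0 : j ≠ 0 := by
      rintro rfl
      exact hi _ hx2
    refine ⟨j - 1, ?_, ?_⟩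
    · rw [Finset.mem_coe, Finset.mem_filter, Finset.mem_range]
      refine ⟨by omega, ?_⟩
      have e : j - 1 + 1 = j := by omega
      rw [e]
      exact hx2
    · show z (j - 1 + 1) = z j
      have e : j - 1 + 1 = j := by omega
      rw [e]
  have hB : dg r S (z (n - 1)) ≤ ((range (n - 1)).filter (fun s => r (z (n - 1)) (z s))).card := by
    unfold dg
    refine Finset.card_le_card_of_surjOn (fun s => z s) ?_
    intro x hx
    obtain ⟨hx1, hx2⟩ := Finset.mem_filter.1 (Finset.mem_coe.1 hx)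
    rw [← himg] at hx1
    obtain ⟨j, hj, rfl⟩ := Finset.mem_image.1 hx1
    have hj' := Finset.mem_range.1 hj
    have hj0 : j ≠ n - 1 := by
      rintro rfl
      exact hi _ hx2
    refine ⟨j, ?_, rfl⟩
    rw [Finset.mem_coe, Finset.mem_filter, Finset.mem_range]
    exact ⟨by omega, hx2⟩
  have hI : (((range (n - 1)).filter (fun s => r (z 0) (z (s + 1)))) ∩
      ((range (n - 1)).filter (fun s => r (z (n - 1)) (z s)))).Nonempty := by
    apply Finset.inter_nonempty_of_card_lt_card_add_card (s := range (n - 1))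
    · exact Finset.filter_subset _ _
    · exact Finset.filter_subset _ _
    · rw [Finset.card_range]
      omega
  obtain ⟨s, hs1⟩ := hI
  rw [Finset.mem_inter, Finset.mem_filter, Finset.mem_filter, Finset.mem_range] at hs1
  obtain ⟨⟨h1, h2⟩, _, h3⟩ := hs1
  exact closing r hs S z n hz s (by omega) h2 h3

/-- The relation with the additional edge `u v`. -/
private def bcAdd {V : Type} (r : V → V → Prop) (u v : V) (a b : V) : Prop :=
  r a b ∨ (a = u ∧ b = v) ∨ (a = v ∧ b = u)

/-- A Hamilton cycle with the edge `u v` gives a Hamilton path from `u` to `v` or back. -/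
private theorem bc_open {V : Type} (r : V → V → Prop) (S : Finset V) (n : ℕ) (hn : 3 ≤ n)
    (u v : V) (hno : ∀ z, ¬ CycIn r S z n) (c : ℕ → V) (hc : CycIn (bcAdd r u v) S c n) :
    ∃ z, PathIn r S z n ∧ ((z 0 = u ∧ z (n - 1) = v) ∨ (z 0 = v ∧ z (n - 1) = u)) := by
  haveI : NeZero n := ⟨by omega⟩
  obtain ⟨x, hx⟩ := cyc_of_cycIn _ S n (by omega) c hc
  -- casts of small numbers are injective
  have hcast : ∀ a b : ℕ, a < n → b < n → (a : ZMod n) = (b : ZMod n) → a = b := by
    intro a b ha hb hab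
    rw [ZMod.natCast_eq_natCast_iff'] at hab
    rwa [Nat.mod_eq_of_lt ha, Nat.mod_eq_of_lt hb] at hab
  have hcn : ((n - 1 : ℕ) : ZMod n) = -1 := by
    have : ((n - 1 : ℕ) : ZMod n) + 1 = 0 := by
      have h : ((n - 1 + 1 : ℕ) : ZMod n) = 0 := by
        rw [show n - 1 + 1 = n by omega]
        exact ZMod.natCast_self n
      push_cast at h
      exact h
    exact eq_neg_of_add_eq_zero_left this
  -- some pair is not adjacent
  have hex : ∃ i, ¬ r (x i) (x (i + 1)) := by
    by_contra hcon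
    push Not at hcon
    refine hno (fun t => x (t : ZMod n)) ⟨⟨fun i _ => hx.mem _, ?_, ?_⟩, ?_⟩
    · intro a ha b hb hab
      exact hcast a b ha hb (hx.inj hab)
    · intro i _
      show r (x (i : ZMod n)) (x ((i + 1 : ℕ) : ZMod n))
      rw [Nat.cast_add, Nat.cast_one]
      exact hcon _
    · show r (x ((n - 1 : ℕ) : ZMod n)) (x ((0 : ℕ) : ZMod n))
      have h := hcon ((n - 1 : ℕ) : ZMod n)
      rw [hcn] at h ⊢
      rw [neg_add_cancel] at h
      rw [Nat.cast_zero]
      exact h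
  obtain ⟨i, hi⟩ := hex
  have hi2 : (x i = u ∧ x (i + 1) = v) ∨ (x i = v ∧ x (i + 1) = u) := by
    rcases hx.adj i with h | h
    · exact absurd h hi
    · exact h
  refine ⟨fun t => x (i + 1 + (t : ZMod n)), ⟨fun t _ => hx.mem _, ?_, ?_⟩, ?_⟩
  · intro a ha b hb hab
    exact hcast a b ha hb (add_left_cancel (hx.inj hab))
  · intro t ht
    show r (x (i + 1 + (t : ZMod n))) (x (i + 1 + ((t + 1 : ℕ) : ZMod n)))
    have e : i + 1 + ((t + 1 : ℕ) : ZMod n) = i + 1 + (t : ZMod n) + 1 := by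
      push_cast
      ring
    rw [e]
    have hj := hx.adj (i + 1 + (t : ZMod n))
    have hne1 : i + 1 + (t : ZMod n) ≠ i := by
      intro h
      have h1 : ((t + 1 : ℕ) : ZMod n) = ((0 : ℕ) : ZMod n) := by
        have h2 : i + (1 + (t : ZMod n)) = i + 0 := by rw [add_zero, ← add_assoc]; exact h
        have h3 := add_left_cancel h2
        push_cast
        rw [add_comm]
        exact h3
      have := hcast _ _ (by omega) (by omega) h1
      omega
    have hne2 : ¬ (i + 1 + (t : ZMod n) = i + 1 ∧ i + 1 + (t : ZMod n) + 1 = i) := by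
      rintro ⟨h1, h2⟩
      rw [h1] at h2
      have h3 : ((2 : ℕ) : ZMod n) = ((0 : ℕ) : ZMod n) := by
        have h4 : i + (1 + 1) = i + 0 := by rw [add_zero, ← add_assoc]; exact h2
        have h5 := add_left_cancel h4
        push_cast
        rw [← h5]
        ring
      have := hcast _ _ (by omega) (by omega) h3
      omega
    rcases hj with h | ⟨h1, h2⟩ | ⟨h1, h2⟩
    · exact h
    · exfalso
      rcases hi2 with ⟨h3, h4⟩ | ⟨h3, h4⟩
      · exact hne1 (hx.inj (h1.trans h3.symm))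
      · exact hne2 ⟨hx.inj (h1.trans h4.symm), hx.inj (h2.trans h3.symm)⟩
    · exfalso
      rcases hi2 with ⟨h3, h4⟩ | ⟨h3, h4⟩
      · exact hne2 ⟨hx.inj (h1.trans h4.symm), hx.inj (h2.trans h3.symm)⟩
      · exact hne1 (hx.inj (h1.trans h3.symm))
  · have e0 : (fun t : ℕ => x (i + 1 + (t : ZMod n))) 0 = x (i + 1) := by
      show x (i + 1 + ((0 : ℕ) : ZMod n)) = x (i + 1)
      rw [Nat.cast_zero, add_zero]
    have e1 : (fun t : ℕ => x (i + 1 + (t : ZMod n))) (n - 1) = x i := by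
      show x (i + 1 + ((n - 1 : ℕ) : ZMod n)) = x i
      rw [hcn, add_neg_cancel_right]
    rw [e0, e1]
    rcases hi2 with ⟨h3, h4⟩ | ⟨h3, h4⟩
    · exact Or.inr ⟨h4, h3⟩
    · exact Or.inl ⟨h4, h3⟩

theorem bc : BCStmt := by
  intro V r hs hirr S n hS hn hno
  let Good : (V → V → Prop) → Prop := fun r' =>
    (∀ a b, r' a b → r' b a) ∧ (∀ a, ¬ r' a a) ∧ (∀ a ∈ S, ∀ b ∈ S, r a b → r' a b) ∧
      (∀ z, ¬ CycIn r' S z n)
  let P : ℕ → Prop := fun d => ∃ r', Good r' ∧ ds r' S = d
  have hP0 : P (ds r S) := ⟨r, ⟨hs, hirr, fun _ _ _ _ h => h, hno⟩, rfl⟩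
  have hmax := Nat.findGreatest_spec (P := P) (ds_le_sq r S) hP0
  obtain ⟨r', ⟨h1, h2, h3, h4⟩, h5⟩ := hmax
  refine ⟨r', h1, h2, h3, h4, ?_⟩
  intro u hu v hv huv hnr
  by_contra hcon
  push Not at hcon
  -- the larger relation
  have hnr' : ¬ r' v u := fun h => hnr (h1 _ _ h)
  have hle : ∀ w, dg r' S w ≤ dg (bcAdd r' u v) S w := by
    intro w
    unfold dg
    refine Finset.card_le_card ?_
    intro x hx
    rw [Finset.mem_filter] at hx ⊢
    exact ⟨hx.1, Or.inl hx.2⟩
  have hlt : dg r' S u < dg (bcAdd r' u v) S u := by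
    unfold dg
    refine Finset.card_lt_card ?_
    rw [Finset.ssubset_iff_of_subset]
    · refine ⟨v, ?_, ?_⟩
      · rw [Finset.mem_filter]
        exact ⟨hv, Or.inr (Or.inl ⟨rfl, rfl⟩)⟩
      · rw [Finset.mem_filter]
        exact fun h => hnr h.2
    · intro x hx
      rw [Finset.mem_filter] at hx ⊢
      exact ⟨hx.1, Or.inl hx.2⟩
  have hds : ds r' S < ds (bcAdd r' u v) S := by
    unfold ds
    exact Finset.sum_lt_sum (fun w _ => hle w) ⟨u, hu, hlt⟩
  have hcyc : ∃ z, CycIn (bcAdd r' u v) S z n := by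
    by_contra hno2
    push Not at hno2
    have hg : Good (bcAdd r' u v) := by
      refine ⟨?_, ?_, ?_, hno2⟩
      · rintro a b (h | ⟨h, h'⟩ | ⟨h, h'⟩)
        · exact Or.inl (h1 _ _ h)
        · exact Or.inr (Or.inr ⟨h', h⟩)
        · exact Or.inr (Or.inl ⟨h', h⟩)
      · rintro a (h | ⟨h, h'⟩ | ⟨h, h'⟩)
        · exact h2 a h
        · exact huv (h.symm.trans h')
        · exact huv (h'.symm.trans h)
      · intro a ha b hb h
        exact Or.inl (h3 a ha b hb h)
    have := Nat.le_findGreatest (P := P) (ds_le_sq (bcAdd r' u v) S) ⟨_, hg, rfl⟩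
    rw [← h5] at this
    omega
  obtain ⟨c, hc⟩ := hcyc
  obtain ⟨z, hz, hends⟩ := bc_open r' S n hn u v h4 c hc
  have hd : n ≤ dg r' S (z 0) + dg r' S (z (n - 1)) := by
    rcases hends with ⟨e1, e2⟩ | ⟨e1, e2⟩
    · rw [e1, e2]; exact hcon
    · rw [e1, e2, add_comm]; exact hcon
  obtain ⟨c', hc'⟩ := bc_close r' h1 h2 S n hS hn z hz hd
  exact h4 c' hc'

end Pool.Agent.Lib.MP_22c8c7_co.Odd
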