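import Mathlib
import Pool.Agent.Lib.MP_22c8c7_co.Odd.Basic

/-! Short paths avoiding a small set (docstring of `BallStmt` in `Odd/Spec.lean`). -/

set_option autoImplicit false

namespace Pool.Agent.Lib.MP_22c8c7_co.Odd

open Finset
open scoped Classical

/-- The vertices reached from `a` in `A` with at most `j` steps. -/
private noncomputable def ballR {V : Type} (r : V → V → Prop) (A : Finset V) (a : V) (j : ℕ) :
    Finset V :=
  A.filter (fun v => ∃ w : ℕ → V, ∃ m, m ≤ j ∧ WalkIn r A w m ∧ w 0 = a ∧ w m = v)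

private theorem ball_self {V : Type} (r : V → V → Prop) (A : Finset V) (a : V) (ha : a ∈ A)
    (j : ℕ) : a ∈ ballR r A a j := by
  unfold ballR
  rw [Finset.mem_filter]
  exact ⟨ha, fun _ => a, 0, Nat.zero_le _, ⟨fun _ _ => ha, fun i hi => absurd hi (Nat.not_lt_zero _)⟩,
    rfl, rfl⟩

private theorem ball_succ {V : Type} (r : V → V → Prop) (A : Finset V) (a : V) (j : ℕ) :
    ballR r A a j ⊆ ballR r A a (j + 1) := by
  intro v hv
  unfold ballR at *
  rw [Finset.mem_filter] at *
  obtain ⟨h1, w, m, h2, h3⟩ := hv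
  exact ⟨h1, w, m, by omega, h3⟩

private theorem ball_nbr {V : Type} (r : V → V → Prop) (A : Finset V) (a : V) (j : ℕ) (v u : V)
    (hv : v ∈ ballR r A a j) (hu : u ∈ A) (hvu : r v u) : u ∈ ballR r A a (j + 1) := by
  unfold ballR at *
  rw [Finset.mem_filter] at *
  obtain ⟨_, w, m, h2, ⟨h3, h4⟩, h5, h6⟩ := hv
  refine ⟨hu, fun t => if t ≤ m then w t else u, m + 1, by omega, ⟨?_, ?_⟩, ?_, ?_⟩
  · intro i _
    show (if i ≤ m then w i else u) ∈ A
    split_ifs with h
    · exact h3 i h
    · exact hu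
  · intro i hi
    show r (if i ≤ m then w i else u) (if i + 1 ≤ m then w (i + 1) else u)
    rw [if_pos (by omega)]
    rcases Nat.lt_or_ge i m with h | h
    · rw [if_pos (by omega)]
      exact h4 i h
    · rw [if_neg (by omega)]
      have e : i = m := by omega
      rw [e, h6]
      exact hvu
  · show (if 0 ≤ m then w 0 else u) = a
    rw [if_pos (Nat.zero_le _)]
    exact h5
  · show (if m + 1 ≤ m then w (m + 1) else u) = u
    rw [if_neg (by omega)]

private theorem ball_grow (h1 : NbrStmt) {V : Type} (r : V → V → Prop) (P : Finset V) (h : ℕ)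
    (hE : Exp r P (2 * h)) (F : Finset V) (hF : F.card ≤ h) (a : V)
    (ha : a ∈ P \ F) (j : ℕ) (hj : 2 * (ballR r (P \ F) a j).card ≤ P.card) :
    (ballR r (P \ F) a j).card + h ≤ (ballR r (P \ F) a (j + 1)).card := by
  have hsub : ballR r (P \ F) a j ⊆ P := by
    intro v hv
    unfold ballR at hv
    rw [Finset.mem_filter] at hv
    exact (Finset.mem_sdiff.1 hv.1).1
  have h2 := (h1 V r P (2 * h) hE).1 (ballR r (P \ F) a j) hsub ⟨a, ball_self r _ a ha j⟩ hj
  set N := (P \ ballR r (P \ F) a j).filter (fun u => ∃ v ∈ ballR r (P \ F) a j, r v u) with hN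
  have h3 : N \ F ⊆ ballR r (P \ F) a (j + 1) \ ballR r (P \ F) a j := by
    intro u hu
    rw [Finset.mem_sdiff, hN, Finset.mem_filter, Finset.mem_sdiff] at hu
    obtain ⟨⟨⟨hu1, hu2⟩, v, hv, hvu⟩, hu3⟩ := hu
    rw [Finset.mem_sdiff]
    exact ⟨ball_nbr r _ a j v u hv (Finset.mem_sdiff.2 ⟨hu1, hu3⟩) hvu, hu2⟩
  have h4 := Finset.card_le_card h3
  rw [Finset.card_sdiff_of_subset (ball_succ r _ a j)] at h4
  have h5 := Finset.le_card_sdiff F N
  have h6 := Finset.card_le_card (ball_succ r (P \ F) a j)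
  have h7 : 0 ≤ h := Nat.zero_le h
  rcases Nat.eq_zero_or_pos h with h0 | h0
  · omega
  · omega

private theorem ball_size (h1 : NbrStmt) {V : Type} (r : V → V → Prop) (P : Finset V) (h : ℕ)
    (hE : Exp r P (2 * h)) (F : Finset V) (hF : F.card ≤ h) (a : V)
    (ha : a ∈ P \ F) (j : ℕ) :
    P.card < 2 * (ballR r (P \ F) a j).card ∨ 1 + j * h ≤ (ballR r (P \ F) a j).card := by
  induction j with
  | zero =>
    right
    have := Finset.card_pos.2 ⟨a, ball_self r (P \ F) a ha 0⟩
    omega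
  | succ j ih =>
    have hmono := Finset.card_le_card (ball_succ r (P \ F) a j)
    rcases Nat.lt_or_ge P.card (2 * (ballR r (P \ F) a j).card) with h2 | h2
    · left
      omega
    · right
      have h3 := ball_grow h1 r P h hE F hF a ha j h2
      rcases ih with ih | ih
      · omega
      · have e : (j + 1) * h = j * h + h := by ring
        rw [e]
        omega

theorem ball (h1 : NbrStmt) (h2 : WalkPathStmt) : BallStmt := by
  intro V r hs P h hh hE F hF hFc a ha b hb hab
  set J := P.card / (2 * h) + 1 with hJ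
  have hdiv := Nat.div_add_mod P.card (2 * h)
  have hmod := Nat.mod_lt P.card (show 0 < 2 * h by omega)
  have hbig : ∀ x ∈ P \ F, P.card < 2 * (ballR r (P \ F) x J).card := by
    intro x hx
    rcases ball_size h1 r P h hE F hFc x hx J with h3 | h3
    · exact h3
    · have e : 2 * (J * h) = 2 * h * (P.card / (2 * h)) + 2 * h := by rw [hJ]; ring
      omega
  have hsub : ∀ x, ballR r (P \ F) x J ⊆ P := by
    intro x v hv
    unfold ballR at hv
    rw [Finset.mem_filter] at hv
    exact (Finset.mem_sdiff.1 hv.1).1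
  have hI : (ballR r (P \ F) a J ∩ ballR r (P \ F) b J).Nonempty := by
    apply Finset.inter_nonempty_of_card_lt_card_add_card (hsub a) (hsub b)
    have := hbig a ha
    have := hbig b hb
    omega
  obtain ⟨v, hv⟩ := hI
  rw [Finset.mem_inter] at hv
  obtain ⟨hv1, hv2⟩ := hv
  unfold ballR at hv1 hv2
  rw [Finset.mem_filter] at hv1 hv2
  obtain ⟨_, w1, m1, hm1, ⟨hw1a, hw1b⟩, hw10, hw1m⟩ := hv1
  obtain ⟨_, w2, m2, hm2, ⟨hw2a, hw2b⟩, hw20, hw2m⟩ := hv2
  let w : ℕ → V := fun t => if t ≤ m1 then w1 t else w2 (m1 + m2 - t)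
  have e1 : ∀ t, t ≤ m1 → w t = w1 t := fun t ht => if_pos ht
  have e2 : ∀ t, m1 ≤ t → w t = w2 (m1 + m2 - t) := by
    intro t ht
    rcases Nat.lt_or_ge m1 t with h' | h'
    · exact if_neg (by omega)
    · have e : t = m1 := by omega
      rw [e, e1 m1 (le_refl _), hw1m, Nat.add_sub_cancel_left, hw2m]
  have hw : WalkIn r (P \ F) w (m1 + m2) := by
    refine ⟨?_, ?_⟩
    · intro i hi
      rcases Nat.le_total i m1 with h' | h'
      · rw [e1 i h']
        exact hw1a i h'
      · rw [e2 i h']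
        exact hw2a _ (by omega)
    · intro i hi
      rcases Nat.lt_or_ge i m1 with h' | h'
      · rw [e1 i (by omega), e1 (i + 1) (by omega)]
        exact hw1b i h'
      · rw [e2 i h', e2 (i + 1) (by omega)]
        have e : m1 + m2 - i = (m1 + m2 - (i + 1)) + 1 := by omega
        rw [e]
        exact hs _ _ (hw2b _ (by omega))
  have hw0 : w 0 = a := by rw [e1 0 (Nat.zero_le _), hw10]
  have hwm : w (m1 + m2) = b := by rw [e2 (m1 + m2) (by omega), Nat.sub_self, hw20]
  obtain ⟨z, k, hz, hz0, hz1, hk2, hk⟩ := h2 V r (P \ F) w (m1 + m2) hw (by rw [hw0, hwm]; exact hab)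
  refine ⟨z, k, hz, hz0.trans hw0, hz1.trans hwm, hk2, ?_⟩
  have e3 : k ≤ 2 * J + 1 := by omega
  calc k * h ≤ (2 * J + 1) * h := Nat.mul_le_mul_right _ e3
    _ = 2 * h * (P.card / (2 * h)) + 3 * h := by rw [hJ]; ring
    _ ≤ P.card + 3 * h := by omega

end Pool.Agent.Lib.MP_22c8c7_co.Odd
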