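import Mathlib
import Pool.Agent.Lib.MP_22c8c7_co.Odd.Basic
import Pool.Agent.Lib.MP_22c8c7_co.Cross

/-! Edges to the cycle (docstring of `CapStmt` in `Odd/Spec.lean`). -/

set_option autoImplicit false

namespace Pool.Agent.Lib.MP_22c8c7_co.Odd

open Finset
open scoped Classical

theorem cap : CapStmt := by
  intro V r hs hirr P m _ hm x hx hno T hT Z hZ
  have hwt : ∀ y, dg r T y ≤ wt r m x y := by
    intro y
    refine (count_dg_mono r hT y).trans ?_
    unfold dg wt J
    rw [Finset.filter_image, Finset.card_image_of_injective _ hx.inj]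
  have hwm : ∀ y, wt r m x y ≤ m := by
    intro y
    unfold wt J
    refine (Finset.card_filter_le _ _).trans ?_
    rw [Finset.card_univ, ZMod.card]
  have hsmall : ∀ y, 2 * wt r m x y ≤ m + 1 → 2 * dg r T y ≤ min (2 * T.card) (m + 1) := by
    intro y hy
    have h1 := hwt y
    have h2 := dg_le_card r T y
    rw [le_min_iff]
    omega
  have hcyc : ∀ y ∈ Z, y ∈ P ∧ ∀ j, y ≠ x j := by
    intro y hy
    have h1 := Finset.mem_sdiff.1 (hZ hy)
    refine ⟨h1.1, ?_⟩
    rintro j rfl
    exact h1.2 (Finset.mem_image.2 ⟨j, Finset.mem_univ _, rfl⟩)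
  rw [Finset.mul_sum]
  by_cases hex : ∃ y ∈ Z, m + 1 < 2 * wt r m x y
  · obtain ⟨y0, hy0, hy0w⟩ := hex
    have hrest : ∀ y ∈ Z.erase y0, 2 * dg r T y ≤ min (2 * T.card) (m + 1) := by
      intro y hy
      rw [Finset.mem_erase] at hy
      refine hsmall y ?_
      have h1 := crossing r hs P m (by omega) x hx hno y y0 (hcyc y hy.2).1 (hcyc y0 hy0).1 hy.1
        (hcyc y hy.2).2 (hcyc y0 hy0).2
      omega
    rw [← Finset.sum_erase_add Z _ hy0]
    have h2 := Finset.sum_le_sum hrest
    rw [Finset.sum_const, smul_eq_mul, Finset.card_erase_of_mem hy0] at h2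
    have h3 := hwt y0
    have h4 := hwm y0
    have h5 : (Z.card - 1) * min (2 * T.card) (m + 1) ≤ Z.card * min (2 * T.card) (m + 1) :=
      Nat.mul_le_mul_right _ (Nat.sub_le _ _)
    omega
  · push Not at hex
    have h2 := Finset.sum_le_sum (fun y hy => hsmall y (hex y hy))
    rw [Finset.sum_const, smul_eq_mul] at h2
    omega

end Pool.Agent.Lib.MP_22c8c7_co.Odd
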