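import Mathlib
import Pool.Agent.Lib.MP_22c8c7_co.Odd.Basic

/-! Case 0: every vertex has at most one status different from 2. -/

set_option autoImplicit false

namespace Pool.Agent.Lib.MP_22c8c7_co.Odd

open Finset
open scoped Classical

private theorem case0_num (N s a0 b0 a1 b1 a2 b2 : ℝ) (hN : 0 < N)
    (hs1 : (4 - 28 * eta) * N ≤ s) (hs2 : s ≤ 4 * N) (h0 : 0 ≤ a0) (h0' : 0 ≤ b0) (h1 : 0 ≤ a1)
    (h1' : 0 ≤ b1) (h2 : 0 ≤ a2) (h2' : 0 ≤ b2)
    (hsum : (a0 + b0) + (a1 + b1) + (a2 + b2) ≤ s)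
    (h : s ^ 2 ≤ N * ((s - (a0 + b0)) + (s - (a1 + b1)) + (s - (a2 + b2))) + 4 * eta * N ^ 2 +
      2 * (a0 * b0 + a1 * b1 + a2 * b2))
    (c0 : a0 + b0 < (4 - 200 * eta) * N) (c1 : a1 + b1 < (4 - 200 * eta) * N)
    (c2 : a2 + b2 < (4 - 200 * eta) * N) : False := by
  have e : eta = 1 / 1000000 := eta_eq
  have key : ∀ a b : ℝ, 0 ≤ a → 0 ≤ b → a + b < (4 - 200 * eta) * N →
      2 * (a * b) - N * (a + b) ≤ (1 - 100 * eta) * N * (a + b) := by
    intro a b ha hb hab
    have k1 : 4 * (a * b) ≤ (a + b) ^ 2 := by nlinarith [sq_nonneg (a - b)]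
    have k2 : (a + b) * (a + b) ≤ (4 - 200 * eta) * N * (a + b) :=
      mul_le_mul_of_nonneg_right hab.le (by linarith)
    nlinarith
  have k0 := key a0 b0 h0 h0' c0
  have k1 := key a1 b1 h1 h1' c1
  have k2 := key a2 b2 h2 h2' c2
  have k3 : (1 - 100 * eta) * N * ((a0 + b0) + (a1 + b1) + (a2 + b2)) ≤
      (1 - 100 * eta) * N * (4 * N) := by
    apply mul_le_mul_of_nonneg_left (by linarith)
    rw [e]
    nlinarith
  -- `s ^ 2 - 3 N s ≥ (4 - 140 eta) N ^ 2`
  have k4 : (4 - 140 * eta) * N ^ 2 ≤ s ^ 2 - 3 * N * s := by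
    rw [e] at hs1 ⊢
    nlinarith [mul_nonneg (sub_nonneg.2 hs1) hN.le, sq_nonneg (s - (4 - 28 * (1 / 1000000)) * N)]
  have k5 : 0 < eta * N ^ 2 := mul_pos eta_pos (by positivity)
  linarith

theorem case0 (h1 : CountStmt) (h2 : UnionStmt) : Case0Stmt := by
  intro V n S0 c f S hB hone
  have hn : (10 : ℝ) ^ 8 ≤ n := hB.ctx.big_real
  have hN : (0 : ℝ) < n := lt_of_lt_of_le (by norm_num) hn
  by_contra hcon
  push Not at hcon
  have hc := h1 V n S0 c f hB.ctx S hB.sub
  have hu := h2 V f S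
  have t0 := st_card f S 0
  have t1 := st_card f S 1
  have t2 := st_card f S 2
  have q0 := hcon 0
  have q1 := hcon 1
  have q2 := hcon 2
  rw [not_two_card] at q0 q1 q2
  have hle : (S.card : ℝ) ≤ 4 * n := by
    have h3 := Finset.card_le_card hB.sub
    have h4 := hB.ctx.card
    have h5 : S.card ≤ 4 * n := by omega
    exact_mod_cast h5
  -- disjointness
  have hsum : (S.filter (fun v => f 0 v ≠ 2)).card + (S.filter (fun v => f 1 v ≠ 2)).card +
      (S.filter (fun v => f 2 v ≠ 2)).card ≤ S.card := by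
    have d1 : Disjoint (S.filter (fun v => f 0 v ≠ 2)) (S.filter (fun v => f 1 v ≠ 2)) := by
      rw [Finset.disjoint_filter]
      intro v hv h3 h4
      rcases hone v hv 0 1 (by decide) with h | h
      · exact h3 h
      · exact h4 h
    have d2 : Disjoint (S.filter (fun v => f 0 v ≠ 2) ∪ S.filter (fun v => f 1 v ≠ 2))
        (S.filter (fun v => f 2 v ≠ 2)) := by
      rw [Finset.disjoint_union_left, Finset.disjoint_filter, Finset.disjoint_filter]
      constructor
      · intro v hv h3 h4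
        rcases hone v hv 0 2 (by decide) with h | h
        · exact h3 h
        · exact h4 h
      · intro v hv h3 h4
        rcases hone v hv 1 2 (by decide) with h | h
        · exact h3 h
        · exact h4 h
    rw [← Finset.card_union_of_disjoint d1, ← Finset.card_union_of_disjoint d2]
    apply Finset.card_le_card
    intro v hv
    simp only [Finset.mem_union, Finset.mem_filter] at hv
    tauto
  rw [not_two_card, not_two_card, not_two_card] at hsum
  generalize (st f S 0 0).card = a0 at *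
  generalize (st f S 0 1).card = b0 at *
  generalize (st f S 0 2).card = z0 at *
  generalize (st f S 1 0).card = a1 at *
  generalize (st f S 1 1).card = b1 at *
  generalize (st f S 1 2).card = z1 at *
  generalize (st f S 2 0).card = a2 at *
  generalize (st f S 2 1).card = b2 at *
  generalize (st f S 2 2).card = z2 at *
  have r0 : (z0 : ℝ) = S.card - (a0 + b0) := by
    have : (a0 : ℝ) + b0 + z0 = S.card := by exact_mod_cast t0
    linarith
  have r1 : (z1 : ℝ) = S.card - (a1 + b1) := by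
    have : (a1 : ℝ) + b1 + z1 = S.card := by exact_mod_cast t1
    linarith
  have r2 : (z2 : ℝ) = S.card - (a2 + b2) := by
    have : (a2 : ℝ) + b2 + z2 = S.card := by exact_mod_cast t2
    linarith
  rw [r0, r1, r2] at hc
  have hu' : (S.card : ℝ) ^ 2 ≤ nsep f S + 2 * (a0 * b0 + a1 * b1 + a2 * b2) := by
    exact_mod_cast hu
  have hsum' : ((a0 : ℝ) + b0) + (a1 + b1) + (a2 + b2) ≤ S.card := by exact_mod_cast hsum
  push_cast at q0 q1 q2
  exact case0_num n S.card a0 b0 a1 b1 a2 b2 hN hB.card hle (Nat.cast_nonneg _)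
    (Nat.cast_nonneg _) (Nat.cast_nonneg _) (Nat.cast_nonneg _) (Nat.cast_nonneg _)
    (Nat.cast_nonneg _) hsum' (by linarith) q0 q1 q2

end Pool.Agent.Lib.MP_22c8c7_co.Odd
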