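import Mathlib
import Pool.Agent.Lib.MP_22c8c7_co.Odd.Basic

set_option autoImplicit false

namespace Pool.Agent.Lib.MP_22c8c7_co.Odd

open Finset
open scoped Classical

private theorem case1_perm : ∀ i j k : Fin 3, i ≠ j → i ≠ k → j ≠ k →
    (i = 0 ∧ j = 1 ∧ k = 2) ∨ (i = 0 ∧ j = 2 ∧ k = 1) ∨ (i = 1 ∧ j = 0 ∧ k = 2) ∨
    (i = 1 ∧ j = 2 ∧ k = 0) ∨ (i = 2 ∧ j = 0 ∧ k = 1) ∨ (i = 2 ∧ j = 1 ∧ k = 0) := by decide

private theorem case1_three : ∀ i j k : Fin 3, i ≠ j → i ≠ k → j ≠ k →
    ∀ l : Fin 3, l = i ∨ l = j ∨ l = k := by decide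

private theorem case1_sum3 (g : Fin 3 → ℕ) {i j k : Fin 3} (hij : i ≠ j) (hik : i ≠ k)
    (hjk : j ≠ k) : g 0 + g 1 + g 2 = g i + g j + g k := by
  rcases case1_perm i j k hij hik hjk with ⟨rfl, rfl, rfl⟩ | ⟨rfl, rfl, rfl⟩ | ⟨rfl, rfl, rfl⟩ |
    ⟨rfl, rfl, rfl⟩ | ⟨rfl, rfl, rfl⟩ | ⟨rfl, rfl, rfl⟩ <;> omega

private theorem case1_all {V : Type} (f : Fin 3 → V → Fin 3) (X : Finset V) (l s : Fin 3)
    (h : ∀ v ∈ X, f l v = s) : st f X l s = X := by
  ext v
  rw [mem_st]
  exact ⟨fun h' => h'.1, fun h' => ⟨h', h v h'⟩⟩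

private theorem case1_none {V : Type} (f : Fin 3 → V → Fin 3) (X : Finset V) (l s t : Fin 3)
    (h : ∀ v ∈ X, f l v = s) (hst : s ≠ t) : st f X l t = ∅ := by
  rw [Finset.eq_empty_iff_forall_notMem]
  intro v hv
  rw [mem_st] at hv
  exact hst (by rw [← h v hv.1, hv.2])

private theorem case1_comm {V : Type} (f : Fin 3 → V → Fin 3) (S : Finset V) (i j s t : Fin 3) :
    st f (st f S i s) j t = st f (st f S j t) i s := by
  ext v
  simp only [mem_st]
  tauto

/-- The size of a cell. -/
private theorem case1_cell (h1 : CountStmt) (h2 : OverlapStmt) {V : Type} {n : ℕ} {S0 : Finset V}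
    {c : V → V → Fin 3} {f : Fin 3 → V → Fin 3} (hctx : Ctx n S0 c f) (P : Finset V)
    (hP : P ⊆ S0) {i j k p q : Fin 3} (hij : i ≠ j) (hik : i ≠ k) (hjk : j ≠ k) (hp : p ≠ 2)
    (hq : q ≠ 2) (hfi : ∀ v ∈ P, f i v = p) (hfj : ∀ v ∈ P, f j v = q)
    (hfk : ∀ v ∈ P, f k v = 2) : (P.card : ℝ) ≤ (1 + 4 * eta) * n := by
  have hnpos : (0 : ℝ) < n := by
    have := hctx.big_real
    linarith [show (0 : ℝ) < 10 ^ 8 by norm_num]
  have e1 := h1 V n S0 c f hctx P hP
  have e2 := h2 V f P i j k hij hik hjk hfk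
  have e4 := case1_sum3 (fun l => (st f P l 2).card) hij hik hjk
  have z1 : (st f P i 0).card * (st f P i 1).card = 0 := by
    have : p = 0 ∨ p = 1 := by
      revert hp
      clear hfi e1 e2
      revert p
      decide
    rcases this with h | h
    · rw [case1_none f P i p 1 hfi (by rw [h]; decide), Finset.card_empty, mul_zero]
    · rw [case1_none f P i p 0 hfi (by rw [h]; decide), Finset.card_empty, zero_mul]
  have z2 : (st f P j 0).card * (st f P j 1).card = 0 := by
    have : q = 0 ∨ q = 1 := by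
      revert hq
      clear hfj e1 e2
      revert q
      decide
    rcases this with h | h
    · rw [case1_none f P j q 1 hfj (by rw [h]; decide), Finset.card_empty, mul_zero]
    · rw [case1_none f P j q 0 hfj (by rw [h]; decide), Finset.card_empty, zero_mul]
  rw [z1, z2] at e2
  have e5 : (st f P 0 2).card + (st f P 1 2).card + (st f P 2 2).card = P.card := by
    rw [e4, case1_none f P i p 2 hfi hp, case1_none f P j q 2 hfj hq, case1_all f P k 2 hfk]
    simp
  have e5' : ((st f P 0 2).card : ℝ) + (st f P 1 2).card + (st f P 2 2).card = P.card := by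
    exact_mod_cast e5
  rw [e5'] at e1
  have e6 : P.card ^ 2 ≤ nsep f P := by omega
  have e6' : (P.card : ℝ) ^ 2 ≤ nsep f P := by exact_mod_cast e6
  have hη := eta_pos
  by_contra hcon
  push Not at hcon
  have hy : (n : ℝ) ≤ P.card := by nlinarith
  nlinarith [mul_pos hη hnpos]

theorem case1 (h1 : CountStmt) (h2 : OverlapStmt) (h3 : Num1Stmt) : Case1Stmt := by
  intro V n S0 c f S hB i j k hij hik hjk hex hi hj
  have hctx := hB.ctx
  have hbig := hctx.big_real
  have hnpos : (0 : ℝ) < n := by linarith [show (0 : ℝ) < 10 ^ 8 by norm_num]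
  obtain ⟨u, huS, huk, hui, huj⟩ := hex
  -- colour `k` is light everywhere
  have hk2 : ∀ v ∈ S, f k v = 2 := by
    intro v hv
    by_contra hkv
    have hboth : f i v = 2 ∧ f j v = 2 := by
      obtain ⟨l, hl⟩ := hB.compat v hv v hv
      rw [ok_self_iff] at hl
      rcases case1_three i j k hij hik hjk l with h | h | h
      · rw [h] at hl
        exact ⟨hl, (hi v hv hl).resolve_right hkv⟩
      · rw [h] at hl
        exact ⟨(hj v hv hl).resolve_right hkv, hl⟩
      · rw [h] at hl
        exact absurd hl hkv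
    obtain ⟨l, hl⟩ := hB.compat u huS v hv
    rcases case1_three i j k hij hik hjk l with h | h | h
    · rw [h, hboth.1, ok_two_right] at hl
      exact hui hl
    · rw [h, hboth.2, ok_two_right] at hl
      exact huj hl
    · rw [h, huk, ok_two_left] at hl
      exact hkv hl
  have hcell : ∀ p q : Fin 3, p ≠ 2 → q ≠ 2 →
      ((st f (st f S i p) j q).card : ℝ) / n ≤ 1 + 4 * eta := by
    intro p q hp hq
    rw [div_le_iff₀ hnpos]
    have hs1 : st f (st f S i p) j q ⊆ st f S i p := st_sub f _ _ _
    have hs2 : st f S i p ⊆ S := st_sub f _ _ _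
    exact case1_cell h1 h2 hctx _ ((hs1.trans hs2).trans hB.sub) hij hik hjk hp hq
      (fun v hv => (mem_st.1 (hs1 hv)).2) (fun v hv => (mem_st.1 hv).2)
      (fun v hv => hk2 v (hs2 (hs1 hv)))
  have e1 := h1 V n S0 c f hctx S hB.sub
  have e2 := h2 V f S i j k hij hik hjk hk2
  have e4 := case1_sum3 (fun l => (st f S l 2).card) hij hik hjk
  have ci := st_card f S i
  have cj := st_card f S j
  have ck := case1_all f S k 2 hk2
  have e5 : ((st f S 0 2).card : ℝ) + (st f S 1 2).card + (st f S 2 2).card =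
      S.card + (S.card - ((st f S i 0).card + (st f S i 1).card)) +
        (S.card - ((st f S j 0).card + (st f S j 1).card)) := by
    have t1 : ((st f S 0 2).card : ℝ) + (st f S 1 2).card + (st f S 2 2).card =
        (st f S i 2).card + (st f S j 2).card + (st f S k 2).card := by exact_mod_cast e4
    have t2 : ((st f S i 0).card : ℝ) + (st f S i 1).card + (st f S i 2).card = S.card := by
      exact_mod_cast ci
    have t3 : ((st f S j 0).card : ℝ) + (st f S j 1).card + (st f S j 2).card = S.card := by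
      exact_mod_cast cj
    rw [t1, ck]
    linarith
  rw [e5] at e1
  have e2' : (S.card : ℝ) ^ 2 +
      2 * ((st f (st f S i 0) j 0).card * (st f (st f S i 1) j 1).card +
        (st f (st f S i 0) j 1).card * (st f (st f S i 1) j 0).card : ℝ) ≤
      nsep f S + 2 * ((st f S i 0).card * (st f S i 1).card +
        (st f S j 0).card * (st f S j 1).card : ℝ) := by exact_mod_cast e2
  -- the sum of the four cells
  have m0 := st_card f (st f S i 0) j
  have m1 := st_card f (st f S i 1) j
  have m2 := st_card f (st f S j 2) i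
  rw [case1_comm f S i j 0 2] at m0
  rw [case1_comm f S i j 1 2] at m1
  have m3 : (st f S i 0).card + (st f S i 1).card + ((st f S j 0).card + (st f S j 1).card) ≤
      S.card + ((st f (st f S i 0) j 0).card + (st f (st f S i 0) j 1).card +
        (st f (st f S i 1) j 0).card + (st f (st f S i 1) j 1).card) := by omega
  have hS4 : (S.card : ℝ) ≤ 4 * n := by
    have t1 := Finset.card_le_card hB.sub
    have t2 := hctx.card
    have t3 : S.card ≤ 4 * n := by omega
    exact_mod_cast t3
  have hBc := hB.card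
  have key := h3 ((S.card : ℝ) / n) ((st f S i 0).card / n) ((st f S i 1).card / n)
    ((st f S j 0).card / n) ((st f S j 1).card / n)
    ((st f (st f S i 0) j 0).card / n) ((st f (st f S i 0) j 1).card / n)
    ((st f (st f S i 1) j 0).card / n) ((st f (st f S i 1) j 1).card / n)
    (by rw [le_div_iff₀ hnpos]; exact hBc) (by rw [div_le_iff₀ hnpos]; exact hS4)
    (by positivity) (by positivity) (by positivity) (by positivity) (by positivity)
    (by positivity) (by positivity) (by positivity)
    (by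
      rw [← add_div]
      refine div_le_div_of_nonneg_right ?_ hnpos.le
      have : (st f S i 0).card + (st f S i 1).card ≤ S.card := by omega
      exact_mod_cast this)
    (by
      rw [← add_div]
      refine div_le_div_of_nonneg_right ?_ hnpos.le
      have : (st f S j 0).card + (st f S j 1).card ≤ S.card := by omega
      exact_mod_cast this)
    (by
      rw [← add_div, ← add_div, ← add_div, ← add_div, ← add_div, ← add_div, ← add_div]
      refine div_le_div_of_nonneg_right ?_ hnpos.le
      exact_mod_cast m3)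
    (hcell 0 0 (by decide) (by decide)) (hcell 0 1 (by decide) (by decide))
    (hcell 1 0 (by decide) (by decide)) (hcell 1 1 (by decide) (by decide))
    (by
      set s : ℝ := (S.card : ℝ)
      set a1 : ℝ := ((st f S i 0).card : ℝ)
      set b1 : ℝ := ((st f S i 1).card : ℝ)
      set a2 : ℝ := ((st f S j 0).card : ℝ)
      set b2 : ℝ := ((st f S j 1).card : ℝ)
      set t00 : ℝ := ((st f (st f S i 0) j 0).card : ℝ)
      set t01 : ℝ := ((st f (st f S i 0) j 1).card : ℝ)
      set t10 : ℝ := ((st f (st f S i 1) j 0).card : ℝ)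
      set t11 : ℝ := ((st f (st f S i 1) j 1).card : ℝ)
      have w1 : (s / n) ^ 2 + 2 * (t00 / n * (t11 / n) + t01 / n * (t10 / n)) =
          (s ^ 2 + 2 * (t00 * t11 + t01 * t10)) / (n : ℝ) ^ 2 := by
        field_simp
      have w2 : s / n + (s / n - (a1 / n + b1 / n)) + (s / n - (a2 / n + b2 / n)) + 4 * eta +
          2 * (a1 / n * (b1 / n) + a2 / n * (b2 / n)) =
          (n * (s + (s - (a1 + b1)) + (s - (a2 + b2))) + 4 * eta * (n : ℝ) ^ 2 +
            2 * (a1 * b1 + a2 * b2)) / (n : ℝ) ^ 2 := by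
        field_simp
      rw [w1, w2]
      refine div_le_div_of_nonneg_right ?_ (by positivity)
      linarith)
  rw [not_two_card, not_two_card]
  rcases key with h | h
  · left
    rw [← add_div, le_div_iff₀ hnpos] at h
    push_cast
    exact h
  · right
    rw [← add_div, le_div_iff₀ hnpos] at h
    push_cast
    exact h

end Pool.Agent.Lib.MP_22c8c7_co.Odd
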