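import Mathlib
import Pool.Agent.Lib.MP_22c8c7_co.Odd.Basic

set_option autoImplicit false

namespace Pool.Agent.Lib.MP_22c8c7_co.Odd

open Finset
open scoped Classical

private theorem case2_perm : ∀ i j k : Fin 3, i ≠ j → i ≠ k → j ≠ k →
    (i = 0 ∧ j = 1 ∧ k = 2) ∨ (i = 0 ∧ j = 2 ∧ k = 1) ∨ (i = 1 ∧ j = 0 ∧ k = 2) ∨
    (i = 1 ∧ j = 2 ∧ k = 0) ∨ (i = 2 ∧ j = 0 ∧ k = 1) ∨ (i = 2 ∧ j = 1 ∧ k = 0) := by decide

private theorem case2_three : ∀ i j k : Fin 3, i ≠ j → i ≠ k → j ≠ k →
    ∀ l : Fin 3, l = i ∨ l = j ∨ l = k := by decide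

private theorem case2_sum3 (g : Fin 3 → ℕ) {i j k : Fin 3} (hij : i ≠ j) (hik : i ≠ k)
    (hjk : j ≠ k) : g 0 + g 1 + g 2 = g i + g j + g k := by
  rcases case2_perm i j k hij hik hjk with ⟨rfl, rfl, rfl⟩ | ⟨rfl, rfl, rfl⟩ | ⟨rfl, rfl, rfl⟩ |
    ⟨rfl, rfl, rfl⟩ | ⟨rfl, rfl, rfl⟩ | ⟨rfl, rfl, rfl⟩ <;> omega

private theorem case2_const {V : Type} (f : Fin 3 → V → Fin 3) (X : Finset V) (l s : Fin 3)
    (h : ∀ v ∈ X, f l v = s) : (st f X l 0).card * (st f X l 1).card = 0 := by
  by_cases hs : s = 0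
  · have : st f X l 1 = ∅ := by
      rw [Finset.eq_empty_iff_forall_notMem]
      intro v hv
      rw [mem_st] at hv
      have := h v hv.1
      rw [hv.2, hs] at this
      exact absurd this (by decide)
    rw [this, Finset.card_empty, mul_zero]
  · have : st f X l 0 = ∅ := by
      rw [Finset.eq_empty_iff_forall_notMem]
      intro v hv
      rw [mem_st] at hv
      have := h v hv.1
      rw [hv.2] at this
      exact hs this.symm
    rw [this, Finset.card_empty, zero_mul]

private theorem case2_all {V : Type} (f : Fin 3 → V → Fin 3) (X : Finset V) (l s : Fin 3)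
    (h : ∀ v ∈ X, f l v = s) : st f X l s = X := by
  ext v
  rw [mem_st]
  exact ⟨fun h' => h'.1, fun h' => ⟨h', h v h'⟩⟩

private theorem case2_none {V : Type} (f : Fin 3 → V → Fin 3) (X : Finset V) (l t : Fin 3)
    (h : ∀ v ∈ X, f l v ≠ t) : st f X l t = ∅ := by
  rw [Finset.eq_empty_iff_forall_notMem]
  intro v hv
  rw [mem_st] at hv
  exact h v hv.1 hv.2

private theorem case2_sep {a b x : Fin 3} (h1 : Sep a x) (h2 : Sep b x) : a = b := by
  unfold Sep at h1 h2
  revert h1 h2
  revert a b x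
  decide

/-- The inequality for a set that is light in `j`, constant in `k`, not light in `i`. -/
private theorem case2_ineq (h1 : CountStmt) (h2 : UnionStmt) {V : Type} {n : ℕ} {S0 : Finset V}
    {c : V → V → Fin 3} {f : Fin 3 → V → Fin 3} (hctx : Ctx n S0 c f) (X : Finset V)
    (hX : X ⊆ S0) {i j k a : Fin 3} (hij : i ≠ j) (hik : i ≠ k) (hjk : j ≠ k) (ha : a ≠ 2)
    (hfj : ∀ v ∈ X, f j v = 2) (hfk : ∀ v ∈ X, f k v = a) (hfi : ∀ v ∈ X, f i v ≠ 2) :
    (X.card : ℝ) ^ 2 / 2 ≤ n * (X.card : ℝ) + 4 * eta * (n : ℝ) ^ 2 := by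
  have e1 := h1 V n S0 c f hctx X hX
  have e2 := h2 V f X
  have e3 := case2_sum3 (fun l => (st f X l 0).card * (st f X l 1).card) hij hik hjk
  have e4 := case2_sum3 (fun l => (st f X l 2).card) hij hik hjk
  have e5 := case2_const f X j 2 hfj
  have e6 := case2_const f X k a hfk
  have e7 := case2_all f X j 2 hfj
  have e8 := case2_none f X k 2 (fun v hv => by rw [hfk v hv]; exact ha)
  have e8' := case2_none f X i 2 hfi
  have e9 := st_card f X i
  rw [e8', Finset.card_empty, add_zero] at e9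
  rw [e3, e5, e6, add_zero, add_zero] at e2
  have e4' : ((st f X 0 2).card : ℝ) + (st f X 1 2).card + (st f X 2 2).card = X.card := by
    have t1 : ((st f X 0 2).card : ℝ) + (st f X 1 2).card + (st f X 2 2).card =
        (st f X i 2).card + (st f X j 2).card + (st f X k 2).card := by exact_mod_cast e4
    rw [t1, e7, e8, e8', Finset.card_empty]
    simp
  rw [e4'] at e1
  have e2' : (X.card : ℝ) ^ 2 ≤ nsep f X + 2 * ((st f X i 0).card * (st f X i 1).card : ℝ) := by
    exact_mod_cast e2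
  have e9' : ((st f X i 0).card : ℝ) + (st f X i 1).card = X.card := by exact_mod_cast e9
  nlinarith [sq_nonneg (((st f X i 0).card : ℝ) - (st f X i 1).card)]

private theorem case2_num (n s ai bi aj bj ak bk yi yj yk : ℝ) (hn : 0 < n)
    (hs1 : (4 - 28 * eta) * n ≤ s) (hs2 : s ≤ 4 * n) (hyi : ai + bi = yi) (hyj : aj + bj = yj)
    (hyk : ak + bk = yk) (hk0 : 0 ≤ yk) (hi : yi ^ 2 / 2 ≤ n * yi + 4 * eta * n ^ 2)
    (hj : yj ^ 2 / 2 ≤ n * yj + 4 * eta * n ^ 2)
    (h : s ^ 2 ≤ n * (3 * s - yi - yj - yk) + 4 * eta * n ^ 2 +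
      2 * (ai * bi + aj * bj + ak * bk)) : (4 - 200 * eta) * n ≤ yk := by
  have q1 : 2 * (ai * bi) ≤ yi ^ 2 / 2 := by
    rw [← hyi]
    nlinarith [sq_nonneg (ai - bi)]
  have q2 : 2 * (aj * bj) ≤ yj ^ 2 / 2 := by
    rw [← hyj]
    nlinarith [sq_nonneg (aj - bj)]
  have q3 : 2 * (ak * bk) ≤ yk ^ 2 / 2 := by
    rw [← hyk]
    nlinarith [sq_nonneg (ak - bk)]
  have q4 : s ^ 2 - 3 * n * s ≤ yk ^ 2 / 2 - n * yk + 12 * eta * n ^ 2 := by linarith
  rw [eta_eq] at *
  have q5 : (4 - 140 / 1000000) * n ^ 2 ≤ s ^ 2 - 3 * n * s := by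
    have w1 : 0 ≤ (s - (4 - 28 / 1000000) * n) * (s + (1 - 28 / 1000000) * n) := by
      refine mul_nonneg (by linarith) ?_
      have : 0 ≤ s := by nlinarith
      nlinarith
    nlinarith
  by_contra hcon
  push Not at hcon
  have q6 : (4 - 152 / 1000000) * n ^ 2 ≤ yk * (yk - 2 * n) / 2 := by nlinarith
  have q7 : 2 * n < yk := by
    by_contra h'
    push Not at h'
    have : yk * (yk - 2 * n) ≤ 0 := mul_nonpos_of_nonneg_of_nonpos hk0 (by linarith)
    nlinarith [mul_pos hn hn]
  have q8 : yk * (yk - 2 * n) ≤ ((4 - 200 / 1000000) * n) * ((2 - 200 / 1000000) * n) := by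
    refine mul_le_mul (by linarith) (by linarith) (by linarith) (by nlinarith)
  nlinarith [mul_pos hn hn]

theorem case2 (h1 : CountStmt) (h2 : UnionStmt) : Case2Stmt := by
  intro V n S0 c f S hB i j k hij hik hjk hTi hTj hTk
  have hctx := hB.ctx
  have hbig := hctx.big_real
  have hnpos : (0 : ℝ) < n := by linarith [show (0 : ℝ) < 10 ^ 8 by norm_num]
  obtain ⟨u0, hu0, u0i, u0j, u0k⟩ := hTi
  obtain ⟨v0, hv0, v0j, v0i, v0k⟩ := hTj
  -- `f i w ≠ 2` implies the type `T_j`
  have hA : ∀ w ∈ S, f i w ≠ 2 → f j w = 2 ∧ f k w = f k v0 := by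
    intro w hw hiw
    have hjw : f j w = 2 := by
      obtain ⟨l, hl⟩ := hB.compat w hw w hw
      rw [ok_self_iff] at hl
      rcases case2_three i j k hij hik hjk l with h | h | h
      · rw [h] at hl
        exact absurd hl hiw
      · rw [h] at hl
        exact hl
      · rw [h] at hl
        exact (hTk w hw hl).resolve_left hiw
    have hsep : ∀ v ∈ S, f j v = 2 → f i v ≠ 2 → Sep (f k v) (f k u0) := by
      intro v hv hjv hiv
      obtain ⟨l, hl⟩ := hB.compat v hv u0 hu0
      rcases case2_three i j k hij hik hjk l with h | h | h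
      · rw [h, u0i, ok_two_right] at hl
        exact absurd hl hiv
      · rw [h, hjv, ok_two_left] at hl
        exact absurd hl u0j
      · rw [h] at hl
        rcases hl with hl | hl
        · exact hl
        · exact absurd hl.2 u0k
    exact ⟨hjw, case2_sep (hsep w hw hjw hiw) (hsep v0 hv0 v0j v0i)⟩
  have hBj : ∀ w ∈ S, f j w ≠ 2 → f i w = 2 ∧ f k w = f k u0 := by
    intro w hw hjw
    have hiw : f i w = 2 := by
      obtain ⟨l, hl⟩ := hB.compat w hw w hw
      rw [ok_self_iff] at hl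
      rcases case2_three i j k hij hik hjk l with h | h | h
      · rw [h] at hl
        exact hl
      · rw [h] at hl
        exact absurd hl hjw
      · rw [h] at hl
        exact (hTk w hw hl).resolve_right hjw
    have hsep : ∀ v ∈ S, f i v = 2 → f j v ≠ 2 → Sep (f k v) (f k v0) := by
      intro v hv hiv hjv
      obtain ⟨l, hl⟩ := hB.compat v hv v0 hv0
      rcases case2_three i j k hij hik hjk l with h | h | h
      · rw [h, hiv, ok_two_left] at hl
        exact absurd hl v0i
      · rw [h, v0j, ok_two_right] at hl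
        exact absurd hl hjv
      · rw [h] at hl
        rcases hl with hl | hl
        · exact hl
        · exact absurd hl.2 v0k
    exact ⟨hiw, case2_sep (hsep w hw hiw hjw) (hsep u0 hu0 u0i u0j)⟩
  have hXA := case2_ineq h1 h2 hctx (S.filter (fun v => f i v ≠ 2))
    ((Finset.filter_subset _ _).trans hB.sub) hij hik hjk v0k
    (fun v hv => (hA v (Finset.mem_filter.1 hv).1 (Finset.mem_filter.1 hv).2).1)
    (fun v hv => (hA v (Finset.mem_filter.1 hv).1 (Finset.mem_filter.1 hv).2).2)
    (fun v hv => (Finset.mem_filter.1 hv).2)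
  have hXB := case2_ineq h1 h2 hctx (S.filter (fun v => f j v ≠ 2))
    ((Finset.filter_subset _ _).trans hB.sub) hij.symm hjk hik u0k
    (fun v hv => (hBj v (Finset.mem_filter.1 hv).1 (Finset.mem_filter.1 hv).2).1)
    (fun v hv => (hBj v (Finset.mem_filter.1 hv).1 (Finset.mem_filter.1 hv).2).2)
    (fun v hv => (Finset.mem_filter.1 hv).2)
  have e1 := h1 V n S0 c f hctx S hB.sub
  have e2 := h2 V f S
  have e3 := case2_sum3 (fun l => (st f S l 0).card * (st f S l 1).card) hij hik hjk
  have e4 := case2_sum3 (fun l => (st f S l 2).card) hij hik hjk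
  rw [e3] at e2
  have ci := st_card f S i
  have cj := st_card f S j
  have ck := st_card f S k
  have e5 : ((st f S 0 2).card : ℝ) + (st f S 1 2).card + (st f S 2 2).card =
      3 * S.card - ((S.filter (fun v => f i v ≠ 2)).card : ℝ) -
        ((S.filter (fun v => f j v ≠ 2)).card : ℝ) -
        ((S.filter (fun v => f k v ≠ 2)).card : ℝ) := by
    have t1 : ((st f S 0 2).card : ℝ) + (st f S 1 2).card + (st f S 2 2).card =
        (st f S i 2).card + (st f S j 2).card + (st f S k 2).card := by exact_mod_cast e4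
    have t2 : ((st f S i 0).card : ℝ) + (st f S i 1).card + (st f S i 2).card = S.card := by
      exact_mod_cast ci
    have t3 : ((st f S j 0).card : ℝ) + (st f S j 1).card + (st f S j 2).card = S.card := by
      exact_mod_cast cj
    have t4 : ((st f S k 0).card : ℝ) + (st f S k 1).card + (st f S k 2).card = S.card := by
      exact_mod_cast ck
    rw [t1, not_two_card, not_two_card, not_two_card]
    push_cast
    linarith
  rw [e5] at e1
  have e2' : (S.card : ℝ) ^ 2 ≤ nsep f S + 2 * ((st f S i 0).card * (st f S i 1).card +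
      (st f S j 0).card * (st f S j 1).card + (st f S k 0).card * (st f S k 1).card : ℝ) := by
    exact_mod_cast e2
  have hS4 : (S.card : ℝ) ≤ 4 * n := by
    have t1 := Finset.card_le_card hB.sub
    have t2 := hctx.card
    have t3 : S.card ≤ 4 * n := by omega
    exact_mod_cast t3
  have yi : ((st f S i 0).card : ℝ) + (st f S i 1).card =
      ((S.filter (fun v => f i v ≠ 2)).card : ℝ) := by
    rw [not_two_card]
    push_cast
    ring
  have yj : ((st f S j 0).card : ℝ) + (st f S j 1).card =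
      ((S.filter (fun v => f j v ≠ 2)).card : ℝ) := by
    rw [not_two_card]
    push_cast
    ring
  have yk : ((st f S k 0).card : ℝ) + (st f S k 1).card =
      ((S.filter (fun v => f k v ≠ 2)).card : ℝ) := by
    rw [not_two_card]
    push_cast
    ring
  exact case2_num n S.card _ _ _ _ _ _ _ _ _ hnpos hB.card hS4 yi yj yk (Nat.cast_nonneg _) hXA
    hXB (by linarith)

end Pool.Agent.Lib.MP_22c8c7_co.Odd
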