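import Mathlib
import Pool.Agent.Lib.MP_22c8c7_co.Odd.Basic

set_option autoImplicit false

namespace Pool.Agent.Lib.MP_22c8c7_co.Odd

open Finset
open scoped Classical

private theorem case3_three : ∀ i j k : Fin 3, i ≠ j → i ≠ k → j ≠ k →
    ∀ l : Fin 3, l = i ∨ l = j ∨ l = k := by decide

private theorem case3_sep {a b x : Fin 3} (h1 : Sep a x) (h2 : Sep b x) : a = b := by
  unfold Sep at h1 h2
  revert h1 h2
  revert a b x
  decide

private theorem case3_sep01 {a b : Fin 3} (h : Sep a b) : (a = 0 ∧ b = 1) ∨ (a = 1 ∧ b = 0) := h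

/-- The vertices light exactly in the colour `j`. -/
private noncomputable def case3_T {V : Type} (f : Fin 3 → V → Fin 3) (S : Finset V)
    (j i k : Fin 3) : Finset V := S.filter (fun w => f j w = 2 ∧ f i w ≠ 2 ∧ f k w ≠ 2)

private theorem case3_Tcomm {V : Type} (f : Fin 3 → V → Fin 3) (S : Finset V)
    (j i k : Fin 3) : case3_T f S j i k = case3_T f S j k i := by
  unfold case3_T
  refine Finset.filter_congr fun w _ => ?_
  tauto

/-- Vertices light in `j` only and in `k` only are separated by the third colour. -/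
private theorem case3_opp {V : Type} {f : Fin 3 → V → Fin 3} {S : Finset V} (hC : Compat f S)
    {i j k : Fin 3} (hij : i ≠ j) (hik : i ≠ k) (hjk : j ≠ k) {v w : V} (hv : v ∈ S)
    (hw : w ∈ S) (v1 : f j v = 2) (v2 : f i v ≠ 2) (v3 : f k v ≠ 2) (w1 : f k w = 2)
    (w3 : f j w ≠ 2) : Sep (f i v) (f i w) := by
  obtain ⟨l, hl⟩ := hC v hv w hw
  rcases case3_three i j k hij hik hjk l with h | h | h
  · rw [h] at hl
    rcases hl with hl | hl
    · exact hl
    · exact absurd hl.1 v2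
  · rw [h, v1, ok_two_left] at hl
    exact absurd hl w3
  · rw [h, w1, ok_two_right] at hl
    exact absurd hl v3

/-- The product and the sum for one colour. -/
private theorem case3_prod {V : Type} {f : Fin 3 → V → Fin 3} {S : Finset V} (hC : Compat f S)
    {i j k : Fin 3} (hij : i ≠ j) (hik : i ≠ k) (hjk : j ≠ k)
    (hi : ∃ u ∈ S, f i u = 2 ∧ f j u ≠ 2 ∧ f k u ≠ 2)
    (hj : ∃ u ∈ S, f j u = 2 ∧ f i u ≠ 2 ∧ f k u ≠ 2)
    (hk : ∃ u ∈ S, f k u = 2 ∧ f i u ≠ 2 ∧ f j u ≠ 2) :
    (st f S i 0).card * (st f S i 1).card ≤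
      (case3_T f S j i k).card * (case3_T f S k i j).card ∧
    (case3_T f S j i k).card + (case3_T f S k i j).card ≤
      (st f S i 0).card + (st f S i 1).card := by
  obtain ⟨u0, hu0, u1, u2, u3⟩ := hi
  obtain ⟨v0, hv0, v1, v2, v3⟩ := hj
  obtain ⟨w0, hw0, w1, w2, w3⟩ := hk
  -- classification
  have hcl : ∀ w ∈ S, f i w ≠ 2 → w ∈ case3_T f S j i k ∨ w ∈ case3_T f S k i j := by
    intro w hw hiw
    unfold case3_T
    rw [Finset.mem_filter, Finset.mem_filter]
    by_cases a1 : f j w = 2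
    · by_cases a2 : f k w = 2
      · exfalso
        obtain ⟨l, hl⟩ := hC w hw u0 hu0
        rcases case3_three i j k hij hik hjk l with h | h | h
        · rw [h, u1, ok_two_right] at hl
          exact hiw hl
        · rw [h, a1, ok_two_left] at hl
          exact u2 hl
        · rw [h, a2, ok_two_left] at hl
          exact u3 hl
      · exact Or.inl ⟨hw, a1, hiw, a2⟩
    · by_cases a2 : f k w = 2
      · exact Or.inr ⟨hw, a2, hiw, a1⟩
      · exfalso
        obtain ⟨l, hl⟩ := hC w hw w hw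
        rw [ok_self_iff] at hl
        rcases case3_three i j k hij hik hjk l with h | h | h
        · rw [h] at hl
          exact hiw hl
        · rw [h] at hl
          exact a1 hl
        · rw [h] at hl
          exact a2 hl
  have hTj : ∀ w ∈ case3_T f S j i k, f i w = f i v0 := by
    intro w hw
    unfold case3_T at hw
    rw [Finset.mem_filter] at hw
    exact case3_sep (case3_opp hC hij hik hjk hw.1 hw0 hw.2.1 hw.2.2.1 hw.2.2.2 w1 w3)
      (case3_opp hC hij hik hjk hv0 hw0 v1 v2 v3 w1 w3)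
  have hTk : ∀ w ∈ case3_T f S k i j, f i w = f i w0 := by
    intro w hw
    unfold case3_T at hw
    rw [Finset.mem_filter] at hw
    exact case3_sep (case3_opp hC hik hij hjk.symm hw.1 hv0 hw.2.1 hw.2.2.1 hw.2.2.2 v1 v3)
      (case3_opp hC hik hij hjk.symm hw0 hv0 w1 w2 w3 v1 v3)
  have hsep := case3_opp hC hij hik hjk hv0 hw0 v1 v2 v3 w1 w3
  have hne : f i v0 ≠ f i w0 := by
    intro h
    rw [h] at hsep
    exact not_sep_self _ hsep
  have e1 : st f S i (f i v0) = case3_T f S j i k := by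
    ext w
    constructor
    · intro hw
      rw [mem_st] at hw
      rcases hcl w hw.1 (by rw [hw.2]; exact v2) with h | h
      · exact h
      · exact absurd (hw.2.symm.trans (hTk w h)) hne
    · intro hw
      rw [mem_st]
      exact ⟨(Finset.mem_filter.1 hw).1, hTj w hw⟩
  have e2 : st f S i (f i w0) = case3_T f S k i j := by
    ext w
    constructor
    · intro hw
      rw [mem_st] at hw
      rcases hcl w hw.1 (by rw [hw.2]; exact w2) with h | h
      · exact absurd ((hTj w h).symm.trans hw.2) hne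
      · exact h
    · intro hw
      rw [mem_st]
      exact ⟨(Finset.mem_filter.1 hw).1, hTk w hw⟩
  rcases case3_sep01 hsep with ⟨a, b⟩ | ⟨a, b⟩
  · rw [a] at e1
    rw [b] at e2
    rw [e1, e2]
    exact ⟨le_rfl, le_rfl⟩
  · rw [a] at e1
    rw [b] at e2
    rw [e1, e2]
    exact ⟨(mul_comm _ _).le, (add_comm _ _).le⟩

private theorem case3_num (n s t0 t1 t2 p0 p1 p2 y0 y1 y2 : ℝ) (hn : 0 < n)
    (hs1 : (4 - 28 * eta) * n ≤ s) (hs2 : s ≤ 4 * n) (h0 : 0 ≤ t0) (h1 : 0 ≤ t1) (h2 : 0 ≤ t2)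
    (hT : t0 + t1 + t2 ≤ s) (hp0 : p0 ≤ t1 * t2) (hp1 : p1 ≤ t0 * t2) (hp2 : p2 ≤ t0 * t1)
    (hy0 : t1 + t2 ≤ y0) (hy1 : t0 + t2 ≤ y1) (hy2 : t0 + t1 ≤ y2)
    (h : s ^ 2 ≤ n * (3 * s - y0 - y1 - y2) + 4 * eta * n ^ 2 + 2 * (p0 + p1 + p2)) : False := by
  rw [eta_eq] at *
  have hs0 : 0 ≤ s := by nlinarith
  have q5 : (4 - 140 / 1000000) * n ^ 2 ≤ s ^ 2 - 3 * n * s := by
    have w1 : 0 ≤ (s - (4 - 28 / 1000000) * n) * (s + (1 - 28 / 1000000) * n) := by
      refine mul_nonneg (by linarith) ?_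
      nlinarith
    nlinarith
  set T := t0 + t1 + t2 with hTdef
  have hT0 : 0 ≤ T := by positivity
  have q6 : 3 * (t1 * t2 + t0 * t2 + t0 * t1) ≤ T ^ 2 := by
    rw [hTdef]
    nlinarith [sq_nonneg (t0 - t1), sq_nonneg (t0 - t2), sq_nonneg (t1 - t2)]
  have q7 : n * (y0 + y1 + y2) ≥ n * (2 * T) := by
    refine mul_le_mul_of_nonneg_left ?_ hn.le
    rw [hTdef]
    linarith
  have q8 : (4 - 144 / 1000000) * n ^ 2 ≤ 2 / 3 * T ^ 2 - 2 * n * T := by nlinarith
  have q9 : T * (4 * n - T) ≥ 0 := mul_nonneg hT0 (by linarith)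
  nlinarith [mul_pos hn hn]

theorem case3 (h1 : CountStmt) (h2 : UnionStmt) : Case3Stmt := by
  intro V n S0 c f S hB hT0 hT1 hT2
  have hctx := hB.ctx
  have hbig := hctx.big_real
  have hnpos : (0 : ℝ) < n := by linarith [show (0 : ℝ) < 10 ^ 8 by norm_num]
  have n01 : (0 : Fin 3) ≠ 1 := by decide
  have n02 : (0 : Fin 3) ≠ 2 := by decide
  have n12 : (1 : Fin 3) ≠ 2 := by decide
  have hC := hB.compat
  have hsw : ∀ {i j k : Fin 3}, (∃ u ∈ S, f i u = 2 ∧ f j u ≠ 2 ∧ f k u ≠ 2) →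
      ∃ u ∈ S, f i u = 2 ∧ f k u ≠ 2 ∧ f j u ≠ 2 := by
    rintro i j k ⟨u, hu, a, b, d⟩
    exact ⟨u, hu, a, d, b⟩
  obtain ⟨p0, s0⟩ := case3_prod hC n01 n02 n12 hT0 hT1 hT2
  obtain ⟨p1, s1⟩ := case3_prod hC n01.symm n12 n02 hT1 hT0 (hsw hT2)
  obtain ⟨p2, s2⟩ := case3_prod hC n02.symm n12.symm n01 hT2 (hsw hT0) (hsw hT1)
  rw [case3_Tcomm f S 0 2 1] at p2 s2
  rw [case3_Tcomm f S 2 1 0] at p1 s1
  rw [case3_Tcomm f S 1 2 0] at p2 s2
  set T0 := case3_T f S 0 1 2 with hT0d
  set T1 := case3_T f S 1 0 2 with hT1d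
  set T2 := case3_T f S 2 0 1 with hT2d
  -- disjointness
  have hd : T0.card + T1.card + T2.card ≤ S.card := by
    have d01 : Disjoint T0 T1 := by
      rw [Finset.disjoint_left]
      intro v hv hv'
      rw [hT0d, case3_T, Finset.mem_filter] at hv
      rw [hT1d, case3_T, Finset.mem_filter] at hv'
      exact hv'.2.2.1 hv.2.1
    have d2 : Disjoint (T0 ∪ T1) T2 := by
      rw [Finset.disjoint_left]
      intro v hv hv'
      rw [hT2d, case3_T, Finset.mem_filter] at hv'
      rw [Finset.mem_union] at hv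
      rcases hv with hv | hv
      · rw [hT0d, case3_T, Finset.mem_filter] at hv
        exact hv'.2.2.1 hv.2.1
      · rw [hT1d, case3_T, Finset.mem_filter] at hv
        exact hv'.2.2.2 hv.2.1
    rw [← Finset.card_union_of_disjoint d01, ← Finset.card_union_of_disjoint d2]
    refine Finset.card_le_card ?_
    refine Finset.union_subset (Finset.union_subset ?_ ?_) ?_ <;> exact Finset.filter_subset _ _
  have e1 := h1 V n S0 c f hctx S hB.sub
  have e2 := h2 V f S
  have ci := st_card f S 0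
  have cj := st_card f S 1
  have ck := st_card f S 2
  have hS4 : (S.card : ℝ) ≤ 4 * n := by
    have t1 := Finset.card_le_card hB.sub
    have t2 := hctx.card
    have t3 : S.card ≤ 4 * n := by omega
    exact_mod_cast t3
  have t2 : ((st f S 0 0).card : ℝ) + (st f S 0 1).card + (st f S 0 2).card = S.card := by
    exact_mod_cast ci
  have t3 : ((st f S 1 0).card : ℝ) + (st f S 1 1).card + (st f S 1 2).card = S.card := by
    exact_mod_cast cj
  have t4 : ((st f S 2 0).card : ℝ) + (st f S 2 1).card + (st f S 2 2).card = S.card := by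
    exact_mod_cast ck
  have e2' : (S.card : ℝ) ^ 2 ≤ nsep f S + 2 * ((st f S 0 0).card * (st f S 0 1).card +
      (st f S 1 0).card * (st f S 1 1).card + (st f S 2 0).card * (st f S 2 1).card : ℝ) := by
    exact_mod_cast e2
  have e5 : ((st f S 0 2).card : ℝ) + (st f S 1 2).card + (st f S 2 2).card =
      3 * S.card - ((st f S 0 0).card + (st f S 0 1).card) -
        ((st f S 1 0).card + (st f S 1 1).card) - ((st f S 2 0).card + (st f S 2 1).card) := by
    linarith
  rw [e5] at e1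
  refine case3_num n S.card T0.card T1.card T2.card
    ((st f S 0 0).card * (st f S 0 1).card) ((st f S 1 0).card * (st f S 1 1).card)
    ((st f S 2 0).card * (st f S 2 1).card) ((st f S 0 0).card + (st f S 0 1).card)
    ((st f S 1 0).card + (st f S 1 1).card) ((st f S 2 0).card + (st f S 2 1).card) hnpos
    hB.card hS4 (Nat.cast_nonneg _) (Nat.cast_nonneg _) (Nat.cast_nonneg _)
    (by exact_mod_cast hd) (by exact_mod_cast p0) (by exact_mod_cast p1) (by exact_mod_cast p2)
    (by exact_mod_cast s0) (by exact_mod_cast s1) (by exact_mod_cast s2) (by linarith)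

end Pool.Agent.Lib.MP_22c8c7_co.Odd
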