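import Mathlib
import Pool.Agent.Lib.MP_22c8c7_co.Odd.Basic
import Pool.Agent.Lib.MP_22c8c7_co.Short

set_option autoImplicit false

namespace Pool.Agent.Lib.MP_22c8c7_co.Odd

open Finset
open scoped Classical

/-- Adjacent and non-adjacent pairs of `Q`. -/
private theorem clash_non {V : Type} (r : V → V → Prop) (Q : Finset V) :
    ∑ v ∈ Q, (Q.filter (fun u => ¬ r v u)).card + ds r Q = Q.card ^ 2 := by
  unfold ds
  rw [← Finset.sum_add_distrib]
  have : ∀ v ∈ Q, (Q.filter (fun u => ¬ r v u)).card + dg r Q v = Q.card := by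
    intro v _
    unfold dg
    rw [add_comm]
    exact Finset.card_filter_add_card_filter_not (s := Q) (fun u => r v u)
  rw [Finset.sum_congr rfl this, Finset.sum_const, smul_eq_mul, sq]

private theorem clash_half (h1 : NCStmt) {V : Type} (n : ℕ) (S0 : Finset V) (r : V → V → Prop)
    (hs : ∀ a b, r a b → r b a) (hi : ∀ a, ¬ r a a) (hn : 10 ^ 8 ≤ n) (Q B A : Finset V)
    (hQ : Q ⊆ S0) (hB : B ⊆ S0) (hd : Disjoint Q B) (hA : A ⊆ Q)
    (hq1 : (1 - 20000 * eta) * n ≤ Q.card) (hqn : Q.card ≤ n) (hbn : B.card ≤ n)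
    (hq : (Q.card : ℝ) ^ 2 ≤ ds r Q + 2001 * eta * (n : ℝ) ^ 2)
    (hab : (4 / 10) * (n : ℝ) ^ 2 ≤ ee r A B) : ∃ z, CycIn r S0 z n := by
  rw [eta_eq] at hq1 hq
  have hn0 : (10 : ℝ) ^ 8 ≤ n := by exact_mod_cast hn
  have hnpos : (0 : ℝ) < n := by linarith [show (0 : ℝ) < 10 ^ 8 by norm_num]
  set Q1 := Q.filter (fun v => 10 * (Q.filter (fun u => ¬ r v u)).card ≤ n) with hQ1
  have hQ1Q : Q1 ⊆ Q := Finset.filter_subset _ _
  -- few vertices outside the core
  have e1 : n * (Q \ Q1).card ≤ 10 * ∑ v ∈ Q, (Q.filter (fun u => ¬ r v u)).card := by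
    calc n * (Q \ Q1).card = ∑ _v ∈ Q \ Q1, n := by rw [Finset.sum_const, smul_eq_mul, mul_comm]
      _ ≤ ∑ v ∈ Q \ Q1, 10 * (Q.filter (fun u => ¬ r v u)).card := by
          refine Finset.sum_le_sum fun v hv => ?_
          rw [Finset.mem_sdiff] at hv
          by_contra hcon
          exact hv.2 (Finset.mem_filter.2 ⟨hv.1, by omega⟩)
      _ ≤ ∑ v ∈ Q, 10 * (Q.filter (fun u => ¬ r v u)).card :=
          Finset.sum_le_sum_of_subset Finset.sdiff_subset
      _ = 10 * ∑ v ∈ Q, (Q.filter (fun u => ¬ r v u)).card := by rw [Finset.mul_sum]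
  have e2 := clash_non r Q
  have e1' : (n : ℝ) * ((Q \ Q1).card : ℝ) ≤
      10 * ((∑ v ∈ Q, (Q.filter (fun u => ¬ r v u)).card : ℕ) : ℝ) := by exact_mod_cast e1
  have e2' : ((∑ v ∈ Q, (Q.filter (fun u => ¬ r v u)).card : ℕ) : ℝ) + (ds r Q : ℝ) =
      (Q.card : ℝ) ^ 2 := by exact_mod_cast e2
  have e3 : ((Q \ Q1).card : ℝ) ≤ 0.02001 * n := by
    have : (n : ℝ) * ((Q \ Q1).card : ℝ) ≤ n * (0.02001 * n) := by nlinarith
    exact le_of_mul_le_mul_left this hnpos
  have e4 : (Q1.card : ℝ) + ((Q \ Q1).card : ℝ) = Q.card := by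
    have := Finset.card_sdiff_add_card_eq_card hQ1Q
    have h' : (((Q \ Q1).card + Q1.card : ℕ) : ℝ) = (Q.card : ℝ) := by rw [this]
    push_cast at h'
    linarith
  have hQ1c : 0.95 * (n : ℝ) ≤ Q1.card := by linarith
  have hNCl : NCl r n Q1 := by
    intro v hv
    refine le_trans ?_ (Finset.mem_filter.1 hv).2
    exact Nat.mul_le_mul_left 10 (Finset.card_le_card (Finset.filter_subset_filter _ hQ1Q))
  -- the attached vertices
  set U := B.filter (fun b => n ≤ 4 * dg r Q1 b) with hU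
  have hUB : U ⊆ B := Finset.filter_subset _ _
  have f1 : ee r A B ≤ ∑ b ∈ B, dg r Q1 b + B.card * (Q \ Q1).card := by
    rw [ee_comm hs]
    unfold ee
    calc ∑ b ∈ B, dg r A b ≤ ∑ b ∈ B, (dg r Q1 b + (Q \ Q1).card) := by
          refine Finset.sum_le_sum fun b _ => ?_
          calc dg r A b ≤ dg r Q b := count_dg_mono r hA b
            _ = dg r Q1 b + dg r (Q \ Q1) b := count_dg_split r Q Q1 hQ1Q b
            _ ≤ dg r Q1 b + (Q \ Q1).card := Nat.add_le_add_left (dg_le_card r _ b) _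
      _ = ∑ b ∈ B, dg r Q1 b + B.card * (Q \ Q1).card := by
          rw [Finset.sum_add_distrib, Finset.sum_const, smul_eq_mul]
  have f2 : (∑ b ∈ B, (dg r Q1 b : ℝ)) ≤ (U.card : ℝ) * n + (n : ℝ) * (n / 4) := by
    rw [← Finset.sum_sdiff hUB, add_comm]
    refine add_le_add ?_ ?_
    · calc ∑ b ∈ U, (dg r Q1 b : ℝ) ≤ ∑ _b ∈ U, (n : ℝ) := by
            refine Finset.sum_le_sum fun b _ => ?_
            have : dg r Q1 b ≤ n :=
              (dg_le_card r _ b).trans ((Finset.card_le_card hQ1Q).trans hqn)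
            exact_mod_cast this
        _ = (U.card : ℝ) * n := by rw [Finset.sum_const, nsmul_eq_mul]
    · calc ∑ b ∈ B \ U, (dg r Q1 b : ℝ) ≤ ∑ _b ∈ B \ U, (n : ℝ) / 4 := by
            refine Finset.sum_le_sum fun b hb => ?_
            rw [Finset.mem_sdiff] at hb
            have h3 : ¬ n ≤ 4 * dg r Q1 b := fun h => hb.2 (Finset.mem_filter.2 ⟨hb.1, h⟩)
            have h4 : 4 * dg r Q1 b ≤ n := by omega
            have h5 : 4 * (dg r Q1 b : ℝ) ≤ n := by exact_mod_cast h4
            linarith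
        _ = ((B \ U).card : ℝ) * (n / 4) := by rw [Finset.sum_const, nsmul_eq_mul]
        _ ≤ (n : ℝ) * (n / 4) := by
            refine mul_le_mul_of_nonneg_right ?_ (by positivity)
            exact_mod_cast (Finset.card_le_card Finset.sdiff_subset).trans hbn
  have f1' : (ee r A B : ℝ) ≤ ∑ b ∈ B, (dg r Q1 b : ℝ) + (B.card : ℝ) * ((Q \ Q1).card : ℝ) := by
    exact_mod_cast f1
  have f3 : (B.card : ℝ) * ((Q \ Q1).card : ℝ) ≤ n * (0.02001 * n) := by
    refine mul_le_mul (by exact_mod_cast hbn) e3 (Nat.cast_nonneg _) hnpos.le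
  have f4 : 0.12 * (n : ℝ) ≤ U.card := by
    have : (0.12 * (n : ℝ)) * n ≤ U.card * n := by nlinarith
    exact le_of_mul_le_mul_right this hnpos
  have f5 : n ≤ Q1.card + U.card := by
    have : (n : ℝ) ≤ (Q1.card : ℝ) + U.card := by linarith
    exact_mod_cast this
  have f6 : 9 * n ≤ 10 * Q1.card := by
    have : (9 : ℝ) * n ≤ 10 * (Q1.card : ℝ) := by linarith
    exact_mod_cast this
  obtain ⟨z, hz⟩ := h1 V r hs hi n Q1 U (by omega) hNCl f6
    (Finset.disjoint_of_subset_left hQ1Q (Finset.disjoint_of_subset_right hUB hd))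
    (fun u hu => (Finset.mem_filter.1 hu).2) f5
  exact ⟨z, hz.mono (Finset.union_subset (hQ1Q.trans hQ) (hUB.trans hB))⟩

/-- Every pair of disjoint sets has one of three colours. -/
private theorem clash_three {V : Type} (c : V → V → Fin 3) (i j k : Fin 3) (hij : i ≠ j)
    (hik : i ≠ k) (hjk : j ≠ k) (A B : Finset V) (hd : Disjoint A B) :
    A.card * B.card ≤ ee (rel c i) A B + ee (rel c j) A B + ee (rel c k) A B := by
  unfold ee
  rw [← Finset.sum_add_distrib, ← Finset.sum_add_distrib]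
  have : ∀ v ∈ A, B.card ≤ dg (rel c i) B v + dg (rel c j) B v + dg (rel c k) B v := by
    intro v hv
    unfold dg
    have h : B ⊆ (B.filter (fun u => rel c i v u) ∪ B.filter (fun u => rel c j v u)) ∪
        B.filter (fun u => rel c k v u) := by
      intro u hu
      have hne : v ≠ u := fun h => Finset.disjoint_left.1 hd hv (h ▸ hu)
      have h3 : ∀ x : Fin 3, x = i ∨ x = j ∨ x = k := by
        revert hij hik hjk
        revert i j k
        decide
      simp only [Finset.mem_union, Finset.mem_filter]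
      rcases h3 (c v u) with h | h | h
      · exact Or.inl (Or.inl ⟨hu, hne, h⟩)
      · exact Or.inl (Or.inr ⟨hu, hne, h⟩)
      · exact Or.inr ⟨hu, hne, h⟩
    refine (Finset.card_le_card h).trans ?_
    refine (Finset.card_union_le _ _).trans ?_
    exact Nat.add_le_add_right (Finset.card_union_le _ _) _
  calc A.card * B.card = ∑ _v ∈ A, B.card := by rw [Finset.sum_const, smul_eq_mul]
    _ ≤ _ := Finset.sum_le_sum this

theorem clash (h1 : NCStmt) : ClashStmt := by
  intro V n S0 c hc hn i j k hij hik hjk Q Q' hQ hQ' hq1 hqn hq1' hqn' hq hq' hk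
  have hn0 : (10 : ℝ) ^ 8 ≤ n := by exact_mod_cast hn
  have hnpos : (0 : ℝ) < n := by linarith [show (0 : ℝ) < 10 ^ 8 by norm_num]
  -- the intersection is small
  set D := Q ∩ Q' with hD
  have a1 : D.card ^ 2 ≤ ∑ v ∈ Q, (Q.filter (fun u => ¬ rel c i v u)).card +
      ∑ v ∈ Q', (Q'.filter (fun u => ¬ rel c j v u)).card := by
    calc D.card ^ 2 = ∑ _v ∈ D, D.card := by rw [Finset.sum_const, smul_eq_mul, sq]
      _ ≤ ∑ v ∈ D, ((Q.filter (fun u => ¬ rel c i v u)).card +
            (Q'.filter (fun u => ¬ rel c j v u)).card) := by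
          refine Finset.sum_le_sum fun v _ => ?_
          refine le_trans (Finset.card_le_card ?_) (Finset.card_union_le _ _)
          intro u hu
          rw [hD, Finset.mem_inter] at hu
          rw [Finset.mem_union, Finset.mem_filter, Finset.mem_filter]
          by_cases h : rel c i v u
          · refine Or.inr ⟨hu.2, fun h' => hij ?_⟩
            rw [← h.2, ← h'.2]
          · exact Or.inl ⟨hu.1, h⟩
      _ = ∑ v ∈ D, (Q.filter (fun u => ¬ rel c i v u)).card +
            ∑ v ∈ D, (Q'.filter (fun u => ¬ rel c j v u)).card := Finset.sum_add_distrib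
      _ ≤ _ := Nat.add_le_add (Finset.sum_le_sum_of_subset Finset.inter_subset_left)
            (Finset.sum_le_sum_of_subset Finset.inter_subset_right)
  have a2 := clash_non (rel c i) Q
  have a3 := clash_non (rel c j) Q'
  have hqe := hq
  have hqe' := hq'
  rw [eta_eq] at hqe hqe'
  have a4 : (D.card : ℝ) ^ 2 ≤ 0.004002 * (n : ℝ) ^ 2 := by
    have b1 : (D.card : ℝ) ^ 2 ≤
        ((∑ v ∈ Q, (Q.filter (fun u => ¬ rel c i v u)).card : ℕ) : ℝ) +
        ((∑ v ∈ Q', (Q'.filter (fun u => ¬ rel c j v u)).card : ℕ) : ℝ) := by exact_mod_cast a1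
    have b2 : ((∑ v ∈ Q, (Q.filter (fun u => ¬ rel c i v u)).card : ℕ) : ℝ) +
        (ds (rel c i) Q : ℝ) = (Q.card : ℝ) ^ 2 := by exact_mod_cast a2
    have b3 : ((∑ v ∈ Q', (Q'.filter (fun u => ¬ rel c j v u)).card : ℕ) : ℝ) +
        (ds (rel c j) Q' : ℝ) = (Q'.card : ℝ) ^ 2 := by exact_mod_cast a3
    linarith
  have a5 : (D.card : ℝ) ≤ 0.0634 * n := by
    refine abs_le_of_sq_le_sq' ?_ (by positivity) |>.2
    nlinarith
  set A := Q \ Q' with hA
  set B := Q' \ Q with hB
  have c1 : (A.card : ℝ) + D.card = Q.card := by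
    have := Finset.card_inter_add_card_sdiff Q Q'
    have h' : ((D.card + A.card : ℕ) : ℝ) = (Q.card : ℝ) := by rw [← this]
    push_cast at h'
    linarith
  have c2 : (B.card : ℝ) + D.card = Q'.card := by
    have := Finset.card_inter_add_card_sdiff Q' Q
    rw [Finset.inter_comm] at this
    have h' : ((D.card + B.card : ℕ) : ℝ) = (Q'.card : ℝ) := by rw [← this]
    push_cast at h'
    linarith
  rw [eta_eq] at hq1 hq1'
  have c3 : 0.916 * (n : ℝ) ≤ A.card := by linarith
  have c4 : 0.916 * (n : ℝ) ≤ B.card := by linarith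
  have hdis : Disjoint A B := by
    rw [Finset.disjoint_left]
    intro v hv hv'
    rw [hA, Finset.mem_sdiff] at hv
    rw [hB, Finset.mem_sdiff] at hv'
    exact hv'.2 hv.1
  have d1 := clash_three c i j k hij hik hjk A B hdis
  have d1' : (A.card : ℝ) * B.card ≤ (ee (rel c i) A B : ℝ) + ee (rel c j) A B +
      ee (rel c k) A B := by exact_mod_cast d1
  have d2 : (ee (rel c k) A B : ℝ) ≤ (n : ℝ) ^ 2 / 1000 := by
    refine le_trans ?_ hk
    exact_mod_cast ee_mono (rel c k) Finset.sdiff_subset Finset.sdiff_subset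
  have d3 : (0.916 * (n : ℝ)) * (0.916 * n) ≤ (A.card : ℝ) * B.card :=
    mul_le_mul c3 c4 (by positivity) (Nat.cast_nonneg _)
  have hq1r : (1 - 20000 * eta) * n ≤ Q.card := by rw [eta_eq]; exact hq1
  have hq1r' : (1 - 20000 * eta) * n ≤ Q'.card := by rw [eta_eq]; exact hq1'
  by_cases hcase : (4 / 10) * (n : ℝ) ^ 2 ≤ ee (rel c i) A B
  · obtain ⟨z, hz⟩ := clash_half h1 n S0 (rel c i) (rel_symm hc i) (rel_irrefl c i) hn Q B A hQ
      (Finset.sdiff_subset.trans hQ') Finset.disjoint_sdiff Finset.sdiff_subset hq1r hqn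
      ((Finset.card_le_card Finset.sdiff_subset).trans hqn') hq hcase
    exact ⟨i, z, hz⟩
  · have hcase' : (4 / 10) * (n : ℝ) ^ 2 ≤ ee (rel c j) B A := by
      rw [ee_comm (rel_symm hc j)]
      push Not at hcase
      have : (0 : ℝ) ≤ (n : ℝ) ^ 2 := by positivity
      nlinarith
    obtain ⟨z, hz⟩ := clash_half h1 n S0 (rel c j) (rel_symm hc j) (rel_irrefl c j) hn Q' A B hQ'
      (Finset.sdiff_subset.trans hQ) Finset.disjoint_sdiff Finset.sdiff_subset hq1r' hqn'
      ((Finset.card_le_card Finset.sdiff_subset).trans hqn) hq' hcase'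
    exact ⟨j, z, hz⟩

end Pool.Agent.Lib.MP_22c8c7_co.Odd
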