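import Mathlib
import Pool.Agent.Lib.MP_22c8c7_co.Odd.Basic

set_option autoImplicit false

namespace Pool.Agent.Lib.MP_22c8c7_co.Odd

open Finset
open scoped Classical

private noncomputable def compatM_cell {V : Type} (S0 : Finset V) (f : Fin 3 → V → Fin 3)
    (v : V) : Finset V := S0.filter (fun u => ∀ i, f i u = f i v)

theorem compatM : CompatStmt := by
  intro V n S0 c f hctx
  have hbig := hctx.big_real
  have hcard := hctx.card_real
  have hη := eta_pos
  have hηn : (100 : ℝ) ≤ eta * n := by
    rw [eta_eq]
    linarith [show (10 : ℝ) ^ 8 = 100000000 by norm_num]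
  set S := S0.filter (fun v => eta * n < ((compatM_cell S0 f v).card : ℝ)) with hS
  refine ⟨S, hctx, Finset.filter_subset _ _, ?_, ?_⟩
  · -- few vertices are deleted
    have hfib : ∀ s : Fin 3 → Fin 3,
        (((S0 \ S).filter (fun v => (fun i => f i v) = s)).card : ℝ) ≤ eta * n := by
      intro s
      by_cases h : ((S0 \ S).filter (fun v => (fun i => f i v) = s)).Nonempty
      · obtain ⟨v, hv⟩ := h
        rw [Finset.mem_filter, Finset.mem_sdiff] at hv
        have h1 : ¬ eta * n < ((compatM_cell S0 f v).card : ℝ) := by
          intro h'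
          exact hv.1.2 (Finset.mem_filter.2 ⟨hv.1.1, h'⟩)
        push Not at h1
        refine le_trans ?_ h1
        have h2 : (S0 \ S).filter (fun v => (fun i => f i v) = s) ⊆ compatM_cell S0 f v := by
          intro u hu
          rw [Finset.mem_filter, Finset.mem_sdiff] at hu
          unfold compatM_cell
          rw [Finset.mem_filter]
          refine ⟨hu.1.1, fun i => ?_⟩
          exact congrFun (hu.2.trans hv.2.symm) i
        exact_mod_cast Finset.card_le_card h2
      · rw [Finset.not_nonempty_iff_eq_empty] at h
        rw [h, Finset.card_empty]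
        push_cast
        linarith
    have h1 := Finset.card_eq_sum_card_fiberwise (f := fun (v : V) (i : Fin 3) => f i v)
      (s := S0 \ S) (t := (univ : Finset (Fin 3 → Fin 3)))
      (fun v _ => Finset.mem_coe.2 (Finset.mem_univ _))
    have h2 : ((S0 \ S).card : ℝ) ≤ 27 * (eta * n) := by
      rw [h1]
      push_cast
      calc ∑ s : Fin 3 → Fin 3, (((S0 \ S).filter (fun v => (fun i => f i v) = s)).card : ℝ)
          ≤ ∑ _s : Fin 3 → Fin 3, eta * n := Finset.sum_le_sum fun s _ => hfib s
        _ = 27 * (eta * n) := by
            rw [Finset.sum_const, Finset.card_univ, nsmul_eq_mul]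
            simp
    have h3 : ((S0 \ S).card : ℝ) + S.card = S0.card := by
      have := Finset.card_sdiff_add_card_eq_card (Finset.filter_subset
        (fun v => eta * n < ((compatM_cell S0 f v).card : ℝ)) S0)
      have h' : (((S0 \ S).card + S.card : ℕ) : ℝ) = (S0.card : ℝ) := by rw [← this]
      push_cast at h'
      linarith
    linarith
  · -- compatibility
    intro u hu v hv
    by_contra hcon
    push Not at hcon
    have hu' := (Finset.mem_filter.1 hu).2
    have hv' := (Finset.mem_filter.1 hv).2
    set X := compatM_cell S0 f u with hX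
    set X' := compatM_cell S0 f v with hX'
    have mX : ∀ a ∈ X, a ∈ S0 ∧ ∀ i, f i a = f i u := fun a ha => Finset.mem_filter.1 ha
    have mX' : ∀ a ∈ X', a ∈ S0 ∧ ∀ i, f i a = f i v := fun a ha => Finset.mem_filter.1 ha
    set B := (X ×ˢ X').filter (fun p => p.1 ≠ p.2) with hB
    have h1 := bad_all hctx B
      (by
        intro p hp
        rw [hB, Finset.mem_filter, Finset.mem_product] at hp
        exact Finset.mem_product.2 ⟨(mX _ hp.1.1).1, (mX' _ hp.1.2).1⟩)
      (by
        intro p hp
        rw [hB, Finset.mem_filter, Finset.mem_product] at hp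
        refine ⟨hp.2, ?_⟩
        rw [(mX _ hp.1.1).2, (mX' _ hp.1.2).2]
        exact hcon _)
    have h2 : X ×ˢ X' ⊆ X.image (fun u => (u, u)) ∪ B := by
      intro p hp
      have hp' := Finset.mem_product.1 hp
      rw [Finset.mem_union]
      by_cases h : p.1 = p.2
      · left
        rw [Finset.mem_image]
        exact ⟨p.1, hp'.1, Prod.ext rfl h⟩
      · right
        rw [hB, Finset.mem_filter]
        exact ⟨hp, h⟩
    have h3 : X.card * X'.card ≤ X.card + B.card := by
      rw [← Finset.card_product]
      exact (Finset.card_le_card h2).trans ((Finset.card_union_le _ _).trans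
        (Nat.add_le_add_right Finset.card_image_le _))
    have h3' : (X.card : ℝ) * X'.card ≤ X.card + B.card := by exact_mod_cast h3
    have h4 : eta * n * (eta * n - 1) ≤ (X.card : ℝ) * (X'.card - 1) :=
      mul_le_mul hu'.le (by linarith) (by linarith) (Nat.cast_nonneg _)
    nlinarith

end Pool.Agent.Lib.MP_22c8c7_co.Odd
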