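import Mathlib
import Pool.Agent.Lib.MP_22c8c7_co.Odd.Basic

/-! The cores (docstring of `CoreStmt` in `Odd/Spec.lean`). -/

set_option autoImplicit false

namespace Pool.Agent.Lib.MP_22c8c7_co.Odd

open Finset
open scoped Classical

/-- The number of vertices with many wrong partners. -/
private theorem coreM_one {V : Type} (n : ℕ) (hn : 0 < n) (X Z : Finset V) (B : V → V → Prop)
    (h : 500 * ((X ×ˢ Z).filter (fun p => B p.1 p.2)).card ≤ n ^ 2) :
    50 * (X.filter (fun u => n < 10 * (Z.filter (fun v => B u v)).card)).card ≤ n := by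
  have h1 : ((X ×ˢ Z).filter (fun p => B p.1 p.2)).card =
      ∑ u ∈ X, (Z.filter (fun v => B u v)).card := by
    rw [Finset.card_filter, Finset.sum_product]
    refine Finset.sum_congr rfl fun v _ => ?_
    rw [Finset.card_filter]
  rw [h1] at h
  set W := X.filter (fun u => n < 10 * (Z.filter (fun v => B u v)).card) with hW
  have h2 : W.card * n ≤ 10 * ∑ u ∈ X, (Z.filter (fun v => B u v)).card := by
    calc W.card * n = ∑ _u ∈ W, n := by rw [Finset.sum_const, smul_eq_mul]
      _ ≤ ∑ u ∈ W, 10 * (Z.filter (fun v => B u v)).card := by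
          refine Finset.sum_le_sum fun u hu => ?_
          rw [hW, Finset.mem_filter] at hu
          exact hu.2.le
      _ = 10 * ∑ u ∈ W, (Z.filter (fun v => B u v)).card := by rw [Finset.mul_sum]
      _ ≤ 10 * ∑ u ∈ X, (Z.filter (fun v => B u v)).card :=
          Nat.mul_le_mul_left _ (Finset.sum_le_sum_of_subset (Finset.filter_subset _ _))
  have h3 : (50 * W.card) * n ≤ n * n := by
    have e1 : (50 * W.card) * n = 50 * (W.card * n) := by ring
    have e2 : n * n = n ^ 2 := by ring
    rw [e1, e2]
    omega
  exact Nat.le_of_mul_le_mul_right h3 hn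

theorem coreM : CoreStmt := by
  intro V n Q B hQ hB
  refine ⟨fun a b => (Q a b).filter (fun u => ∀ a' b',
    10 * ((Q a' b').filter (fun v => B a b a' b' u v)).card ≤ n), ?_, ?_, ?_⟩
  · intro a b
    exact Finset.filter_subset _ _
  · intro a b
    rcases Nat.eq_zero_or_pos n with rfl | hn
    · omega
    · have h1 : Q a b ⊆ (Q a b).filter (fun u => ∀ a' b',
          10 * ((Q a' b').filter (fun v => B a b a' b' u v)).card ≤ n) ∪
          (univ : Finset (Fin 2 × Fin 2)).biUnion (fun p => (Q a b).filter (fun u =>
            n < 10 * ((Q p.1 p.2).filter (fun v => B a b p.1 p.2 u v)).card)) := by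
        intro u hu
        rw [Finset.mem_union, Finset.mem_filter, Finset.mem_biUnion]
        by_cases h : ∀ a' b', 10 * ((Q a' b').filter (fun v => B a b a' b' u v)).card ≤ n
        · exact Or.inl ⟨hu, h⟩
        · push Not at h
          obtain ⟨a', b', h⟩ := h
          exact Or.inr ⟨(a', b'), Finset.mem_univ _, Finset.mem_filter.2 ⟨hu, h⟩⟩
      have h2 := (Finset.card_le_card h1).trans (Finset.card_union_le _ _)
      have h3 : ((univ : Finset (Fin 2 × Fin 2)).biUnion (fun p => (Q a b).filter (fun u =>
            n < 10 * ((Q p.1 p.2).filter (fun v => B a b p.1 p.2 u v)).card))).card ≤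
          ∑ p : Fin 2 × Fin 2, ((Q a b).filter (fun u =>
            n < 10 * ((Q p.1 p.2).filter (fun v => B a b p.1 p.2 u v)).card)).card :=
        Finset.card_biUnion_le
      have h4 : 50 * ∑ p : Fin 2 × Fin 2, ((Q a b).filter (fun u =>
            n < 10 * ((Q p.1 p.2).filter (fun v => B a b p.1 p.2 u v)).card)).card ≤ 4 * n := by
        rw [Finset.mul_sum]
        refine (Finset.sum_le_card_nsmul _ _ n ?_).trans ?_
        · intro p _
          exact coreM_one n hn (Q a b) (Q p.1 p.2) (B a b p.1 p.2) (hB a b p.1 p.2)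
        · rw [smul_eq_mul, Finset.card_univ, Fintype.card_prod, Fintype.card_fin]
      have h5 := hQ a b
      show 9 * n ≤ 10 * ((Q a b).filter (fun u => ∀ a' b',
        10 * ((Q a' b').filter (fun v => B a b a' b' u v)).card ≤ n)).card
      omega
  · intro a b a' b' u hu
    have h1 := (Finset.mem_filter.1 hu).2 a' b'
    refine le_trans (Nat.mul_le_mul_left _ (Finset.card_le_card ?_)) h1
    exact Finset.filter_subset_filter _ (Finset.filter_subset _ _)

end Pool.Agent.Lib.MP_22c8c7_co.Odd
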