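import Mathlib
import Pool.Agent.Lib.MP_22c8c7_co.Odd.Basic

set_option autoImplicit false

namespace Pool.Agent.Lib.MP_22c8c7_co.Odd

open Finset
open scoped Classical

theorem countM : CountStmt := by
  intro V n S0 c f hctx S hS
  have hbig := hctx.big_real
  have hS4 : (S.card : ℝ) ≤ 4 * n := by
    have t1 := Finset.card_le_card hS
    have t2 := hctx.card
    have t3 : S.card ≤ 4 * n := by omega
    exact_mod_cast t3
  set B := (S ×ˢ S).filter (fun p => p.1 ≠ p.2 ∧ ¬ Ok (f (c p.1 p.2) p.1) (f (c p.1 p.2) p.2))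
    with hB
  have hBc := bad_all hctx B
    (by
      intro p hp
      rw [hB, Finset.mem_filter, Finset.mem_product] at hp
      exact Finset.mem_product.2 ⟨hS hp.1.1, hS hp.1.2⟩)
    (by
      intro p hp
      rw [hB, Finset.mem_filter] at hp
      exact hp.2)
  set L : Fin 3 → Finset (V × V) := fun l =>
    (st f S l 2 ×ˢ st f S l 2).filter (fun p => rel c l p.1 p.2) with hL
  have hLc : ∀ l, ((L l).card : ℝ) ≤ n * (st f S l 2).card + eta * (n : ℝ) ^ 2 := by
    intro l
    rw [hL]
    simp only
    rw [← ee_eq_card, ee_self]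
    exact (hctx.col l).light _ ((st_sub f _ _ _).trans hS) (fun v hv => (mem_st.1 hv).2)
  have hcov : (S ×ˢ S).filter (fun p => ∀ i, ¬ Sep (f i p.1) (f i p.2)) ⊆
      S.image (fun u => (u, u)) ∪ (B ∪ (L 0 ∪ (L 1 ∪ L 2))) := by
    intro p hp
    rw [Finset.mem_filter, Finset.mem_product] at hp
    obtain ⟨⟨p1, p2⟩, p3⟩ := hp
    rw [Finset.mem_union]
    by_cases h : p.1 = p.2
    · left
      rw [Finset.mem_image]
      exact ⟨p.1, p1, Prod.ext rfl h⟩
    · right
      rw [Finset.mem_union]
      by_cases hok : Ok (f (c p.1 p.2) p.1) (f (c p.1 p.2) p.2)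
      · right
        have h2 : f (c p.1 p.2) p.1 = 2 ∧ f (c p.1 p.2) p.2 = 2 := by
          rcases hok with h' | h'
          · exact absurd h' (p3 _)
          · exact h'
        have hmem : p ∈ L (c p.1 p.2) := by
          rw [hL]
          simp only
          rw [Finset.mem_filter, Finset.mem_product, mem_st, mem_st]
          exact ⟨⟨⟨p1, h2.1⟩, ⟨p2, h2.2⟩⟩, h, rfl⟩
        have h3 : ∀ l : Fin 3, p ∈ L l → p ∈ L 0 ∪ (L 1 ∪ L 2) := by
          intro l hl
          rw [Finset.mem_union, Finset.mem_union]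
          fin_cases l
          · exact Or.inl hl
          · exact Or.inr (Or.inl hl)
          · exact Or.inr (Or.inr hl)
        exact h3 _ hmem
      · left
        rw [hB, Finset.mem_filter, Finset.mem_product]
        exact ⟨⟨p1, p2⟩, h, hok⟩
  have hcard : nsep f S ≤ S.card + (B.card + ((L 0).card + ((L 1).card + (L 2).card))) := by
    unfold nsep
    refine (Finset.card_le_card hcov).trans ((Finset.card_union_le _ _).trans ?_)
    refine Nat.add_le_add Finset.card_image_le ((Finset.card_union_le _ _).trans ?_)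
    refine Nat.add_le_add_left ((Finset.card_union_le _ _).trans ?_) _
    exact Nat.add_le_add_left (Finset.card_union_le _ _) _
  have hcard' : (nsep f S : ℝ) ≤
      S.card + (B.card + ((L 0).card + ((L 1).card + (L 2).card))) := by exact_mod_cast hcard
  have l0 := hLc 0
  have l1 := hLc 1
  have l2 := hLc 2
  rw [eta_eq] at *
  nlinarith

end Pool.Agent.Lib.MP_22c8c7_co.Odd
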