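import Mathlib
import Pool.Agent.Lib.MP_22c8c7_co.Odd.Basic

/-! Few light edges between the cells. -/

set_option autoImplicit false

namespace Pool.Agent.Lib.MP_22c8c7_co.Odd

open Finset
open scoped Classical

theorem crossM_bU_left {V : Type} (r : V → V → Prop) (M : ℕ) (T : ℕ → Finset V) (Z : Finset V)
    (hd : ∀ m m', m < M → m' < M → m ≠ m' → Disjoint (T m) (T m')) :
    ee r ((range M).biUnion T) Z = ∑ m ∈ range M, ee r (T m) Z := by
  unfold ee
  rw [Finset.sum_biUnion]
  intro m hm m' hm' hne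
  exact hd m m' (Finset.mem_range.1 hm) (Finset.mem_range.1 hm') hne

/-- The pairs of a cell. -/
theorem crossM_cell {V : Type} {n : ℕ} {S0 : Finset V} {c : V → V → Fin 3} {f : Fin 3 → V → Fin 3}
    (h : Ctx n S0 c f) (i : Fin 3) (Q : Finset V) (hQ : Q ⊆ S0)
    (hcell : ∀ u ∈ Q, ∀ v ∈ Q, ∀ l, l ≠ i → ¬ Ok (f l u) (f l v)) :
    (Q.card : ℝ) ^ 2 ≤ ds (rel c i) Q + Q.card + 3 * (eta ^ 2 / 10 * (n : ℝ) ^ 2) := by
  have h1 : (Q ×ˢ Q).card = ((Q ×ˢ Q).filter (fun p => rel c i p.1 p.2)).card +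
      ((Q ×ˢ Q).filter (fun p => ¬ rel c i p.1 p.2)).card :=
    (Finset.card_filter_add_card_filter_not _).symm
  have h2 : (Q ×ˢ Q).filter (fun p => ¬ rel c i p.1 p.2) ⊆
      Q.diag ∪ (Q ×ˢ Q).filter (fun p => p.1 ≠ p.2 ∧ c p.1 p.2 ≠ i) := by
    intro p hp
    rw [Finset.mem_filter, Finset.mem_product] at hp
    rw [Finset.mem_union, Finset.mem_diag, Finset.mem_filter, Finset.mem_product]
    obtain ⟨⟨hp1, hp2⟩, hp3⟩ := hp
    by_cases hpe : p.1 = p.2
    · exact Or.inl ⟨hp1, hpe⟩
    · exact Or.inr ⟨⟨hp1, hp2⟩, hpe, fun h => hp3 ⟨hpe, h⟩⟩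
  have h3 := (Finset.card_le_card h2).trans (Finset.card_union_le _ _)
  have h4 := bad_all h ((Q ×ˢ Q).filter (fun p => p.1 ≠ p.2 ∧ c p.1 p.2 ≠ i))
    ((Finset.filter_subset _ _).trans (Finset.product_subset_product hQ hQ)) (by
      intro p hp
      rw [Finset.mem_filter, Finset.mem_product] at hp
      exact ⟨hp.2.1, hcell _ hp.1.1 _ hp.1.2 _ hp.2.2⟩)
  rw [Finset.diag_card] at h3
  have h5 : ds (rel c i) Q = ((Q ×ˢ Q).filter (fun p => rel c i p.1 p.2)).card := by
    rw [← ee_self, ee_eq_card]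
  rw [Finset.card_product] at h1
  have h6 : (Q.card : ℝ) * Q.card = (ds (rel c i) Q : ℝ) +
      ((Q ×ˢ Q).filter (fun p => ¬ rel c i p.1 p.2)).card := by
    rw [h5]
    exact_mod_cast h1
  have h7 : (((Q ×ˢ Q).filter (fun p => ¬ rel c i p.1 p.2)).card : ℝ) ≤
      (Q.card : ℝ) + ((Q ×ˢ Q).filter (fun p => p.1 ≠ p.2 ∧ c p.1 p.2 ≠ i)).card := by
    exact_mod_cast h3
  nlinarith [h6, h7, h4]

theorem crossM : CrossStmt := by
  intro V n S0 c f hctx i M T hM hT hd m0 m1 hm0 hm1 hne
  have hn : (10 : ℝ) ^ 8 ≤ n := hctx.big_real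
  have hn0 : (0 : ℝ) < n := lt_of_lt_of_le (by norm_num) hn
  have hη := eta_eq
  have hs := rel_symm hctx.symm i
  set N : ℝ := (n : ℝ) with hN
  -- the union
  set X : Finset V := (range M).biUnion T with hX
  have hXS : X ⊆ S0 := by
    rw [hX, Finset.biUnion_subset]
    exact fun m hm => (hT m (Finset.mem_range.1 hm)).1
  have hX2 : ∀ v ∈ X, f i v = 2 := by
    intro v hv
    rw [hX, Finset.mem_biUnion] at hv
    obtain ⟨m, hm, hv⟩ := hv
    exact (hT m (Finset.mem_range.1 hm)).2.2.1 v hv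
  have hlight := (hctx.col i).light X hXS hX2
  have hcard : X.card = ∑ m ∈ range M, (T m).card := by
    rw [hX, Finset.card_biUnion]
    intro m hm m' hm' hne
    exact hd m m' (Finset.mem_range.1 hm) (Finset.mem_range.1 hm') hne
  have hds : ds (rel c i) X = ∑ m ∈ range M, ∑ m' ∈ range M, ee (rel c i) (T m) (T m') := by
    rw [← ee_self, hX, crossM_bU_left _ _ _ _ hd]
    refine Finset.sum_congr rfl fun m _ => ?_
    rw [ee_comm hs, crossM_bU_left _ _ _ _ hd]
    exact Finset.sum_congr rfl fun m' _ => ee_comm hs _ _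
  -- the lower bound
  have hlow : ∑ m ∈ range M, ds (rel c i) (T m) + 2 * ee (rel c i) (T m0) (T m1) ≤
      ds (rel c i) X := by
    rw [hds]
    have h1 : ∀ m ∈ range M, ds (rel c i) (T m) + ((if m = m0 then ee (rel c i) (T m0) (T m1) else 0)
        + (if m = m1 then ee (rel c i) (T m0) (T m1) else 0)) ≤
        ∑ m' ∈ range M, ee (rel c i) (T m) (T m') := by
      intro m hm
      by_cases h0 : m = m0
      · subst h0
        rw [if_pos rfl, if_neg hne]
        have h2 : ({m, m1} : Finset ℕ) ⊆ range M := by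
          intro x hx
          rw [Finset.mem_insert, Finset.mem_singleton] at hx
          rcases hx with rfl | rfl
          · exact hm
          · exact Finset.mem_range.2 hm1
        have h3 := Finset.sum_le_sum_of_subset (f := fun m' => ee (rel c i) (T m) (T m')) h2
        rw [Finset.sum_pair hne] at h3
        rw [ee_self] at h3
        omega
      · by_cases h1 : m = m1
        · subst h1
          rw [if_neg h0, if_pos rfl]
          have h2 : ({m, m0} : Finset ℕ) ⊆ range M := by
            intro x hx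
            rw [Finset.mem_insert, Finset.mem_singleton] at hx
            rcases hx with rfl | rfl
            · exact hm
            · exact Finset.mem_range.2 hm0
          have h3 := Finset.sum_le_sum_of_subset (f := fun m' => ee (rel c i) (T m) (T m')) h2
          rw [Finset.sum_pair h0] at h3
          rw [ee_self, ee_comm hs (T m) (T m0)] at h3
          omega
        · rw [if_neg h0, if_neg h1]
          have h3 := Finset.single_le_sum (f := fun m' => ee (rel c i) (T m) (T m'))
            (fun _ _ => Nat.zero_le _) hm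
          simp only [ee_self] at h3
          omega
    have h2 := Finset.sum_le_sum h1
    rw [Finset.sum_add_distrib, Finset.sum_add_distrib, Finset.sum_ite_eq', Finset.sum_ite_eq',
      if_pos (Finset.mem_range.2 hm0), if_pos (Finset.mem_range.2 hm1)] at h2
    omega
  -- each cell
  have hcellb : ∀ m ∈ range M, (N * (T m).card - ds (rel c i) (T m) : ℝ) ≤
      430 * eta * N ^ 2 := by
    intro m hm
    obtain ⟨h1, h2, h3, h4⟩ := hT m (Finset.mem_range.1 hm)
    have h5 := crossM_cell hctx i (T m) h1 h4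
    have h6 := (hctx.col i).light (T m) h1 h3
    set x : ℝ := ((T m).card : ℝ) with hx
    set d : ℝ := (ds (rel c i) (T m) : ℝ) with hd
    have hx0 : 0 ≤ x := Nat.cast_nonneg _
    rw [hη] at h2 h5 h6 ⊢
    -- x ≤ 1.01 n
    have h7 : x ≤ 1.01 * N := by
      by_contra hcon
      push Not at hcon
      have h8 : x ^ 2 ≤ N * x + 1 / 1000000 * N ^ 2 + x + 3 * ((1 / 1000000) ^ 2 / 10 * N ^ 2) := by
        linarith
      have h9 : 0.009 * N ≤ x - N - 1 := by linarith
      have h10 : 0.009 * N * (1.01 * N) ≤ (x - N - 1) * x :=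
        mul_le_mul h9 hcon.le (by positivity) (by linarith)
      nlinarith [h8, h10, mul_pos hn0 hn0]
    have h8 : x * (N - x) ≤ 1.01 * N * (424 * (1 / 1000000) * N) := by
      by_cases h9 : N - x ≤ 0
      · have h10 : x * (N - x) ≤ 0 := mul_nonpos_of_nonneg_of_nonpos hx0 h9
        have h11 : 0 ≤ 1.01 * N * (424 * (1 / 1000000) * N) := by positivity
        linarith
      · push Not at h9
        exact mul_le_mul h7 (by linarith) h9.le (by positivity)
    have h9 : 1.01 * N ≤ 1.01 / 10 ^ 8 * N ^ 2 := by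
      have : (10 : ℝ) ^ 8 * N ≤ N * N := mul_le_mul_of_nonneg_right hn hn0.le
      nlinarith
    nlinarith [h5, h7, h8, h9, mul_pos hn0 hn0]
  have hsum := Finset.sum_le_sum hcellb
  rw [Finset.sum_sub_distrib, ← Finset.mul_sum, Finset.sum_const, Finset.card_range,
    nsmul_eq_mul] at hsum
  have hcard' : (X.card : ℝ) = ∑ m ∈ range M, ((T m).card : ℝ) := by
    rw [hcard]
    push_cast
    rfl
  have hlow' : ∑ m ∈ range M, (ds (rel c i) (T m) : ℝ) + 2 * (ee (rel c i) (T m0) (T m1) : ℝ) ≤
      (ds (rel c i) X : ℝ) := by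
    exact_mod_cast hlow
  rw [← hcard'] at hsum
  have hM' : (M : ℝ) ≤ 4 := by exact_mod_cast hM
  have h10 : (M : ℝ) * (430 * eta * N ^ 2) ≤ 4 * (430 * eta * N ^ 2) :=
    mul_le_mul_of_nonneg_right hM' (by have := eta_pos; positivity)
  have h11 : 0 < eta * N ^ 2 := by have := eta_pos; positivity
  nlinarith [hsum, hlight, hlow', h10, h11]

end Pool.Agent.Lib.MP_22c8c7_co.Odd
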