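import Mathlib
import Pool.Agent.Lib.MP_22c8c7_co.Odd.Basic

/-! The cut-dense partition (docstring of `CutStmt` in `Odd/Spec.lean`). -/

set_option autoImplicit false

namespace Pool.Agent.Lib.MP_22c8c7_co.Odd

open Finset
open scoped Classical

/-- The combined partition. -/
private noncomputable def cutPi {V : Type} (X : Finset V) (p q : V → ℕ) (v : V) : ℕ :=
  if v ∈ X then 2 * p v else 2 * q v + 1

private theorem cut_cross {V : Type} (r : V → V → Prop) (hs : ∀ a b, r a b → r b a)
    (S X : Finset V) (hX : X ⊆ S) (p q : V → ℕ) :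
    crossN r S (cutPi X p q) ≤ crossN r X p + crossN r (S \ X) q + 2 * ee r X (S \ X) := by
  have h1 : ∀ a ∈ X, (S.filter (fun b => cutPi X p q b ≠ cutPi X p q a ∧ r a b)).card ≤
      (X.filter (fun b => p b ≠ p a ∧ r a b)).card + dg r (S \ X) a := by
    intro a ha
    unfold dg
    refine le_trans (Finset.card_le_card ?_) (Finset.card_union_le _ _)
    intro b hb
    rw [Finset.mem_filter] at hb
    rw [Finset.mem_union, Finset.mem_filter, Finset.mem_filter, Finset.mem_sdiff]
    obtain ⟨hb1, hb2, hb3⟩ := hb
    by_cases hbX : b ∈ X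
    · left
      refine ⟨hbX, ?_, hb3⟩
      intro he
      apply hb2
      unfold cutPi
      rw [if_pos hbX, if_pos ha, he]
    · right
      exact ⟨⟨hb1, hbX⟩, hb3⟩
  have h2 : ∀ a ∈ S \ X, (S.filter (fun b => cutPi X p q b ≠ cutPi X p q a ∧ r a b)).card ≤
      ((S \ X).filter (fun b => q b ≠ q a ∧ r a b)).card + dg r X a := by
    intro a ha
    rw [Finset.mem_sdiff] at ha
    unfold dg
    refine le_trans (Finset.card_le_card ?_) (Finset.card_union_le _ _)
    intro b hb
    rw [Finset.mem_filter] at hb
    rw [Finset.mem_union, Finset.mem_filter, Finset.mem_filter, Finset.mem_sdiff]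
    obtain ⟨hb1, hb2, hb3⟩ := hb
    by_cases hbX : b ∈ X
    · right
      exact ⟨hbX, hb3⟩
    · left
      refine ⟨⟨hb1, hbX⟩, ?_, hb3⟩
      intro he
      apply hb2
      unfold cutPi
      rw [if_neg hbX, if_neg ha.2, he]
  have h3 := Finset.sum_le_sum h1
  have h4 := Finset.sum_le_sum h2
  rw [Finset.sum_add_distrib] at h3 h4
  have h5 := ee_comm hs (S \ X) X
  have h6 : crossN r S (cutPi X p q) =
      ∑ a ∈ S \ X, (S.filter (fun b => cutPi X p q b ≠ cutPi X p q a ∧ r a b)).card +
      ∑ a ∈ X, (S.filter (fun b => cutPi X p q b ≠ cutPi X p q a ∧ r a b)).card := by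
    unfold crossN
    exact (Finset.sum_sdiff hX).symm
  have h7 : ee r X (S \ X) = ∑ v ∈ X, dg r (S \ X) v := rfl
  have h8 : ee r (S \ X) X = ∑ v ∈ S \ X, dg r X v := rfl
  have h9 : crossN r X p = ∑ a ∈ X, (X.filter (fun b => p b ≠ p a ∧ r a b)).card := rfl
  have h10 : crossN r (S \ X) q =
      ∑ a ∈ S \ X, ((S \ X).filter (fun b => q b ≠ q a ∧ r a b)).card := rfl
  omega

private theorem cut_cl_even {V : Type} (S X : Finset V) (hX : X ⊆ S) (p q : V → ℕ) (t : ℕ) :
    cl S (cutPi X p q) (2 * t) = cl X p t := by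
  unfold cl
  ext v
  rw [Finset.mem_filter, Finset.mem_filter]
  constructor
  · rintro ⟨h1, h2⟩
    by_cases hv : v ∈ X
    · refine ⟨hv, ?_⟩
      unfold cutPi at h2
      rw [if_pos hv] at h2
      omega
    · exfalso
      unfold cutPi at h2
      rw [if_neg hv] at h2
      omega
  · rintro ⟨h1, h2⟩
    refine ⟨hX h1, ?_⟩
    unfold cutPi
    rw [if_pos h1, h2]

private theorem cut_cl_odd {V : Type} (S X : Finset V) (p q : V → ℕ) (t : ℕ) :
    cl S (cutPi X p q) (2 * t + 1) = cl (S \ X) q t := by
  unfold cl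
  ext v
  rw [Finset.mem_filter, Finset.mem_filter, Finset.mem_sdiff]
  constructor
  · rintro ⟨h1, h2⟩
    by_cases hv : v ∈ X
    · exfalso
      unfold cutPi at h2
      rw [if_pos hv] at h2
      omega
    · refine ⟨⟨h1, hv⟩, ?_⟩
      unfold cutPi at h2
      rw [if_neg hv] at h2
      omega
  · rintro ⟨⟨h1, hv⟩, h2⟩
    refine ⟨h1, ?_⟩
    unfold cutPi
    rw [if_neg hv, h2]

theorem cut : CutStmt := by
  intro V r hs γ hγ S
  induction S using Finset.strongInduction with
  | H S ih =>
    by_cases hS : ∀ X ⊆ S, γ * (X.card : ℝ) * ((S \ X).card : ℝ) ≤ (ee r X (S \ X) : ℝ)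
    · refine ⟨fun _ => 0, ?_, ?_⟩
      · have h0 : crossN r S (fun _ => 0) = 0 := by
          unfold crossN
          refine Finset.sum_eq_zero fun a _ => ?_
          rw [Finset.card_eq_zero, Finset.filter_eq_empty_iff]
          rintro b _ ⟨h, _⟩
          exact h rfl
        rw [h0, Nat.cast_zero]
        positivity
      · intro t X hX
        rcases Nat.eq_zero_or_pos t with rfl | ht
        · have e : cl S (fun _ : V => 0) 0 = S := by
            unfold cl
            exact Finset.filter_true_of_mem fun _ _ => rfl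
          rw [e] at hX ⊢
          exact hS X hX
        · have e : cl S (fun _ : V => 0) t = ∅ := by
            unfold cl
            rw [Finset.filter_eq_empty_iff]
            intro v _ h
            have h' : (0 : ℕ) = t := h
            omega
          rw [e] at hX ⊢
          rw [Finset.subset_empty] at hX
          rw [hX, Finset.card_empty, Nat.cast_zero, mul_zero, zero_mul]
          exact Nat.cast_nonneg _
    · push Not at hS
      obtain ⟨X, hX, hlt⟩ := hS
      have hne1 : X ≠ ∅ := by
        rintro rfl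
        rw [Finset.card_empty, Nat.cast_zero, mul_zero, zero_mul] at hlt
        exact absurd hlt (not_lt.2 (Nat.cast_nonneg _))
      have hne2 : S \ X ≠ ∅ := by
        intro h
        rw [h, Finset.card_empty, Nat.cast_zero, mul_zero] at hlt
        exact absurd hlt (not_lt.2 (Nat.cast_nonneg _))
      have hss1 : X ⊂ S := by
        refine Finset.ssubset_iff_subset_ne.2 ⟨hX, ?_⟩
        rintro rfl
        exact hne2 (Finset.sdiff_self _)
      have hss2 : S \ X ⊂ S := Finset.sdiff_ssubset hX (Finset.nonempty_iff_ne_empty.2 hne1)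
      obtain ⟨p, hp1, hp2⟩ := ih X hss1
      obtain ⟨q, hq1, hq2⟩ := ih (S \ X) hss2
      refine ⟨cutPi X p q, ?_, ?_⟩
      · have h1 := cut_cross r hs S X hX p q
        have h2 : (crossN r S (cutPi X p q) : ℝ) ≤
            crossN r X p + crossN r (S \ X) q + 2 * ee r X (S \ X) := by exact_mod_cast h1
        have h3 : (S.card : ℝ) = X.card + (S \ X).card := by
          have := Finset.card_sdiff_add_card_eq_card hX
          have h4 : ((S \ X).card : ℝ) + X.card = S.card := by exact_mod_cast this
          linarith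
        rw [h3]
        nlinarith
      · intro t Y hY
        rcases Nat.even_or_odd' t with ⟨s, rfl | rfl⟩
        · rw [cut_cl_even S X hX p q s] at hY ⊢
          exact hp2 s Y hY
        · rw [cut_cl_odd S X p q s] at hY ⊢
          exact hq2 s Y hY

end Pool.Agent.Lib.MP_22c8c7_co.Odd
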