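import Mathlib
import Pool.Agent.Lib.MP_22c8c7_co.Odd.Basic

/-! The ending for EX1: all four near-cliques have the same colour. -/

set_option autoImplicit false

namespace Pool.Agent.Lib.MP_22c8c7_co.Odd

open Finset
open scoped Classical

theorem ex1M_three : ∀ i j k x : Fin 3, i ≠ j → i ≠ k → j ≠ k → x = i ∨ x = j ∨ x = k := by
  decide

theorem ex1M_mono {V : Type} {r : V → V → Prop} {S T : Finset V} {c : ℕ → V} {k : ℕ}
    (h : CycIn r S c k) (hST : S ⊆ T) : CycIn r T c k :=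
  ⟨⟨fun i hi => hST (h.1.1 i hi), h.1.2.1, h.1.2.2⟩, h.2⟩

/-- the degrees in the three colours -/
theorem ex1M_deg {V : Type} (c : V → V → Fin 3) (i j k : Fin 3) (hij : i ≠ j) (hik : i ≠ k)
    (hjk : j ≠ k) (A : Finset V) (v : V) (hv : v ∉ A) :
    A.card ≤ dg (rel c i) A v + dg (rel c j) A v + dg (rel c k) A v := by
  have hsub : A ⊆ (A.filter (fun u => rel c i v u) ∪ A.filter (fun u => rel c j v u)) ∪
      A.filter (fun u => rel c k v u) := by
    intro u hu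
    have hne : v ≠ u := by
      rintro rfl
      exact hv hu
    rw [Finset.mem_union, Finset.mem_union, Finset.mem_filter, Finset.mem_filter,
      Finset.mem_filter]
    rcases ex1M_three i j k (c v u) hij hik hjk with h | h | h
    · exact Or.inl (Or.inl ⟨hu, hne, h⟩)
    · exact Or.inl (Or.inr ⟨hu, hne, h⟩)
    · exact Or.inr ⟨hu, hne, h⟩
  have h1 := Finset.card_le_card hsub
  have h2 := Finset.card_union_le (A.filter (fun u => rel c i v u) ∪
    A.filter (fun u => rel c j v u)) (A.filter (fun u => rel c k v u))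
  have h3 := Finset.card_union_le (A.filter (fun u => rel c i v u))
    (A.filter (fun u => rel c j v u))
  unfold dg
  omega

/-- a neighbour different from a given vertex -/
theorem ex1M_nbr {V : Type} {r : V → V → Prop} {A : Finset V} {v : V} (h : 2 ≤ dg r A v) (z : V) :
    ∃ s ∈ A, r v s ∧ s ≠ z := by
  have h1 : 1 < (A.filter (fun u => r v u)).card := h
  obtain ⟨s, hs, hne⟩ := Finset.exists_mem_ne h1 z
  rw [Finset.mem_filter] at hs
  exact ⟨s, hs.1, hs.2, hne⟩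

theorem ex1M_ncp {V : Type} {r : V → V → Prop} {n : ℕ} {U W : Finset V} (h : NCP r n U W) :
    NCP r n W U := ⟨h.2, h.1⟩

/-- the last step: `A = Q 0 b`, `B = Q 0 (1 - b)`, `C = Q 1 b`, `D = Q 1 (1 - b)` -/
theorem ex1M_end (h3 : OC1Stmt) {V : Type} {n : ℕ} {S0 : Finset V} {c : V → V → Fin 3}
    (hsym : ∀ a b, c a b = c b a) (hn : 100 ≤ n) (hodd : n % 2 = 1) {i j k : Fin 3}
    (hij : i ≠ j) (hik : i ≠ k) (hjk : j ≠ k)
    (hno : ¬ ∃ l z, CycIn (rel c l) S0 z n) {A B C D : Finset V}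
    (hA : A ⊆ S0) (hB : B ⊆ S0) (hC : C ⊆ S0) (hD : D ⊆ S0)
    (cA : 9 * n ≤ 10 * A.card) (cB : 9 * n ≤ 10 * B.card) (cC : 9 * n ≤ 10 * C.card)
    (cD : 9 * n ≤ 10 * D.card)
    (dAB : Disjoint A B) (dAC : Disjoint A C) (dAD : Disjoint A D) (dBC : Disjoint B C)
    (dBD : Disjoint B D) (dCD : Disjoint C D)
    (jAB : NCP (rel c j) n A B) (jCD : NCP (rel c j) n C D)
    (kAC : NCP (rel c k) n A C) (kBD : NCP (rel c k) n B D)
    {v : V} (hv : v ∈ S0) (vA : v ∉ A) (vB : v ∉ B) (vC : v ∉ C) (vD : v ∉ D)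
    (JA : 2 ≤ dg (rel c j) A v) (JD : 2 ≤ dg (rel c j) D v)
    (KB : 2 ≤ dg (rel c k) B v) (KC : 2 ≤ dg (rel c k) C v)
    {z z' : V} (hz : z ∈ A) (hz' : z' ∈ D) (hzz : c z z' ≠ i) : False := by
  have hne : z ≠ z' := by
    rintro rfl
    exact (Finset.disjoint_left.1 dAD) hz hz'
  rcases ex1M_three i j k (c z z') hij hik hjk with h | h | h
  · exact hzz h
  · obtain ⟨s, hs, hvs, hsz⟩ := ex1M_nbr JA z
    obtain ⟨t, ht, hvt, htz⟩ := ex1M_nbr JD z'
    obtain ⟨w, hw⟩ := h3 V (rel c j) (rel_symm hsym j) n A B C D hn hodd jAB jCD dAB dCD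
      (by
        rw [Finset.disjoint_union_left, Finset.disjoint_union_right, Finset.disjoint_union_right]
        exact ⟨⟨dAC, dAD⟩, dBC, dBD⟩)
      cA cB cC cD v (by rw [Finset.mem_union]; tauto) (by rw [Finset.mem_union]; tauto)
      s (Finset.mem_union_left _ hs) z (Finset.mem_union_left _ hz)
      t (Finset.mem_union_right _ ht) z' (Finset.mem_union_right _ hz') hsz htz hvs hvt
      ⟨hne, h⟩ ⟨fun _ => fun htC => (Finset.disjoint_left.1 dCD) htC ht, fun _ => hs⟩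
      ⟨fun _ => fun hzC => (Finset.disjoint_left.1 dCD) hzC hz', fun _ => hz⟩
    refine hno ⟨j, w, ex1M_mono hw ?_⟩
    exact Finset.insert_subset hv (Finset.union_subset (Finset.union_subset hA hB)
      (Finset.union_subset hC hD))
  · obtain ⟨s, hs, hvs, -⟩ := ex1M_nbr KC z
    obtain ⟨t, ht, hvt, -⟩ := ex1M_nbr KB z'
    have hsz : s ≠ z := by
      rintro rfl
      exact (Finset.disjoint_left.1 dAC) hz hs
    have htz : t ≠ z' := by
      rintro rfl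
      exact (Finset.disjoint_left.1 dBD) ht hz'
    obtain ⟨w, hw⟩ := h3 V (rel c k) (rel_symm hsym k) n A C B D hn hodd kAC kBD dAC dBD
      (by
        rw [Finset.disjoint_union_left, Finset.disjoint_union_right, Finset.disjoint_union_right]
        exact ⟨⟨dAB, dAD⟩, dBC.symm, dCD⟩)
      cA cC cB cD v (by rw [Finset.mem_union]; tauto) (by rw [Finset.mem_union]; tauto)
      s (Finset.mem_union_right _ hs) z (Finset.mem_union_left _ hz)
      t (Finset.mem_union_left _ ht) z' (Finset.mem_union_right _ hz') hsz htz hvs hvt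
      ⟨hne, h⟩ ⟨fun hsA => absurd hs (fun hsC => (Finset.disjoint_left.1 dAC) hsA hsC),
        fun htB => absurd ht htB⟩
      ⟨fun _ => fun hzB => (Finset.disjoint_left.1 dBD) hzB hz', fun _ => hz⟩
    refine hno ⟨k, w, ex1M_mono hw ?_⟩
    exact Finset.insert_subset hv (Finset.union_subset (Finset.union_subset hA hC)
      (Finset.union_subset hB hD))

/-- **The ending for EX1.** -/
theorem ex1M (h1 : AssignStmt) (h2 : OC0Stmt) (h3 : OC1Stmt) : EX1Stmt := by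
  intro V n S0 c hsym hn hodd hcard i j k hij hik hjk Q hE
  by_contra hno
  obtain ⟨⟨hsub, hdisj, hbig⟩, hcl, hj, hk, hdiag⟩ := hE
  apply hno
  refine h1 V n S0 c hsym hn hcard Q (fun _ => i) ⟨hsub, hdisj, hbig⟩ hcl ?_
  intro v hv hvQ
  by_contra hcon
  push Not at hcon
  have hJK : ∀ a b, 2 ≤ dg (rel c j) (Q a b) v ∨ 2 ≤ dg (rel c k) (Q a b) v := by
    intro a b
    by_contra hn2
    push Not at hn2
    have e1 := ex1M_deg c i j k hij hik hjk (Q a b) v (hvQ a b)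
    have e2 := hcon a b
    have e3 := hbig a b
    omega
  have hJJ : ∀ a, ¬ (2 ≤ dg (rel c j) (Q a 0) v ∧ 2 ≤ dg (rel c j) (Q a 1) v) := by
    rintro a ⟨ha, hb⟩
    obtain ⟨s, hs, hvs, -⟩ := ex1M_nbr ha v
    obtain ⟨t, ht, hvt, -⟩ := ex1M_nbr hb v
    obtain ⟨w, hw⟩ := h2 V (rel c j) (rel_symm hsym j) n (Q a 0) (Q a 1) hn hodd (hj a)
      (hdisj a 0 a 1 (by simp)) (hbig a 0) (hbig a 1) v
      (by
        rw [Finset.mem_union]
        exact fun h => h.elim (hvQ a 0) (hvQ a 1)) s hs t ht hvs hvt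
    exact hno ⟨j, w, ex1M_mono hw (Finset.insert_subset hv
      (Finset.union_subset (hsub a 0) (hsub a 1)))⟩
  have hKK : ∀ b, ¬ (2 ≤ dg (rel c k) (Q 0 b) v ∧ 2 ≤ dg (rel c k) (Q 1 b) v) := by
    rintro b ⟨ha, hb⟩
    obtain ⟨s, hs, hvs, -⟩ := ex1M_nbr ha v
    obtain ⟨t, ht, hvt, -⟩ := ex1M_nbr hb v
    obtain ⟨w, hw⟩ := h2 V (rel c k) (rel_symm hsym k) n (Q 0 b) (Q 1 b) hn hodd (hk b)
      (hdisj 0 b 1 b (by simp)) (hbig 0 b) (hbig 1 b) v
      (by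
        rw [Finset.mem_union]
        exact fun h => h.elim (hvQ 0 b) (hvQ 1 b)) s hs t ht hvs hvt
    exact hno ⟨k, w, ex1M_mono hw (Finset.insert_subset hv
      (Finset.union_subset (hsub 0 b) (hsub 1 b)))⟩
  have a00 := hJK 0 0
  have a01 := hJK 0 1
  have a10 := hJK 1 0
  have a11 := hJK 1 1
  have j0 := hJJ 0
  have j1 := hJJ 1
  have k0 := hKK 0
  have k1 := hKK 1
  have hcases : (2 ≤ dg (rel c j) (Q 0 0) v ∧ 2 ≤ dg (rel c j) (Q 1 1) v ∧
      2 ≤ dg (rel c k) (Q 0 1) v ∧ 2 ≤ dg (rel c k) (Q 1 0) v) ∨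
      (2 ≤ dg (rel c j) (Q 0 1) v ∧ 2 ≤ dg (rel c j) (Q 1 0) v ∧
      2 ≤ dg (rel c k) (Q 0 0) v ∧ 2 ≤ dg (rel c k) (Q 1 1) v) := by
    tauto
  rcases hcases with ⟨e1, e2, e3, e4⟩ | ⟨e1, e2, e3, e4⟩
  · obtain ⟨z, hz, z', hz', hzz⟩ := hdiag 0
    have hz'' : z' ∈ Q 1 1 := hz'
    exact ex1M_end h3 hsym hn hodd hij hik hjk hno (hsub 0 0) (hsub 0 1) (hsub 1 0) (hsub 1 1)
      (hbig 0 0) (hbig 0 1) (hbig 1 0) (hbig 1 1) (hdisj 0 0 0 1 (by decide))
      (hdisj 0 0 1 0 (by decide)) (hdisj 0 0 1 1 (by decide)) (hdisj 0 1 1 0 (by decide))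
      (hdisj 0 1 1 1 (by decide)) (hdisj 1 0 1 1 (by decide)) (hj 0) (hj 1) (hk 0) (hk 1) hv
      (hvQ 0 0) (hvQ 0 1) (hvQ 1 0) (hvQ 1 1) e1 e2 e3 e4 hz hz'' hzz
  · obtain ⟨z, hz, z', hz', hzz⟩ := hdiag 1
    have hz'' : z' ∈ Q 1 0 := hz'
    exact ex1M_end h3 hsym hn hodd hij hik hjk hno (hsub 0 1) (hsub 0 0) (hsub 1 1) (hsub 1 0)
      (hbig 0 1) (hbig 0 0) (hbig 1 1) (hbig 1 0) (hdisj 0 1 0 0 (by decide))
      (hdisj 0 1 1 1 (by decide)) (hdisj 0 1 1 0 (by decide)) (hdisj 0 0 1 1 (by decide))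
      (hdisj 0 0 1 0 (by decide)) (hdisj 1 1 1 0 (by decide)) (ex1M_ncp (hj 0))
      (ex1M_ncp (hj 1)) (hk 1) (hk 0) hv
      (hvQ 0 1) (hvQ 0 0) (hvQ 1 1) (hvQ 1 0) e1 e2 e3 e4 hz hz'' hzz

end Pool.Agent.Lib.MP_22c8c7_co.Odd
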