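import Mathlib
import Pool.Agent.Lib.MP_22c8c7_co.Odd.Basic

/-! The ending for the structure EX3 (docstring of `EX3Stmt` in `Odd/Spec.lean`). -/

set_option autoImplicit false

namespace Pool.Agent.Lib.MP_22c8c7_co.Odd

open Finset
open scoped Classical

/-- A vertex outside `Q` with few neighbours of colour `i` in `Q` has a neighbour of one of the
other two colours. -/
private theorem ex3M_other {V : Type} (c : V → V → Fin 3) (n : ℕ) (hn : 100 ≤ n) (i j k : Fin 3)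
    (hij : i ≠ j) (hik : i ≠ k) (hjk : j ≠ k) (Q : Finset V) (hQ : 9 * n ≤ 10 * Q.card) (v : V)
    (hv : v ∉ Q) (hd : ¬ n ≤ 4 * dg (rel c i) Q v) (hj : ∀ s ∈ Q, ¬ rel c j v s) :
    ∃ s ∈ Q, rel c k v s := by
  by_contra hcon
  push Not at hcon
  have h1 : dg (rel c i) Q v = Q.card := by
    unfold dg
    rw [Finset.filter_true_of_mem]
    intro s hs
    have hvs : v ≠ s := fun h => hv (h ▸ hs)
    refine ⟨hvs, ?_⟩
    have h2 : c v s ≠ j := fun h => hj s hs ⟨hvs, h⟩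
    have h3 : c v s ≠ k := fun h => hcon s hs ⟨hvs, h⟩
    have e1 : i.val ≠ j.val := fun h => hij (Fin.ext h)
    have e2 : i.val ≠ k.val := fun h => hik (Fin.ext h)
    have e3 : j.val ≠ k.val := fun h => hjk (Fin.ext h)
    have e4 : (c v s).val ≠ j.val := fun h => h2 (Fin.ext h)
    have e5 : (c v s).val ≠ k.val := fun h => h3 (Fin.ext h)
    have e6 := i.isLt
    have e7 := j.isLt
    have e8 := k.isLt
    have e9 := (c v s).isLt
    apply Fin.ext
    omega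
  omega

/-- The use of `OC0Stmt` inside `S0`. -/
private theorem ex3M_oc0 (h2 : OC0Stmt) {V : Type} (c : V → V → Fin 3)
    (hc : ∀ a b, c a b = c b a) (n : ℕ) (hn : 100 ≤ n) (hodd : n % 2 = 1) (S0 : Finset V)
    (l : Fin 3) (U W : Finset V) (hN : NCP (rel c l) n U W) (hU : U ⊆ S0) (hW : W ⊆ S0)
    (hd : Disjoint U W) (hU9 : 9 * n ≤ 10 * U.card) (hW9 : 9 * n ≤ 10 * W.card) (v : V)
    (hv : v ∈ S0) (hvU : v ∉ U) (hvW : v ∉ W) (hno : ∀ z, ¬ CycIn (rel c l) S0 z n) :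
    (∀ s ∈ U, ¬ rel c l v s) ∨ (∀ t ∈ W, ¬ rel c l v t) := by
  by_contra hcon
  push Not at hcon
  obtain ⟨⟨s, hs, hvs⟩, t, ht, hvt⟩ := hcon
  obtain ⟨z, hz⟩ := h2 V (rel c l) (rel_symm hc l) n U W hn hodd hN hd hU9 hW9 v
    (by rw [Finset.mem_union]; rintro (h | h) <;> contradiction) s hs t ht hvs hvt
  have hT : insert v (U ∪ W) ⊆ S0 := Finset.insert_subset hv (Finset.union_subset hU hW)
  exact hno z ⟨⟨fun i hi => hT (hz.1.1 i hi), hz.1.2.1, hz.1.2.2⟩, hz.2⟩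

theorem ex3M (h1 : AssignStmt) (h2 : OC0Stmt) : EX3Stmt := by
  intro V n S0 c hc hn hodd hS i j k hij hik hjk Q hE
  by_contra hno
  push Not at hno
  obtain ⟨l, z, hz⟩ := h1 V n S0 c hc hn hS Q (fun a => if a = 0 then i else j) hE.four
    (by
      intro a b
      fin_cases a
      · exact hE.clique0 b
      · exact hE.clique1 b)
    (by
      intro v hv hvQ
      by_contra hcon
      push Not at hcon
      have hdis : ∀ a b a' b', (a, b) ≠ (a', b') → Disjoint (Q a b) (Q a' b') := hE.four.disj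
      have hsub := hE.four.sub
      have hbig := hE.four.big
      have hd0 : ∀ b, ¬ n ≤ 4 * dg (rel c i) (Q 0 b) v := fun b => not_le.2 (hcon 0 b)
      have hd1 : ∀ b, ¬ n ≤ 4 * dg (rel c j) (Q 1 b) v := fun b => not_le.2 (hcon 1 b)
      -- side 0
      have hk0 : ∃ b, ∃ s ∈ Q 0 b, rel c k v s := by
        rcases ex3M_oc0 h2 c hc n hn hodd S0 j (Q 0 0) (Q 0 1) hE.cross0 (hsub 0 0) (hsub 0 1)
          (hdis 0 0 0 1 (by decide)) (hbig 0 0) (hbig 0 1) v hv (hvQ 0 0) (hvQ 0 1) (hno j)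
          with h | h
        · exact ⟨0, ex3M_other c n hn i j k hij hik hjk _ (hbig 0 0) v (hvQ 0 0) (hd0 0) h⟩
        · exact ⟨1, ex3M_other c n hn i j k hij hik hjk _ (hbig 0 1) v (hvQ 0 1) (hd0 1) h⟩
      have hk1 : ∃ b, ∃ s ∈ Q 1 b, rel c k v s := by
        rcases ex3M_oc0 h2 c hc n hn hodd S0 i (Q 1 0) (Q 1 1) hE.cross1 (hsub 1 0) (hsub 1 1)
          (hdis 1 0 1 1 (by decide)) (hbig 1 0) (hbig 1 1) v hv (hvQ 1 0) (hvQ 1 1) (hno i)
          with h | h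
        · exact ⟨0, ex3M_other c n hn j i k hij.symm hjk hik _ (hbig 1 0) v (hvQ 1 0) (hd1 0) h⟩
        · exact ⟨1, ex3M_other c n hn j i k hij.symm hjk hik _ (hbig 1 1) v (hvQ 1 1) (hd1 1) h⟩
      obtain ⟨b, s, hs, hvs⟩ := hk0
      obtain ⟨b', t, ht, hvt⟩ := hk1
      rcases ex3M_oc0 h2 c hc n hn hodd S0 k (Q 0 b) (Q 1 b') (hE.hk b b') (hsub 0 b) (hsub 1 b')
        (hdis 0 b 1 b' (by
          intro h
          exact absurd (congrArg Prod.fst h) (by simp)))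
        (hbig 0 b) (hbig 1 b') v hv (hvQ 0 b) (hvQ 1 b') (hno k) with h | h
      · exact h s hs hvs
      · exact h t ht hvt)
  exact hno l z hz

end Pool.Agent.Lib.MP_22c8c7_co.Odd
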