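import Mathlib
import Pool.Agent.Lib.MP_22c8c7_co.Odd.Basic

set_option autoImplicit false

namespace Pool.Agent.Lib.MP_22c8c7_co.Odd

open Finset
open scoped Classical

private theorem finM_third : ∀ x y : Fin 3, x ≠ y → ∃ z : Fin 3, z ≠ x ∧ z ≠ y := by decide

private theorem finM_uniq : ∀ x y z w : Fin 3, x ≠ y → z ≠ x → z ≠ y → w ≠ x → w ≠ y → z = w := by
  decide

private theorem finM_cases : ∀ x : Fin 3, x ≠ 2 → x = 0 ∨ x = 1 := by decide

/-- Few pairs of the colour of the side. -/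
private theorem finM_bad {V : Type} {n : ℕ} {S0 : Finset V} {c : V → V → Fin 3}
    {f : Fin 3 → V → Fin 3} (h : Ctx n S0 c f) (k a : Fin 3) (ha : a ≠ 2) (X Q Q' : Finset V)
    (hX : X ⊆ S0) (hf : ∀ v ∈ X, f k v = a) (hQ : Q ⊆ X) (hQ' : Q' ⊆ X) :
    (ee (rel c k) Q Q' : ℝ) ≤ (n : ℝ) ^ 2 / 1000 := by
  rw [ee_eq_card]
  have h1 := bad_one h k ((Q ×ˢ Q').filter (fun p => rel c k p.1 p.2)) ?_ ?_
  · refine h1.trans ?_
    rw [eta_eq]
    have : (0 : ℝ) ≤ (n : ℝ) ^ 2 := by positivity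
    nlinarith
  · intro p hp
    rw [Finset.mem_filter, Finset.mem_product] at hp
    exact Finset.mem_product.2 ⟨hX (hQ hp.1.1), hX (hQ' hp.1.2)⟩
  · intro p hp
    rw [Finset.mem_filter, Finset.mem_product] at hp
    refine ⟨hp.2, ?_⟩
    rw [hf _ (hQ hp.1.1), hf _ (hQ' hp.1.2), ok_self_iff]
    exact ha

theorem finM (h1 : CompatStmt) (h2 : OneStmt) (h3 : SideStmt) (h4 : SidesStmt)
    (h5 : TwoLightStmt) (h6 : ClashStmt) (h7 : MkEX1Stmt) (h8 : MkEX3Stmt) (h9 : EX1Stmt)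
    (h10 : EX3Stmt) : FinStmt := by
  intro V n S0 c f hctx
  have hc := hctx.symm
  have hbig := hctx.big
  have hn100 : 100 ≤ n := by omega
  have hcard : 4 * n ≤ S0.card + 3 := by rw [hctx.card]
  obtain ⟨S, hB⟩ := h1 V n S0 c f hctx
  obtain ⟨k, hk⟩ := h2 V n S0 c f S hB
  have hside : ∀ a : Fin 3, ∃ i : Fin 3, a ≠ 2 → i ≠ k ∧ ∀ v ∈ S, f k v = a → f i v = 2 := by
    intro a
    by_cases ha : a = 2
    · exact ⟨0, fun h => absurd ha h⟩
    · obtain ⟨i, hi1, hi2⟩ := h3 V f S hB.compat k a ha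
      exact ⟨i, fun _ => ⟨hi1, hi2⟩⟩
  choose i hi using hside
  have hthird : ∀ a : Fin 3, ∃ j : Fin 3, a ≠ 2 → j ≠ k ∧ j ≠ i a := by
    intro a
    by_cases ha : a = 2
    · exact ⟨0, fun h => absurd ha h⟩
    · obtain ⟨j, hj1, hj2⟩ := finM_third k (i a) (hi a ha).1.symm
      exact ⟨j, fun _ => ⟨hj1, hj2⟩⟩
  choose j hj using hthird
  have hS := fun (a : Fin 3) (ha : a ≠ 2) =>
    h4 V n S0 c f S hB k hk i hi a (j a) ha (hj a ha).1 (hj a ha).2
  by_cases hfirst : ∃ a : Fin 3, a ≠ 2 ∧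
      (2 - 624 * eta) * n ≤ ((st f (st f S k a) (j a) 2).card : ℝ)
  · obtain ⟨a, ha, hX⟩ := hfirst
    set X := st f (st f S k a) (j a) 2 with hXdef
    have hXS : X ⊆ S := (st_sub f _ _ _).trans (st_sub f _ _ _)
    have hX0 : X ⊆ S0 := hXS.trans hB.sub
    have hXk : ∀ v ∈ X, f k v = a := fun v hv => (mem_st.1 (mem_st.1 hv).1).2
    have hXj : ∀ v ∈ X, f (j a) v = 2 := fun v hv => (mem_st.1 hv).2
    have hXi : ∀ v ∈ X, f (i a) v = 2 := fun v hv => (hi a ha).2 v (hXS hv) (hXk v hv)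
    have hXc : (X.card : ℝ) ≤ (2 + 4 * eta) * n := by
      refine le_trans ?_ (hS a ha).1
      exact_mod_cast Finset.card_le_card (st_sub f _ _ _)
    have hij : i a ≠ j a := (hj a ha).2.symm
    have hik := (hi a ha).1
    have hjk := (hj a ha).1
    obtain ⟨Q, hQ1, hQ2, hQ3, hQ4⟩ := h5 V n S0 c f hctx (i a) (j a) k a hij hik hjk ha X hX0
      (fun v hv => ⟨hXi v hv, hXj v hv, hXk v hv⟩) hXc hX
    obtain ⟨Q', hQ1', hQ2', hQ3', hQ4'⟩ := h5 V n S0 c f hctx (j a) (i a) k a hij.symm hjk hik ha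
      X hX0 (fun v hv => ⟨hXj v hv, hXi v hv, hXk v hv⟩) hXc hX
    exact h6 V n S0 c hc hbig (i a) (j a) k hij hik hjk Q Q' (hQ1.trans hX0) (hQ1'.trans hX0)
      hQ2 hQ3 hQ2' hQ3' hQ4 hQ4' (finM_bad hctx k a ha X Q Q' hX0 hXk hQ1 hQ1')
  · have hsec : ∀ a : Fin 3, a ≠ 2 → ∀ b : Fin 3, b ≠ 2 →
        (1 - 424 * eta) * n ≤ ((st f (st f S k a) (j a) b).card : ℝ) := by
      intro a ha b hb
      rcases (hS a ha).2 with h | h
      · exact absurd ⟨a, ha, h⟩ hfirst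
      · exact h b hb
    have n0 : (0 : Fin 3) ≠ 2 := by decide
    have n1 : (1 : Fin 3) ≠ 2 := by decide
    by_cases hii : i 0 = i 1
    · have hj01 : j 1 = j 0 := by
        refine finM_uniq k (i 0) (j 1) (j 0) (hi 0 n0).1.symm (hj 1 n1).1 ?_ (hj 0 n0).1
          (hj 0 n0).2
        rw [hii]
        exact (hj 1 n1).2
      have e1 : ∀ v ∈ S, f k v ≠ 2 → f (i 0) v = 2 := by
        intro v hv hkv
        rcases finM_cases _ hkv with h | h
        · exact (hi 0 n0).2 v hv h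
        · rw [hii]
          exact (hi 1 n1).2 v hv h
      have e2 : ∀ a b : Fin 3, a ≠ 2 → b ≠ 2 →
          (1 - 424 * eta) * n ≤ ((st f (st f S k a) (j 0) b).card : ℝ) := by
        intro a b ha hb
        rcases finM_cases a ha with h | h
        · subst h
          exact hsec 0 n0 b hb
        · subst h
          rw [← hj01]
          exact hsec 1 n1 b hb
      obtain ⟨Q, hQ⟩ := h7 V n S0 c f S hB (i 0) (j 0) k (hj 0 n0).2.symm (hi 0 n0).1
        (hj 0 n0).1 e1 e2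
      exact h9 V n S0 c hc hn100 hctx.odd hcard (i 0) (j 0) k (hj 0 n0).2.symm (hi 0 n0).1
          (hj 0 n0).1 Q hQ
    · have hj0 : j 0 = i 1 :=
        finM_uniq k (i 0) (j 0) (i 1) (hi 0 n0).1.symm (hj 0 n0).1 (hj 0 n0).2 (hi 1 n1).1
          (fun h => hii h.symm)
      have hj1 : j 1 = i 0 :=
        finM_uniq k (i 1) (j 1) (i 0) (hi 1 n1).1.symm (hj 1 n1).1 (hj 1 n1).2 (hi 0 n0).1 hii
      have e1 : ∀ b : Fin 3, b ≠ 2 →
          (1 - 424 * eta) * n ≤ ((st f (st f S k 0) (i 1) b).card : ℝ) := by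
        intro b hb
        rw [← hj0]
        exact hsec 0 n0 b hb
      have e2 : ∀ b : Fin 3, b ≠ 2 →
          (1 - 424 * eta) * n ≤ ((st f (st f S k 1) (i 0) b).card : ℝ) := by
        intro b hb
        rw [← hj1]
        exact hsec 1 n1 b hb
      obtain ⟨Q, hQ⟩ := h8 V n S0 c f S hB (i 0) (i 1) k hii (hi 0 n0).1 (hi 1 n1).1
        (hi 0 n0).2 (hi 1 n1).2 e1 e2
      exact h10 V n S0 c hc hn100 hctx.odd hcard (i 0) (i 1) k hii (hi 0 n0).1 (hi 1 n1).1 Q hQ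

end Pool.Agent.Lib.MP_22c8c7_co.Odd
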