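import Mathlib
import Pool.Agent.Lib.MP_22c8c7_co.Odd.Basic

/-! A greedy path avoiding a set (docstring of `GreedyStmt` in `Odd/Spec.lean`). -/

set_option autoImplicit false

namespace Pool.Agent.Lib.MP_22c8c7_co.Odd

open Finset
open scoped Classical

theorem greedy : GreedyStmt := by
  intro V r P F K hK hdeg x hx
  have key : ∀ m, 1 ≤ m → m ≤ K →
      ∃ z, PathIn r P z m ∧ z 0 = x ∧ ∀ i, 1 ≤ i → i < m → z i ∉ F := by
    intro m hm
    induction m, hm using Nat.le_induction with
    | base =>
      intro _
      exact ⟨fun _ => x, ⟨fun _ _ => hx, fun i hi j hj _ => by omega, fun i hi => by omega⟩, rfl,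
        fun i h1 h2 => by omega⟩
    | succ m hm ih =>
      intro hmK
      obtain ⟨z, hz, hz0, hzF⟩ := ih (by omega)
      -- a new neighbour of the last vertex
      have hex : ∃ u ∈ P, r (z (m - 1)) u ∧ u ∉ F ∧ u ∉ (range m).image z := by
        by_contra hcon
        push Not at hcon
        have h1 : P.filter (fun u => r (z (m - 1)) u) ⊆ F ∪ (range m).image z := by
          intro u hu
          rw [Finset.mem_filter] at hu
          rw [Finset.mem_union]
          by_cases h : u ∈ F
          · exact Or.inl h
          · exact Or.inr (hcon u hu.1 hu.2 h)
        have h2 := (Finset.card_le_card h1).trans (Finset.card_union_le _ _)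
        have h3 := hdeg (z (m - 1)) (hz.1 _ (by omega))
        have h4 : ((range m).image z).card ≤ m := by
          refine Finset.card_image_le.trans ?_
          rw [Finset.card_range]
        unfold dg at h3
        omega
      obtain ⟨u, hu, hru, huF, huz⟩ := hex
      let w : ℕ → V := fun i => if i < m then z i else u
      have wz : ∀ i, i < m → w i = z i := fun i hi => if_pos hi
      have wu : w m = u := if_neg (lt_irrefl _)
      have hne : ∀ i, i < m → z i ≠ u := by
        intro i hi h
        exact huz (Finset.mem_image.2 ⟨i, Finset.mem_range.2 hi, h⟩)
      refine ⟨w, ⟨?_, ?_, ?_⟩, ?_, ?_⟩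
      · intro i hi
        rcases Nat.lt_or_ge i m with h | h
        · rw [wz i h]
          exact hz.1 i h
        · have e : i = m := by omega
          rw [e, wu]
          exact hu
      · have key : ∀ i j, i < j → j < m + 1 → w i ≠ w j := by
          intro i j hij hj heq
          rcases Nat.lt_or_ge j m with h | h
          · rw [wz i (by omega), wz j h] at heq
            have := hz.2.1 i (by omega) j h heq
            omega
          · have e : j = m := by omega
            rw [e, wu, wz i (by omega)] at heq
            exact hne i (by omega) heq
        intro i hi j hj heq
        rcases Nat.lt_trichotomy i j with h | h | h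
        · exact absurd heq (key i j h hj)
        · exact h
        · exact absurd heq.symm (key j i h hi)
      · intro i hi
        rcases Nat.lt_or_ge (i + 1) m with h | h
        · rw [wz i (by omega), wz (i + 1) h]
          exact hz.2.2 i h
        · have e : i + 1 = m := by omega
          rw [e, wu, wz i (by omega)]
          have e2 : i = m - 1 := by omega
          rw [e2]
          exact hru
      · rw [wz 0 (by omega)]
        exact hz0
      · intro i h1 h2
        rcases Nat.lt_or_ge i m with h | h
        · rw [wz i h]
          exact hzF i h1 h
        · have e : i = m := by omega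
          rw [e, wu]
          exact huF
  exact key K hK (le_refl _)

end Pool.Agent.Lib.MP_22c8c7_co.Odd
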