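import Mathlib
import Pool.Agent.Lib.MP_22c8c7_co.Odd.Basic
import Pool.Agent.Lib.MP_22c8c7_co.PathW
import Pool.Agent.Lib.MP_22c8c7_co.WEG

/-! Weighted Erdos-Gallai for odd `m`. -/

set_option autoImplicit false

namespace Pool.Agent.Lib.MP_22c8c7_co.Odd

open Finset
open scoped Classical

private theorem heavyOdd_pairs (f : ℕ → ℕ) (h : ℕ)
    (hf : ∀ i, i < h → 2 ≤ f (2 * i) + f (2 * i + 1)) :
    2 * h ≤ ∑ i ∈ range (2 * h), f i := by
  induction h with
  | zero => simp
  | succ n ih =>
    rw [show 2 * (n + 1) = 2 * n + 1 + 1 by ring, sum_range_succ, sum_range_succ]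
    have := hf n (by omega)
    have := ih (fun i hi => hf i (by omega))
    omega

private theorem heavyOdd_path {V : Type} (r : V → V → Prop) (hs : ∀ a b, r a b → r b a)
    (S : Finset V) (m : ℕ) [NeZero m] (hm : 2 ≤ m) (hodd : m % 2 = 1) (x : ZMod m → V)
    (hx : Cyc r S m x) (hno : ∀ c, ¬ CycIn r S c (m + 2)) (Y : Finset V) (hY : Y ⊆ S)
    (hd : ∀ y ∈ Y, ∀ j, y ≠ x j) (z : ℕ → V) (k : ℕ) (hz : PathIn (FR r m x) Y z k) :
    pw (wt r m x) z k ≤ m := by
  have hsub : ∀ l, l ≤ k → PathIn r S z l := fun l hl =>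
    ⟨fun i hi => hY (hz.1 i (by omega)), fun i hi j hj hij => hz.2.1 i (by omega) j (by omega) hij,
      fun i hi => (hz.2.2 i (by omega)).1⟩
  by_cases hk : k ≤ m + 1
  · exact path_weight r hs S m hm x hx hno z k (hsub k le_rfl) (fun i hi j => hd _ (hz.1 i hi) j) hk
  · exfalso
    have hle := path_weight r hs S m hm x hx hno z (m + 1) (hsub (m + 1) (by omega))
      (fun i hi j => hd _ (hz.1 i (by omega)) j) le_rfl
    unfold pw at hle
    obtain ⟨h, hh⟩ : ∃ h, m + 1 = 2 * h := ⟨(m + 1) / 2, by omega⟩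
    have hlow := heavyOdd_pairs (fun i => wt r m x (z i)) h (by
      intro i hi
      have := (hz.2.2 (2 * i) (by omega)).2
      rcases this with h1 | h1 <;> omega)
    rw [← hh] at hlow
    omega

theorem heavyOdd : HeavyOddStmt := by
  intro V r hs hi S m _ hm hodd x hx hno
  have hd : ∀ y ∈ S \ univ.image x, ∀ j, y ≠ x j := by
    intro y hy j h
    rw [Finset.mem_sdiff] at hy
    exact hy.2 (Finset.mem_image.2 ⟨j, Finset.mem_univ _, h.symm⟩)
  have h1 := weg (FR r m x) (fun a b h => ⟨hs a b h.1, h.2.symm⟩) (fun a h => hi a h.1)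
    (wt r m x) m (S \ univ.image x) (fun z k hz =>
      heavyOdd_path r hs S m (by omega) hodd x hx hno _ Finset.sdiff_subset hd z k hz)
  refine le_trans ?_ h1
  calc ∑ y ∈ (S \ univ.image x).filter (fun y => 2 ≤ wt r m x y),
        wt r m x y * (dg r (S \ univ.image x) y + 1)
      = ∑ y ∈ (S \ univ.image x).filter (fun y => 2 ≤ wt r m x y),
        wt r m x y * (dg (FR r m x) (S \ univ.image x) y + 1) := by
        refine Finset.sum_congr rfl fun y hy => ?_
        rw [Finset.mem_filter] at hy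
        have h2 : dg (FR r m x) (S \ univ.image x) y = dg r (S \ univ.image x) y := by
          unfold dg
          congr 1
          refine Finset.filter_congr fun u _ => ?_
          exact ⟨fun h => h.1, fun h => ⟨h, Or.inl hy.2⟩⟩
        rw [h2]
    _ ≤ ∑ y ∈ S \ univ.image x, wt r m x y * (dg (FR r m x) (S \ univ.image x) y + 1) :=
        Finset.sum_le_sum_of_subset (Finset.filter_subset _ _)

end Pool.Agent.Lib.MP_22c8c7_co.Odd
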