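import Mathlib
import Pool.Agent.Lib.MP_22c8c7_co.Odd.Spec

/-! A long odd cycle of moderate length. -/

set_option autoImplicit false

namespace Pool.Agent.Lib.MP_22c8c7_co.Odd

open Finset
open scoped Classical

/-- Concatenation of two disjoint paths. -/
theorem longOdd_cat {V : Type} {r : V → V → Prop} {S : Finset V} {a b : ℕ → V} {m k : ℕ}
    (ha : PathIn r S a m) (hb : PathIn r S b k) (hm : 1 ≤ m) (hk : 1 ≤ k)
    (hr : r (a (m - 1)) (b 0)) (hd : ∀ i < m, ∀ j < k, a i ≠ b j) :
    PathIn r S (fun i => if i < m then a i else b (i - m)) (m + k) := by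
  refine ⟨fun i hi => ?_, fun i hi j hj hij => ?_, fun i hi => ?_⟩
  · by_cases h : i < m
    · simp only [if_pos h]
      exact ha.1 i h
    · simp only [if_neg h]
      exact hb.1 _ (by omega)
  · by_cases h : i < m <;> by_cases h' : j < m
    · simp only [if_pos h, if_pos h'] at hij
      exact ha.2.1 i h j h' hij
    · simp only [if_pos h, if_neg h'] at hij
      exact absurd hij (hd i h (j - m) (by omega))
    · simp only [if_neg h, if_pos h'] at hij
      exact absurd hij.symm (hd j h' (i - m) (by omega))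
    · simp only [if_neg h, if_neg h'] at hij
      have := hb.2.1 (i - m) (by omega) (j - m) (by omega) hij
      omega
  · by_cases h : i + 1 < m
    · have h' : i < m := by omega
      simp only [if_pos h, if_pos h']
      exact ha.2.2 i h
    · by_cases h' : i < m
      · simp only [if_neg h, if_pos h']
        have h1 : i = m - 1 := by omega
        have h2 : i + 1 - m = 0 := by omega
        rw [h2, h1]
        exact hr
      · simp only [if_neg h, if_neg h']
        have h1 : i + 1 - m = (i - m) + 1 := by omega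
        rw [h1]
        exact hb.2.2 (i - m) (by omega)

theorem longOdd_mono {V : Type} {r : V → V → Prop} {S S' : Finset V} {z : ℕ → V} {k : ℕ}
    (h : PathIn r S z k) (hS : S ⊆ S') : PathIn r S' z k :=
  ⟨fun i hi => hS (h.1 i hi), h.2.1, h.2.2⟩

/-- An initial part of a path. -/
theorem longOdd_take {V : Type} {r : V → V → Prop} {S : Finset V} {z : ℕ → V} {k m : ℕ}
    (h : PathIn r S z k) (hm : m ≤ k) : PathIn r S z m :=
  ⟨fun i hi => h.1 i (by omega), fun i hi j hj => h.2.1 i (by omega) j (by omega),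
    fun i hi => h.2.2 i (by omega)⟩

/-- A final part of a path. -/
theorem longOdd_drop {V : Type} {r : V → V → Prop} {S : Finset V} {z : ℕ → V} {k : ℕ} (s : ℕ)
    (h : PathIn r S z k) (hs : s ≤ k) : PathIn r S (fun i => z (s + i)) (k - s) :=
  ⟨fun i hi => h.1 _ (by omega), fun i hi j hj hij => by
    have := h.2.1 (s + i) (by omega) (s + j) (by omega) hij
    omega, fun i hi => by
    have := h.2.2 (s + i) (by omega)
    rw [show s + i + 1 = s + (i + 1) by ring] at this
    exact this⟩

theorem longOdd (h1 : ShortOddStmt) (h2 : BallStmt) (h3 : GreedyStmt) (h4 : NbrStmt) :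
    LongOddStmt := by
  intro V r hs hirr P h hh hE hB ℓ K hℓ hK hKh
  obtain ⟨c, k0, hc, hodd, hk0, hk0h⟩ := h1 V r hs hirr P h hh hE hB
  obtain ⟨hcp, hcl⟩ := hc
  -- k0 ≤ 2 ℓ
  have hk0ℓ : k0 ≤ 2 * ℓ := by
    have h5 : k0 * h ≤ 2 * ℓ * h := by nlinarith
    exact Nat.le_of_mul_le_mul_right h5 hh
  -- degrees
  have hP2 : 2 ≤ P.card := by
    have h5 : ({c 0, c 1} : Finset V) ⊆ P := by
      intro x hx
      rw [Finset.mem_insert, Finset.mem_singleton] at hx
      rcases hx with rfl | rfl
      · exact hcp.1 0 (by omega)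
      · exact hcp.1 1 (by omega)
    have h6 : c 0 ≠ c 1 := fun hcc => by
      have := hcp.2.1 0 (by omega) 1 (by omega) hcc
      omega
    have h7 := Finset.card_le_card h5
    rwa [Finset.card_pair h6] at h7
  have hdeg := (h4 V r P (2 * h) hE).2 hP2
  set C0 : Finset V := (range k0).image c with hC0
  have hC0c : C0.card ≤ k0 := Finset.card_image_le.trans (by rw [Finset.card_range])
  have hmemC : ∀ i, i < k0 → c i ∈ C0 := fun i hi =>
    Finset.mem_image_of_mem c (Finset.mem_range.2 hi)
  obtain ⟨p, hp, hp0, hpC⟩ := h3 V r P C0 K (by omega) (fun v hv => by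
    have := hdeg v hv
    omega) (c 0) (hcp.1 0 (by omega))
  -- the second path
  set D : Finset V := C0 ∪ (range K).image p with hD
  set F : Finset V := D \ {p (K - 1), c 1} with hF
  have hDP : D ⊆ P := by
    intro x hx
    rw [hD, Finset.mem_union, hC0, Finset.mem_image, Finset.mem_image] at hx
    rcases hx with ⟨i, hi, rfl⟩ | ⟨i, hi, rfl⟩
    · exact hcp.1 i (Finset.mem_range.1 hi)
    · exact hp.1 i (Finset.mem_range.1 hi)
  have hFP : F ⊆ P := Finset.sdiff_subset.trans hDP
  have hFc : F.card ≤ h := by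
    have h5 : F.card ≤ D.card := Finset.card_le_card Finset.sdiff_subset
    have h6 : D.card ≤ C0.card + ((range K).image p).card := Finset.card_union_le _ _
    have h7 : ((range K).image p).card ≤ K := Finset.card_image_le.trans (by rw [Finset.card_range])
    omega
  have hpy : p (K - 1) ≠ c 1 := fun hcc => hpC (K - 1) (by omega) (by omega) (by
    rw [hcc]
    exact hmemC 1 (by omega))
  obtain ⟨z, k2, hz, hz0, hz1, hk2, hk2h⟩ := h2 V r hs P h hh hE F hFP hFc (p (K - 1)) (by
    rw [Finset.mem_sdiff, hF, Finset.mem_sdiff]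
    refine ⟨hp.1 _ (by omega), fun hcc => hcc.2 ?_⟩
    rw [Finset.mem_insert]
    exact Or.inl rfl) (c 1) (by
    rw [Finset.mem_sdiff, hF, Finset.mem_sdiff]
    refine ⟨hcp.1 _ (by omega), fun hcc => hcc.2 ?_⟩
    rw [Finset.mem_insert, Finset.mem_singleton]
    exact Or.inr rfl) hpy
  have hk2ℓ : k2 ≤ ℓ := Nat.le_of_mul_le_mul_right (hk2h.trans hℓ) hh
  -- the inner vertices of the second path
  have hzin : ∀ j, 1 ≤ j → j < k2 → z j ≠ c 1 → z j ∉ D := by
    intro j hj1 hj2 hj3 hjD
    have h5 := hz.1 j hj2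
    rw [Finset.mem_sdiff, hF, Finset.mem_sdiff] at h5
    refine h5.2 ⟨hjD, fun h6 => ?_⟩
    rw [Finset.mem_insert, Finset.mem_singleton] at h6
    rcases h6 with h6 | h6
    · rw [← hz0] at h6
      have := hz.2.1 j hj2 0 (by omega) h6
      omega
    · exact hj3 h6
  have hpD : ∀ i, i < K → p i ∈ D := fun i hi => by
    rw [hD, Finset.mem_union]
    exact Or.inr (Finset.mem_image_of_mem p (Finset.mem_range.2 hi))
  have hCD : ∀ i, i < k0 → c i ∈ D := fun i hi => by
    rw [hD, Finset.mem_union]
    exact Or.inl (hmemC i hi)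
  have hc01 : ∀ i, i < k0 → c i = c 1 → i = 1 := fun i hi hcc => hcp.2.1 i hi 1 (by omega) hcc
  -- p i ≠ z j
  have hpz : ∀ i < K - 1, ∀ j < k2, p i ≠ z j := by
    intro i hi j hj hcc
    by_cases hj0 : j = 0
    · subst hj0
      rw [hz0] at hcc
      have := hp.2.1 i (by omega) (K - 1) (by omega) hcc
      omega
    · by_cases hj1 : z j = c 1
      · rw [hj1] at hcc
        by_cases hi0 : i = 0
        · subst hi0
          rw [hp0] at hcc
          have := hc01 0 (by omega) hcc
          omega
        · exact hpC i (by omega) (by omega) (by rw [hcc]; exact hmemC 1 (by omega))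
      · exact hzin j (by omega) hj hj1 (by rw [← hcc]; exact hpD i (by omega))
  have hzP : PathIn r P z k2 := longOdd_mono hz Finset.sdiff_subset
  have hq := longOdd_cat (longOdd_take hp (Nat.sub_le K 1)) hzP (by omega) (by omega)
    (by
      rw [hz0]
      have := hp.2.2 (K - 1 - 1) (by omega)
      rwa [show K - 1 - 1 + 1 = K - 1 by omega] at this) hpz
  set q : ℕ → V := fun i => if i < K - 1 then p i else z (i - (K - 1)) with hqdef
  have hq0 : q 0 = c 0 := by
    simp only [hqdef]
    rw [if_pos (by omega), hp0]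
  have hql : q (K - 1 + k2 - 1) = c 1 := by
    simp only [hqdef]
    rw [if_neg (by omega), show K - 1 + k2 - 1 - (K - 1) = k2 - 1 by omega, hz1]
  -- q avoids the other vertices of the cycle
  have hqc : ∀ i < K - 1 + k2, ∀ t, 2 ≤ t → t < k0 → q i ≠ c t := by
    intro i hi t ht ht' hcc
    by_cases hi0 : i = 0
    · subst hi0
      rw [hq0] at hcc
      have := hcp.2.1 0 (by omega) t ht' hcc
      omega
    · by_cases hiK : i < K - 1
      · simp only [hqdef, if_pos hiK] at hcc
        exact hpC i (by omega) (by omega) (by rw [hcc]; exact hmemC t ht')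
      · simp only [hqdef, if_neg hiK] at hcc
        by_cases hj0 : i - (K - 1) = 0
        · rw [hj0, hz0] at hcc
          exact hpC (K - 1) (by omega) (by omega) (by rw [hcc]; exact hmemC t ht')
        · refine hzin (i - (K - 1)) (by omega) (by omega) (fun h6 => ?_) (by
            rw [hcc]; exact hCD t ht')
          rw [hcc] at h6
          have := hc01 t ht' h6
          omega
  have hr10 : r (c 1) (c 0) := hs _ _ (hcp.2.2 0 (by omega))
  by_cases hpar : (K - 1 + k2) % 2 = 1
  · refine ⟨q, K - 1 + k2, ⟨hq, ?_⟩, hpar, by omega, by omega⟩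
    rw [hql, hq0]
    exact hr10
  · have hw := longOdd_cat hq (longOdd_drop 2 hcp (by omega)) (by omega) (by omega)
      (by
        rw [hql]
        exact hcp.2.2 1 (by omega)) (fun i hi j hj => hqc i hi (2 + j) (by omega) (by omega))
    refine ⟨_, K - 1 + k2 + (k0 - 2), ⟨hw, ?_⟩, by omega, by omega, by omega⟩
    have e1 : ¬ (K - 1 + k2 + (k0 - 2) - 1 < K - 1 + k2) := by omega
    have e2 : 0 < K - 1 + k2 := by omega
    simp only [if_neg e1, if_pos e2]
    rw [hq0, show 2 + (K - 1 + k2 + (k0 - 2) - 1 - (K - 1 + k2)) = k0 - 1 by omega]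
    exact hcl

end Pool.Agent.Lib.MP_22c8c7_co.Odd
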