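import Mathlib
import Pool.Agent.Lib.MP_22c8c7_co.Odd.Basic
import Pool.Agent.Lib.MP_22c8c7_co.Fin

set_option autoImplicit false

namespace Pool.Agent.Lib.MP_22c8c7_co.Odd

open Finset
open scoped Classical

theorem mainM (h1 : PartStmt) (h2 : ColStmt) (h3 : FinStmt) : MainStmt := by
  intro n hodd hn N hN c hc
  by_contra hcon
  have hn1 : 1 ≤ n := le_trans (by norm_num) hn
  obtain ⟨S0, -, hS0⟩ := Finset.exists_subset_card_eq (s := (univ : Finset (Fin N)))
    (n := 4 * n - 3) (by rw [Finset.card_univ, Fintype.card_fin]; omega)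
  have hno : ∀ i z, ¬ CycIn (rel c i) S0 z n := by
    intro i z hz
    have hn2 : 2 ≤ n := by omega
    obtain ⟨g, hg1, hg2⟩ := fin_of_cycIn (rel c i) S0 n hn2 z hz
    exact hcon ⟨i, g, hg1, fun a b hab => (hg2 a b hab).2⟩
  have hcol : ∀ i, ∃ f, Col n (rel c i) S0 f := by
    intro i
    obtain ⟨π, E, hP⟩ := h1 (Fin N) (rel c i) (rel_symm hc i) (rel_irrefl c i) S0 n hodd hn
      (by omega) (hno i)
    exact h2 (Fin N) (rel c i) S0 n π E (rel_irrefl c i) hn1 hP
  choose f hf using hcol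
  obtain ⟨l, z, hz⟩ := h3 (Fin N) n S0 c f ⟨hc, hodd, le_trans (by norm_num) hn, by omega, hf⟩
  exact hno l z hz

end Pool.Agent.Lib.MP_22c8c7_co.Odd
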