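import Mathlib
import Pool.Agent.Lib.MP_22c8c7_co.Odd.Basic

/-! Building EX1: both sides have the light colour `i`. -/

set_option autoImplicit false

namespace Pool.Agent.Lib.MP_22c8c7_co.Odd

open Finset
open scoped Classical

theorem mkEX1_three : ∀ i j k x : Fin 3, i ≠ j → i ≠ k → j ≠ k → x = i ∨ x = j ∨ x = k := by
  decide

/-- the two sides as statuses -/
def mkEX1_emb (a : Fin 2) : Fin 3 := a.castSucc

theorem mkEX1_emb_ne : ∀ a : Fin 2, mkEX1_emb a ≠ 2 := by
  unfold mkEX1_emb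
  decide

theorem mkEX1_emb_inj : ∀ a b : Fin 2, mkEX1_emb a = mkEX1_emb b → a = b := by
  unfold mkEX1_emb
  decide

/-- the cells -/
noncomputable def mkEX1_cell {V : Type} (f : Fin 3 → V → Fin 3) (S : Finset V) (j k : Fin 3)
    (a b : Fin 2) : Finset V := st f (st f S k (mkEX1_emb a)) j (mkEX1_emb b)

theorem mkEX1_mem {V : Type} {f : Fin 3 → V → Fin 3} {S : Finset V} {j k : Fin 3}
    {a b : Fin 2} {v : V} : v ∈ mkEX1_cell f S j k a b ↔
      (v ∈ S ∧ f k v = mkEX1_emb a) ∧ f j v = mkEX1_emb b := by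
  unfold mkEX1_cell
  rw [mem_st, mem_st]

theorem mkEX1_disj {V : Type} {f : Fin 3 → V → Fin 3} {S : Finset V} {j k : Fin 3}
    {a b a' b' : Fin 2} (h : (a, b) ≠ (a', b')) :
    Disjoint (mkEX1_cell f S j k a b) (mkEX1_cell f S j k a' b') := by
  rw [Finset.disjoint_left]
  intro v hv hv'
  rw [mkEX1_mem] at hv hv'
  apply h
  have h1 : a = a' := mkEX1_emb_inj _ _ (hv.1.2.symm.trans hv'.1.2)
  have h2 : b = b' := mkEX1_emb_inj _ _ (hv.2.symm.trans hv'.2)
  rw [h1, h2]

/-- the pairs of a set of pairs that are bad for their own colour -/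
theorem mkEX1_bad {V : Type} {n : ℕ} {S0 : Finset V} {c : V → V → Fin 3} {f : Fin 3 → V → Fin 3}
    (h : Ctx n S0 c f) (W : Finset (V × V)) (hW : W ⊆ S0 ×ˢ S0) :
    ((W.filter (fun p => p.1 ≠ p.2 ∧ ¬ Ok (f (c p.1 p.2) p.1) (f (c p.1 p.2) p.2))).card : ℝ) ≤
      3 * (eta ^ 2 / 10 * (n : ℝ) ^ 2) := by
  refine bad_all h _ ((Finset.filter_subset _ _).trans hW) ?_
  intro p hp
  exact (Finset.mem_filter.1 hp).2

/-- diagonal or bad -/
theorem mkEX1_cntA {V : Type} {n : ℕ} {S0 : Finset V} {c : V → V → Fin 3}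
    {f : Fin 3 → V → Fin 3} (h : Ctx n S0 c f) (W : Finset (V × V)) (hW : W ⊆ S0 ×ˢ S0)
    (hp : ∀ p ∈ W, p.1 = p.2 ∨
      (p.1 ≠ p.2 ∧ ¬ Ok (f (c p.1 p.2) p.1) (f (c p.1 p.2) p.2))) :
    500 * W.card ≤ n ^ 2 := by
  have h1 := mkEX1_bad h W hW
  have hsub : W ⊆ S0.image (fun v => (v, v)) ∪
      W.filter (fun p => p.1 ≠ p.2 ∧ ¬ Ok (f (c p.1 p.2) p.1) (f (c p.1 p.2) p.2)) := by
    intro p hpW
    rw [Finset.mem_union, Finset.mem_image, Finset.mem_filter]
    rcases hp p hpW with hd | hb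
    · left
      refine ⟨p.1, (Finset.mem_product.1 (hW hpW)).1, ?_⟩
      exact Prod.ext rfl hd
    · exact Or.inr ⟨hpW, hb⟩
  have h2 := (Finset.card_le_card hsub).trans (Finset.card_union_le _ _)
  have h3 : (S0.image (fun v => (v, v))).card ≤ S0.card := Finset.card_image_le
  have h4 := h.card
  have h5 : (W.card : ℝ) ≤ 4 * n +
      (W.filter (fun p => p.1 ≠ p.2 ∧ ¬ Ok (f (c p.1 p.2) p.1) (f (c p.1 p.2) p.2))).card := by
    have : W.card ≤ 4 * n +
      (W.filter (fun p => p.1 ≠ p.2 ∧ ¬ Ok (f (c p.1 p.2) p.1) (f (c p.1 p.2) p.2))).card := by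
      omega
    exact_mod_cast this
  have h6 := h.big_real
  have h7 : (0 : ℝ) ≤ (n : ℝ) := Nat.cast_nonneg _
  have h8 : (10 : ℝ) ^ 8 * n ≤ (n : ℝ) ^ 2 := by nlinarith
  have h9 : (500 : ℝ) * W.card ≤ (n : ℝ) ^ 2 := by
    rw [eta_eq] at h1
    nlinarith
  exact_mod_cast h9

/-- light colour or bad -/
theorem mkEX1_cntB {V : Type} {n : ℕ} {S0 : Finset V} {c : V → V → Fin 3}
    {f : Fin 3 → V → Fin 3} (h : Ctx n S0 c f) (i : Fin 3) (P P' : Finset V) (W : Finset (V × V))
    (hWP : W ⊆ P ×ˢ P') (hW : W ⊆ S0 ×ˢ S0)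
    (hee : (ee (rel c i) P P' : ℝ) ≤ 1000 * eta * (n : ℝ) ^ 2)
    (hp : ∀ p ∈ W, rel c i p.1 p.2 ∨
      (p.1 ≠ p.2 ∧ ¬ Ok (f (c p.1 p.2) p.1) (f (c p.1 p.2) p.2))) :
    500 * W.card ≤ n ^ 2 := by
  have h1 := mkEX1_bad h W hW
  rw [ee_eq_card] at hee
  have hsub : W ⊆ (P ×ˢ P').filter (fun p => rel c i p.1 p.2) ∪
      W.filter (fun p => p.1 ≠ p.2 ∧ ¬ Ok (f (c p.1 p.2) p.1) (f (c p.1 p.2) p.2)) := by
    intro p hpW
    rw [Finset.mem_union, Finset.mem_filter, Finset.mem_filter]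
    rcases hp p hpW with hd | hb
    · exact Or.inl ⟨hWP hpW, hd⟩
    · exact Or.inr ⟨hpW, hb⟩
  have h2 := (Finset.card_le_card hsub).trans (Finset.card_union_le _ _)
  have h5 : (W.card : ℝ) ≤ ((P ×ˢ P').filter (fun p => rel c i p.1 p.2)).card +
      (W.filter (fun p => p.1 ≠ p.2 ∧ ¬ Ok (f (c p.1 p.2) p.1) (f (c p.1 p.2) p.2))).card := by
    exact_mod_cast h2
  have h7 : (0 : ℝ) ≤ (n : ℝ) ^ 2 := by positivity
  have h9 : (500 : ℝ) * W.card ≤ (n : ℝ) ^ 2 := by
    rw [eta_eq] at h1 hee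
    nlinarith
  exact_mod_cast h9

/-- the wrong pairs -/
def mkEX1_B {V : Type} (c : V → V → Fin 3) (i j k : Fin 3) (a b a' b' : Fin 2) (u v : V) : Prop :=
  if a = a' then (if b = b' then ¬ rel c i u v else ¬ rel c j u v)
    else (if b = b' then ¬ rel c k u v else rel c i u v)

/-- the counts of the wrong pairs -/
theorem mkEX1_count (h1 : CrossStmt) {V : Type} {n : ℕ} {S0 : Finset V} {c : V → V → Fin 3}
    {f : Fin 3 → V → Fin 3} {S : Finset V} (hS : Big n S0 c f S) {i j k : Fin 3}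
    (hij : i ≠ j) (hik : i ≠ k) (hjk : j ≠ k)
    (hlight : ∀ v ∈ S, f k v ≠ 2 → f i v = 2)
    (hcard : ∀ a b : Fin 3, a ≠ 2 → b ≠ 2 →
      (1 - 424 * eta) * n ≤ (st f (st f S k a) j b).card) (a b a' b' : Fin 2) :
    500 * ((mkEX1_cell f S j k a b ×ˢ mkEX1_cell f S j k a' b').filter
      (fun p => mkEX1_B c i j k a b a' b' p.1 p.2)).card ≤ n ^ 2 := by
  have hctx := hS.ctx
  have hsub : ∀ a b, mkEX1_cell f S j k a b ⊆ S0 := by
    intro a b v hv
    rw [mkEX1_mem] at hv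
    exact hS.sub hv.1.1
  have hcross : ∀ a b a' b' : Fin 2, (a, b) ≠ (a', b') →
      (ee (rel c i) (mkEX1_cell f S j k a b) (mkEX1_cell f S j k a' b') : ℝ) ≤
        1000 * eta * (n : ℝ) ^ 2 := by
    intro a b a' b' hne
    let T : ℕ → Finset V := fun m =>
      mkEX1_cell f S j k ⟨m / 2 % 2, Nat.mod_lt _ (by norm_num)⟩ ⟨m % 2, Nat.mod_lt _ (by norm_num)⟩
    have hT : ∀ a b : Fin 2, T (2 * a.val + b.val) = mkEX1_cell f S j k a b := by
      intro a b
      have ha := a.isLt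
      have hb := b.isLt
      have e1 : (⟨(2 * a.val + b.val) / 2 % 2, Nat.mod_lt _ (by norm_num)⟩ : Fin 2) = a := by
        apply Fin.ext
        simp only
        omega
      have e2 : (⟨(2 * a.val + b.val) % 2, Nat.mod_lt _ (by norm_num)⟩ : Fin 2) = b := by
        apply Fin.ext
        simp only
        omega
      simp only [T]
      rw [e1, e2]
    have h := h1 V n S0 c f hctx i 4 T le_rfl ?_ ?_ (2 * a.val + b.val) (2 * a'.val + b'.val)
      (by have := a.isLt; have := b.isLt; omega) (by have := a'.isLt; have := b'.isLt; omega) ?_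
    · rw [hT, hT] at h
      exact h
    · intro m _
      refine ⟨hsub _ _, hcard _ _ (mkEX1_emb_ne _) (mkEX1_emb_ne _), ?_, ?_⟩
      · intro v hv
        rw [mkEX1_mem] at hv
        refine hlight v hv.1.1 ?_
        rw [hv.1.2]
        exact mkEX1_emb_ne _
      · intro u hu v hv l hl
        rw [mkEX1_mem] at hu hv
        rcases mkEX1_three i j k l hij hik hjk with e | e | e
        · exact absurd e hl
        · rw [e, hu.2, hv.2, ok_self_iff]
          exact mkEX1_emb_ne _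
        · rw [e, hu.1.2, hv.1.2, ok_self_iff]
          exact mkEX1_emb_ne _
    · intro m m' hm hm' hmm
      apply mkEX1_disj
      intro he
      rw [Prod.mk.injEq, Fin.mk.injEq, Fin.mk.injEq] at he
      omega
    · intro he
      apply hne
      have ha := a.isLt
      have hb := b.isLt
      have ha' := a'.isLt
      have hb' := b'.isLt
      have e1 : a = a' := Fin.ext (by omega)
      have e2 : b = b' := Fin.ext (by omega)
      rw [e1, e2]
  have hW0 : (mkEX1_cell f S j k a b ×ˢ mkEX1_cell f S j k a' b').filter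
      (fun p => mkEX1_B c i j k a b a' b' p.1 p.2) ⊆ S0 ×ˢ S0 :=
    (Finset.filter_subset _ _).trans (Finset.product_subset_product (hsub _ _) (hsub _ _))
  have hmem : ∀ p ∈ (mkEX1_cell f S j k a b ×ˢ mkEX1_cell f S j k a' b').filter
      (fun p => mkEX1_B c i j k a b a' b' p.1 p.2),
      ((p.1 ∈ S ∧ f k p.1 = mkEX1_emb a) ∧ f j p.1 = mkEX1_emb b) ∧
      ((p.2 ∈ S ∧ f k p.2 = mkEX1_emb a') ∧ f j p.2 = mkEX1_emb b') ∧
      mkEX1_B c i j k a b a' b' p.1 p.2 := by
    intro p hp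
    rw [Finset.mem_filter, Finset.mem_product, mkEX1_mem, mkEX1_mem] at hp
    exact ⟨hp.1.1, hp.1.2, hp.2⟩
  by_cases hab : (a, b) = (a', b')
  · rw [Prod.mk.injEq] at hab
    obtain ⟨rfl, rfl⟩ := hab
    refine mkEX1_cntA hctx _ hW0 ?_
    intro p hp
    obtain ⟨hp1, hp2, hB⟩ := hmem p hp
    unfold mkEX1_B at hB
    rw [if_pos rfl, if_pos rfl] at hB
    by_cases hd : p.1 = p.2
    · exact Or.inl hd
    · refine Or.inr ⟨hd, ?_⟩
      rcases mkEX1_three i j k (c p.1 p.2) hij hik hjk with e | e | e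
      · exact absurd ⟨hd, e⟩ hB
      · rw [e, hp1.2, hp2.2, ok_self_iff]
        exact mkEX1_emb_ne _
      · rw [e, hp1.1.2, hp2.1.2, ok_self_iff]
        exact mkEX1_emb_ne _
  · refine mkEX1_cntB hctx i _ _ _ (Finset.filter_subset _ _) hW0 (hcross a b a' b' hab) ?_
    intro p hp
    obtain ⟨hp1, hp2, hB⟩ := hmem p hp
    have hd : p.1 ≠ p.2 := by
      intro he
      apply hab
      rw [← he] at hp2
      have e1 : a = a' := mkEX1_emb_inj _ _ (hp1.1.2.symm.trans hp2.1.2)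
      have e2 : b = b' := mkEX1_emb_inj _ _ (hp1.2.symm.trans hp2.2)
      rw [e1, e2]
    unfold mkEX1_B at hB
    by_cases ha : a = a'
    · have hb : b ≠ b' := by
        intro hb
        apply hab
        rw [ha, hb]
      rw [if_pos ha, if_neg hb] at hB
      rcases mkEX1_three i j k (c p.1 p.2) hij hik hjk with e | e | e
      · exact Or.inl ⟨hd, e⟩
      · exact absurd ⟨hd, e⟩ hB
      · refine Or.inr ⟨hd, ?_⟩
        rw [e, hp1.1.2, hp2.1.2, ← ha, ok_self_iff]
        exact mkEX1_emb_ne _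
    · rw [if_neg ha] at hB
      by_cases hb : b = b'
      · rw [if_pos hb] at hB
        rcases mkEX1_three i j k (c p.1 p.2) hij hik hjk with e | e | e
        · exact Or.inl ⟨hd, e⟩
        · refine Or.inr ⟨hd, ?_⟩
          rw [e, hp1.2, hp2.2, ← hb, ok_self_iff]
          exact mkEX1_emb_ne _
        · exact absurd ⟨hd, e⟩ hB
      · rw [if_neg hb] at hB
        exact Or.inl hB

theorem mkEX1_card {V : Type} (W : Finset V) {n : ℕ} (p q : V → Prop) [DecidablePred p]
    [DecidablePred q] (h : ∀ v, p v ↔ q v)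
    (hp : 10 * (W.filter p).card ≤ n) : 10 * (W.filter q).card ≤ n := by
  rw [← Finset.filter_congr (fun v _ => h v)]
  exact hp

/-- **Building EX1.** -/
theorem mkEX1 (h1 : CrossStmt) (h2 : CoreStmt) : MkEX1Stmt := by
  intro V n S0 c f S hS i j k hij hik hjk hlight hcard
  have hn := hS.ctx.big
  have hbig : ∀ a b, 99 * n ≤ 100 * (mkEX1_cell f S j k a b).card := by
    intro a b
    have h := hcard (mkEX1_emb a) (mkEX1_emb b) (mkEX1_emb_ne _) (mkEX1_emb_ne _)
    have h3 : (0 : ℝ) ≤ (n : ℝ) := Nat.cast_nonneg _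
    have h4 : (99 : ℝ) * n ≤ 100 * (mkEX1_cell f S j k a b).card := by
      unfold mkEX1_cell
      rw [eta_eq] at h
      nlinarith
    exact_mod_cast h4
  obtain ⟨Q, hQ, hQ9, hQB⟩ := h2 V n (mkEX1_cell f S j k) (mkEX1_B c i j k) hbig
    (mkEX1_count h1 hS hij hik hjk hlight hcard)
  have hdisj : ∀ a b a' b', (a, b) ≠ (a', b') → Disjoint (Q a b) (Q a' b') :=
    fun a b a' b' h => Finset.disjoint_of_subset_left (hQ a b)
      (Finset.disjoint_of_subset_right (hQ a' b') (mkEX1_disj h))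
  refine ⟨Q, ⟨⟨?_, hdisj, hQ9⟩, ?_, ?_, ?_, ?_⟩⟩
  · intro a b v hv
    have h := hQ a b hv
    rw [mkEX1_mem] at h
    exact hS.sub h.1.1
  · intro a b v hv
    have h := hQB a b a b v hv
    refine mkEX1_card _ _ _ ?_ h
    intro u
    unfold mkEX1_B
    rw [if_pos rfl, if_pos rfl]
  · intro a
    constructor
    · intro u hu
      have h := hQB a 0 a 1 u hu
      refine mkEX1_card _ _ _ ?_ h
      intro v
      unfold mkEX1_B
      rw [if_pos rfl, if_neg (by decide)]
    · intro u hu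
      have h := hQB a 1 a 0 u hu
      refine mkEX1_card _ _ _ ?_ h
      intro v
      unfold mkEX1_B
      rw [if_pos rfl, if_neg (by decide)]
  · intro b
    constructor
    · intro u hu
      have h := hQB 0 b 1 b u hu
      refine mkEX1_card _ _ _ ?_ h
      intro v
      unfold mkEX1_B
      rw [if_neg (by decide), if_pos rfl]
    · intro u hu
      have h := hQB 1 b 0 b u hu
      refine mkEX1_card _ _ _ ?_ h
      intro v
      unfold mkEX1_B
      rw [if_neg (by decide), if_pos rfl]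
  · intro b
    have hb : b ≠ 1 - b := by
      revert b
      decide
    have hpos : 0 < (Q 0 b).card := by
      have := hQ9 0 b
      omega
    obtain ⟨z, hz⟩ := Finset.card_pos.1 hpos
    have h : 10 * ((Q 1 (1 - b)).filter (fun v => rel c i z v)).card ≤ n := by
      refine mkEX1_card _ _ _ ?_ (hQB 0 b 1 (1 - b) z hz)
      intro v
      unfold mkEX1_B
      rw [if_neg (by decide), if_neg hb]
    by_contra hcon
    push Not at hcon
    have hall : (Q 1 (1 - b)).filter (fun v => rel c i z v) = Q 1 (1 - b) := by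
      apply Finset.filter_true_of_mem
      intro v hv
      refine ⟨?_, hcon z hz v hv⟩
      rintro rfl
      exact (Finset.disjoint_left.1 (hdisj 0 b 1 (1 - b) (by simp))) hz hv
    rw [hall] at h
    have := hQ9 1 (1 - b)
    omega

end Pool.Agent.Lib.MP_22c8c7_co.Odd
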