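import Mathlib
import Pool.Agent.Lib.MP_22c8c7_co.Odd.Basic

set_option autoImplicit false

namespace Pool.Agent.Lib.MP_22c8c7_co.Odd

open Finset
open scoped Classical

private theorem mkEX3_three : ∀ i j k : Fin 3, i ≠ j → i ≠ k → j ≠ k →
    ∀ l : Fin 3, l = i ∨ l = j ∨ l = k := by decide

/-- Only the colour `κ` is allowed between `P` and `P'`. -/
private theorem mkEX3_forced {V : Type} {n : ℕ} {S0 : Finset V} {c : V → V → Fin 3}
    {f : Fin 3 → V → Fin 3} (hctx : Ctx n S0 c f) (P P' : Finset V) (hP : P ⊆ S0)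
    (hP' : P' ⊆ S0) (κ : Fin 3)
    (hno : ∀ u ∈ P, ∀ v ∈ P', ∀ l, l ≠ κ → ¬ Ok (f l u) (f l v)) :
    500 * ((P ×ˢ P').filter (fun p => ¬ rel c κ p.1 p.2)).card ≤ n ^ 2 := by
  have hbig := hctx.big_real
  set B := (P ×ˢ P').filter (fun p => p.1 ≠ p.2 ∧ c p.1 p.2 ≠ κ) with hB
  have h1 := bad_all hctx B ?_ ?_
  · have h2 : (P ×ˢ P').filter (fun p => ¬ rel c κ p.1 p.2) ⊆ P.image (fun u => (u, u)) ∪ B := by
      intro p hp
      rw [Finset.mem_filter, Finset.mem_product] at hp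
      rw [Finset.mem_union]
      by_cases h : p.1 = p.2
      · left
        rw [Finset.mem_image]
        exact ⟨p.1, hp.1.1, Prod.ext rfl h⟩
      · right
        rw [hB, Finset.mem_filter, Finset.mem_product]
        exact ⟨hp.1, h, fun h' => hp.2 ⟨h, h'⟩⟩
    have h3 : ((P ×ˢ P').filter (fun p => ¬ rel c κ p.1 p.2)).card ≤ P.card + B.card :=
      (Finset.card_le_card h2).trans ((Finset.card_union_le _ _).trans
        (Nat.add_le_add_right Finset.card_image_le _))
    have h4 : (P.card : ℝ) ≤ 4 * n := by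
      have t1 := Finset.card_le_card hP
      have t2 := hctx.card
      have t3 : P.card ≤ 4 * n := by omega
      exact_mod_cast t3
    have h5 : (((P ×ˢ P').filter (fun p => ¬ rel c κ p.1 p.2)).card : ℝ) ≤ P.card + B.card := by
      exact_mod_cast h3
    have h6 : (500 : ℝ) * (((P ×ˢ P').filter (fun p => ¬ rel c κ p.1 p.2)).card : ℝ) ≤
        (n : ℝ) ^ 2 := by
      rw [eta_eq] at h1
      nlinarith
    exact_mod_cast h6
  · intro p hp
    rw [hB, Finset.mem_filter, Finset.mem_product] at hp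
    exact Finset.mem_product.2 ⟨hP hp.1.1, hP' hp.1.2⟩
  · intro p hp
    rw [hB, Finset.mem_filter, Finset.mem_product] at hp
    exact ⟨hp.2.1, hno _ hp.1.1 _ hp.1.2 _ hp.2.2⟩

/-- Between `P` and `P'`: colour `κ` is rare, colour `k` is not allowed, so mostly `κ'`. -/
private theorem mkEX3_cross {V : Type} {n : ℕ} {S0 : Finset V} {c : V → V → Fin 3}
    {f : Fin 3 → V → Fin 3} (hctx : Ctx n S0 c f) (P P' : Finset V) (hP : P ⊆ S0)
    (hP' : P' ⊆ S0) (hd : Disjoint P P') {κ κ' k : Fin 3} (h1 : κ ≠ κ') (h2 : κ ≠ k)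
    (h3 : κ' ≠ k) (hno : ∀ u ∈ P, ∀ v ∈ P', ¬ Ok (f k u) (f k v))
    (hee : (ee (rel c κ) P P' : ℝ) ≤ 1000 * eta * (n : ℝ) ^ 2) :
    500 * ((P ×ˢ P').filter (fun p => ¬ rel c κ' p.1 p.2)).card ≤ n ^ 2 := by
  have hbig := hctx.big_real
  set B := (P ×ˢ P').filter (fun p => rel c k p.1 p.2) with hB
  have h4 := bad_one hctx k B ?_ ?_
  · have h5 : (P ×ˢ P').filter (fun p => ¬ rel c κ' p.1 p.2) ⊆
        (P ×ˢ P').filter (fun p => rel c κ p.1 p.2) ∪ B := by
      intro p hp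
      rw [Finset.mem_filter] at hp
      have hp1 := Finset.mem_product.1 hp.1
      have hne : p.1 ≠ p.2 := fun h => Finset.disjoint_left.1 hd hp1.1 (h ▸ hp1.2)
      rw [Finset.mem_union, hB, Finset.mem_filter, Finset.mem_filter]
      rcases mkEX3_three κ κ' k h1 h2 h3 (c p.1 p.2) with h | h | h
      · exact Or.inl ⟨hp.1, hne, h⟩
      · exact absurd ⟨hne, h⟩ hp.2
      · exact Or.inr ⟨hp.1, hne, h⟩
    have h6 : ((P ×ˢ P').filter (fun p => ¬ rel c κ' p.1 p.2)).card ≤
        ee (rel c κ) P P' + B.card := by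
      rw [ee_eq_card]
      exact (Finset.card_le_card h5).trans (Finset.card_union_le _ _)
    have h7 : (((P ×ˢ P').filter (fun p => ¬ rel c κ' p.1 p.2)).card : ℝ) ≤
        (ee (rel c κ) P P' : ℝ) + B.card := by
      exact_mod_cast h6
    have h8 : (500 : ℝ) * (((P ×ˢ P').filter (fun p => ¬ rel c κ' p.1 p.2)).card : ℝ) ≤
        (n : ℝ) ^ 2 := by
      rw [eta_eq] at h4 hee
      nlinarith
    exact_mod_cast h8
  · intro p hp
    rw [hB, Finset.mem_filter, Finset.mem_product] at hp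
    exact Finset.mem_product.2 ⟨hP hp.1.1, hP' hp.1.2⟩
  · intro p hp
    rw [hB, Finset.mem_filter, Finset.mem_product] at hp
    exact ⟨hp.2, hno _ hp.1.1 _ hp.1.2⟩

/-- `CrossStmt` for two cells. -/
private theorem mkEX3_two (h1 : CrossStmt) {V : Type} {n : ℕ} {S0 : Finset V}
    {c : V → V → Fin 3} {f : Fin 3 → V → Fin 3} (hctx : Ctx n S0 c f) (i : Fin 3)
    (P P' : Finset V) (hd : Disjoint P P')
    (hP : P ⊆ S0 ∧ (1 - 424 * eta) * n ≤ P.card ∧ (∀ v ∈ P, f i v = 2) ∧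
      ∀ u ∈ P, ∀ v ∈ P, ∀ l, l ≠ i → ¬ Ok (f l u) (f l v))
    (hP' : P' ⊆ S0 ∧ (1 - 424 * eta) * n ≤ P'.card ∧ (∀ v ∈ P', f i v = 2) ∧
      ∀ u ∈ P', ∀ v ∈ P', ∀ l, l ≠ i → ¬ Ok (f l u) (f l v)) :
    (ee (rel c i) P P' : ℝ) ≤ 1000 * eta * (n : ℝ) ^ 2 := by
  have h := h1 V n S0 c f hctx i 2 (fun m => if m = 0 then P else P') (by norm_num) ?_ ?_ 0 1
    (by norm_num) (by norm_num) (by norm_num)
  · simpa using h
  · intro m hm
    by_cases h0 : m = 0
    · subst h0
      simpa using hP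
    · simp only [if_neg h0]
      exact hP'
  · intro m m' hm hm' hne
    by_cases h0 : m = 0
    · have h0' : m' ≠ 0 := fun h => hne (by rw [h0, h])
      simp only [if_pos h0, if_neg h0']
      exact hd
    · have h0' : m' = 0 := by omega
      simp only [if_neg h0, if_pos h0']
      exact hd.symm

private def mkEX3_e (b : Fin 2) : Fin 3 := if b = 0 then 0 else 1

private theorem mkEX3_e_ne (b : Fin 2) : mkEX3_e b ≠ 2 := by
  unfold mkEX3_e
  revert b
  decide

private theorem mkEX3_e_inj : ∀ b b' : Fin 2, b ≠ b' → mkEX3_e b ≠ mkEX3_e b' := by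
  unfold mkEX3_e
  decide

private theorem mkEX3_2 : ∀ a a' b : Fin 2, a ≠ b → a' ≠ b → a = a' := by decide

private theorem mkEX3_01 : ∀ a : Fin 2, a = 0 ∨ a = 1 := by decide

theorem mkEX3 (h1 : CrossStmt) (h2 : CoreStmt) : MkEX3Stmt := by
  intro V n S0 c f S hB i j k hij hik hjk hf0 hf1 hs0 hs1
  have hctx := hB.ctx
  have hbig := hctx.big_real
  have hnpos : (0 : ℝ) < n := by linarith [show (0 : ℝ) < 10 ^ 8 by norm_num]
  -- the cells
  set R0 : Fin 2 → Finset V := fun b => st f (st f S k 0) j (mkEX3_e b) with hR0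
  set R1 : Fin 2 → Finset V := fun b => st f (st f S k 1) i (mkEX3_e b) with hR1
  have m0 : ∀ b v, v ∈ R0 b → v ∈ S ∧ f k v = 0 ∧ f j v = mkEX3_e b ∧ f i v = 2 := by
    intro b v hv
    rw [hR0] at hv
    simp only [mem_st] at hv
    exact ⟨hv.1.1, hv.1.2, hv.2, hf0 v hv.1.1 hv.1.2⟩
  have m1 : ∀ b v, v ∈ R1 b → v ∈ S ∧ f k v = 1 ∧ f i v = mkEX3_e b ∧ f j v = 2 := by
    intro b v hv
    rw [hR1] at hv
    simp only [mem_st] at hv
    exact ⟨hv.1.1, hv.1.2, hv.2, hf1 v hv.1.1 hv.1.2⟩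
  have sub0 : ∀ b, R0 b ⊆ S0 := fun b v hv => hB.sub (m0 b v hv).1
  have sub1 : ∀ b, R1 b ⊆ S0 := fun b v hv => hB.sub (m1 b v hv).1
  have big0 : ∀ b, (1 - 424 * eta) * n ≤ ((R0 b).card : ℝ) := fun b => hs0 _ (mkEX3_e_ne b)
  have big1 : ∀ b, (1 - 424 * eta) * n ≤ ((R1 b).card : ℝ) := fun b => hs1 _ (mkEX3_e_ne b)
  have dis0 : ∀ b b', b ≠ b' → Disjoint (R0 b) (R0 b') := by
    intro b b' hbb
    rw [Finset.disjoint_left]
    intro v hv hv'
    exact mkEX3_e_inj b b' hbb ((m0 b v hv).2.2.1.symm.trans (m0 b' v hv').2.2.1)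
  have dis1 : ∀ b b', b ≠ b' → Disjoint (R1 b) (R1 b') := by
    intro b b' hbb
    rw [Finset.disjoint_left]
    intro v hv hv'
    exact mkEX3_e_inj b b' hbb ((m1 b v hv).2.2.1.symm.trans (m1 b' v hv').2.2.1)
  have dis01 : ∀ b b', Disjoint (R0 b) (R1 b') := by
    intro b b'
    rw [Finset.disjoint_left]
    intro v hv hv'
    have := (m0 b v hv).2.1.symm.trans (m1 b' v hv').2.1
    exact absurd this (by decide)
  -- inside a cell
  have in0 : ∀ b, ∀ u ∈ R0 b, ∀ v ∈ R0 b, ∀ l, l ≠ i → ¬ Ok (f l u) (f l v) := by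
    intro b u hu v hv l hl
    rcases mkEX3_three i j k hij hik hjk l with h | h | h
    · exact absurd h hl
    · rw [h, (m0 b u hu).2.2.1, (m0 b v hv).2.2.1, ok_self_iff]
      exact mkEX3_e_ne b
    · rw [h, (m0 b u hu).2.1, (m0 b v hv).2.1, ok_self_iff]
      decide
  have in1 : ∀ b, ∀ u ∈ R1 b, ∀ v ∈ R1 b, ∀ l, l ≠ j → ¬ Ok (f l u) (f l v) := by
    intro b u hu v hv l hl
    rcases mkEX3_three i j k hij hik hjk l with h | h | h
    · rw [h, (m1 b u hu).2.2.1, (m1 b v hv).2.2.1, ok_self_iff]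
      exact mkEX3_e_ne b
    · exact absurd h hl
    · rw [h, (m1 b u hu).2.1, (m1 b v hv).2.1, ok_self_iff]
      decide
  -- between the sides
  have bet : ∀ b b', ∀ u ∈ R0 b, ∀ v ∈ R1 b', ∀ l, l ≠ k → ¬ Ok (f l u) (f l v) := by
    intro b b' u hu v hv l hl
    rcases mkEX3_three i j k hij hik hjk l with h | h | h
    · rw [h, (m0 b u hu).2.2.2, (m1 b' v hv).2.2.1, ok_two_left]
      exact mkEX3_e_ne b'
    · rw [h, (m0 b u hu).2.2.1, (m1 b' v hv).2.2.2, ok_two_right]
      exact mkEX3_e_ne b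
    · exact absurd h hl
  have full0 : ∀ b, R0 b ⊆ S0 ∧ (1 - 424 * eta) * n ≤ ((R0 b).card : ℝ) ∧
      (∀ v ∈ R0 b, f i v = 2) ∧
      ∀ u ∈ R0 b, ∀ v ∈ R0 b, ∀ l, l ≠ i → ¬ Ok (f l u) (f l v) :=
    fun b => ⟨sub0 b, big0 b, fun v hv => (m0 b v hv).2.2.2, in0 b⟩
  have full1 : ∀ b, R1 b ⊆ S0 ∧ (1 - 424 * eta) * n ≤ ((R1 b).card : ℝ) ∧
      (∀ v ∈ R1 b, f j v = 2) ∧
      ∀ u ∈ R1 b, ∀ v ∈ R1 b, ∀ l, l ≠ j → ¬ Ok (f l u) (f l v) :=
    fun b => ⟨sub1 b, big1 b, fun v hv => (m1 b v hv).2.2.2, in1 b⟩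
  -- the counts
  have cS0 : ∀ b, 500 * ((R0 b ×ˢ R0 b).filter (fun p => ¬ rel c i p.1 p.2)).card ≤ n ^ 2 :=
    fun b => mkEX3_forced hctx _ _ (sub0 b) (sub0 b) i (in0 b)
  have cS1 : ∀ b, 500 * ((R1 b ×ˢ R1 b).filter (fun p => ¬ rel c j p.1 p.2)).card ≤ n ^ 2 :=
    fun b => mkEX3_forced hctx _ _ (sub1 b) (sub1 b) j (in1 b)
  have cC0 : ∀ b b', b ≠ b' →
      500 * ((R0 b ×ˢ R0 b').filter (fun p => ¬ rel c j p.1 p.2)).card ≤ n ^ 2 := by
    intro b b' hbb
    refine mkEX3_cross hctx _ _ (sub0 b) (sub0 b') (dis0 b b' hbb) hij hik hjk ?_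
      (mkEX3_two h1 hctx i _ _ (dis0 b b' hbb) (full0 b) (full0 b'))
    intro u hu v hv
    rw [(m0 b u hu).2.1, (m0 b' v hv).2.1, ok_self_iff]
    decide
  have cC1 : ∀ b b', b ≠ b' →
      500 * ((R1 b ×ˢ R1 b').filter (fun p => ¬ rel c i p.1 p.2)).card ≤ n ^ 2 := by
    intro b b' hbb
    refine mkEX3_cross hctx _ _ (sub1 b) (sub1 b') (dis1 b b' hbb) hij.symm hjk hik ?_
      (mkEX3_two h1 hctx j _ _ (dis1 b b' hbb) (full1 b) (full1 b'))
    intro u hu v hv
    rw [(m1 b u hu).2.1, (m1 b' v hv).2.1, ok_self_iff]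
    decide
  have c01 : ∀ b b', 500 * ((R0 b ×ˢ R1 b').filter (fun p => ¬ rel c k p.1 p.2)).card ≤ n ^ 2 :=
    fun b b' => mkEX3_forced hctx _ _ (sub0 b) (sub1 b') k (bet b b')
  have c10 : ∀ b b', 500 * ((R1 b ×ˢ R0 b').filter (fun p => ¬ rel c k p.1 p.2)).card ≤ n ^ 2 :=
    fun b b' => mkEX3_forced hctx _ _ (sub1 b) (sub0 b') k
      (fun u hu v hv l hl h => bet b' b v hv u hu l hl h.symm)
  -- the cores
  have hcore := h2 V n (fun a b => if a = 0 then R0 b else R1 b)
    (fun a b a' b' u v =>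
      if a = 0 then (if a' = 0 then (if b = b' then ¬ rel c i u v else ¬ rel c j u v)
        else ¬ rel c k u v)
      else (if a' = 0 then ¬ rel c k u v
        else (if b = b' then ¬ rel c j u v else ¬ rel c i u v))) ?_ ?_
  · obtain ⟨Q', q1, q2, q3⟩ := hcore
    have n10 : ¬ (1 : Fin 2) = 0 := by decide
    have q1' : ∀ b, Q' 0 b ⊆ R0 b := by
      intro b
      have := q1 0 b
      simpa using this
    have q1'' : ∀ b, Q' 1 b ⊆ R1 b := by
      intro b
      have := q1 1 b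
      simpa using this
    refine ⟨Q', ⟨?_, ?_, q2⟩, ?_, ?_, ?_, ?_, ?_⟩
    · intro a b
      rcases mkEX3_01 a with h | h <;> rw [h]
      · exact (q1' b).trans (sub0 b)
      · exact (q1'' b).trans (sub1 b)
    · intro a b a' b' hne
      rcases mkEX3_01 a with h | h <;> rcases mkEX3_01 a' with h' | h'
      · rw [h, h'] at hne ⊢
        have hbb : b ≠ b' := fun h => hne (by rw [h])
        exact Finset.disjoint_of_subset_left (q1' b)
          (Finset.disjoint_of_subset_right (q1' b') (dis0 b b' hbb))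
      · rw [h, h']
        exact Finset.disjoint_of_subset_left (q1' b)
          (Finset.disjoint_of_subset_right (q1'' b') (dis01 b b'))
      · rw [h, h']
        exact (Finset.disjoint_of_subset_left (q1' b')
          (Finset.disjoint_of_subset_right (q1'' b) (dis01 b' b))).symm
      · rw [h, h'] at hne ⊢
        have hbb : b ≠ b' := fun h => hne (by rw [h])
        exact Finset.disjoint_of_subset_left (q1'' b)
          (Finset.disjoint_of_subset_right (q1'' b') (dis1 b b' hbb))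
    · intro b v hv
      have := q3 0 b 0 b v hv
      simpa using this
    · intro b v hv
      have := q3 1 b 1 b v hv
      simpa using this
    · refine ⟨?_, ?_⟩
      · intro u hu
        have := q3 0 0 0 1 u hu
        simpa using this
      · intro u hu
        have := q3 0 1 0 0 u hu
        simpa using this
    · refine ⟨?_, ?_⟩
      · intro u hu
        have := q3 1 0 1 1 u hu
        simpa using this
      · intro u hu
        have := q3 1 1 1 0 u hu
        simpa using this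
    · intro b b'
      refine ⟨?_, ?_⟩
      · intro u hu
        have := q3 0 b 1 b' u hu
        simpa using this
      · intro u hu
        have := q3 1 b' 0 b u hu
        simpa using this
  · intro a b
    have t : ∀ P : Finset V, (1 - 424 * eta) * n ≤ (P.card : ℝ) → 99 * n ≤ 100 * P.card := by
      intro P hP
      rw [eta_eq] at hP
      have : (99 : ℝ) * n ≤ 100 * (P.card : ℝ) := by linarith
      exact_mod_cast this
    by_cases h : a = 0
    · simp only [if_pos h]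
      exact t _ (big0 b)
    · simp only [if_neg h]
      exact t _ (big1 b)
  · intro a b a' b'
    by_cases h : a = 0 <;> by_cases h' : a' = 0 <;> by_cases h'' : b = b'
    · subst h''
      simp only [if_pos h, if_pos h', if_true]
      exact cS0 b
    · simp only [if_pos h, if_pos h', if_neg h'']
      exact cC0 b b' h''
    · simp only [if_pos h, if_neg h']
      exact c01 b b'
    · simp only [if_pos h, if_neg h']
      exact c01 b b'
    · simp only [if_neg h, if_pos h']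
      exact c10 b b'
    · simp only [if_neg h, if_pos h']
      exact c10 b b'
    · subst h''
      simp only [if_neg h, if_neg h', if_true]
      exact cS1 b
    · simp only [if_neg h, if_neg h', if_neg h'']
      exact cC1 b b' h''

end Pool.Agent.Lib.MP_22c8c7_co.Odd
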