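import Mathlib
import Pool.Agent.Lib.MP_22c8c7_co.Odd.Basic
import Pool.Agent.Lib.MP_22c8c7_co.Short

/-! A near-clique with attached vertices (see the docstring of `NCStmt` in `Odd/Spec.lean`). -/

set_option autoImplicit false

namespace Pool.Agent.Lib.MP_22c8c7_co.Odd

open Finset
open scoped Classical

/-- A complete graph has a Hamilton cycle. -/
private theorem nc_complete {V : Type} (r : V → V → Prop) (S : Finset V) (n : ℕ)
    (hS : S.card = n) (hn : 3 ≤ n) (h : ∀ a ∈ S, ∀ b ∈ S, a ≠ b → r a b) :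
    ∃ z, CycIn r S z n := by
  let e := Finset.equivFinOfCardEq hS
  have hne : S.Nonempty := by
    rw [← Finset.card_pos, hS]
    omega
  obtain ⟨x0, hx0⟩ := hne
  let z : ℕ → V := fun i => if h : i < n then (e.symm ⟨i, h⟩).1 else x0
  have hz : ∀ i (h : i < n), z i = (e.symm ⟨i, h⟩).1 := fun i h => dif_pos h
  have hmem : ∀ i, i < n → z i ∈ S := by
    intro i hi
    rw [hz i hi]
    exact (e.symm ⟨i, hi⟩).2
  have hinj : ∀ i, i < n → ∀ j, j < n → z i = z j → i = j := by
    intro i hi j hj hij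
    rw [hz i hi, hz j hj] at hij
    have h1 := e.symm.injective (Subtype.ext hij)
    exact congrArg Fin.val h1
  refine ⟨z, ⟨hmem, hinj, ?_⟩, ?_⟩
  · intro i hi
    refine h _ (hmem i (by omega)) _ (hmem (i + 1) hi) ?_
    intro heq
    have := hinj i (by omega) (i + 1) hi heq
    omega
  · refine h _ (hmem _ (by omega)) _ (hmem 0 (by omega)) ?_
    intro heq
    have := hinj _ (by omega) 0 (by omega) heq
    omega

/-- The case `|Q| + |U| = n`. -/
private theorem nc_core (hbc : BCStmt) {V : Type} (r : V → V → Prop)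
    (hs : ∀ a b, r a b → r b a) (hi : ∀ a, ¬ r a a) (n : ℕ) (Q U : Finset V) (hn : 100 ≤ n)
    (hQ : NCl r n Q) (hQ9 : 9 * n ≤ 10 * Q.card) (hd : Disjoint Q U)
    (hU : ∀ u ∈ U, n ≤ 4 * dg r Q u) (hcard : Q.card + U.card = n) :
    ∃ z, CycIn r (Q ∪ U) z n := by
  by_contra hno
  push Not at hno
  have hS : (Q ∪ U).card = n := by rw [Finset.card_union_of_disjoint hd, hcard]
  obtain ⟨r', h1, h2, h3, h4, h5⟩ := hbc V r hs hi (Q ∪ U) n hS (by omega) hno
  have hQS : Q ⊆ Q ∪ U := Finset.subset_union_left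
  have hUS : U ⊆ Q ∪ U := Finset.subset_union_right
  have hdg : ∀ v ∈ Q ∪ U, dg r Q v ≤ dg r' (Q ∪ U) v := by
    intro v hv
    unfold dg
    refine Finset.card_le_card ?_
    intro x hx
    rw [Finset.mem_filter] at hx ⊢
    exact ⟨hQS hx.1, h3 v hv x (hQS hx.1) hx.2⟩
  have hq1 : ∀ q ∈ Q, 8 * n ≤ 10 * dg r' (Q ∪ U) q := by
    intro q hq
    have e1 := hQ q hq
    have e2 := hdg q (hQS hq)
    have e3 : dg r Q q + (Q.filter (fun u => ¬ r q u)).card = Q.card := by
      unfold dg
      exact Finset.card_filter_add_card_filter_not (s := Q) (fun u => r q u)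
    omega
  have hqq : ∀ q ∈ Q, ∀ q' ∈ Q, q ≠ q' → r' q q' := by
    intro q hq q' hq' hne
    by_contra hcon
    have e1 := h5 q (hQS hq) q' (hQS hq') hne hcon
    have e2 := hq1 q hq
    have e3 := hq1 q' hq'
    omega
  have hq2 : ∀ q ∈ Q, Q.card ≤ dg r' (Q ∪ U) q + 1 := by
    intro q hq
    have e1 : Q.erase q ⊆ (Q ∪ U).filter (fun u => r' q u) := by
      intro x hx
      rw [Finset.mem_erase] at hx
      rw [Finset.mem_filter]
      exact ⟨hQS hx.2, hqq q hq x hx.2 (Ne.symm hx.1)⟩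
    have e2 := Finset.card_le_card e1
    rw [Finset.card_erase_of_mem hq] at e2
    unfold dg
    omega
  have huq : ∀ u ∈ U, ∀ q ∈ Q, r' u q := by
    intro u hu q hq
    by_contra hcon
    have hne : u ≠ q := fun h => Finset.disjoint_left.1 hd hq (h ▸ hu)
    have e1 := h5 u (hUS hu) q (hQS hq) hne hcon
    have e2 := hq2 q hq
    have e3 := hdg u (hUS hu)
    have e4 := hU u hu
    omega
  have huu : ∀ u ∈ U, ∀ u' ∈ U, u ≠ u' → r' u u' := by
    intro u hu u' hu' hne
    by_contra hcon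
    have e1 := h5 u (hUS hu) u' (hUS hu') hne hcon
    have e2 : ∀ w ∈ U, Q.card ≤ dg r' (Q ∪ U) w := by
      intro w hw
      unfold dg
      refine Finset.card_le_card ?_
      intro x hx
      rw [Finset.mem_filter]
      exact ⟨hQS hx, huq w hw x hx⟩
    have e3 := e2 u hu
    have e4 := e2 u' hu'
    omega
  have hall : ∀ a ∈ Q ∪ U, ∀ b ∈ Q ∪ U, a ≠ b → r' a b := by
    intro a ha b hb hab
    rcases Finset.mem_union.1 ha with ha | ha <;> rcases Finset.mem_union.1 hb with hb | hb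
    · exact hqq a ha b hb hab
    · exact h1 _ _ (huq b hb a ha)
    · exact huq a ha b hb
    · exact huu a ha b hb hab
  obtain ⟨z, hz⟩ := nc_complete r' (Q ∪ U) n hS (by omega) hall
  exact h4 z hz

theorem nc (h1 : BCStmt) : NCStmt := by
  intro V r hs hi n Q U hn hQ hQ9 hd hU hcard
  rcases Nat.lt_or_ge Q.card n with hlt | hge
  · obtain ⟨U', hU', hcU⟩ := Finset.exists_subset_card_eq (s := U) (n := n - Q.card) (by omega)
    have hd' : Disjoint Q U' := hd.mono_right hU'
    obtain ⟨z, hz⟩ := nc_core h1 r hs hi n Q U' hn hQ hQ9 hd' (fun u hu => hU u (hU' hu))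
      (by omega)
    exact ⟨z, hz.mono (Finset.union_subset_union_right hU')⟩
  · obtain ⟨Q', hQ', hcQ⟩ := Finset.exists_subset_card_eq (s := Q) (n := n) hge
    have hN : NCl r n Q' := by
      intro v hv
      refine le_trans ?_ (hQ v (hQ' hv))
      exact Nat.mul_le_mul_left _ (Finset.card_le_card (Finset.filter_subset_filter _ hQ'))
    obtain ⟨z, hz⟩ := nc_core h1 r hs hi n Q' ∅ hn hN (by omega) (Finset.disjoint_empty_right _)
      (fun u hu => absurd hu (Finset.notMem_empty u)) (by rw [Finset.card_empty]; omega)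
    refine ⟨z, hz.mono ?_⟩
    rw [Finset.union_empty]
    exact hQ'.trans Finset.subset_union_left

end Pool.Agent.Lib.MP_22c8c7_co.Odd
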