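import Mathlib
import Pool.Agent.Lib.MP_22c8c7_co.Odd.Basic

/-! Expansion of neighbourhoods. -/

set_option autoImplicit false

namespace Pool.Agent.Lib.MP_22c8c7_co.Odd

open Finset
open scoped Classical

theorem nbr : NbrStmt := by
  intro V r P D hE
  refine ⟨?_, ?_⟩
  · intro B hB hne h2
    have h1 := hE B hB h2
    have h3 : ee r B (P \ B) ≤ B.card * ((P \ B).filter (fun u => ∃ v ∈ B, r v u)).card := by
      unfold ee
      rw [← smul_eq_mul]
      refine Finset.sum_le_card_nsmul _ _ _ fun v hv => ?_
      unfold dg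
      refine Finset.card_le_card ?_
      intro u hu
      rw [Finset.mem_filter] at hu ⊢
      exact ⟨hu.1, v, hv, hu.2⟩
    have h4 : B.card * D ≤ B.card * ((P \ B).filter (fun u => ∃ v ∈ B, r v u)).card := by
      rw [mul_comm B.card D]
      exact h1.trans h3
    exact Nat.le_of_mul_le_mul_left h4 (Finset.card_pos.2 hne)
  · intro h2 v hv
    have h1 := hE {v} (Finset.singleton_subset_iff.2 hv) (by rw [Finset.card_singleton]; omega)
    rw [Finset.card_singleton, mul_one] at h1
    unfold ee at h1
    rw [Finset.sum_singleton] at h1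
    refine h1.trans ?_
    unfold dg
    refine Finset.card_le_card ?_
    intro u hu
    rw [Finset.mem_filter] at hu ⊢
    exact ⟨(Finset.mem_sdiff.1 hu.1).1, hu.2⟩

end Pool.Agent.Lib.MP_22c8c7_co.Odd
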