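import Pool.Agent.Lib.MP_22c8c7_co.Odd.Spec

/-!
# MP_22c8c7_co: numerical part of case 1
-/

set_option autoImplicit false

namespace Pool.Agent.Lib.MP_22c8c7_co.Odd

namespace Num1

theorem small {e y1 y2 : ℝ} (he0 : 0 < e) (hy1 : 0 ≤ y1) (hy2 : 0 ≤ y2) (h1 : y1 < 2)
    (ha : 4 - 144 * e ≤ (y1 ^ 2 / 2 - y1) + (y2 ^ 2 / 2 - y2)) : 4 - 200 * e ≤ y2 := by
  by_contra hne
  push Not at hne
  have h3 : y1 * (2 - y1) ≥ 0 := mul_nonneg hy1 (by linarith)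
  have h4 : 0 < (4 - 200 * e - y2) * (y2 + 2) := mul_pos (by linarith) (by linarith)
  have h5 : 0 ≤ e * y2 := by positivity
  nlinarith

theorem mid {e y : ℝ} (he0 : 0 < e) (he1 : e ≤ 1 / 10 ^ 6) (h : (y - 2) * (4 - y) ≤ 368 * e)
    (h4 : y < 4 - 200 * e) : y ≤ 2 + 200 * e := by
  by_contra hne
  push Not at hne
  have h1 : 0 < (y - 2 - 200 * e) * (4 - 200 * e - y) := mul_pos (by linarith) (by linarith)
  have h5 : e * e ≤ e * (1 / 10 ^ 6) := mul_le_mul_of_nonneg_left he1 he0.le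
  nlinarith

end Num1

open Num1 in
/-- numerical part of case 1 -/
theorem num1 : Num1Stmt := by
  intro s a1 b1 a2 b2 t00 t01 t10 t11 hs1 hs2 ha1 hb1 ha2 hb2 ht00 ht01 ht10 ht11 hy1s hy2s hT
    hu00 hu01 hu10 hu11 h
  have he : eta = 1 / 10 ^ 6 := rfl
  obtain ⟨e, hee⟩ : ∃ e, e = eta := ⟨_, rfl⟩
  rw [← hee] at h hs1 hu00 hu01 hu10 hu11 ⊢
  have he0 : 0 < e := by rw [hee, he]; norm_num
  have he1 : e ≤ 1 / 10 ^ 6 := by rw [hee, he]
  obtain ⟨y1, hy1⟩ : ∃ y, y = a1 + b1 := ⟨_, rfl⟩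
  obtain ⟨y2, hy2⟩ : ∃ y, y = a2 + b2 := ⟨_, rfl⟩
  rw [← hy1] at h hy1s hT ⊢
  rw [← hy2] at h hy2s hT ⊢
  have hy10 : 0 ≤ y1 := by rw [hy1]; positivity
  have hy20 : 0 ≤ y2 := by rw [hy2]; positivity
  have hab1 : 2 * (a1 * b1) ≤ y1 ^ 2 / 2 := by rw [hy1]; nlinarith [sq_nonneg (a1 - b1)]
  have hab2 : 2 * (a2 * b2) ≤ y2 ^ 2 / 2 := by rw [hy2]; nlinarith [sq_nonneg (a2 - b2)]
  have hP0 : 0 ≤ t00 * t11 + t01 * t10 := by positivity
  have hee2 : e * e ≤ e * (1 / 10 ^ 6) := mul_le_mul_of_nonneg_left he1 he0.le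
  have hP : (t00 + t01 + t10 + t11) - 2 - 20 * e ≤ t00 * t11 + t01 * t10 := by
    have h1 : 0 ≤ (1 + 4 * e - t00) * (1 + 4 * e - t11) := mul_nonneg (by linarith) (by linarith)
    have h2 : 0 ≤ (1 + 4 * e - t01) * (1 + 4 * e - t10) := mul_nonneg (by linarith) (by linarith)
    have h3 : 0 ≤ e * (t00 + t01 + t10 + t11) := by positivity
    nlinarith
  have hs : 4 - 140 * e ≤ s ^ 2 - 3 * s := by
    have h1 : 0 ≤ (s - (4 - 28 * e)) * (s + 1) := mul_nonneg (by linarith) (by linarith)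
    have h2 : 28 * e * (s + 1) ≤ 28 * e * 5 := mul_le_mul_of_nonneg_left (by linarith) (by positivity)
    nlinarith
  have ha : 4 - 144 * e ≤ (y1 ^ 2 / 2 - y1) + (y2 ^ 2 / 2 - y2) := by linarith
  have hb : (y1 - 2) * (4 - y1) + (y2 - 2) * (4 - y2) ≤ 368 * e := by nlinarith
  rcases lt_or_ge y1 2 with h1 | h1
  · exact Or.inr (small he0 hy10 hy20 h1 ha)
  rcases lt_or_ge y2 2 with h2 | h2
  · exact Or.inl (small he0 hy20 hy10 h2 (by linarith))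
  by_contra hne
  push Not at hne
  obtain ⟨g1, g2⟩ := hne
  have e1 : 0 ≤ (y1 - 2) * (4 - y1) := mul_nonneg (by linarith) (by linarith)
  have e2 : 0 ≤ (y2 - 2) * (4 - y2) := mul_nonneg (by linarith) (by linarith)
  have f1 : y1 ≤ 2 + 200 * e := mid he0 he1 (by linarith) g1
  have f2 : y2 ≤ 2 + 200 * e := mid he0 he1 (by linarith) g2
  have k1 : 0 ≤ (2 + 200 * e - y1) * y1 := mul_nonneg (by linarith) (by linarith)
  have k2 : 0 ≤ (2 + 200 * e - y2) * y2 := mul_nonneg (by linarith) (by linarith)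
  have k3 : 0 ≤ e * (2 + 200 * e - y1) := mul_nonneg he0.le (by linarith)
  have k4 : 0 ≤ e * (2 + 200 * e - y2) := mul_nonneg he0.le (by linarith)
  nlinarith

end Pool.Agent.Lib.MP_22c8c7_co.Odd
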