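import Pool.Agent.Lib.MP_22c8c7_co.Odd.Spec

/-!
# MP_22c8c7_co: numerical part of the sides
-/

set_option autoImplicit false

namespace Pool.Agent.Lib.MP_22c8c7_co.Odd

/-- numerical part of the sides -/
theorem num2 : Num2Stmt := by
  intro x p q hp hq hpq h
  have he : eta = 1 / 10 ^ 6 := rfl
  obtain ⟨e, hee⟩ : ∃ e, e = eta := ⟨_, rfl⟩
  rw [← hee] at h ⊢
  have he0 : 0 < e := by rw [hee, he]; norm_num
  have he1 : e ≤ 1 / 10 ^ 6 := by rw [hee, he]
  obtain ⟨r, hr⟩ : ∃ r, r = p + q := ⟨_, rfl⟩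
  have hr0 : 0 ≤ r := by rw [hr]; positivity
  have hrx : r ≤ x := by rw [hr]; exact hpq
  have hpq2 : 2 * (p * q) ≤ r ^ 2 / 2 := by
    rw [hr]
    nlinarith [sq_nonneg (p - q)]
  have h1 : x ^ 2 - r ^ 2 / 2 ≤ 2 * x - r + 4 * e := by
    rw [← hr] at h
    linarith
  have hx : x ≤ 2 + 4 * e := by
    by_contra hne
    push Not at hne
    have h2 : 0 ≤ (x - r) * (x + r - 2) := mul_nonneg (by linarith) (by linarith)
    have h3 : 0 < (x - 2 - 4 * e) * x := mul_pos (by linarith) (by linarith)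
    have h4 : 0 ≤ e * (x - 2) := mul_nonneg he0.le (by linarith)
    nlinarith
  refine ⟨hx, fun hx2 => ?_⟩
  by_contra hne
  push Not at hne
  obtain ⟨g1, g2⟩ := hne
  rw [← hr] at g1 g2
  have h2 : x * (2 - x) ≤ 204 * e * (2 + 4 * e) := by
    rcases le_or_gt x 2 with hx3 | hx3
    · have h5 : 0 ≤ (x - (2 - 204 * e)) * x := mul_nonneg (by linarith) (by linarith)
      have h6 : 204 * e * x ≤ 204 * e * (2 + 4 * e) :=
        mul_le_mul_of_nonneg_left hx (by positivity)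
      nlinarith
    · have h5 : x * (2 - x) ≤ 0 := mul_nonpos_of_nonneg_of_nonpos (by linarith) (by linarith)
      have h6 : 0 ≤ 204 * e * (2 + 4 * e) := by positivity
      linarith
  have h3 : r * (2 - r) ≤ 8 * e + 2 * (204 * e * (2 + 4 * e)) := by nlinarith
  have h4 : 0 < (r - 420 * e) * (2 - 420 * e - r) := mul_pos (by linarith) (by linarith)
  have h5 : e * e ≤ e * (1 / 10 ^ 6) := mul_le_mul_of_nonneg_left he1 he0.le
  nlinarith

end Pool.Agent.Lib.MP_22c8c7_co.Odd
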