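import Mathlib
import Pool.Agent.Lib.MP_22c8c7_co.Odd.Basic

/-! The parameters. -/

set_option autoImplicit false

namespace Pool.Agent.Lib.MP_22c8c7_co.Odd

open Finset
open scoped Classical

theorem numP : NumStmt := by
  intro n hn
  -- `G = 160 / eta ^ 2`
  obtain ⟨G, hG⟩ : ∃ G : ℕ, G = 160000000000000 := ⟨_, rfl⟩
  obtain ⟨h, hh⟩ : ∃ h : ℕ, h = n / (4 * G) := ⟨_, rfl⟩
  have hn' : 10000000000000000000000000000000000000000000000 ≤ n := by
    calc 10000000000000000000000000000000000000000000000 = 10 ^ 46 := by norm_num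
      _ ≤ n := hn
  have h1 : 4 * G * h ≤ n := by
    rw [hh]
    exact Nat.mul_div_le n (4 * G)
  have h2 : n < 4 * G * (h + 1) := by
    rw [hh]
    exact Nat.lt_mul_div_succ n (by omega)
  have h3 : n ≤ 5 * G * h := by
    subst hG
    omega
  have h4 : 10000000000000000000000000000000 ≤ h := by
    subst hG
    omega
  refine ⟨h, 20 * G + 3, 100 * G ^ 2 + 10 * G + 2, by omega, ?_, ?_, by omega, ?_, ?_, ?_, ?_⟩
  · have h5 : (4 * G * h : ℝ) ≤ n := by exact_mod_cast h1
    rw [hG] at h5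
    push_cast at h5
    rw [eta_eq]
    linarith
  · calc 4 * n + 3 * h ≤ 4 * (5 * G * h) + 3 * h := by omega
      _ = (20 * G + 3) * h := by ring
  · subst hG
    norm_num
    omega
  · subst hG
    norm_num
    omega
  · have h5 : 8 * n ^ 2 ≤ 8 * (5 * G * h) ^ 2 := Nat.mul_le_mul_left 8 (Nat.pow_le_pow_left h3 2)
    have h6 : 4 * n * h ≤ 4 * (5 * G * h) * h := by
      apply Nat.mul_le_mul_right
      exact Nat.mul_le_mul_left 4 h3
    have h7 : 0 < h ^ 2 := by positivity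
    calc 8 * n ^ 2 + 4 * n * h ≤ 8 * (5 * G * h) ^ 2 + 4 * (5 * G * h) * h := by omega
      _ = 2 * h ^ 2 * (100 * G ^ 2 + 10 * G) := by ring
      _ < 2 * h ^ 2 * (100 * G ^ 2 + 10 * G + 2) := by
        apply Nat.mul_lt_mul_of_pos_left _ (by positivity)
        omega
  · have hhp : (0 : ℝ) < h := by
      have : 0 < h := by omega
      exact_mod_cast this
    have h5 : (n : ℝ) ≤ 5 * G * h := by exact_mod_cast h3
    have hnp : (0 : ℝ) ≤ n := Nat.cast_nonneg n
    have h6 : 4 * (n : ℝ) ^ 2 / h ≤ 20 * G * n := by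
      rw [div_le_iff₀ hhp]
      nlinarith
    have hnr : (10000000000000000000000000000000000000000000000 : ℝ) ≤ n := by
      exact_mod_cast hn'
    have h7 : 4 * (2 * (n : ℝ) + 4 * (n : ℝ) ^ 2 / h +
        8 * (n : ℝ) * ((100 * G ^ 2 + 10 * G + 2 : ℕ) : ℝ)) ≤
        n * (4 * (2 + 20 * G + 8 * (100 * G ^ 2 + 10 * G + 2))) := by
      push_cast
      nlinarith
    refine h7.trans ?_
    have h8 : (4 * (2 + 20 * G + 8 * (100 * G ^ 2 + 10 * G + 2)) : ℝ) ≤
        (eta - eta ^ 2 / 10) * n := by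
      rw [hG, eta_eq]
      push_cast
      norm_num
      linarith
    calc (n : ℝ) * (4 * (2 + 20 * G + 8 * (100 * G ^ 2 + 10 * G + 2)))
        ≤ n * ((eta - eta ^ 2 / 10) * n) := mul_le_mul_of_nonneg_left h8 hnp
      _ = _ := by ring

end Pool.Agent.Lib.MP_22c8c7_co.Odd
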