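import Mathlib
import Pool.Agent.Lib.MP_22c8c7_co.Odd.Basic

/-! An odd cycle through a vertex (docstring of `OC0Stmt` in `Odd/Spec.lean`). -/

set_option autoImplicit false

namespace Pool.Agent.Lib.MP_22c8c7_co.Odd

open Finset
open scoped Classical

theorem oc0 (h1 : AltStmt) : OC0Stmt := by
  intro V r hs n U W hn hodd hN hd hU hW v hv s hsU t htW hvs hvt
  have htU : t ∉ U := fun h => Finset.disjoint_left.1 hd h htW
  have hst : s ≠ t := fun h => htU (h ▸ hsU)
  have hp : ((s ∈ U ↔ t ∈ U) ↔ (n - 1) % 2 = 1) := by
    constructor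
    · intro h
      exact absurd (h.1 hsU) htU
    · intro h
      omega
  obtain ⟨z, hz, hz0, hz1⟩ := h1 V r hs n U W hn hN hd hU hW s (Finset.mem_union_left _ hsU) t
    (Finset.mem_union_right _ htW) hst (n - 1) (by omega) (by omega) hp
  let w : ℕ → V := fun i => if i < n - 1 then z i else v
  have wz : ∀ i, i < n - 1 → w i = z i := fun i hi => if_pos hi
  have wv : w (n - 1) = v := if_neg (lt_irrefl _)
  refine ⟨w, ⟨?_, ?_, ?_⟩, ?_⟩
  · intro i hi
    rw [Finset.mem_insert]
    rcases Nat.lt_or_ge i (n - 1) with h | h
    · right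
      rw [wz i h]
      exact hz.1 i h
    · left
      have e : i = n - 1 := by omega
      rw [e, wv]
  · have key : ∀ i j, i < j → j < n → w i ≠ w j := by
      intro i j hij hj heq
      rcases Nat.lt_or_ge j (n - 1) with h | h
      · rw [wz i (by omega), wz j h] at heq
        have := hz.2.1 i (by omega) j h heq
        omega
      · have e : j = n - 1 := by omega
        rw [e, wv, wz i (by omega)] at heq
        exact hv (heq ▸ hz.1 i (by omega))
    intro i hi j hj heq
    rcases Nat.lt_trichotomy i j with h | h | h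
    · exact absurd heq (key i j h hj)
    · exact h
    · exact absurd heq.symm (key j i h hi)
  · intro i hi
    rcases Nat.lt_or_ge (i + 1) (n - 1) with h | h
    · rw [wz i (by omega), wz (i + 1) h]
      exact hz.2.2 i h
    · have e : i + 1 = n - 1 := by omega
      rw [e, wv, wz i (by omega)]
      have e2 : i = n - 1 - 1 := by omega
      rw [e2, hz1]
      exact hs _ _ hvt
  · rw [wv, wz 0 (by omega), hz0]
    exact hvs

end Pool.Agent.Lib.MP_22c8c7_co.Odd
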