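import Mathlib
import Pool.Agent.Lib.MP_22c8c7_co.Odd.Basic

/-! An odd cycle through a vertex and a crossing edge (docstring of `OC1Stmt` in `Odd/Spec.lean`). -/

set_option autoImplicit false

namespace Pool.Agent.Lib.MP_22c8c7_co.Odd

open Finset
open scoped Classical

/-- Two paths and a vertex give a cycle. -/
private theorem oc1_glue {V : Type} (r : V → V → Prop) (A B : Finset V) (hAB : Disjoint A B)
    (v : V) (hvA : v ∉ A) (hvB : v ∉ B) (k1 k2 : ℕ) (h1 : 1 ≤ k1) (h2 : 1 ≤ k2) (a b : ℕ → V)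
    (ha : PathIn r A a k1) (hb : PathIn r B b k2) (hab : r (a (k1 - 1)) (b 0))
    (hbv : r (b (k2 - 1)) v) (hva : r v (a 0)) :
    ∃ w, CycIn r (insert v (A ∪ B)) w (k1 + k2 + 1) := by
  let w : ℕ → V := fun i => if i < k1 then a i else if i < k1 + k2 then b (i - k1) else v
  have wa : ∀ i, i < k1 → w i = a i := fun i hi => if_pos hi
  have wb : ∀ i, k1 ≤ i → i < k1 + k2 → w i = b (i - k1) := by
    intro i hi hi'
    show (if i < k1 then a i else if i < k1 + k2 then b (i - k1) else v) = _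
    rw [if_neg (by omega), if_pos hi']
  have wv : w (k1 + k2) = v := by
    show (if k1 + k2 < k1 then a (k1 + k2) else if k1 + k2 < k1 + k2 then b (k1 + k2 - k1) else v)
      = _
    rw [if_neg (by omega), if_neg (by omega)]
  have hA : ∀ i, i < k1 → w i ∈ A := fun i hi => by rw [wa i hi]; exact ha.1 i hi
  have hB : ∀ i, k1 ≤ i → i < k1 + k2 → w i ∈ B := fun i hi hi' => by
    rw [wb i hi hi']; exact hb.1 _ (by omega)
  refine ⟨w, ⟨?_, ?_, ?_⟩, ?_⟩
  · intro i hi
    rw [Finset.mem_insert, Finset.mem_union]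
    rcases Nat.lt_or_ge i k1 with h | h
    · exact Or.inr (Or.inl (hA i h))
    · rcases Nat.lt_or_ge i (k1 + k2) with h' | h'
      · exact Or.inr (Or.inr (hB i h h'))
      · left
        have : i = k1 + k2 := by omega
        rw [this, wv]
  · -- injective
    have key : ∀ i j, i < j → j < k1 + k2 + 1 → w i ≠ w j := by
      intro i j hij hj heq
      rcases Nat.lt_or_ge j k1 with h | h
      · rw [wa i (by omega), wa j h] at heq
        have := ha.2.1 i (by omega) j h heq
        omega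
      · rcases Nat.lt_or_ge j (k1 + k2) with h' | h'
        · rcases Nat.lt_or_ge i k1 with h3 | h3
          · exact Finset.disjoint_left.1 hAB (hA i h3) (heq ▸ hB j h h')
          · rw [wb i h3 (by omega), wb j h h'] at heq
            have := hb.2.1 _ (by omega) _ (by omega) heq
            omega
        · have e : j = k1 + k2 := by omega
          rw [e, wv] at heq
          rcases Nat.lt_or_ge i k1 with h3 | h3
          · exact hvA (heq ▸ hA i h3)
          · exact hvB (heq ▸ hB i h3 (by omega))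
    intro i hi j hj heq
    rcases Nat.lt_trichotomy i j with h | h | h
    · exact absurd heq (key i j h hj)
    · exact h
    · exact absurd heq.symm (key j i h hi)
  · intro i hi
    rcases Nat.lt_or_ge (i + 1) k1 with h | h
    · rw [wa i (by omega), wa (i + 1) h]
      exact ha.2.2 i h
    · rcases Nat.lt_or_ge i k1 with h' | h'
      · have e : i = k1 - 1 := by omega
        rw [wa i h', wb (i + 1) h (by omega), e]
        have e2 : k1 - 1 + 1 - k1 = 0 := by omega
        rw [e2]
        exact hab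
      · rcases Nat.lt_or_ge (i + 1) (k1 + k2) with h3 | h3
        · rw [wb i h' (by omega), wb (i + 1) h h3]
          have e : i + 1 - k1 = i - k1 + 1 := by omega
          rw [e]
          exact hb.2.2 _ (by omega)
        · have e : i + 1 = k1 + k2 := by omega
          rw [e, wv, wb i h' (by omega)]
          have e2 : i - k1 = k2 - 1 := by omega
          rw [e2]
          exact hbv
  · have e : k1 + k2 + 1 - 1 = k1 + k2 := by omega
    rw [e, wv, wa 0 (by omega)]
    exact hva

theorem oc1 (h1 : AltStmt) : OC1Stmt := by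
  intro V r hs n U0 W0 U1 W1 hn hodd hN0 hN1 hd0 hd1 hd hU0 hW0 hU1 hW1 v hv0 hv1 s hs0 z hz0 t ht1
    z' hz1 hsz htz hvs hvt hzz hst hzz'
  obtain ⟨k1, hk1, hk1n, hk1p⟩ : ∃ k1, 4 ≤ k1 ∧ k1 ≤ 5 ∧ ((s ∈ U0 ↔ z ∈ U0) ↔ k1 % 2 = 1) := by
    by_cases h : (s ∈ U0 ↔ z ∈ U0)
    · exact ⟨5, by norm_num, le_refl _, by simp only [h]⟩
    · exact ⟨4, le_refl _, by norm_num, by simp only [h]; decide⟩
  have hp2 : ((z' ∈ U1 ↔ t ∈ U1) ↔ (n - 1 - k1) % 2 = 1) := by
    have e : (n - 1 - k1) % 2 = 1 ↔ k1 % 2 = 1 := by omega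
    rw [e, ← hk1p]
    tauto
  obtain ⟨a, ha, ha0, ha1⟩ := h1 V r hs n U0 W0 hn hN0 hd0 hU0 hW0 s hs0 z hz0 hsz k1 hk1
    (by omega) hk1p
  obtain ⟨b, hb, hb0, hb1⟩ := h1 V r hs n U1 W1 hn hN1 hd1 hU1 hW1 z' hz1 t ht1 (Ne.symm htz)
    (n - 1 - k1) (by omega) (by omega) hp2
  have := oc1_glue r (U0 ∪ W0) (U1 ∪ W1) hd v hv0 hv1 k1 (n - 1 - k1) (by omega) (by omega) a b
    ha hb (by rw [ha1, hb0]; exact hzz) (by rw [hb1]; exact hs _ _ hvt) (by rw [ha0]; exact hvs)
  have e : k1 + (n - 1 - k1) + 1 = n := by omega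
  rw [e] at this
  exact this

end Pool.Agent.Lib.MP_22c8c7_co.Odd
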