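import Mathlib
import Pool.Agent.Lib.MP_22c8c7_co.Odd.Basic

/-! An odd closed walk contains an odd cycle (docstring of `OddClosedStmt` in `Odd/Spec.lean`). -/

set_option autoImplicit false

namespace Pool.Agent.Lib.MP_22c8c7_co.Odd

open Finset
open scoped Classical

/-- Cutting out a closed part of a walk. -/
private theorem oddClosed_cut {V : Type} (r : V → V → Prop) (P : Finset V) (w : ℕ → V) (k : ℕ)
    (hw : WalkIn r P w k) (i j : ℕ) (hij : i < j) (hj : j ≤ k) (he : w i = w j) :
    ∃ w', WalkIn r P w' (k - (j - i)) ∧ w' 0 = w 0 ∧ w' (k - (j - i)) = w k := by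
  let y : ℕ → V := fun t => if t ≤ i then w t else w (t + (j - i))
  have y1 : ∀ t, t ≤ i → y t = w t := fun t ht => if_pos ht
  have y2 : ∀ t, i ≤ t → y t = w (t + (j - i)) := by
    intro t ht
    rcases Nat.lt_or_ge i t with h | h
    · exact if_neg (by omega)
    · have e : t = i := by omega
      rw [e, y1 i (le_refl _), he]
      congr 1
      omega
  refine ⟨y, ⟨?_, ?_⟩, y1 0 (Nat.zero_le _), ?_⟩
  · intro t ht
    rcases Nat.le_total t i with h | h
    · rw [y1 t h]
      exact hw.1 t (by omega)
    · rw [y2 t h]
      exact hw.1 _ (by omega)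
  · intro t ht
    rcases Nat.lt_or_ge t i with h | h
    · rw [y1 t (by omega), y1 (t + 1) (by omega)]
      exact hw.2 t (by omega)
    · rw [y2 t h, y2 (t + 1) (by omega)]
      have e : t + 1 + (j - i) = t + (j - i) + 1 := by omega
      rw [e]
      exact hw.2 _ (by omega)
  · rw [y2 _ (by omega)]
    congr 1
    omega

theorem oddClosed : OddClosedStmt := by
  intro V r hirr P w k
  induction k using Nat.strong_induction_on generalizing w with
  | _ k ih =>
    intro hw hk0 hodd
    by_cases hinj : ∀ i j, i < j → j < k → w i ≠ w j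
    · have hk1 : k ≠ 1 := by
        rintro rfl
        have h := hw.2 0 (by omega)
        rw [Nat.zero_add, hk0] at h
        exact hirr _ h
      refine ⟨w, k, ⟨⟨fun i hi => hw.1 i (by omega), ?_, fun i hi => hw.2 i (by omega)⟩, ?_⟩,
        hodd, by omega, le_refl _⟩
      · intro i hi j hj heq
        rcases Nat.lt_trichotomy i j with h | h | h
        · exact absurd heq (hinj i j h (by omega))
        · exact h
        · exact absurd heq.symm (hinj j i h (by omega))
      · rw [← hk0]
        have h := hw.2 (k - 1) (by omega)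
        rwa [show k - 1 + 1 = k by omega] at h
    · push Not at hinj
      obtain ⟨i, j, hij, hj, he⟩ := hinj
      by_cases hpar : (j - i) % 2 = 1
      · -- the part between
        obtain ⟨c, k', hc, h1, h2, h3⟩ := ih (j - i) (by omega) (fun t => w (i + t))
          ⟨fun t ht => hw.1 _ (by omega), fun t ht => hw.2 (i + t) (by omega)⟩
          (by
            show w (i + (j - i)) = w (i + 0)
            rw [show i + (j - i) = j by omega, Nat.add_zero]
            exact he.symm) hpar
        exact ⟨c, k', hc, h1, h2, by omega⟩
      · obtain ⟨w', hw', h0, h1⟩ := oddClosed_cut r P w k hw i j hij (by omega) he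
        obtain ⟨c, k', hc, h2, h3, h4⟩ := ih (k - (j - i)) (by omega) w' hw'
          (by rw [h1, h0]; exact hk0) (by omega)
        exact ⟨c, k', hc, h2, h3, by omega⟩

end Pool.Agent.Lib.MP_22c8c7_co.Odd
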