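import Mathlib
import Pool.Agent.Lib.MP_22c8c7_co.Odd.Basic

/-! Inclusion-exclusion for separated pairs. -/

set_option autoImplicit false

namespace Pool.Agent.Lib.MP_22c8c7_co.Odd

open Finset
open scoped Classical

private theorem overlapM_sep {V : Type} (f : Fin 3 → V → Fin 3) (S : Finset V) (i : Fin 3) :
    ((S ×ˢ S).filter (fun p => Sep (f i p.1) (f i p.2))).card =
      2 * ((st f S i 0).card * (st f S i 1).card) := by
  have h1 : (S ×ˢ S).filter (fun p => Sep (f i p.1) (f i p.2)) =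
      (st f S i 0 ×ˢ st f S i 1) ∪ (st f S i 1 ×ˢ st f S i 0) := by
    ext p
    rw [Finset.mem_filter, Finset.mem_product, Finset.mem_union, Finset.mem_product,
      Finset.mem_product, mem_st, mem_st, mem_st, mem_st]
    unfold Sep
    constructor
    · rintro ⟨⟨h1, h2⟩, ⟨h3, h4⟩ | ⟨h3, h4⟩⟩
      · exact Or.inl ⟨⟨h1, h3⟩, h2, h4⟩
      · exact Or.inr ⟨⟨h1, h3⟩, h2, h4⟩
    · rintro (⟨⟨h1, h3⟩, h2, h4⟩ | ⟨⟨h1, h3⟩, h2, h4⟩)
      · exact ⟨⟨h1, h2⟩, Or.inl ⟨h3, h4⟩⟩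
      · exact ⟨⟨h1, h2⟩, Or.inr ⟨h3, h4⟩⟩
  rw [h1, Finset.card_union_of_disjoint, Finset.card_product, Finset.card_product]
  · ring
  · rw [Finset.disjoint_left]
    intro p hp hq
    rw [Finset.mem_product, mem_st, mem_st] at hp hq
    have h2 := hp.1.2.symm.trans hq.1.2
    exact absurd h2 (by decide)

private theorem overlapM_inter {V : Type} (f : Fin 3 → V → Fin 3) (S : Finset V) (i j : Fin 3) :
    ((S ×ˢ S).filter (fun p => Sep (f i p.1) (f i p.2)) ∩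
      (S ×ˢ S).filter (fun p => Sep (f j p.1) (f j p.2))).card =
      2 * ((st f (st f S i 0) j 0).card * (st f (st f S i 1) j 1).card +
      (st f (st f S i 0) j 1).card * (st f (st f S i 1) j 0).card) := by
  have h1 : (S ×ˢ S).filter (fun p => Sep (f i p.1) (f i p.2)) ∩
      (S ×ˢ S).filter (fun p => Sep (f j p.1) (f j p.2)) =
      ((st f (st f S i 0) j 0 ×ˢ st f (st f S i 1) j 1) ∪
        (st f (st f S i 0) j 1 ×ˢ st f (st f S i 1) j 0)) ∪
      ((st f (st f S i 1) j 1 ×ˢ st f (st f S i 0) j 0) ∪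
        (st f (st f S i 1) j 0 ×ˢ st f (st f S i 0) j 1)) := by
    ext p
    rw [Finset.mem_inter, Finset.mem_filter, Finset.mem_filter, Finset.mem_product,
      Finset.mem_union, Finset.mem_union, Finset.mem_union, Finset.mem_product,
      Finset.mem_product, Finset.mem_product, Finset.mem_product]
    simp only [mem_st]
    unfold Sep
    constructor
    · rintro ⟨⟨⟨h1, h2⟩, ⟨h3, h4⟩ | ⟨h3, h4⟩⟩, _, ⟨h5, h6⟩ | ⟨h5, h6⟩⟩
      · exact Or.inl (Or.inl ⟨⟨⟨h1, h3⟩, h5⟩, ⟨h2, h4⟩, h6⟩)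
      · exact Or.inl (Or.inr ⟨⟨⟨h1, h3⟩, h5⟩, ⟨h2, h4⟩, h6⟩)
      · exact Or.inr (Or.inr ⟨⟨⟨h1, h3⟩, h5⟩, ⟨h2, h4⟩, h6⟩)
      · exact Or.inr (Or.inl ⟨⟨⟨h1, h3⟩, h5⟩, ⟨h2, h4⟩, h6⟩)
    · rintro ((⟨⟨⟨h1, h3⟩, h5⟩, ⟨h2, h4⟩, h6⟩ | ⟨⟨⟨h1, h3⟩, h5⟩, ⟨h2, h4⟩, h6⟩) |
        (⟨⟨⟨h1, h3⟩, h5⟩, ⟨h2, h4⟩, h6⟩ | ⟨⟨⟨h1, h3⟩, h5⟩, ⟨h2, h4⟩, h6⟩))
      · exact ⟨⟨⟨h1, h2⟩, Or.inl ⟨h3, h4⟩⟩, ⟨h1, h2⟩, Or.inl ⟨h5, h6⟩⟩
      · exact ⟨⟨⟨h1, h2⟩, Or.inl ⟨h3, h4⟩⟩, ⟨h1, h2⟩, Or.inr ⟨h5, h6⟩⟩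
      · exact ⟨⟨⟨h1, h2⟩, Or.inr ⟨h3, h4⟩⟩, ⟨h1, h2⟩, Or.inr ⟨h5, h6⟩⟩
      · exact ⟨⟨⟨h1, h2⟩, Or.inr ⟨h3, h4⟩⟩, ⟨h1, h2⟩, Or.inl ⟨h5, h6⟩⟩
  have n01 : (0 : Fin 3) ≠ 1 := by decide
  rw [h1, Finset.card_union_of_disjoint, Finset.card_union_of_disjoint,
    Finset.card_union_of_disjoint, Finset.card_product, Finset.card_product, Finset.card_product,
    Finset.card_product]
  · ring
  · rw [Finset.disjoint_left]
    intro p hp hq
    simp only [Finset.mem_product, mem_st] at hp hq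
    exact n01 (hq.1.2.symm.trans hp.1.2)
  · rw [Finset.disjoint_left]
    intro p hp hq
    simp only [Finset.mem_product, mem_st] at hp hq
    exact n01 (hp.1.2.symm.trans hq.1.2)
  · rw [Finset.disjoint_left]
    intro p hp hq
    simp only [Finset.mem_product, Finset.mem_union, mem_st] at hp hq
    rcases hp with hp | hp <;> rcases hq with hq | hq <;>
      exact n01 (hp.1.1.2.symm.trans hq.1.1.2)

theorem overlapM : OverlapStmt := by
  intro V f S i j k hij hik hjk hk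
  have hex : ∀ l : Fin 3, l = i ∨ l = j ∨ l = k := by
    revert i j k
    intro i j k h1 h2 h3 _ l
    clear * - h1 h2 h3
    revert i j k l
    decide
  have h1 : S ×ˢ S = ((S ×ˢ S).filter (fun p => ∀ i, ¬ Sep (f i p.1) (f i p.2))) ∪
      (((S ×ˢ S).filter (fun p => Sep (f i p.1) (f i p.2))) ∪
      ((S ×ˢ S).filter (fun p => Sep (f j p.1) (f j p.2)))) := by
    ext p
    rw [Finset.mem_union, Finset.mem_union, Finset.mem_filter,
      Finset.mem_filter, Finset.mem_filter]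
    constructor
    · intro hp
      by_cases h0 : Sep (f i p.1) (f i p.2)
      · exact Or.inr (Or.inl ⟨hp, h0⟩)
      by_cases h1 : Sep (f j p.1) (f j p.2)
      · exact Or.inr (Or.inr ⟨hp, h1⟩)
      refine Or.inl ⟨hp, fun l => ?_⟩
      rw [Finset.mem_product] at hp
      rcases hex l with h | h | h
      · rw [h]
        exact h0
      · rw [h]
        exact h1
      · rw [h, hk _ hp.1, hk _ hp.2]
        exact not_sep_self 2
    · rintro (h | h | h)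
      · exact h.1
      · exact h.1
      · exact h.1
  have hd : Disjoint ((S ×ˢ S).filter (fun p => ∀ i, ¬ Sep (f i p.1) (f i p.2)))
      (((S ×ˢ S).filter (fun p => Sep (f i p.1) (f i p.2))) ∪
      ((S ×ˢ S).filter (fun p => Sep (f j p.1) (f j p.2)))) := by
    rw [Finset.disjoint_left]
    intro p hp hq
    rw [Finset.mem_filter] at hp
    rw [Finset.mem_union, Finset.mem_filter, Finset.mem_filter] at hq
    rcases hq with hq | hq
    · exact hp.2 i hq.2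
    · exact hp.2 j hq.2
  have h2 := congrArg Finset.card h1
  rw [Finset.card_union_of_disjoint hd, Finset.card_product, ← sq] at h2
  have h3 := Finset.card_union_add_card_inter
    ((S ×ˢ S).filter (fun p => Sep (f i p.1) (f i p.2)))
    ((S ×ˢ S).filter (fun p => Sep (f j p.1) (f j p.2)))
  rw [overlapM_inter, overlapM_sep, overlapM_sep] at h3
  unfold nsep
  linarith

end Pool.Agent.Lib.MP_22c8c7_co.Odd
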