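import Mathlib
import Pool.Agent.Lib.MP_22c8c7_co.Odd.Basic
import Pool.Agent.Lib.MP_22c8c7_co.Short

set_option autoImplicit false

namespace Pool.Agent.Lib.MP_22c8c7_co.Odd

open Finset
open scoped Classical

/-- Cut-dense classes are expanding. -/
private theorem partM_exp {V : Type} (r : V → V → Prop) (P : Finset V) (n h : ℕ) (γ : ℝ)
    (hγ : 0 ≤ γ) (hh : (2 * h : ℝ) ≤ γ * n / 2) (hP : n ≤ P.card)
    (hcut : ∀ X ⊆ P, γ * (X.card : ℝ) * ((P \ X).card : ℝ) ≤ (ee r X (P \ X) : ℝ)) :
    Exp r P (2 * h) := by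
  intro X hX h2
  have h1 := hcut X hX
  have h3 : (P \ X).card + X.card = P.card := Finset.card_sdiff_add_card_eq_card hX
  have h4 : n ≤ 2 * (P \ X).card := by omega
  have h4' : (n : ℝ) ≤ 2 * ((P \ X).card : ℝ) := by exact_mod_cast h4
  have h5 : (2 * h : ℝ) * X.card ≤ (ee r X (P \ X) : ℝ) := by
    refine le_trans ?_ h1
    have h6 : (2 * h : ℝ) ≤ γ * ((P \ X).card : ℝ) := by
      refine hh.trans ?_
      have := mul_le_mul_of_nonneg_left h4' hγ
      linarith
    calc (2 * h : ℝ) * X.card ≤ (γ * ((P \ X).card : ℝ)) * X.card :=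
          mul_le_mul_of_nonneg_right h6 (Nat.cast_nonneg _)
      _ = γ * (X.card : ℝ) * ((P \ X).card : ℝ) := by ring
  exact_mod_cast h5

theorem partM (h1 : CutStmt) (h2 : PieceStmt) (h3 : NumStmt) : PartStmt := by
  intro V r hs hi S0 n hodd hn hS0 hno
  have hη := eta_pos
  obtain ⟨h, ℓ, K, a1, a2, a3, a4, a5, a6, a7, a8⟩ := h3 n hn
  obtain ⟨π, hπ1, hπ2⟩ := h1 V r hs (eta ^ 2 / 160) (by positivity) S0
  have hn1 : 0 < n := lt_of_lt_of_le (by norm_num) hn
  have hnpos : (0 : ℝ) < n := by exact_mod_cast hn1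
  set E0 : ℝ := 2 * (n : ℝ) + 4 * (n : ℝ) ^ 2 / h + 8 * (n : ℝ) * K with hE0
  have hE0pos : 0 ≤ E0 := by positivity
  have hclcard : ∀ t, (cl S0 π t).card ≤ 4 * n := fun t =>
    (Finset.card_le_card (Finset.filter_subset _ _)).trans hS0
  refine ⟨π, fun t => if n ≤ (cl S0 π t).card then E0 else 0, ?_, ?_, ?_, ?_⟩
  · refine hπ1.trans ?_
    have h4 : (S0.card : ℝ) ≤ 4 * n := by exact_mod_cast hS0
    have h5 : (S0.card : ℝ) ^ 2 ≤ (4 * n) ^ 2 := pow_le_pow_left₀ (Nat.cast_nonneg _) h4 2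
    calc eta ^ 2 / 160 * (S0.card : ℝ) ^ 2 ≤ eta ^ 2 / 160 * (4 * n) ^ 2 :=
          mul_le_mul_of_nonneg_left h5 (by positivity)
      _ = eta ^ 2 / 10 * (n : ℝ) ^ 2 := by ring
  · intro t
    by_cases hb : Bip r (cl S0 π t)
    · exact Or.inl hb
    · right
      by_cases hbig : n ≤ (cl S0 π t).card
      · simp only [if_pos hbig]
        refine h2 V r hs hi (cl S0 π t) n h K ℓ hodd a1 ?_ (hclcard t) hb ?_ ?_ a4 a5 a6 a7
        · exact partM_exp r _ n h (eta ^ 2 / 160) (by positivity) a2 hbig (hπ2 t)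
        · intro c hc
          exact hno c (hc.mono (Finset.filter_subset _ _))
        · have := hclcard t
          omega
      · simp only [if_neg hbig]
        refine ⟨cl S0 π t, le_rfl, by omega, ?_⟩
        intro S hS
        rw [Finset.inter_eq_left.2 hS, Finset.sdiff_eq_empty_iff_subset.2 hS, Finset.card_empty]
        push_cast
        linarith
  · intro t
    split_ifs
    · exact hE0pos
    · exact le_rfl
  · rw [← Finset.sum_filter, Finset.sum_const, nsmul_eq_mul]
    refine le_trans ?_ a8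
    refine mul_le_mul_of_nonneg_right ?_ hE0pos
    -- at most four large classes
    have e1 : ((S0.image π).filter (fun t => n ≤ (cl S0 π t).card)).card * n ≤ S0.card := by
      calc ((S0.image π).filter (fun t => n ≤ (cl S0 π t).card)).card * n
          = ∑ _t ∈ (S0.image π).filter (fun t => n ≤ (cl S0 π t).card), n := by
            rw [Finset.sum_const, smul_eq_mul]
        _ ≤ ∑ t ∈ (S0.image π).filter (fun t => n ≤ (cl S0 π t).card), (cl S0 π t).card :=
            Finset.sum_le_sum fun t ht => (Finset.mem_filter.1 ht).2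
        _ ≤ ∑ t ∈ S0.image π, (cl S0 π t).card :=
            Finset.sum_le_sum_of_subset (Finset.filter_subset _ _)
        _ = S0.card := by
            rw [Finset.card_eq_sum_card_image π S0]
            rfl
    have e2 : ((S0.image π).filter (fun t => n ≤ (cl S0 π t).card)).card * n ≤ 4 * n :=
      e1.trans hS0
    have e3 := Nat.le_of_mul_le_mul_right e2 hn1
    exact_mod_cast e3

end Pool.Agent.Lib.MP_22c8c7_co.Odd
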