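import Mathlib
import Pool.Agent.Lib.MP_22c8c7_co.Odd.Basic
import Pool.Agent.Lib.MP_22c8c7_co.MaxCyc

/-! Non-bipartite classes are light (docstring of `PieceStmt` in `Odd/Spec.lean`). -/

set_option autoImplicit false

namespace Pool.Agent.Lib.MP_22c8c7_co.Odd

open Finset
open scoped Classical

theorem pieceM (h1 : LongOddStmt) (h2 : MaxOddStmt) (h3 : SmallRStmt) (h4 : CapStmt)
    (h5 : SplitStmt) : PieceStmt := by
  intro V r hs hirr P n h K ℓ hodd hh hE hP hB hno hℓ hK hKh hKn hnum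
  obtain ⟨c0, k0, hc0, hk0, hk0K, hk0u⟩ := h1 V r hs hirr P h hh hE hB ℓ K hℓ hK hKh
  obtain ⟨m, hm1, hm2, hm3, ⟨c, hc⟩, hm4⟩ := h2 V r P n k0 hodd hk0 (by omega) ⟨c0, hc0⟩ hno
  haveI : NeZero m := ⟨by omega⟩
  obtain ⟨x, hx⟩ := cyc_of_cycIn r P m (by omega) c hc
  obtain ⟨hR, hI⟩ := h3 V r hs hirr P n h K m hh hE hP (by omega) hm1 (by omega) (by omega) hnum x
    hx hm4
  set C := univ.image x with hC
  have hCP : C ⊆ P := by
    intro v hv
    obtain ⟨i, _, rfl⟩ := Finset.mem_image.1 hv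
    exact hx.mem i
  have hCc : C.card = m := by
    rw [hC, Finset.card_image_of_injective _ hx.inj, Finset.card_univ, ZMod.card]
  refine ⟨C, hCP, by omega, ?_⟩
  intro S hS
  set R := (P \ C).filter (fun y => h ≤ dg r (P \ C) y) with hRdef
  set D := ∑ y ∈ (P \ C).filter (fun y => dg r (P \ C) y < h), dg r (P \ C) y with hD
  have hsplit := h5 V r hs S C R
  have hZ : (S \ C) \ R ⊆ P \ C := by
    refine Finset.sdiff_subset.trans ?_
    exact Finset.sdiff_subset_sdiff hS (Finset.Subset.refl _)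
  have hcap := h4 V r hs hirr P m (by omega) x hx hm4 (S ∩ C) Finset.inter_subset_right
    ((S \ C) \ R) hZ
  have hZc : ((S \ C) \ R).card ≤ (S \ C).card := Finset.card_le_card Finset.sdiff_subset
  have h6 : ((S \ C) \ R).card * min (2 * (S ∩ C).card) (m + 1) ≤
      (S \ C).card * min (2 * (S ∩ C).card) n :=
    Nat.mul_le_mul hZc (min_le_min_left _ (by omega))
  have h7 : ∑ y ∈ (S \ C) \ R, dg r (S \ C) y ≤ D := by
    have h8 : ∀ y ∈ (S \ C) \ R, dg r (S \ C) y ≤ dg r (P \ C) y := fun y _ =>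
      count_dg_mono r (Finset.sdiff_subset_sdiff hS (Finset.Subset.refl _)) y
    refine (Finset.sum_le_sum h8).trans ?_
    rw [hD]
    refine Finset.sum_le_sum_of_subset ?_
    intro y hy
    rw [Finset.mem_filter]
    refine ⟨hZ hy, ?_⟩
    by_contra hcon
    exact (Finset.mem_sdiff.1 hy).2 (Finset.mem_filter.2 ⟨hZ hy, not_lt.1 hcon⟩)
  have h8 : 2 * (R.card * S.card) ≤ 8 * n * K := by
    have h9 : R.card * S.card ≤ K * (4 * n) :=
      Nat.mul_le_mul hR.le ((Finset.card_le_card hS).trans hP)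
    have h10 : 2 * (K * (4 * n)) = 8 * n * K := by ring
    omega
  have h9 : ds r S ≤ ds r (S ∩ C) + (S \ C).card * min (2 * (S ∩ C).card) n + 2 * n + D +
      8 * n * K := by omega
  have h10 : (ds r S : ℝ) ≤ ds r (S ∩ C) + ((S \ C).card : ℝ) * min (2 * ((S ∩ C).card : ℝ)) n +
      2 * n + D + 8 * n * K := by
    have h11 : (ds r S : ℝ) ≤ ((ds r (S ∩ C) + (S \ C).card * min (2 * (S ∩ C).card) n + 2 * n + D +
      8 * n * K : ℕ) : ℝ) := by exact_mod_cast h9
    push_cast at h11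
    exact h11
  have hh' : (0 : ℝ) < h := by exact_mod_cast hh
  have h11 : (D : ℝ) ≤ 4 * (n : ℝ) ^ 2 / h := by
    rw [le_div_iff₀ hh', mul_comm]
    exact_mod_cast hI
  linarith

end Pool.Agent.Lib.MP_22c8c7_co.Odd
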