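import Mathlib
import Pool.Agent.Lib.MP_22c8c7_co.Odd.Basic

/-! A short odd cycle (docstring of `ShortOddStmt` in `Odd/Spec.lean`). -/

set_option autoImplicit false

namespace Pool.Agent.Lib.MP_22c8c7_co.Odd

open Finset
open scoped Classical

/-- The numbers of steps of the walks from `a` to `v`. -/
private def shortOddD {V : Type} (r : V → V → Prop) (P : Finset V) (a v : V) : Set ℕ :=
  {m | ∃ w : ℕ → V, WalkIn r P w m ∧ w 0 = a ∧ w m = v}

private theorem shortOdd_walk (h1 : BallStmt) {V : Type} (r : V → V → Prop)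
    (hs : ∀ a b, r a b → r b a) (P : Finset V) (h : ℕ) (hh : 1 ≤ h) (hE : Exp r P (2 * h))
    (a : V) (ha : a ∈ P) (v : V) (hv : v ∈ P) :
    ∃ m ∈ shortOddD r P a v, m * h ≤ P.card + 2 * h := by
  by_cases hav : a = v
  · refine ⟨0, ⟨fun _ => a, ⟨fun _ _ => ha, fun i hi => absurd hi (Nat.not_lt_zero _)⟩, rfl, hav⟩,
      ?_⟩
    omega
  · obtain ⟨z, k, hz, hz0, hz1, hk, hkh⟩ := h1 V r hs P h hh hE ∅ (Finset.empty_subset _)
      (by rw [Finset.card_empty]; omega) a (by rw [Finset.sdiff_empty]; exact ha) v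
      (by rw [Finset.sdiff_empty]; exact hv) hav
    rw [Finset.sdiff_empty] at hz
    refine ⟨k - 1, ⟨z, ⟨fun i hi => hz.1 i (by omega), fun i hi => hz.2.2 i (by omega)⟩, hz0, hz1⟩,
      ?_⟩
    have e : k = (k - 1) + 1 := by omega
    rw [e, Nat.add_mul] at hkh
    omega

theorem shortOdd (h1 : BallStmt) (h2 : OddClosedStmt) : ShortOddStmt := by
  intro V r hs hirr P h hh hE hB
  have hP : P.Nonempty := by
    by_contra hcon
    rw [Finset.not_nonempty_iff_eq_empty] at hcon
    exact hB ⟨fun _ => true, fun a ha => by rw [hcon] at ha; exact absurd ha (Finset.notMem_empty a)⟩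
  obtain ⟨a, ha⟩ := hP
  let d : V → ℕ := fun v => sInf (shortOddD r P a v)
  have hd1 : ∀ v ∈ P, d v ∈ shortOddD r P a v := by
    intro v hv
    obtain ⟨m, hm, _⟩ := shortOdd_walk h1 r hs P h hh hE a ha v hv
    exact Nat.sInf_mem ⟨m, hm⟩
  have hd2 : ∀ v ∈ P, d v * h ≤ P.card + 2 * h := by
    intro v hv
    obtain ⟨m, hm, hmh⟩ := shortOdd_walk h1 r hs P h hh hE a ha v hv
    exact le_trans (Nat.mul_le_mul_right _ (Nat.sInf_le hm)) hmh
  -- two adjacent vertices with the same parity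
  have hex : ∃ u ∈ P, ∃ v ∈ P, r u v ∧ d u % 2 = d v % 2 := by
    by_contra hcon
    push Not at hcon
    refine hB ⟨fun v => decide (d v % 2 = 0), ?_⟩
    intro u hu v hv huv heq
    have h3 := hcon u hu v hv huv
    have h4 : (d u % 2 = 0) ↔ (d v % 2 = 0) := decide_eq_decide.1 heq
    omega
  obtain ⟨u, hu, v, hv, huv, hpar⟩ := hex
  obtain ⟨w1, ⟨hw1a, hw1b⟩, hw10, hw1m⟩ := hd1 u hu
  obtain ⟨w2, ⟨hw2a, hw2b⟩, hw20, hw2m⟩ := hd1 v hv
  let w : ℕ → V := fun t => if t ≤ d u then w1 t else w2 (d u + 1 + d v - t)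
  have e1 : ∀ t, t ≤ d u → w t = w1 t := fun t ht => if_pos ht
  have e2 : ∀ t, d u < t → w t = w2 (d u + 1 + d v - t) := fun t ht => if_neg (by omega)
  have hw : WalkIn r P w (d u + 1 + d v) := by
    refine ⟨?_, ?_⟩
    · intro i hi
      rcases Nat.lt_or_ge (d u) i with h' | h'
      · rw [e2 i h']
        exact hw2a _ (by omega)
      · rw [e1 i h']
        exact hw1a i h'
    · intro i hi
      rcases Nat.lt_trichotomy i (d u) with h' | h' | h'
      · rw [e1 i (by omega), e1 (i + 1) (by omega)]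
        exact hw1b i h'
      · rw [e1 i (by omega), e2 (i + 1) (by omega), h', hw1m]
        have e : d u + 1 + d v - (d u + 1) = d v := by omega
        rw [e, hw2m]
        exact huv
      · rw [e2 i h', e2 (i + 1) (by omega)]
        have e : d u + 1 + d v - i = (d u + 1 + d v - (i + 1)) + 1 := by omega
        rw [e]
        exact hs _ _ (hw2b _ (by omega))
  have hw0 : w (d u + 1 + d v) = w 0 := by
    rw [e1 0 (Nat.zero_le _), e2 (d u + 1 + d v) (by omega), Nat.sub_self, hw20, hw10]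
  obtain ⟨c, k, hc, hk1, hk2, hk3⟩ := h2 V r hirr P w (d u + 1 + d v) hw hw0 (by omega)
  refine ⟨c, k, hc, hk1, hk2, ?_⟩
  have h3 := hd2 u hu
  have h4 := hd2 v hv
  calc k * h ≤ (d u + 1 + d v) * h := Nat.mul_le_mul_right _ hk3
    _ = d u * h + h + d v * h := by ring
    _ ≤ 2 * P.card + 5 * h := by omega

end Pool.Agent.Lib.MP_22c8c7_co.Odd
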