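import Mathlib
import Pool.Agent.Lib.MP_22c8c7_co.Odd.Basic

/-! The light colour of a side. -/

set_option autoImplicit false

namespace Pool.Agent.Lib.MP_22c8c7_co.Odd

open Finset
open scoped Classical

private theorem sideM_cols (k : Fin 3) :
    ∃ i j : Fin 3, i ≠ k ∧ j ≠ k ∧ ∀ l, l = i ∨ l = j ∨ l = k := by
  revert k
  decide

theorem sideM : SideStmt := by
  intro V f S hS k a ha
  obtain ⟨i, j, hik, hjk, hl⟩ := sideM_cols k
  by_contra hcon
  push Not at hcon
  obtain ⟨u, huS, huk, hui⟩ := hcon i hik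
  obtain ⟨v, hvS, hvk, hvj⟩ := hcon j hjk
  have huj : f j u = 2 := by
    obtain ⟨l, h⟩ := hS u huS u huS
    have h2 := ok_self_iff.mp h
    rcases hl l with rfl | rfl | rfl
    · exact absurd h2 hui
    · exact h2
    · exact absurd (huk.symm.trans h2) ha
  have hvi : f i v = 2 := by
    obtain ⟨l, h⟩ := hS v hvS v hvS
    have h2 := ok_self_iff.mp h
    rcases hl l with rfl | rfl | rfl
    · exact h2
    · exact absurd h2 hvj
    · exact absurd (hvk.symm.trans h2) ha
  obtain ⟨l, h⟩ := hS u huS v hvS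
  rcases hl l with rfl | rfl | rfl
  · rw [hvi] at h
    exact hui (ok_two_right.mp h)
  · rw [huj] at h
    exact hvj (ok_two_left.mp h)
  · rw [huk, hvk] at h
    exact ha (ok_self_iff.mp h)

end Pool.Agent.Lib.MP_22c8c7_co.Odd
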