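import Mathlib
import Pool.Agent.Lib.MP_22c8c7_co.Odd.Basic

set_option autoImplicit false

namespace Pool.Agent.Lib.MP_22c8c7_co.Odd

open Finset
open scoped Classical

private theorem sides_perm : ∀ i j k : Fin 3, i ≠ j → i ≠ k → j ≠ k →
    (i = 0 ∧ j = 1 ∧ k = 2) ∨ (i = 0 ∧ j = 2 ∧ k = 1) ∨ (i = 1 ∧ j = 0 ∧ k = 2) ∨
    (i = 1 ∧ j = 2 ∧ k = 0) ∨ (i = 2 ∧ j = 0 ∧ k = 1) ∨ (i = 2 ∧ j = 1 ∧ k = 0) := by decide

private theorem sides_cases : ∀ a : Fin 3, a ≠ 2 → a = 0 ∨ a = 1 := by decide

private theorem sides_sum3 (g : Fin 3 → ℕ) {i j k : Fin 3} (hij : i ≠ j) (hik : i ≠ k)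
    (hjk : j ≠ k) : g 0 + g 1 + g 2 = g i + g j + g k := by
  rcases sides_perm i j k hij hik hjk with ⟨rfl, rfl, rfl⟩ | ⟨rfl, rfl, rfl⟩ | ⟨rfl, rfl, rfl⟩ |
    ⟨rfl, rfl, rfl⟩ | ⟨rfl, rfl, rfl⟩ | ⟨rfl, rfl, rfl⟩ <;> omega

/-- A constant status separates nothing. -/
private theorem sides_const {V : Type} (f : Fin 3 → V → Fin 3) (X : Finset V) (l s : Fin 3)
    (h : ∀ v ∈ X, f l v = s) : (st f X l 0).card * (st f X l 1).card = 0 := by
  by_cases hs : s = 0
  · have : st f X l 1 = ∅ := by
      rw [Finset.eq_empty_iff_forall_notMem]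
      intro v hv
      rw [mem_st] at hv
      have := h v hv.1
      rw [hv.2, hs] at this
      exact absurd this (by decide)
    rw [this, Finset.card_empty, mul_zero]
  · have : st f X l 0 = ∅ := by
      rw [Finset.eq_empty_iff_forall_notMem]
      intro v hv
      rw [mem_st] at hv
      have := h v hv.1
      rw [hv.2] at this
      exact hs this.symm
    rw [this, Finset.card_empty, zero_mul]

private theorem sides_all {V : Type} (f : Fin 3 → V → Fin 3) (X : Finset V) (l s : Fin 3)
    (h : ∀ v ∈ X, f l v = s) : st f X l s = X := by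
  ext v
  rw [mem_st]
  exact ⟨fun h' => h'.1, fun h' => ⟨h', h v h'⟩⟩

private theorem sides_none {V : Type} (f : Fin 3 → V → Fin 3) (X : Finset V) (l s t : Fin 3)
    (h : ∀ v ∈ X, f l v = s) (hst : s ≠ t) : st f X l t = ∅ := by
  rw [Finset.eq_empty_iff_forall_notMem]
  intro v hv
  rw [mem_st] at hv
  exact hst (by rw [← h v hv.1, hv.2])

/-- The basic inequality of a side. -/
private theorem sides_ineq (h1 : CountStmt) (h2 : UnionStmt) {V : Type} {n : ℕ} {S0 : Finset V}
    {c : V → V → Fin 3} {f : Fin 3 → V → Fin 3} (hctx : Ctx n S0 c f) (X : Finset V)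
    (hX : X ⊆ S0) {i j k a : Fin 3} (hij : i ≠ j) (hik : i ≠ k) (hjk : j ≠ k) (ha : a ≠ 2)
    (hfi : ∀ v ∈ X, f i v = 2) (hfk : ∀ v ∈ X, f k v = a) :
    (X.card : ℝ) ^ 2 - 2 * ((st f X j 0).card * (st f X j 1).card : ℝ) ≤
      n * ((X.card : ℝ) + (X.card - ((st f X j 0).card + (st f X j 1).card))) +
        4 * eta * (n : ℝ) ^ 2 := by
  have e1 := h1 V n S0 c f hctx X hX
  have e2 := h2 V f X
  have e3 := sides_sum3 (fun l => (st f X l 0).card * (st f X l 1).card) hij hik hjk
  have e4 := sides_sum3 (fun l => (st f X l 2).card) hij hik hjk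
  have e5 := sides_const f X i 2 hfi
  have e6 := sides_const f X k a hfk
  have e7 := sides_all f X i 2 hfi
  have e8 := sides_none f X k a 2 hfk ha
  have e9 := st_card f X j
  rw [e3, e5, e6, zero_add, add_zero] at e2
  have e4' : ((st f X 0 2).card : ℝ) + (st f X 1 2).card + (st f X 2 2).card =
      X.card + (X.card - ((st f X j 0).card + (st f X j 1).card)) := by
    have t1 : ((st f X 0 2).card : ℝ) + (st f X 1 2).card + (st f X 2 2).card =
        (st f X i 2).card + (st f X j 2).card + (st f X k 2).card := by exact_mod_cast e4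
    rw [t1, e7, e8, Finset.card_empty]
    have t2 : ((st f X j 0).card : ℝ) + (st f X j 1).card + (st f X j 2).card = X.card := by
      exact_mod_cast e9
    push_cast
    linarith
  rw [e4'] at e1
  have e2' : (X.card : ℝ) ^ 2 ≤ nsep f X + 2 * ((st f X j 0).card * (st f X j 1).card : ℝ) := by
    exact_mod_cast e2
  linarith

theorem sidesM (h1 : CountStmt) (h2 : UnionStmt) (h3 : Num2Stmt) : SidesStmt := by
  intro V n S0 c f S hB k hk i hi a j ha hjk hji
  have hctx := hB.ctx
  have hnpos : (0 : ℝ) < n := by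
    have := hctx.big_real
    linarith [show (0 : ℝ) < 10 ^ 8 by norm_num]
  -- the numerical lemma for a side
  have key : ∀ a : Fin 3, a ≠ 2 → ∀ j : Fin 3, j ≠ k → j ≠ i a →
      ((st f S k a).card : ℝ) / n ≤ 2 + 4 * eta ∧
      (2 - 204 * eta ≤ ((st f S k a).card : ℝ) / n →
        ((st f (st f S k a) j 0).card : ℝ) / n + ((st f (st f S k a) j 1).card : ℝ) / n ≤
          420 * eta ∨
        2 - 420 * eta ≤
          ((st f (st f S k a) j 0).card : ℝ) / n + ((st f (st f S k a) j 1).card : ℝ) / n) := by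
    intro a ha j hjk hji
    have hX : st f S k a ⊆ S0 := (st_sub f _ _ _).trans hB.sub
    have e1 := sides_ineq h1 h2 hctx (st f S k a) hX hji.symm (hi a ha).1 hjk ha
      (fun v hv => (hi a ha).2 v (mem_st.1 hv).1 (mem_st.1 hv).2) (fun v hv => (mem_st.1 hv).2)
    have e9 := st_card f (st f S k a) j
    have e10 : ((st f (st f S k a) j 0).card : ℝ) + (st f (st f S k a) j 1).card ≤
        (st f S k a).card := by
      have : (st f (st f S k a) j 0).card + (st f (st f S k a) j 1).card ≤
          (st f S k a).card := by omega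
      exact_mod_cast this
    refine h3 _ _ _ (by positivity) (by positivity) ?_ ?_
    · rw [← add_div]
      exact div_le_div_of_nonneg_right e10 hnpos.le
    · set x : ℝ := ((st f S k a).card : ℝ) with hx
      set p : ℝ := ((st f (st f S k a) j 0).card : ℝ) with hp
      set q : ℝ := ((st f (st f S k a) j 1).card : ℝ) with hq
      have e11 : (x / n) ^ 2 - 2 * (p / n * (q / n)) = (x ^ 2 - 2 * (p * q)) / (n : ℝ) ^ 2 := by
        field_simp
      have e12 : x / n + (x / n - (p / n + q / n)) + 4 * eta =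
          (n * (x + (x - (p + q))) + 4 * eta * (n : ℝ) ^ 2) / (n : ℝ) ^ 2 := by
        field_simp
      rw [e11, e12]
      exact div_le_div_of_nonneg_right e1 (by positivity)
  have hthird : ∀ x y : Fin 3, x ≠ y → ∃ z : Fin 3, z ≠ x ∧ z ≠ y := by decide
  have hle : ∀ a : Fin 3, a ≠ 2 → ((st f S k a).card : ℝ) / n ≤ 2 + 4 * eta := by
    intro a ha
    obtain ⟨j, hj1, hj2⟩ := hthird k (i a) (hi a ha).1.symm
    exact (key a ha j hj1 hj2).1
  have hsum := not_two_card f S k
  have hsum' : ((st f S k 0).card : ℝ) / n + ((st f S k 1).card : ℝ) / n ≥ 4 - 200 * eta := by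
    rw [← add_div, ge_iff_le, le_div_iff₀ hnpos]
    rw [hsum] at hk
    push_cast at hk
    exact hk
  have h0 := hle 0 (by decide)
  have h1' := hle 1 (by decide)
  have hge : 2 - 204 * eta ≤ ((st f S k a).card : ℝ) / n := by
    have : a = 0 ∨ a = 1 := sides_cases a ha
    rcases this with h | h <;> rw [h] <;> linarith
  obtain ⟨k1, k2⟩ := key a ha j hjk hji
  refine ⟨by rwa [div_le_iff₀ hnpos] at k1, ?_⟩
  have e9 := st_card f (st f S k a) j
  have e9' : ((st f (st f S k a) j 0).card : ℝ) + (st f (st f S k a) j 1).card +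
      (st f (st f S k a) j 2).card = (st f S k a).card := by exact_mod_cast e9
  rcases k2 hge with h | h
  · left
    rw [← add_div, div_le_iff₀ hnpos] at h
    rw [le_div_iff₀ hnpos] at hge
    linarith
  · right
    -- the cells
    have hcell : ∀ b : Fin 3, b ≠ 2 → ((st f (st f S k a) j b).card : ℝ) / n ≤ 1 + 4 * eta := by
      intro b hb
      set P := st f (st f S k a) j b with hP
      have hPX : P ⊆ st f S k a := st_sub f _ _ _
      have hPS : P ⊆ S := hPX.trans (st_sub f _ _ _)
      have e1 := sides_ineq h1 h2 hctx P (hPS.trans hB.sub) hji.symm (hi a ha).1 hjk ha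
        (fun v hv => (hi a ha).2 v (hPS hv) (mem_st.1 (hPX hv)).2)
        (fun v hv => (mem_st.1 (hPX hv)).2)
      have e2 := sides_const f P j b (fun v hv => (mem_st.1 hv).2)
      have e3 := sides_none f P j b 2 (fun v hv => (mem_st.1 hv).2) hb
      have e4 := st_card f P j
      rw [e3, Finset.card_empty, add_zero] at e4
      have e2' : ((st f P j 0).card : ℝ) * (st f P j 1).card = 0 := by exact_mod_cast e2
      have e4' : ((st f P j 0).card : ℝ) + (st f P j 1).card = P.card := by exact_mod_cast e4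
      rw [e2', e4', sub_self, mul_zero, sub_zero, add_zero] at e1
      rw [div_le_iff₀ hnpos]
      have hη := eta_pos
      by_contra hcon
      push Not at hcon
      have hy : (n : ℝ) ≤ P.card := by nlinarith
      nlinarith [mul_pos hη hnpos]
    have q0 := hcell 0 (by decide)
    have q1 := hcell 1 (by decide)
    intro b hb
    have hb' : b = 0 ∨ b = 1 := sides_cases b hb
    rw [← le_div_iff₀ hnpos]
    rcases hb' with h' | h' <;> rw [h'] <;> linarith

end Pool.Agent.Lib.MP_22c8c7_co.Odd
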