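import Mathlib
import Pool.Agent.Lib.MP_22c8c7_co.Odd.Basic
import Pool.Agent.Lib.MP_22c8c7_co.Split2

/-! Few vertices of large outer degree (docstring of `SmallRStmt` in `Odd/Spec.lean`). -/

set_option autoImplicit false

namespace Pool.Agent.Lib.MP_22c8c7_co.Odd

open Finset
open scoped Classical

theorem smallR (h1 : HeavyOddStmt) (h2 : NbrStmt) : SmallRStmt := by
  intro V r hs hirr P n h K m _ hh hE hP hm hmo hKm hmn hnum x hx hno
  set C := univ.image x with hC
  set Y := P \ C with hY
  set R := Y.filter (fun y => h ≤ dg r Y y) with hR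
  set I := Y.filter (fun y => dg r Y y < h) with hI
  have hCP : C ⊆ P := by
    intro v hv
    obtain ⟨i, _, rfl⟩ := Finset.mem_image.1 hv
    exact hx.mem i
  have hCc : C.card = m := by
    rw [hC, Finset.card_image_of_injective _ hx.inj, Finset.card_univ, ZMod.card]
  have hYc : Y.card ≤ 4 * n := (Finset.card_le_card Finset.sdiff_subset).trans hP
  have hwt : ∀ y, dg r C y = wt r m x y := by
    intro y
    unfold dg wt J
    rw [hC, Finset.filter_image, Finset.card_image_of_injective _ hx.inj]
  -- the weighted sum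
  have hH := h1 V r hs hirr P m hm hmo x hx hno
  rw [← hC, ← hY] at hH
  have hH2 : m * Y.card ≤ 4 * n ^ 2 := by
    calc m * Y.card ≤ n * (4 * n) := Nat.mul_le_mul hmn hYc
      _ = 4 * n ^ 2 := by ring
  -- the degrees
  have hP2 : 2 ≤ P.card := by
    have := Finset.card_le_card hCP
    omega
  have hdeg := (h2 V r P (2 * h) hE).2 hP2
  have hdx : ∀ y, dg r P y = wt r m x y + dg r Y y := fun y => dg_exact r P m x hx y
  -- the second claim
  have hI1 : ∀ y ∈ I, h * dg r Y y ≤ wt r m x y * (dg r Y y + 1) ∧ 2 ≤ wt r m x y := by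
    intro y hy
    rw [hI, Finset.mem_filter, hY, Finset.mem_sdiff] at hy
    have h3 := hdeg y hy.1.1
    have h4 := hdx y
    have h5 := hy.2
    rw [← hY] at h5
    refine ⟨Nat.mul_le_mul ?_ (Nat.le_succ _), ?_⟩
    · omega
    · omega
  have hI2 : h * ∑ y ∈ I, dg r Y y ≤ 4 * n ^ 2 := by
    rw [Finset.mul_sum]
    refine le_trans ?_ (hH.trans hH2)
    refine le_trans (Finset.sum_le_sum fun y hy => (hI1 y hy).1) ?_
    refine Finset.sum_le_sum_of_subset ?_
    intro y hy
    rw [Finset.mem_filter]
    exact ⟨(Finset.mem_filter.1 hy).1, (hI1 y hy).2⟩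
  refine ⟨?_, hI2⟩
  -- the weights on `R`
  have hR1 : h * ∑ y ∈ R, wt r m x y ≤ 4 * n ^ 2 + 4 * n * h := by
    rw [Finset.mul_sum, ← Finset.sum_filter_add_sum_filter_not R (fun y => 2 ≤ wt r m x y)]
    refine add_le_add ?_ ?_
    · refine le_trans ?_ (hH.trans hH2)
      calc ∑ y ∈ R.filter (fun y => 2 ≤ wt r m x y), h * wt r m x y
          ≤ ∑ y ∈ R.filter (fun y => 2 ≤ wt r m x y), wt r m x y * (dg r Y y + 1) := by
            refine Finset.sum_le_sum fun y hy => ?_
            rw [Finset.mem_filter, hR, Finset.mem_filter] at hy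
            rw [mul_comm]
            exact Nat.mul_le_mul_left _ (by omega)
        _ ≤ _ := by
            refine Finset.sum_le_sum_of_subset ?_
            exact Finset.filter_subset_filter _ (Finset.filter_subset _ _)
    · calc ∑ y ∈ R.filter (fun y => ¬ 2 ≤ wt r m x y), h * wt r m x y
          ≤ ∑ y ∈ R.filter (fun y => ¬ 2 ≤ wt r m x y), h := by
            refine Finset.sum_le_sum fun y hy => ?_
            rw [Finset.mem_filter] at hy
            calc h * wt r m x y ≤ h * 1 := Nat.mul_le_mul_left _ (by omega)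
              _ = h := mul_one h
        _ = (R.filter (fun y => ¬ 2 ≤ wt r m x y)).card * h := by
            rw [Finset.sum_const, smul_eq_mul]
        _ ≤ 4 * n * h := by
            refine Nat.mul_le_mul_right _ ?_
            refine (Finset.card_le_card ?_).trans hYc
            exact (Finset.filter_subset _ _).trans (Finset.filter_subset _ _)
  -- the edges between `R` and the rest
  have hRP : R ⊆ P := (Finset.filter_subset _ _).trans Finset.sdiff_subset
  have hsplit : P \ R = C ∪ I := by
    ext v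
    rw [Finset.mem_sdiff, Finset.mem_union, hR, hI, Finset.mem_filter, Finset.mem_filter, hY,
      Finset.mem_sdiff]
    constructor
    · rintro ⟨h3, h4⟩
      by_cases hv : v ∈ C
      · exact Or.inl hv
      · right
        refine ⟨⟨h3, hv⟩, ?_⟩
        by_contra h5
        exact h4 ⟨⟨h3, hv⟩, not_lt.1 h5⟩
    · rintro (h3 | ⟨⟨h3, h4⟩, h5⟩)
      · exact ⟨hCP h3, fun h4 => h4.1.2 h3⟩
      · exact ⟨h3, fun h6 => absurd h6.2 (not_le.2 h5)⟩
  have hdisj : Disjoint C I := by
    rw [Finset.disjoint_left]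
    intro v hv hv'
    rw [hI, Finset.mem_filter, hY, Finset.mem_sdiff] at hv'
    exact hv'.1.2 hv
  have hRI : ee r R I ≤ ∑ y ∈ I, dg r Y y := by
    rw [ee_comm hs]
    unfold ee
    exact Finset.sum_le_sum fun y _ => count_dg_mono r (Finset.filter_subset _ _) y
  have hRC : ee r R C = ∑ y ∈ R, wt r m x y := by
    unfold ee
    exact Finset.sum_congr rfl fun y _ => hwt y
  have hRR : h * ee r R (P \ R) ≤ 8 * n ^ 2 + 4 * n * h := by
    rw [hsplit, ee_union_right r R hdisj, hRC, Nat.mul_add]
    have h3 : h * ee r R I ≤ 4 * n ^ 2 := (Nat.mul_le_mul_left _ hRI).trans hI2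
    omega
  rcases Nat.lt_or_ge P.card (2 * R.card) with h3 | h3
  · exfalso
    have h4 : 2 * (P \ R).card ≤ P.card := by
      have := Finset.card_sdiff_add_card_eq_card hRP
      omega
    have h5 := hE (P \ R) Finset.sdiff_subset h4
    rw [Finset.sdiff_sdiff_eq_self hRP, ee_comm hs] at h5
    have h6 : m ≤ (P \ R).card := by
      rw [← hCc, hsplit]
      exact Finset.card_le_card Finset.subset_union_left
    have h7 : h * (2 * h * (P \ R).card) ≤ 8 * n ^ 2 + 4 * n * h :=
      (Nat.mul_le_mul_left _ h5).trans hRR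
    have h8 : h * (2 * h * (P \ R).card) = 2 * h ^ 2 * (P \ R).card := by ring
    have h9 : 2 * h ^ 2 * K ≤ 2 * h ^ 2 * (P \ R).card := Nat.mul_le_mul_left _ (by omega)
    omega
  · have h5 := hE R hRP h3
    have h7 : h * (2 * h * R.card) ≤ 8 * n ^ 2 + 4 * n * h :=
      (Nat.mul_le_mul_left _ h5).trans hRR
    have h8 : h * (2 * h * R.card) = 2 * h ^ 2 * R.card := by ring
    by_contra hcon
    have h9 : 2 * h ^ 2 * K ≤ 2 * h ^ 2 * R.card := Nat.mul_le_mul_left _ (not_lt.1 hcon)
    omega

end Pool.Agent.Lib.MP_22c8c7_co.Odd
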