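import Mathlib
import Pool.Agent.Lib.MP_22c8c7_co.Odd.Basic

/-! Counting (docstring of `SplitStmt` in `Odd/Spec.lean`). -/

set_option autoImplicit false

namespace Pool.Agent.Lib.MP_22c8c7_co.Odd

open Finset
open scoped Classical

theorem split : SplitStmt := by
  intro V r hs S C R
  have hdis : Disjoint (S ∩ C) (S \ C) := by
    rw [Finset.disjoint_left]
    intro v hv hv'
    exact (Finset.mem_sdiff.1 hv').2 (Finset.mem_inter.1 hv).2
  have hun : S = (S ∩ C) ∪ (S \ C) := by
    ext v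
    rw [Finset.mem_union, Finset.mem_inter, Finset.mem_sdiff]
    tauto
  have h1 : ds r S = ds r (S ∩ C) + ds r (S \ C) + 2 * ee r (S ∩ C) (S \ C) := by
    conv_lhs => rw [hun]
    exact ds_union hs hdis
  have h2 : ee r (S ∩ C) (S \ C) = ∑ y ∈ S \ C, dg r (S ∩ C) y := ee_comm hs _ _
  have h3 : ∀ g : V → ℕ, ∑ y ∈ S \ C, g y = ∑ y ∈ (S \ C) \ R, g y + ∑ y ∈ (S \ C) ∩ R, g y := by
    intro g
    rw [← Finset.sum_union]
    · congr 1
      ext v
      simp only [Finset.mem_union, Finset.mem_sdiff, Finset.mem_inter]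
      tauto
    · rw [Finset.disjoint_left]
      intro v hv hv'
      exact (Finset.mem_sdiff.1 hv).2 (Finset.mem_inter.1 hv').2
  have h4 : ∀ y, dg r (S ∩ C) y + dg r (S \ C) y = dg r S y := by
    intro y
    rw [← dg_union r hdis y, ← hun]
  have h5 : ∑ y ∈ (S \ C) ∩ R, (2 * dg r (S ∩ C) y + dg r (S \ C) y) ≤ R.card * (2 * S.card) := by
    refine (Finset.sum_le_card_nsmul _ _ (2 * S.card) ?_).trans ?_
    · intro y _
      have h6 := h4 y
      have h7 := dg_le_card r S y
      omega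
    · rw [smul_eq_mul]
      exact Nat.mul_le_mul_right _ (Finset.card_le_card Finset.inter_subset_right)
  rw [Finset.sum_add_distrib, ← Finset.mul_sum] at h5
  have h6 : ds r (S \ C) = ∑ y ∈ S \ C, dg r (S \ C) y := rfl
  rw [h3] at h2 h6
  have h7 : R.card * (2 * S.card) = 2 * (R.card * S.card) := by ring
  omega

end Pool.Agent.Lib.MP_22c8c7_co.Odd
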