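import Mathlib
import Pool.Agent.Lib.MP_22c8c7_co.Odd.Basic

/-! The numerical part of the stability. -/

set_option autoImplicit false

namespace Pool.Agent.Lib.MP_22c8c7_co.Odd

open Finset
open scoped Classical

theorem stabNum : StabNumStmt := by
  intro T c b d n hn h1 h2 h3
  rw [eta_eq] at h3 ⊢
  have hA : ∀ t ∈ T, c t * (n - c t) ≤ n * c t - d t := by
    intro t ht
    have := (h1 t ht).2.2.2
    nlinarith
  have hA0 : ∀ t ∈ T, 0 ≤ n * c t - d t := by
    intro t ht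
    obtain ⟨a1, a2, a3, a4⟩ := h1 t ht
    exact (mul_nonneg a1 (by linarith)).trans (hA t ht)
  have hB0 : ∀ t ∈ T, 0 ≤ b t * (n - min (2 * c t) n) := by
    intro t ht
    obtain ⟨a1, a2, a3, a4⟩ := h1 t ht
    exact mul_nonneg a3 (by linarith [min_le_right (2 * c t) n])
  have hsA := Finset.sum_nonneg hA0
  have hsB := Finset.sum_nonneg hB0
  by_cases hex : ∃ t ∈ T, (1 - 20000 * (1 / 1000000 : ℝ)) * n ≤ c t
  · obtain ⟨t, ht, htc⟩ := hex
    refine ⟨t, ht, htc, ?_⟩
    have h4 := Finset.single_le_sum hA0 ht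
    obtain ⟨a1, a2, a3, a4⟩ := h1 t ht
    nlinarith
  exfalso
  push Not at hex
  have h4 : ∑ t ∈ T, (2 / 100 * n) * c t ≤ ∑ t ∈ T, (n * c t - d t) := by
    refine Finset.sum_le_sum fun t ht => ?_
    obtain ⟨a1, a2, a3, a4⟩ := h1 t ht
    have h5 := hex t ht
    have h6 : 2 / 100 * n ≤ n - c t := by linarith
    calc (2 / 100 * n) * c t ≤ (n - c t) * c t := mul_le_mul_of_nonneg_right h6 a1
      _ = c t * (n - c t) := mul_comm _ _
      _ ≤ _ := hA t ht
  rw [← Finset.mul_sum] at h4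
  have h5 : ∑ t ∈ T, c t ≤ 10005 / 100000 * n := by
    have h6 : (2 / 100 * n) * ∑ t ∈ T, c t ≤ (2 / 100 * n) * (10005 / 100000 * n) := by
      nlinarith
    exact le_of_mul_le_mul_left h6 (by positivity)
  have hc : ∀ t ∈ T, c t ≤ 10005 / 100000 * n := by
    intro t ht
    have h6 := Finset.single_le_sum (fun t ht => (h1 t ht).1) ht
    exact h6.trans h5
  have h6 : ∑ t ∈ T, (79 / 100 * n) * b t ≤ ∑ t ∈ T, b t * (n - min (2 * c t) n) := by
    refine Finset.sum_le_sum fun t ht => ?_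
    obtain ⟨a1, a2, a3, a4⟩ := h1 t ht
    have h7 := hc t ht
    have h8 := min_le_left (2 * c t) n
    rw [mul_comm]
    refine mul_le_mul_of_nonneg_left ?_ a3
    linarith
  rw [← Finset.mul_sum] at h6
  have h7 : ∑ t ∈ T, b t ≤ 3 / 1000 * n := by
    have h8 : (79 / 100 * n) * ∑ t ∈ T, b t ≤ (79 / 100 * n) * (3 / 1000 * n) := by
      nlinarith [mul_pos hn hn]
    exact le_of_mul_le_mul_left h8 (by positivity)
  rw [Finset.sum_add_distrib] at h2
  linarith

end Pool.Agent.Lib.MP_22c8c7_co.Odd
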