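import Mathlib
import Pool.Agent.Lib.MP_22c8c7_co.Odd.Basic

/-! Sum over the classes (docstring of `SumClStmt` in `Odd/Spec.lean`). -/

set_option autoImplicit false

namespace Pool.Agent.Lib.MP_22c8c7_co.Odd

open Finset
open scoped Classical

theorem sumCl : SumClStmt := by
  intro V r S0 S π hS
  have h1 : ∀ a ∈ S, dg r S a ≤ (S0.filter (fun b => π b ≠ π a ∧ r a b)).card +
      dg r (cl S π (π a)) a := by
    intro a _
    unfold dg cl
    refine le_trans (Finset.card_le_card ?_) (Finset.card_union_le _ _)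
    intro b hb
    rw [Finset.mem_filter] at hb
    rw [Finset.mem_union, Finset.mem_filter, Finset.mem_filter, Finset.mem_filter]
    by_cases h : π b = π a
    · exact Or.inr ⟨⟨hb.1, h⟩, hb.2⟩
    · exact Or.inl ⟨hS hb.1, h, hb.2⟩
  have h2 := Finset.sum_le_sum h1
  rw [Finset.sum_add_distrib] at h2
  have h3 : ∑ a ∈ S, (S0.filter (fun b => π b ≠ π a ∧ r a b)).card ≤ crossN r S0 π := by
    unfold crossN
    exact Finset.sum_le_sum_of_subset hS
  have h4 : ∑ a ∈ S, dg r (cl S π (π a)) a = ∑ t ∈ S0.image π, ds r (cl S π t) := by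
    rw [← Finset.sum_fiberwise_of_maps_to (s := S) (t := S0.image π) (g := π)
      (fun a ha => Finset.mem_image_of_mem π (hS ha))]
    refine Finset.sum_congr rfl fun t _ => ?_
    unfold ds
    refine Finset.sum_congr rfl fun a ha => ?_
    rw [(Finset.mem_filter.1 ha).2]
  have h5 : ds r S = ∑ a ∈ S, dg r S a := rfl
  omega

end Pool.Agent.Lib.MP_22c8c7_co.Odd
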