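import Mathlib
import Pool.Agent.Lib.MP_22c8c7_co.Odd.Basic

/-! Two light colours on a side (docstring of `TwoLightStmt` in `Odd/Spec.lean`). -/

set_option autoImplicit false

namespace Pool.Agent.Lib.MP_22c8c7_co.Odd

open Finset
open scoped Classical

/-- The three colours in any order. -/
private theorem twoLight_total {V : Type} (c : V → V → Fin 3) (S : Finset V) (i j k : Fin 3)
    (hij : i ≠ j) (hik : i ≠ k) (hjk : j ≠ k) :
    ds (rel c i) S + ds (rel c j) S + ds (rel c k) S + S.card = S.card ^ 2 := by
  rw [← ds_total c S]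
  have h : ∀ g : Fin 3 → ℕ, g i + g j + g k = g 0 + g 1 + g 2 := by
    intro g
    rw [← Fin.sum_univ_three]
    have hu : (univ : Finset (Fin 3)) = {i, j, k} := by
      symm
      rw [Finset.eq_univ_iff_forall]
      intro x
      rw [Finset.mem_insert, Finset.mem_insert, Finset.mem_singleton]
      have e1 : i.val ≠ j.val := fun h => hij (Fin.ext h)
      have e2 : i.val ≠ k.val := fun h => hik (Fin.ext h)
      have e3 : j.val ≠ k.val := fun h => hjk (Fin.ext h)
      by_contra hcon
      push Not at hcon
      obtain ⟨h1, h2, h3⟩ := hcon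
      have e4 : x.val ≠ i.val := fun h => h1 (Fin.ext h)
      have e5 : x.val ≠ j.val := fun h => h2 (Fin.ext h)
      have e6 : x.val ≠ k.val := fun h => h3 (Fin.ext h)
      omega
    rw [hu, Finset.sum_insert, Finset.sum_insert, Finset.sum_singleton]
    · ring
    · rw [Finset.mem_singleton]; exact hjk
    · rw [Finset.mem_insert, Finset.mem_singleton]
      rintro (h | h)
      · exact hij h
      · exact hik h
  have h1 : ds (rel c i) S + ds (rel c j) S + ds (rel c k) S =
      ds (rel c 0) S + ds (rel c 1) S + ds (rel c 2) S := h (fun l => ds (rel c l) S)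
  omega

theorem twoLight : TwoLightStmt := by
  intro V n S0 c f hctx i j k a hij hik hjk ha X hX hf hXu hXl
  have hn := hctx.big_real
  have he := eta_pos
  have heq := eta_eq
  have hbad : ((X ×ˢ X).filter (fun p => rel c k p.1 p.2)).card ≤ eta ^ 2 / 10 * (n : ℝ) ^ 2 := by
    refine bad_one hctx k _ ?_ ?_
    · refine (Finset.filter_subset _ _).trans ?_
      exact Finset.product_subset_product hX hX
    · intro p hp
      rw [Finset.mem_filter, Finset.mem_product] at hp
      refine ⟨hp.2, ?_⟩
      rw [(hf _ hp.1.1).2.2, (hf _ hp.1.2).2.2, ok_self_iff]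
      exact ha
  have hk : (ds (rel c k) X : ℝ) ≤ eta ^ 2 / 10 * (n : ℝ) ^ 2 := by
    rw [← ee_self, ee_eq_card]
    exact hbad
  have hj := (hctx.col j).light X hX (fun v hv => (hf v hv).2.1)
  have htot := twoLight_total c X i j k hij hik hjk
  have htot' : (ds (rel c i) X : ℝ) + ds (rel c j) X + ds (rel c k) X + X.card =
      (X.card : ℝ) ^ 2 := by exact_mod_cast htot
  set x : ℝ := (X.card : ℝ) with hx
  set N : ℝ := (n : ℝ) with hN
  have hnX : n ≤ X.card := by
    have h1 : (n : ℝ) ≤ X.card := by
      rw [← hN, ← hx]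
      rw [heq] at hXl
      nlinarith
    exact_mod_cast h1
  refine (hctx.col i).stab X hX (fun v hv => (hf v hv).1) hnX ?_
  rw [← hx, ← hN]
  have h1 : x * (2 * N - x) ≤ x * (624 * eta * N) := by
    refine mul_le_mul_of_nonneg_left ?_ (Nat.cast_nonneg _)
    linarith
  have h2 : x * (624 * eta * N) ≤ (2 + 4 * eta) * N * (624 * eta * N) := by
    refine mul_le_mul_of_nonneg_right hXu ?_
    positivity
  rw [heq] at *
  nlinarith

end Pool.Agent.Lib.MP_22c8c7_co.Odd
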