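import Mathlib
import Pool.Agent.Lib.MP_22c8c7_co.Odd.Basic

/-! The union bound for separated pairs. -/

set_option autoImplicit false

namespace Pool.Agent.Lib.MP_22c8c7_co.Odd

open Finset
open scoped Classical

private theorem unionM_sep {V : Type} (f : Fin 3 → V → Fin 3) (S : Finset V) (i : Fin 3) :
    ((S ×ˢ S).filter (fun p => Sep (f i p.1) (f i p.2))).card =
      2 * ((st f S i 0).card * (st f S i 1).card) := by
  have h1 : (S ×ˢ S).filter (fun p => Sep (f i p.1) (f i p.2)) =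
      (st f S i 0 ×ˢ st f S i 1) ∪ (st f S i 1 ×ˢ st f S i 0) := by
    ext p
    rw [Finset.mem_filter, Finset.mem_product, Finset.mem_union, Finset.mem_product,
      Finset.mem_product, mem_st, mem_st, mem_st, mem_st]
    unfold Sep
    constructor
    · rintro ⟨⟨h1, h2⟩, ⟨h3, h4⟩ | ⟨h3, h4⟩⟩
      · exact Or.inl ⟨⟨h1, h3⟩, h2, h4⟩
      · exact Or.inr ⟨⟨h1, h3⟩, h2, h4⟩
    · rintro (⟨⟨h1, h3⟩, h2, h4⟩ | ⟨⟨h1, h3⟩, h2, h4⟩)
      · exact ⟨⟨h1, h2⟩, Or.inl ⟨h3, h4⟩⟩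
      · exact ⟨⟨h1, h2⟩, Or.inr ⟨h3, h4⟩⟩
  rw [h1, Finset.card_union_of_disjoint, Finset.card_product, Finset.card_product]
  · ring
  · rw [Finset.disjoint_left]
    intro p hp hq
    rw [Finset.mem_product, mem_st, mem_st] at hp hq
    have h2 := hp.1.2.symm.trans hq.1.2
    exact absurd h2 (by decide)

theorem unionM : UnionStmt := by
  intro V f S
  have h1 : S ×ˢ S ⊆ ((S ×ˢ S).filter (fun p => ∀ i, ¬ Sep (f i p.1) (f i p.2))) ∪
      (((S ×ˢ S).filter (fun p => Sep (f 0 p.1) (f 0 p.2))) ∪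
      (((S ×ˢ S).filter (fun p => Sep (f 1 p.1) (f 1 p.2))) ∪
      ((S ×ˢ S).filter (fun p => Sep (f 2 p.1) (f 2 p.2))))) := by
    intro p hp
    rw [Finset.mem_union, Finset.mem_union, Finset.mem_union, Finset.mem_filter,
      Finset.mem_filter, Finset.mem_filter, Finset.mem_filter]
    by_cases h0 : Sep (f 0 p.1) (f 0 p.2)
    · exact Or.inr (Or.inl ⟨hp, h0⟩)
    by_cases h1 : Sep (f 1 p.1) (f 1 p.2)
    · exact Or.inr (Or.inr (Or.inl ⟨hp, h1⟩))
    by_cases h2 : Sep (f 2 p.1) (f 2 p.2)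
    · exact Or.inr (Or.inr (Or.inr ⟨hp, h2⟩))
    refine Or.inl ⟨hp, fun i => ?_⟩
    fin_cases i
    · exact h0
    · exact h1
    · exact h2
  have h2 := Finset.card_le_card h1
  have h3 := Finset.card_union_le ((S ×ˢ S).filter (fun p => ∀ i, ¬ Sep (f i p.1) (f i p.2)))
      (((S ×ˢ S).filter (fun p => Sep (f 0 p.1) (f 0 p.2))) ∪
      (((S ×ˢ S).filter (fun p => Sep (f 1 p.1) (f 1 p.2))) ∪
      ((S ×ˢ S).filter (fun p => Sep (f 2 p.1) (f 2 p.2)))))
  have h4 := Finset.card_union_le ((S ×ˢ S).filter (fun p => Sep (f 0 p.1) (f 0 p.2)))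
      (((S ×ˢ S).filter (fun p => Sep (f 1 p.1) (f 1 p.2))) ∪
      ((S ×ˢ S).filter (fun p => Sep (f 2 p.1) (f 2 p.2))))
  have h5 := Finset.card_union_le ((S ×ˢ S).filter (fun p => Sep (f 1 p.1) (f 1 p.2)))
      ((S ×ˢ S).filter (fun p => Sep (f 2 p.1) (f 2 p.2)))
  rw [unionM_sep] at h4
  rw [unionM_sep, unionM_sep] at h5
  rw [Finset.card_product, ← sq] at h2
  unfold nsep
  linarith

end Pool.Agent.Lib.MP_22c8c7_co.Odd
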