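import Mathlib
import Pool.Agent.Lib.MP_22c8c7_co.Odd.Spec
import Pool.Agent.Lib.MP_22c8c7_co.Odd.Cut
import Pool.Agent.Lib.MP_22c8c7_co.Odd.Nbr
import Pool.Agent.Lib.MP_22c8c7_co.Odd.WalkPath
import Pool.Agent.Lib.MP_22c8c7_co.Odd.OddClosed
import Pool.Agent.Lib.MP_22c8c7_co.Odd.Ball
import Pool.Agent.Lib.MP_22c8c7_co.Odd.ShortOdd
import Pool.Agent.Lib.MP_22c8c7_co.Odd.Greedy
import Pool.Agent.Lib.MP_22c8c7_co.Odd.LongOdd
import Pool.Agent.Lib.MP_22c8c7_co.Odd.MaxOdd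
import Pool.Agent.Lib.MP_22c8c7_co.Odd.HeavyOdd
import Pool.Agent.Lib.MP_22c8c7_co.Odd.SmallR
import Pool.Agent.Lib.MP_22c8c7_co.Odd.Cap
import Pool.Agent.Lib.MP_22c8c7_co.Odd.Split
import Pool.Agent.Lib.MP_22c8c7_co.Odd.PieceM
import Pool.Agent.Lib.MP_22c8c7_co.Odd.NumP
import Pool.Agent.Lib.MP_22c8c7_co.Odd.PartM
import Pool.Agent.Lib.MP_22c8c7_co.Odd.SumCl
import Pool.Agent.Lib.MP_22c8c7_co.Odd.StabNum
import Pool.Agent.Lib.MP_22c8c7_co.Odd.ColM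
import Pool.Agent.Lib.MP_22c8c7_co.Odd.CompatM
import Pool.Agent.Lib.MP_22c8c7_co.Odd.CountM
import Pool.Agent.Lib.MP_22c8c7_co.Odd.UnionM
import Pool.Agent.Lib.MP_22c8c7_co.Odd.OverlapM
import Pool.Agent.Lib.MP_22c8c7_co.Odd.Case0
import Pool.Agent.Lib.MP_22c8c7_co.Odd.Case2
import Pool.Agent.Lib.MP_22c8c7_co.Odd.Case3
import Pool.Agent.Lib.MP_22c8c7_co.Odd.Num1
import Pool.Agent.Lib.MP_22c8c7_co.Odd.Case1
import Pool.Agent.Lib.MP_22c8c7_co.Odd.OneM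
import Pool.Agent.Lib.MP_22c8c7_co.Odd.SideM
import Pool.Agent.Lib.MP_22c8c7_co.Odd.Num2
import Pool.Agent.Lib.MP_22c8c7_co.Odd.SidesM
import Pool.Agent.Lib.MP_22c8c7_co.Odd.TwoLight
import Pool.Agent.Lib.MP_22c8c7_co.Odd.Clash
import Pool.Agent.Lib.MP_22c8c7_co.Odd.CrossM
import Pool.Agent.Lib.MP_22c8c7_co.Odd.Cores
import Pool.Agent.Lib.MP_22c8c7_co.Odd.MkEX1
import Pool.Agent.Lib.MP_22c8c7_co.Odd.MkEX3
import Pool.Agent.Lib.MP_22c8c7_co.Odd.AltSame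
import Pool.Agent.Lib.MP_22c8c7_co.Odd.AltM
import Pool.Agent.Lib.MP_22c8c7_co.Odd.OC0
import Pool.Agent.Lib.MP_22c8c7_co.Odd.OC1
import Pool.Agent.Lib.MP_22c8c7_co.Odd.BC
import Pool.Agent.Lib.MP_22c8c7_co.Odd.NC
import Pool.Agent.Lib.MP_22c8c7_co.Odd.Assign
import Pool.Agent.Lib.MP_22c8c7_co.Odd.EX3M
import Pool.Agent.Lib.MP_22c8c7_co.Odd.EX1M
import Pool.Agent.Lib.MP_22c8c7_co.Odd.FinM
import Pool.Agent.Lib.MP_22c8c7_co.Odd.MainM

set_option autoImplicit false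

namespace Pool.Agent.Lib.MP_22c8c7_co.Odd

/-- All parts together. -/
theorem main_all : MainStmt := by
  have hLong : LongOddStmt := longOdd (shortOdd (ball nbr walkPath) oddClosed)
    (ball nbr walkPath) greedy nbr
  have hPiece : PieceStmt := pieceM hLong maxOdd (smallR heavyOdd nbr) cap split
  have hPart : PartStmt := partM cut hPiece numP
  have hCol : ColStmt := colM sumCl stabNum
  have hOne : OneStmt := oneM (case0 countM unionM) (case1 countM overlapM num1)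
    (case2 countM unionM) (case3 countM unionM)
  have hNC : NCStmt := nc bc
  have hAlt : AltStmt := altM altSame
  have hAs : AssignStmt := assign hNC
  have hFin : FinStmt := finM compatM hOne sideM (sidesM countM unionM num2) twoLight
    (clash hNC) (mkEX1 crossM coreM) (mkEX3 crossM coreM)
    (ex1M hAs (oc0 hAlt) (oc1 hAlt)) (ex3M hAs (oc0 hAlt))
  exact mainM hPart hCol hFin

end Pool.Agent.Lib.MP_22c8c7_co.Odd
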