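import Mathlib
import Pool.Agent.Lib.MP_22c8c7_co.Odd.Basic

/-! Alternating paths with ends on the same side (docstring of `AltSameStmt` in `Odd/Spec.lean`). -/

set_option autoImplicit false

namespace Pool.Agent.Lib.MP_22c8c7_co.Odd

open Finset
open scoped Classical

/-- A common neighbour. -/
private theorem altSame_common {V : Type} (r : V → V → Prop) (n : ℕ) (U W : Finset V)
    (hN : NCP r n U W) (W' : Finset V) (hW' : W' ⊆ W) (hc : 2 * n < 10 * W'.card)
    (u : V) (hu : u ∈ U) (u' : V) (hu' : u' ∈ U) : ∃ w ∈ W', r u w ∧ r u' w := by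
  by_contra hcon
  push Not at hcon
  have h1 : W' ⊆ W.filter (fun w => ¬ r u w) ∪ W.filter (fun w => ¬ r u' w) := by
    intro w hw
    rw [Finset.mem_union, Finset.mem_filter, Finset.mem_filter]
    by_cases h : r u w
    · exact Or.inr ⟨hW' hw, hcon w hw h⟩
    · exact Or.inl ⟨hW' hw, h⟩
  have h2 := (Finset.card_le_card h1).trans (Finset.card_union_le _ _)
  have h3 := hN.1 u hu
  have h4 := hN.1 u' hu'
  omega

/-- Adding two vertices at the beginning. -/
private theorem altSame_cons {V : Type} (r : V → V → Prop) (S T : Finset V) (hST : S ⊆ T)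
    (u w : V) (hu : u ∈ T) (hw : w ∈ T) (hu' : u ∉ S) (hw' : w ∉ S) (huw : u ≠ w)
    (h1 : r u w) (z : ℕ → V) (k : ℕ) (hz : PathIn r S z k) (h2 : r w (z 0)) :
    PathIn r T (fun i => if i = 0 then u else if i = 1 then w else z (i - 2)) (k + 2) := by
  let y : ℕ → V := fun i => if i = 0 then u else if i = 1 then w else z (i - 2)
  have y0 : y 0 = u := rfl
  have y1 : y 1 = w := rfl
  have y2 : ∀ i, y (i + 2) = z i := by
    intro i
    show (if i + 2 = 0 then u else if i + 2 = 1 then w else z (i + 2 - 2)) = z i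
    rw [if_neg (by omega), if_neg (by omega), Nat.add_sub_cancel]
  show PathIn r T y (k + 2)
  refine ⟨?_, ?_, ?_⟩
  · intro i hi
    match i, hi with
    | 0, _ => rw [y0]; exact hu
    | 1, _ => rw [y1]; exact hw
    | (i + 2), hi => rw [y2]; exact hST (hz.1 i (by omega))
  · have key : ∀ i j, i < j → j < k + 2 → y i ≠ y j := by
      intro i j hij hj heq
      obtain ⟨j', rfl⟩ : ∃ j', j = j' + 1 := ⟨j - 1, by omega⟩
      match i, j', hij, hj, heq with
      | 0, 0, _, _, heq => exact huw heq
      | 0, (j + 1), _, hj, heq =>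
        rw [y0, y2] at heq
        exact hu' (heq ▸ hz.1 j (by omega))
      | 1, 0, hij, _, _ => omega
      | 1, (j + 1), _, hj, heq =>
        rw [y1, y2] at heq
        exact hw' (heq ▸ hz.1 j (by omega))
      | (i + 2), 0, hij, _, _ => omega
      | (i + 2), (j + 1), hij, hj, heq =>
        rw [y2, y2] at heq
        have := hz.2.1 i (by omega) j (by omega) heq
        omega
    intro i hi j hj heq
    rcases Nat.lt_trichotomy i j with h | h | h
    · exact absurd heq (key i j h hj)
    · exact h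
    · exact absurd heq.symm (key j i h hi)
  · intro i hi
    match i, hi with
    | 0, _ => exact h1
    | 1, hi =>
      rw [y1, show (1 + 1 : ℕ) = 0 + 2 from rfl, y2]
      exact h2
    | (i + 2), hi =>
      rw [y2, show i + 2 + 1 = (i + 1) + 2 by omega, y2]
      exact hz.2.2 i (by omega)

private theorem altSame_main {V : Type} (r : V → V → Prop) (hs : ∀ a b, r a b → r b a) (n : ℕ)
    (U W : Finset V) (hN : NCP r n U W) (hd : Disjoint U W) (u' : V) (ℓ : ℕ) (hℓ : 1 ≤ ℓ) :
    ∀ (U' W' : Finset V), U' ⊆ U → W' ⊆ W → ∀ u ∈ U', u' ∈ U' → u ≠ u' → ℓ + 1 ≤ U'.card →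
      2 * n + 10 * ℓ ≤ 10 * W'.card →
      ∃ z, PathIn r (U' ∪ W') z (2 * ℓ + 1) ∧ z 0 = u ∧ z (2 * ℓ) = u' := by
  induction ℓ, hℓ using Nat.le_induction with
  | base =>
    intro U' W' hU' hW' u hu hu' hne _ hc
    obtain ⟨w, hw, h1, h2⟩ := altSame_common r n U W hN W' hW' (by omega) u (hU' hu) u' (hU' hu')
    have hwU : w ∉ U := fun h => Finset.disjoint_left.1 hd h (hW' hw)
    have hp := altSame_cons r {u'} (U' ∪ W') (by
        rw [Finset.singleton_subset_iff]
        exact Finset.mem_union_left _ hu') u w (Finset.mem_union_left _ hu)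
      (Finset.mem_union_right _ hw) (by rw [Finset.mem_singleton]; exact hne)
      (by rw [Finset.mem_singleton]; rintro rfl; exact hwU (hU' hu'))
      (by rintro rfl; exact hwU (hU' hu)) h1 (fun _ => u') 1
      ⟨fun _ _ => Finset.mem_singleton_self _, fun i hi j hj _ => by omega,
        fun i hi => by omega⟩ (hs _ _ h2)
    exact ⟨_, hp, rfl, rfl⟩
  | succ ℓ hℓ ih =>
    intro U' W' hU' hW' u hu hu' hne hcU hc
    -- the next vertex of `U`
    have hex : ((U'.erase u).erase u').Nonempty := by
      rw [← Finset.card_pos]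
      have h1 : u' ∈ U'.erase u := Finset.mem_erase.2 ⟨Ne.symm hne, hu'⟩
      rw [Finset.card_erase_of_mem h1, Finset.card_erase_of_mem hu]
      omega
    obtain ⟨u1, hu1⟩ := hex
    rw [Finset.mem_erase, Finset.mem_erase] at hu1
    obtain ⟨hu1a, hu1b, hu1c⟩ := hu1
    obtain ⟨w, hw, h1, h2⟩ := altSame_common r n U W hN W' hW' (by omega) u (hU' hu) u1 (hU' hu1c)
    have hwU : w ∉ U := fun h => Finset.disjoint_left.1 hd h (hW' hw)
    have huW : u ∉ W := fun h => Finset.disjoint_left.1 hd (hU' hu) h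
    obtain ⟨z, hz, hz0, hz1⟩ := ih (U'.erase u) (W'.erase w) ((Finset.erase_subset _ _).trans hU')
      ((Finset.erase_subset _ _).trans hW') u1 (Finset.mem_erase.2 ⟨hu1b, hu1c⟩)
      (Finset.mem_erase.2 ⟨Ne.symm hne, hu'⟩) hu1a
      (by rw [Finset.card_erase_of_mem hu]; omega)
      (by rw [Finset.card_erase_of_mem hw]; omega)
    have hp := altSame_cons r (U'.erase u ∪ W'.erase w) (U' ∪ W')
      (Finset.union_subset_union (Finset.erase_subset _ _) (Finset.erase_subset _ _)) u w
      (Finset.mem_union_left _ hu) (Finset.mem_union_right _ hw)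
      (by
        rw [Finset.mem_union, Finset.mem_erase, Finset.mem_erase]
        rintro (h | h)
        · exact h.1 rfl
        · exact huW (hW' h.2))
      (by
        rw [Finset.mem_union, Finset.mem_erase, Finset.mem_erase]
        rintro (h | h)
        · exact hwU (hU' h.2)
        · exact h.1 rfl)
      (by rintro rfl; exact hwU (hU' hu)) h1 z (2 * ℓ + 1) hz (by rw [hz0]; exact hs _ _ h2)
    refine ⟨_, hp, rfl, ?_⟩
    show (if 2 * (ℓ + 1) = 0 then u else if 2 * (ℓ + 1) = 1 then w else z (2 * (ℓ + 1) - 2)) = u'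
    rw [if_neg (by omega), if_neg (by omega), show 2 * (ℓ + 1) - 2 = 2 * ℓ by omega, hz1]

theorem altSame : AltSameStmt := by
  intro V r hs n U W hn hN hd hU hW u hu u' hu' hne ℓ hℓ hℓn
  exact altSame_main r hs n U W hN hd u' ℓ hℓ U W (Finset.Subset.refl _) (Finset.Subset.refl _)
    u hu hu' hne (by omega) (by omega)

end Pool.Agent.Lib.MP_22c8c7_co.Odd
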