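import Mathlib
import Pool.Agent.Lib.MP_22c8c7_co.Odd.Basic

set_option autoImplicit false

namespace Pool.Agent.Lib.MP_22c8c7_co.Odd

open Finset
open scoped Classical

private theorem colM_cl_sub {V : Type} {S S0 : Finset V} (h : S ⊆ S0) (π : V → ℕ) (t : ℕ) :
    cl S π t ⊆ cl S0 π t := Finset.filter_subset_filter _ h

private theorem colM_sum {V : Type} {S S0 : Finset V} (h : S ⊆ S0) (π : V → ℕ)
    (C : ℕ → Finset V) :
    ∑ t ∈ S0.image π, (((cl S π t ∩ C t).card : ℝ) + ((cl S π t \ C t).card : ℝ)) = S.card := by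
  have h1 : S.card = ∑ t ∈ S0.image π, (S.filter (fun v => π v = t)).card :=
    Finset.card_eq_sum_card_fiberwise (f := π)
      (fun v hv => Finset.mem_coe.2 (Finset.mem_image_of_mem π (h (Finset.mem_coe.1 hv))))
  rw [h1]
  push_cast
  refine Finset.sum_congr rfl fun t _ => ?_
  have h2 := Finset.card_inter_add_card_sdiff (cl S π t) (C t)
  have h3 : cl S π t = S.filter (fun v => π v = t) := rfl
  rw [← h3]
  exact_mod_cast h2

theorem colM (h1 : SumClStmt) (h2 : StabNumStmt) : ColStmt := by
  intro V r S0 n π E hi hn hP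
  have hn0 : (0 : ℝ) < n := by exact_mod_cast hn
  have hg : ∀ t, ∃ g : V → Bool, Bip r (cl S0 π t) →
      ∀ a ∈ cl S0 π t, ∀ b ∈ cl S0 π t, r a b → g a ≠ g b := by
    intro t
    by_cases h : Bip r (cl S0 π t)
    · obtain ⟨g, hg⟩ := h
      exact ⟨g, fun _ => hg⟩
    · exact ⟨fun _ => true, fun h' => absurd h' h⟩
  choose g hg using hg
  have hC : ∀ t, ∃ C : Finset V, C.card ≤ n ∧ (¬ Bip r (cl S0 π t) → ∀ S ⊆ cl S0 π t,
      (ds r S : ℝ) ≤ ds r (S ∩ C) + ((S \ C).card : ℝ) * min (2 * ((S ∩ C).card : ℝ)) n +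
        E t) := by
    intro t
    rcases hP.cls t with h | h
    · exact ⟨∅, by simp, fun h' => absurd h h'⟩
    · obtain ⟨C, -, hC2, hC3⟩ := h
      exact ⟨C, hC2, fun _ => hC3⟩
  choose C hC1 hC2 using hC
  set f : V → Fin 3 := fun v =>
    if Bip r (cl S0 π (π v)) then (if g (π v) v then 0 else 1) else 2 with hf
  have hf2 : ∀ v, f v = 2 → ¬ Bip r (cl S0 π (π v)) := by
    intro v hv hb
    rw [hf] at hv
    simp only [if_pos hb] at hv
    split_ifs at hv <;> exact absurd hv (by decide)
  -- the sum over the classes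
  have main : ∀ S ⊆ S0, (∀ v ∈ S, f v = 2) → (ds r S : ℝ) ≤
      ∑ t ∈ S0.image π, ((ds r (cl S π t ∩ C t) : ℝ) + ((cl S π t \ C t).card : ℝ) *
        min (2 * ((cl S π t ∩ C t).card : ℝ)) n) + eta * (n : ℝ) ^ 2 := by
    intro S hS hS2
    have e1 := h1 V r S0 S π hS
    have e2 : (ds r S : ℝ) ≤ crossN r S0 π + ∑ t ∈ S0.image π, (ds r (cl S π t) : ℝ) := by
      exact_mod_cast e1
    have e3 : ∑ t ∈ S0.image π, (ds r (cl S π t) : ℝ) ≤
        ∑ t ∈ S0.image π, (((ds r (cl S π t ∩ C t) : ℝ) + ((cl S π t \ C t).card : ℝ) *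
          min (2 * ((cl S π t ∩ C t).card : ℝ)) n) + E t) := by
      refine Finset.sum_le_sum fun t _ => ?_
      by_cases hb : Bip r (cl S0 π t)
      · have h0 : cl S π t = ∅ := by
          rw [Finset.eq_empty_iff_forall_notMem]
          intro v hv
          unfold cl at hv
          rw [Finset.mem_filter] at hv
          have := hf2 v (hS2 v hv.1)
          rw [hv.2] at this
          exact this hb
        rw [h0]
        have := hP.pos t
        simp [ds]
        exact this
      · exact hC2 t hb _ (colM_cl_sub hS π t)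
    rw [Finset.sum_add_distrib] at e3
    have e4 := hP.tot
    have e5 := hP.cross
    linarith
  have hdc : ∀ (S : Finset V) (t : ℕ), (ds r (cl S π t ∩ C t) : ℝ) ≤
      ((cl S π t ∩ C t).card : ℝ) ^ 2 := by
    intro S t
    exact_mod_cast ds_le_sq r _
  have hcn : ∀ (S : Finset V) (t : ℕ), ((cl S π t ∩ C t).card : ℝ) ≤ n := by
    intro S t
    exact_mod_cast (Finset.card_le_card Finset.inter_subset_right).trans (hC1 t)
  refine ⟨f, ?_, ?_, ?_⟩
  · -- bad
    refine le_trans ?_ hP.cross
    have : ∑ a ∈ S0, (S0.filter (fun b => r a b ∧ ¬ Ok (f a) (f b))).card ≤ crossN r S0 π := by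
      unfold crossN
      refine Finset.sum_le_sum fun a ha => Finset.card_le_card ?_
      intro b hb
      rw [Finset.mem_filter] at hb ⊢
      obtain ⟨hb1, hb2, hb3⟩ := hb
      refine ⟨hb1, ?_, hb2⟩
      intro hπ
      apply hb3
      by_cases hB : Bip r (cl S0 π (π a))
      · have ha' : a ∈ cl S0 π (π a) := Finset.mem_filter.2 ⟨ha, rfl⟩
        have hb' : b ∈ cl S0 π (π a) := Finset.mem_filter.2 ⟨hb1, hπ⟩
        have hne := hg (π a) hB a ha' b hb' hb2
        have hfa : f a = if g (π a) a then 0 else 1 := by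
          rw [hf]
          simp only [if_pos hB]
        have hfb : f b = if g (π a) b then 0 else 1 := by
          rw [hf]
          simp only [hπ, if_pos hB]
        rw [hfa, hfb]
        unfold Ok Sep
        cases h3 : g (π a) a <;> cases h4 : g (π a) b
        · rw [h3, h4] at hne
          exact absurd rfl hne
        · simp
        · simp
        · rw [h3, h4] at hne
          exact absurd rfl hne
      · have hfa : f a = 2 := by
          rw [hf]
          simp only [if_neg hB]
        have hfb : f b = 2 := by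
          rw [hf]
          simp only [hπ, if_neg hB]
        rw [hfa, hfb]
        exact Or.inr ⟨rfl, rfl⟩
    exact_mod_cast this
  · -- light
    intro S hS hS2
    have e1 := main S hS hS2
    have e2 := colM_sum hS π C
    have e3 : ∑ t ∈ S0.image π, ((ds r (cl S π t ∩ C t) : ℝ) + ((cl S π t \ C t).card : ℝ) *
        min (2 * ((cl S π t ∩ C t).card : ℝ)) n) ≤
        ∑ t ∈ S0.image π, (n : ℝ) * (((cl S π t ∩ C t).card : ℝ) + ((cl S π t \ C t).card : ℝ)) := by
      refine Finset.sum_le_sum fun t _ => ?_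
      have a1 := hdc S t
      have a2 := hcn S t
      have a3 : (0 : ℝ) ≤ ((cl S π t ∩ C t).card : ℝ) := Nat.cast_nonneg _
      have a4 : (0 : ℝ) ≤ ((cl S π t \ C t).card : ℝ) := Nat.cast_nonneg _
      have a5 : min (2 * ((cl S π t ∩ C t).card : ℝ)) n ≤ n := min_le_right _ _
      have a6 := mul_le_mul_of_nonneg_left a5 a4
      have a7 := mul_le_mul_of_nonneg_left a2 a3
      nlinarith
    rw [← Finset.mul_sum, e2] at e3
    linarith
  · -- stab
    intro S hS hS2 hnS hst
    have e1 := main S hS hS2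
    have e2 := colM_sum hS π C
    obtain ⟨t, ht, q1, q2⟩ := h2 (S0.image π) (fun t => ((cl S π t ∩ C t).card : ℝ))
      (fun t => ((cl S π t \ C t).card : ℝ)) (fun t => (ds r (cl S π t ∩ C t) : ℝ)) n hn0
      (fun t _ => ⟨Nat.cast_nonneg _, hcn S t, Nat.cast_nonneg _, hdc S t⟩)
      (by rw [e2]; exact_mod_cast hnS)
      (by
        have e3 : ∑ t ∈ S0.image π, ((n : ℝ) * ((cl S π t ∩ C t).card : ℝ) -
              (ds r (cl S π t ∩ C t) : ℝ)) +
            ∑ t ∈ S0.image π, ((cl S π t \ C t).card : ℝ) *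
              ((n : ℝ) - min (2 * ((cl S π t ∩ C t).card : ℝ)) n) =
            (n : ℝ) * ∑ t ∈ S0.image π,
              (((cl S π t ∩ C t).card : ℝ) + ((cl S π t \ C t).card : ℝ)) -
            ∑ t ∈ S0.image π, ((ds r (cl S π t ∩ C t) : ℝ) + ((cl S π t \ C t).card : ℝ) *
              min (2 * ((cl S π t ∩ C t).card : ℝ)) n) := by
          rw [Finset.mul_sum, ← Finset.sum_add_distrib, ← Finset.sum_sub_distrib]
          refine Finset.sum_congr rfl fun t _ => ?_
          ring
        rw [e3, e2]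
        linarith)
    refine ⟨cl S π t ∩ C t, Finset.inter_subset_left.trans (Finset.filter_subset _ _), q1, ?_, q2⟩
    exact (Finset.card_le_card Finset.inter_subset_right).trans (hC1 t)

end Pool.Agent.Lib.MP_22c8c7_co.Odd
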