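import Mathlib
import Pool.Agent.Lib.MP_22c8c7_co.Odd.Basic

/-! The longest odd cycle of length at most `n - 2` (docstring of `MaxOddStmt` in `Odd/Spec.lean`). -/

set_option autoImplicit false

namespace Pool.Agent.Lib.MP_22c8c7_co.Odd

open Finset
open scoped Classical

theorem maxOdd : MaxOddStmt := by
  intro V r S n k hn hk hkn hc hno
  have hP : k % 2 = 1 ∧ k ≤ k ∧ ∃ c, CycIn r S c k := ⟨hk, le_rfl, hc⟩
  have hle : k ≤ n - 2 := by omega
  have hs := Nat.findGreatest_spec (P := fun m => m % 2 = 1 ∧ k ≤ m ∧ ∃ c, CycIn r S c m) hle hP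
  have hb := Nat.findGreatest_le (P := fun m => m % 2 = 1 ∧ k ≤ m ∧ ∃ c, CycIn r S c m) (n - 2)
  set m := Nat.findGreatest (fun m => m % 2 = 1 ∧ k ≤ m ∧ ∃ c, CycIn r S c m) (n - 2) with hm
  obtain ⟨m1, m2, m3⟩ := hs
  refine ⟨m, m1, m2, by omega, m3, ?_⟩
  intro c hcm
  by_cases hmn : m + 2 = n
  · rw [hmn] at hcm
    exact hno c hcm
  · have hle2 : m + 2 ≤ n - 2 := by omega
    have hg := Nat.findGreatest_is_greatest
      (P := fun m => m % 2 = 1 ∧ k ≤ m ∧ ∃ c, CycIn r S c m) (n := n - 2) (k := m + 2)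
      (by rw [← hm]; omega) hle2
    exact hg ⟨by omega, by omega, c, hcm⟩

end Pool.Agent.Lib.MP_22c8c7_co.Odd
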