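import Mathlib
import Pool.Agent.Lib.MP_22c8c7_co.Odd.Basic

set_option autoImplicit false

namespace Pool.Agent.Lib.MP_22c8c7_co.Odd

open Finset
open scoped Classical

/-- Every vertex of `S` is light for some colour. -/
private theorem oneM_light {V : Type} {f : Fin 3 → V → Fin 3} {S : Finset V} (h : Compat f S)
    {v : V} (hv : v ∈ S) : f 0 v = 2 ∨ f 1 v = 2 ∨ f 2 v = 2 := by
  obtain ⟨i, hi⟩ := h v hv v hv
  rw [ok_self_iff] at hi
  fin_cases i
  · exact Or.inl hi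
  · exact Or.inr (Or.inl hi)
  · exact Or.inr (Or.inr hi)

theorem oneM (h1 : Case0Stmt) (h2 : Case1Stmt) (h3 : Case2Stmt) (h4 : Case3Stmt) : OneStmt := by
  intro V n S0 c f S hB
  have hl := fun v (hv : v ∈ S) => oneM_light hB.compat hv
  have n01 : (0 : Fin 3) ≠ 1 := by decide
  have n02 : (0 : Fin 3) ≠ 2 := by decide
  have n12 : (1 : Fin 3) ≠ 2 := by decide
  -- the three singles
  by_cases s0 : ∃ u ∈ S, f 0 u = 2 ∧ f 1 u ≠ 2 ∧ f 2 u ≠ 2
  · by_cases s1 : ∃ u ∈ S, f 1 u = 2 ∧ f 0 u ≠ 2 ∧ f 2 u ≠ 2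
    · have s2 := h4 V n S0 c f S hB s0 s1
      refine ⟨2, h3 V n S0 c f S hB 0 1 2 n01 n02 n12 s0 s1 ?_⟩
      intro u hu h2u
      by_contra hcon
      push Not at hcon
      exact s2 ⟨u, hu, h2u, hcon.1, hcon.2⟩
    · by_cases s2 : ∃ u ∈ S, f 2 u = 2 ∧ f 0 u ≠ 2 ∧ f 1 u ≠ 2
      · refine ⟨1, h3 V n S0 c f S hB 0 2 1 n02 n01 n12.symm ?_ ?_ ?_⟩
        · obtain ⟨u, hu, a, b, d⟩ := s0
          exact ⟨u, hu, a, d, b⟩
        · exact s2
        · intro u hu h2u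
          by_contra hcon
          push Not at hcon
          exact s1 ⟨u, hu, h2u, hcon.1, hcon.2⟩
      · -- only 0
        have e1 : ∀ u ∈ S, f 1 u = 2 → f 2 u = 2 ∨ f 0 u = 2 := by
          intro u hu h2u
          by_contra hcon
          push Not at hcon
          exact s1 ⟨u, hu, h2u, hcon.2, hcon.1⟩
        have e2 : ∀ u ∈ S, f 2 u = 2 → f 1 u = 2 ∨ f 0 u = 2 := by
          intro u hu h2u
          by_contra hcon
          push Not at hcon
          exact s2 ⟨u, hu, h2u, hcon.2, hcon.1⟩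
        rcases h2 V n S0 c f S hB 1 2 0 n12 n01.symm n02.symm s0 e1 e2 with h | h
        · exact ⟨1, h⟩
        · exact ⟨2, h⟩
  · by_cases s1 : ∃ u ∈ S, f 1 u = 2 ∧ f 0 u ≠ 2 ∧ f 2 u ≠ 2
    · by_cases s2 : ∃ u ∈ S, f 2 u = 2 ∧ f 0 u ≠ 2 ∧ f 1 u ≠ 2
      · refine ⟨0, h3 V n S0 c f S hB 1 2 0 n12 n01.symm n02.symm ?_ ?_ ?_⟩
        · obtain ⟨u, hu, a, b, d⟩ := s1
          exact ⟨u, hu, a, d, b⟩
        · obtain ⟨u, hu, a, b, d⟩ := s2
          exact ⟨u, hu, a, d, b⟩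
        · intro u hu h2u
          by_contra hcon
          push Not at hcon
          exact s0 ⟨u, hu, h2u, hcon.1, hcon.2⟩
      · -- only 1
        have e1 : ∀ u ∈ S, f 0 u = 2 → f 2 u = 2 ∨ f 1 u = 2 := by
          intro u hu h2u
          by_contra hcon
          push Not at hcon
          exact s0 ⟨u, hu, h2u, hcon.2, hcon.1⟩
        have e2 : ∀ u ∈ S, f 2 u = 2 → f 0 u = 2 ∨ f 1 u = 2 := by
          intro u hu h2u
          by_contra hcon
          push Not at hcon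
          exact s2 ⟨u, hu, h2u, hcon.1, hcon.2⟩
        rcases h2 V n S0 c f S hB 0 2 1 n02 n01 n12.symm s1 e1 e2 with h | h
        · exact ⟨0, h⟩
        · exact ⟨2, h⟩
    · by_cases s2 : ∃ u ∈ S, f 2 u = 2 ∧ f 0 u ≠ 2 ∧ f 1 u ≠ 2
      · -- only 2
        have e1 : ∀ u ∈ S, f 0 u = 2 → f 1 u = 2 ∨ f 2 u = 2 := by
          intro u hu h2u
          by_contra hcon
          push Not at hcon
          exact s0 ⟨u, hu, h2u, hcon.1, hcon.2⟩
        have e2 : ∀ u ∈ S, f 1 u = 2 → f 0 u = 2 ∨ f 2 u = 2 := by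
          intro u hu h2u
          by_contra hcon
          push Not at hcon
          exact s1 ⟨u, hu, h2u, hcon.1, hcon.2⟩
        rcases h2 V n S0 c f S hB 0 1 2 n01 n02 n12 s2 e1 e2 with h | h
        · exact ⟨0, h⟩
        · exact ⟨1, h⟩
      · -- none
        refine h1 V n S0 c f S hB ?_
        have key : ∀ v ∈ S, (f 0 v = 2 ∨ f 1 v = 2) ∧ (f 0 v = 2 ∨ f 2 v = 2) ∧
            (f 1 v = 2 ∨ f 2 v = 2) := by
          intro v hv
          have h0 : ¬ (f 0 v = 2 ∧ f 1 v ≠ 2 ∧ f 2 v ≠ 2) := fun h => s0 ⟨v, hv, h⟩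
          have h1' : ¬ (f 1 v = 2 ∧ f 0 v ≠ 2 ∧ f 2 v ≠ 2) := fun h => s1 ⟨v, hv, h⟩
          have h2' : ¬ (f 2 v = 2 ∧ f 0 v ≠ 2 ∧ f 1 v ≠ 2) := fun h => s2 ⟨v, hv, h⟩
          have h3' := hl v hv
          tauto
        intro v hv i j hij
        obtain ⟨k1, k2, k3⟩ := key v hv
        fin_cases i <;> fin_cases j <;> first
          | exact absurd rfl hij
          | exact k1
          | exact k2
          | exact k3
          | exact k1.symm
          | exact k2.symm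
          | exact k3.symm

end Pool.Agent.Lib.MP_22c8c7_co.Odd
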